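import Pool.Agent.TBirC.HW
import Pool.Agent.TBirM.STr

/-!
# The bounded functional calculus of the normal part

Paper proof. `M = mf a`. Continuity: off the spectrum of `TM M` `l` is in the resolvent set of `M` (`resolventSet_of_TM`),
the resolvent is continuous there, `TM` is continuous (`exists_TML`). Bound: choose for `w l ≠ 0` (then `l` is not in the
spectrum of `TM M`). `‖∫ w l • TM (resolvent M l)‖ ≤ ‖∫ w l • resolvent M l‖` (`exists_TML`, `integral_comp_comm`; the integrand is
continuous with compact support). For `f`, `g : L2`: `inner g ((∫ w l • resolvent M l) f) = ∫ w l * inner g (resolvent M l f)`.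
For `w l ≠ 0` `l - a` is bounded below almost everywhere (`mf` of `l - a x` is `algebraMap l - M`, a unit;
`ae_ge_of_isUnit`, `isUnit_mf`), and `resolvent M l f = f x / (l - a x)` almost everywhere, so
`inner g (resolvent M l f) = ∫ conj (g x) * f x / (l - a x) dx`. Fubini (`w` is bounded with compact support and
`∫ 1 / ‖l - a x‖` over a ball of radius `R` is at most `6 pi R`, see `bound_div` in TBirE/PFub.lean and `integrable_div`; take a measurable
representative of `a`): the integral is `∫ conj (g x) * f x * (∫ w l / (l - a x) dl) dx`, at most `C ‖f‖ ‖g‖`.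
-/

set_option autoImplicit false

open MeasureTheory Complex Set Filter Topology Metric AddCircle
open scoped ComplexConjugate InnerProductSpace ENNReal

namespace Pool.Agent.TBirC

open Pool.Agent.TBir
open Pool.Agent.TBirM (integrable_div)

/-- The integral of the norm of the Cauchy kernel against a continuous function with compact support. -/
private theorem bound_div {b : ℂ → ℂ} (hb : Continuous b) (hbc : HasCompactSupport b) :
    ∃ C : ℝ, 0 ≤ C ∧ ∀ l, ∫ l', ‖b l' / (l' - l)‖ ≤ C := by
  obtain ⟨B, hB⟩ := hbc.exists_bound_of_continuous hb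
  have hB0 : 0 ≤ B := (norm_nonneg _).trans (hB 0)
  obtain ⟨R, hR, hsub⟩ : ∃ R, 0 < R ∧ tsupport b ⊆ closedBall (0 : ℂ) R := by
    obtain ⟨R, hR⟩ := hbc.isCompact.isBounded.subset_closedBall 0
    exact ⟨max R 1, by positivity, hR.trans (closedBall_subset_closedBall (le_max_left _ _))⟩
  refine ⟨B * (6 * Real.pi * R), by positivity, fun l => ?_⟩
  have h1 : ∀ l', ‖b l' / (l' - l)‖ₑ ≤ (closedBall (0 : ℂ) R).indicator
      (fun l' => ENNReal.ofReal B * ENNReal.ofReal (1 / ‖l' - l‖)) l' := by
    intro l'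
    by_cases hl : l' ∈ closedBall (0 : ℂ) R
    · rw [Set.indicator_of_mem hl, ← ofReal_norm, norm_div, div_eq_mul_one_div,
        ENNReal.ofReal_mul (norm_nonneg _)]
      gcongr
      exact hB l'
    · have h2 : b l' = 0 := image_eq_zero_of_notMem_tsupport fun h => hl (hsub h)
      rw [Set.indicator_of_notMem hl, h2, zero_div, enorm_zero]
  rw [integral_norm_eq_lintegral_enorm (integrable_div hb hbc l).aestronglyMeasurable]
  refine ENNReal.toReal_le_of_le_ofReal (by positivity) ?_
  calc ∫⁻ l', ‖b l' / (l' - l)‖ₑ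
      ≤ ∫⁻ l', (closedBall (0 : ℂ) R).indicator
        (fun l' => ENNReal.ofReal B * ENNReal.ofReal (1 / ‖l' - l‖)) l' := lintegral_mono h1
    _ = ENNReal.ofReal B * ∫⁻ l' in closedBall (0 : ℂ) R, ENNReal.ofReal (1 / ‖l' - l‖) := by
      rw [lintegral_indicator measurableSet_closedBall, lintegral_const_mul']
      exact ENNReal.ofReal_ne_top
    _ ≤ ENNReal.ofReal B * ENNReal.ofReal (6 * Real.pi * R) := by
      gcongr
      exact lintegral_inv_ball_le 0 l hR
    _ = ENNReal.ofReal (B * (6 * Real.pi * R)) := (ENNReal.ofReal_mul hB0).symm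

/-- The resolvent of a multiplication operator. -/
private theorem res_mf {a : UnitAddCircle → ℂ} (ha : MemLp a ∞ mu0) {l : ℂ}
    (hl : l ∈ resolventSet ℂ (mf a)) :
    MemLp (fun x => (l - a x)⁻¹) ∞ mu0 ∧ resolvent (mf a) l = mf (fun x => (l - a x)⁻¹) := by
  have h1 : MemLp (fun x => l - a x) ∞ mu0 := (memLp_const l).sub ha
  have h2 : mf (fun x => l - a x) = algebraMap ℂ Op2 l - mf a := by
    rw [← mf_const l]
    exact mf_sub (memLp_const l) ha
  have h3 : IsUnit (mf fun x => l - a x) := by
    rw [h2]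
    exact hl
  obtain ⟨c, hc, h4⟩ := ae_ge_of_isUnit h1 h3
  refine ⟨?_, ?_⟩
  · refine memLp_top_of_bound h1.aestronglyMeasurable.inv₀ c⁻¹ (h4.mono fun x hx => ?_)
    rw [norm_inv]
    exact inv_anti₀ hc hx
  · change Ring.inverse (algebraMap ℂ Op2 l - mf a) = _
    rw [← h2]
    exact (isUnit_mf h1 hc h4).2.1

private theorem inner_mf {s : UnitAddCircle → ℂ} (hs : MemLp s ∞ mu0) (f g : L2) :
    inner ℂ g (mf s f) = ∫ x, s x * inner ℂ ((g : UnitAddCircle → ℂ) x) ((f : UnitAddCircle → ℂ) x)
      ∂mu0 := by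
  rw [L2.inner_def]
  refine integral_congr_ae ((mf_coe hs f).mono fun x hx => ?_)
  change inner ℂ _ ((mf s f : UnitAddCircle → ℂ) x) = _
  rw [hx]
  change inner ℂ _ (s x • (f : UnitAddCircle → ℂ) x) = s x * _
  rw [inner_smul_right]

private theorem norm_le_of_inner2 {A : Op2} {C : ℝ} (hC : 0 ≤ C)
    (h : ∀ f g : L2, ‖inner ℂ g (A f)‖ ≤ C * ‖f‖ * ‖g‖) : ‖A‖ ≤ C := by
  refine ContinuousLinearMap.opNorm_le_bound _ hC fun f => ?_
  have h3 := h f (A f)
  generalize A f = y at h3 ⊢
  rw [inner_self_eq_norm_sq_to_K] at h3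
  have h4 : ‖((‖y‖ : ℂ)) ^ 2‖ = ‖y‖ ^ 2 := by
    rw [norm_pow, Complex.norm_real, norm_norm]
  have h5 : ‖y‖ ^ 2 ≤ C * ‖f‖ * ‖y‖ := by
    rw [← h4]
    exact h3
  rcases (norm_nonneg y).eq_or_lt with h6 | h6
  · rw [← h6]
    positivity
  · nlinarith

/-- The bound for the multiplication operators. -/
private theorem int_res_le {a : UnitAddCircle → ℂ} (ha : MemLp a ∞ mu0) (hm : Measurable a)
    {C : ℝ} (hC : 0 ≤ C) {w : ℂ → ℂ} (cw : Continuous w) (sw : HasCompactSupport w)
    (hw : ∀ l, w l ≠ 0 → l ∈ resolventSet ℂ (mf a))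
    (hi : Integrable fun l => w l • resolvent (mf a) l)
    (hb : ∀ mu : ℂ, ‖∫ l, w l / (l - mu)‖ ≤ C) : ‖∫ l, w l • resolvent (mf a) l‖ ≤ C := by
  -- the scalar function
  have ms : StronglyMeasurable fun x => ∫ l, w l / (l - a x) := by
    have h1 : Measurable fun p : UnitAddCircle × ℂ => w p.2 / (p.2 - a p.1) :=
      (cw.measurable.comp measurable_snd).div (measurable_snd.sub (hm.comp measurable_fst))
    exact h1.stronglyMeasurable.integral_prod_right
  have hs : MemLp (fun x => ∫ l, w l / (l - a x)) ∞ mu0 :=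
    memLp_top_of_bound ms.aestronglyMeasurable C (Eventually.of_forall fun x => hb (a x))
  have hsn : ‖mf (fun x => ∫ l, w l / (l - a x))‖ ≤ C :=
    norm_mf_le hC (Eventually.of_forall fun x => hb (a x))
  refine norm_le_of_inner2 hC fun f g => ?_
  set k : UnitAddCircle → ℂ :=
    fun x => inner ℂ ((g : UnitAddCircle → ℂ) x) ((f : UnitAddCircle → ℂ) x) with hk
  have ik : Integrable k mu0 := L2.integrable_inner g f
  have mk : Measurable k :=
    ((Lp.stronglyMeasurable g).inner (Lp.stronglyMeasurable f)).measurable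
  -- the inner product
  have h5 := ((innerSL ℂ g).comp (ContinuousLinearMap.apply ℂ L2 f)).integral_comp_comm hi
  have h6 : ((innerSL ℂ g).comp (ContinuousLinearMap.apply ℂ L2 f))
      (∫ l : ℂ, w l • resolvent (mf a) l) = inner ℂ g ((∫ l : ℂ, w l • resolvent (mf a) l) f) := rfl
  have h7 : ∀ l, ((innerSL ℂ g).comp (ContinuousLinearMap.apply ℂ L2 f))
      (w l • resolvent (mf a) l) = ∫ x, w l / (l - a x) * k x ∂mu0 := by
    intro l
    rw [map_smul]
    change w l * inner ℂ g (resolvent (mf a) l f) = _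
    by_cases hl : w l = 0
    · simp [hl]
    · obtain ⟨h8, h9⟩ := res_mf ha (hw l hl)
      rw [h9, inner_mf h8, ← integral_const_mul]
      refine integral_congr_ae (Eventually.of_forall fun x => ?_)
      change w l * ((l - a x)⁻¹ * k x) = w l / (l - a x) * k x
      rw [div_eq_mul_inv]
      ring
  rw [h6] at h5
  simp only [h7] at h5
  -- Fubini
  obtain ⟨D, hD, hDb⟩ := bound_div cw sw
  have hM : Measurable fun p : ℂ × UnitAddCircle => w p.1 / (p.1 - a p.2) * k p.2 :=
    ((cw.measurable.comp measurable_fst).div (measurable_fst.sub (hm.comp measurable_snd))).mul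
      (mk.comp measurable_snd)
  have hI : Integrable (fun p : ℂ × UnitAddCircle => w p.1 / (p.1 - a p.2) * k p.2)
      ((volume : Measure ℂ).prod mu0) := by
    rw [integrable_prod_iff' hM.aestronglyMeasurable]
    refine ⟨Eventually.of_forall fun x => (integrable_div cw sw (a x)).mul_const (k x), ?_⟩
    refine (ik.norm.const_mul D).mono' ?_ (Eventually.of_forall fun x => ?_)
    · exact hM.aestronglyMeasurable.norm.prod_swap.integral_prod_right'
    · have h8 : ∀ l, ‖w l / (l - a x) * k x‖ = ‖w l / (l - a x)‖ * ‖k x‖ := fun l => norm_mul _ _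
      simp only [h8]
      rw [integral_mul_const, Real.norm_eq_abs, abs_mul, abs_norm,
        abs_of_nonneg (integral_nonneg fun _ => norm_nonneg _)]
      exact mul_le_mul_of_nonneg_right (hDb (a x)) (norm_nonneg _)
  have h10 : ∫ l, ∫ x, w l / (l - a x) * k x ∂mu0 = inner ℂ g (mf (fun x => ∫ l, w l / (l - a x)) f) := by
    rw [integral_integral_swap hI, inner_mf hs]
    refine integral_congr_ae (Eventually.of_forall fun x => ?_)
    change ∫ l, w l / (l - a x) * k x = (∫ l, w l / (l - a x)) * k x
    exact integral_mul_const _ _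
  rw [← h5, h10]
  refine (norm_inner_le_norm _ _).trans ?_
  have h11 := (mf (fun x => ∫ l, w l / (l - a x))).le_of_opNorm_le hsn f
  calc ‖g‖ * ‖mf (fun x => ∫ l, w l / (l - a x)) f‖ ≤ ‖g‖ * (C * ‖f‖) :=
        mul_le_mul_of_nonneg_left h11 (norm_nonneg _)
    _ = C * ‖f‖ * ‖g‖ := by ring

theorem bfc_mf {a : UnitAddCircle → ℂ} (ha : MemLp a ∞ mu0) :
    Bfc (TM (mf a)) (fun l => TM (resolvent (mf a) l)) := by
  -- a measurable representative
  wlog hm : Measurable a generalizing a with H
  · obtain ⟨b, hb, hab⟩ := ha.aestronglyMeasurable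
    rw [mf_congr hab]
    exact H (ha.ae_eq hab) hb.measurable
  obtain ⟨L, hL⟩ := exists_TML
  have hr : ∀ l, l ∉ spectrum ℂ (TM (mf a)) → l ∈ resolventSet ℂ (mf a) := fun l hl =>
    resolventSet_of_TM (Cm.mf a) hl
  have hc : ∀ l, l ∉ spectrum ℂ (TM (mf a)) → ContinuousAt (resolvent (mf a)) l := fun l hl =>
    (spectrum.hasDerivAt_resolvent_const_left (hr l hl)).continuousAt
  refine ⟨fun l hl => ?_, ?_⟩
  · have h1 : ContinuousAt (fun l => L (resolvent (mf a) l)) l :=
      L.continuous.continuousAt.comp (hc l hl)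
    simp only [hL] at h1
    exact h1.continuousWithinAt
  · intro C hC w cw sw hw hb
    have h0 : ∀ l, w l ≠ 0 → l ∉ spectrum ℂ (TM (mf a)) := fun l hl hs => hl (hw l hs).self_of_nhds
    have h1 : Continuous fun l => w l • resolvent (mf a) l := by
      rw [continuous_iff_continuousAt]
      intro l
      by_cases hl : l ∈ spectrum ℂ (TM (mf a))
      · have h2 : (fun l => w l • resolvent (mf a) l) =ᶠ[𝓝 l] fun _ => 0 :=
          (hw l hl).mono fun l' h3 => by
            change w l' • resolvent (mf a) l' = 0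
            rw [h3, zero_smul]
        exact continuousAt_const.congr h2.symm
      · exact cw.continuousAt.smul (hc l hl)
    have hi : Integrable fun l => w l • resolvent (mf a) l :=
      h1.integrable_of_hasCompactSupport sw.smul_right
    have h4 : ∫ l, w l • TM (resolvent (mf a) l) = L (∫ l, w l • resolvent (mf a) l) := by
      rw [← L.integral_comp_comm hi]
      refine integral_congr_ae (Eventually.of_forall fun l => ?_)
      change w l • TM (resolvent (mf a) l) = L (w l • resolvent (mf a) l)
      rw [map_smul, hL]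
    rw [h4, hL]
    exact (norm_TM_le _).trans (int_res_le ha hm hC cw sw (fun l hl => hr l (h0 l hl)) hi hb)

end Pool.Agent.TBirC
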