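import Pool.Agent.TBirC.Def
import Pool.Agent.TBir.LocInv

/-!
# Existence of the branches

Paper proof. `phi` is analytic at `t j` with nonzero derivative: local inverse (`loc_inv`), `g j` differentiable on a
ball around `q`, `g j q = t j`, `phi (g j l) = l`. One radius for the finitely many `j`.
-/

set_option autoImplicit false

open MeasureTheory Complex Set Filter Topology Metric AddCircle
open scoped ComplexConjugate InnerProductSpace ENNReal

namespace Pool.Agent.TBirC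

open Pool.Agent.TBir

theorem exists_Br {phi : ℂ → ℂ} {q : ℂ} {k : ℕ} {t : Fin k → ℂ} (ht : Function.Injective t)
    (h : ∀ j, ‖t j‖ = 1 ∧ AnalyticAt ℂ phi (t j) ∧ phi (t j) = q ∧ deriv phi (t j) ≠ 0) :
    ∃ (B : Br phi q) (hk : B.k = k), ∀ j : Fin B.k, B.g j q = t (Fin.cast hk j) := by
  have hloc : ∀ j, ∃ r : ℝ, ∃ z : ℂ → ℂ, 0 < r ∧ DifferentiableOn ℂ z (ball q r) ∧ z q = t j ∧
      ∀ l ∈ ball q r, phi (z l) = l := by
    intro j
    obtain ⟨h1, h2, h3, h4⟩ := h j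
    obtain ⟨s, r, z, hs, hss, hr, -, h5, h6, -, h7, -⟩ := loc_inv h2 h4 one_pos
    rw [h3] at h5 h6 h7
    exact ⟨r, z, hr, h5, h6, fun l hl => (h7 l hl).2⟩
  choose r g hr hg1 hg2 hg3 using hloc
  obtain ⟨r0, hr0, hr0'⟩ : ∃ r0 : ℝ, 0 < r0 ∧ ∀ j, r0 ≤ r j := by
    rcases isEmpty_or_nonempty (Fin k) with he | he
    · exact ⟨1, one_pos, fun j => he.elim j⟩
    · obtain ⟨j0, hj0⟩ := Finite.exists_min r
      exact ⟨r j0, hr j0, hj0⟩
  have hsub : ∀ j, ball q r0 ⊆ ball q (r j) := fun j => ball_subset_ball (hr0' j)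
  refine ⟨⟨r0, k, g, hr0, fun j => (hg1 j).mono (hsub j), fun j => ?_, fun i j hij hc => ?_,
    fun j l hl => hg3 j l (hsub j hl), fun j => ?_⟩, rfl, fun j => ?_⟩
  · rw [hg2 j]; exact (h j).1
  · rw [hg2 i, hg2 j] at hc
    exact hij (ht hc)
  · rw [hg2 j]; exact (h j).2.1
  · exact hg2 j

end Pool.Agent.TBirC
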