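import Pool.Agent.TBirC.Ord

/-!
# The branches tangent to a direction, sorted, and their colours

Paper proof. `W = Tri q u eta rho`, fibres as in the head comment of TBirE/Ord. `W ⊆ ball q B.R`.
(c1) Let `Rl i j` mean `∀ l ∈ W, 0 ≤ E j l → 0 ≤ E i l`: reflexive, transitive, and total on the tangent branches by `hord`
(`Tie` and `Below i j` imply `Rl i j`). Sort the list of the tangent branches by `Rl` (`List.insertionSort`, sortedness
needs only a total and transitive relation; work on the subtype of tangent branches or sort with a decidable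
relation by `Classical`), `m` = its length, `r a` = the `a`-th element. If `a < b` then `Rl (r a) (r b)`; `Below (r b) (r a)` is
impossible then, since there is `l ∈ W` with `E (r b) l = 0` (intermediate value theorem on a fibre) and there
`E (r a) l < 0`. So (c1) by `hord`.
(c3) Colours. `E i l = 0` implies `‖g i l‖ = 1`, `l = phi (g i l) ∈ J phi ⊆ S`. Two points `l1`, `l2 ∈ W` with `E i = 0`:
`l1 = phi (g i q * exp (y1 I))`, `l2 = ...y2` with `y1`, `y2` of the same sign; join them by the path of the zeros of `E i` on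
the fibres `t` between `t1` and `t2`: this set `{l ∈ W | E i l = 0, t1 ≤ t ≤ t2}` is preconnected: it is the image of
`[t1, t2]` under the map `t ↦` zero of `E i` on the fibre, which is continuous (strict monotonicity; implicit
function), or: use that `{l ∈ W | E i l = 0}` is the image of an interval under `y ↦ phi (g i q * exp (y I))` if `t` is
monotone along this path (for small `rho`, you may use that, but `rho` is given; the fibre argument works for
every `rho`). It is contained in `S`, so in `U1 ∪ U2`, so in `U1` or in `U2`.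
Put `kap a = 1` if `{E (r a) = 0} ∩ W ⊆ U1` and `0` otherwise. (c2) is clear, as tied branches are equal in `W`.
(c4) Let `l ∈ W ∩ S`, `0 < E (r a) l`, `E (r b) l < 0`, `b = a + 1`. The points `l'` of the fibre between `l_a` (the zero of
`E (r a)`) and `l` have `0 ≤ E (r a)`, `E (r b) < 0`. By (c1) for every tangent branch `j` the sign of `E j` is constant on
`(l_a, l]`, and positive or negative there (never `0`: if `E j l' = 0`, `j = r c`, then `c ≤ a` gives `0 < E j l'` and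
`b ≤ c` gives `E j l' < 0`); the other branches have constant sign on `W` by `TG`. So no point of `(l_a, l]` is in
`J phi` (if `phi z = l'`, `‖z‖ = 1`, then `z = g j l'` for some `j`, `(L j l').re = 0`), the winding number is constant there by
`wd_eq`, equal to that of `l`, not `0`. So the segment `[l_a, l]` is contained in `S ∩ W ⊆ U1 ∪ U2`; being connected it
is in one of them, that of `l_a`. The same upwards with the zero of `E (r b)`: it has the same colour. (c5), (c6): the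
same argument, upwards from `l` to the zero of `E (r 0)`, downwards to the zero of the last one.
-/

set_option autoImplicit false

open MeasureTheory Complex Set Filter Topology Metric AddCircle
open scoped ComplexConjugate InnerProductSpace ENNReal

namespace Pool.Agent.TBirC

open Pool.Agent.TBirE

open Pool.Agent.TBir Pool.Agent.TBirG
open Pool.Agent.TBirM (Tri)
open Pool.Agent.TBirS (Sg)

/-- The point with coordinates `t`, `s`. -/
private noncomputable def Pt (q u : ℂ) (t s : ℝ) : ℂ := q + ((t : ℂ) + (s : ℂ) * I) * u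

private theorem uu {u : ℂ} (hu : ‖u‖ = 1) : u * conj u = 1 := by
  rw [Complex.mul_conj, Complex.normSq_eq_norm_sq, hu]; simp

private theorem Pt_coord {q u : ℂ} (hu : ‖u‖ = 1) (t s : ℝ) :
    (Pt q u t s - q) * conj u = (t : ℂ) + (s : ℂ) * I := by
  unfold Pt
  rw [add_sub_cancel_left, mul_assoc, uu hu, mul_one]

private theorem Pt_re {q u : ℂ} (hu : ‖u‖ = 1) (t s : ℝ) : ((Pt q u t s - q) * conj u).re = t := by
  rw [Pt_coord hu]; simp

private theorem Pt_im {q u : ℂ} (hu : ‖u‖ = 1) (t s : ℝ) : ((Pt q u t s - q) * conj u).im = s := by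
  rw [Pt_coord hu]; simp

private theorem Pt_mem {q u : ℂ} (hu : ‖u‖ = 1) {eta rho t s : ℝ} :
    Pt q u t s ∈ Tri q u eta rho ↔ |s| < eta * t ∧ t < rho := by
  unfold Tri
  rw [Set.mem_ofPred_eq, Pt_re hu, Pt_im hu]

private theorem Pt_eq {q u : ℂ} (hu : ‖u‖ = 1) (l : ℂ) :
    Pt q u ((l - q) * conj u).re ((l - q) * conj u).im = l := by
  unfold Pt
  rw [Complex.re_add_im, mul_assoc, mul_comm (conj u) u, uu hu, mul_one]
  ring

private theorem Pt_cont (q u : ℂ) : Continuous fun p : ℝ × ℝ => Pt q u p.1 p.2 := by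
  unfold Pt
  fun_prop

private theorem Pt_cont1 (q u : ℂ) (s : ℝ) : Continuous fun t : ℝ => Pt q u t s := by
  unfold Pt
  fun_prop

private theorem Pt_cont2 (q u : ℂ) (t : ℝ) : Continuous fun s : ℝ => Pt q u t s := by
  unfold Pt
  fun_prop

private theorem Tri_open (q u : ℂ) (eta rho : ℝ) : IsOpen (Tri q u eta rho) := by
  have h1 : Continuous fun l : ℂ => ((l - q) * conj u).re := Complex.continuous_re.comp (by fun_prop)
  have h2 : Continuous fun l : ℂ => ((l - q) * conj u).im := Complex.continuous_im.comp (by fun_prop)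
  have h3 : Tri q u eta rho = {l | |((l - q) * conj u).im| < eta * ((l - q) * conj u).re} ∩
      {l | ((l - q) * conj u).re < rho} := rfl
  rw [h3]
  exact (isOpen_lt h2.abs (continuous_const.mul h1)).inter (isOpen_lt h1 continuous_const)

private structure Dat {phi : ℂ → ℂ} {q : ℂ} (B : Br phi q) (u : ℂ) (eta rho : ℝ) : Prop where
  hu : ‖u‖ = 1
  he : 0 < eta
  hrho : 0 < rho
  cont : ∀ j, ContinuousOn (B.E u j) (Tri q u eta rho)
  mono : ∀ j, (B.a j * u).re = 0 → ∀ t s1 s2, Pt q u t s1 ∈ Tri q u eta rho →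
    Pt q u t s2 ∈ Tri q u eta rho → s1 < s2 → B.E u j (Pt q u t s1) < B.E u j (Pt q u t s2)
  pos : ∀ j, (B.a j * u).re = 0 → ∀ t, 0 < t → t < rho → 0 < B.E u j (Pt q u t (eta / 2 * t))
  neg : ∀ j, (B.a j * u).re = 0 → ∀ t, 0 < t → t < rho → B.E u j (Pt q u t (-(eta / 2 * t))) < 0
  ntan : ∀ j, (B.a j * u).re ≠ 0 → (∀ l ∈ Tri q u eta rho, 0 < (B.L j l).re) ∨
    ∀ l ∈ Tri q u eta rho, (B.L j l).re < 0
  gre : ∀ j, ∀ l ∈ Tri q u eta rho, (‖B.g j l‖ < 1 ↔ (B.L j l).re < 0) ∧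
    (‖B.g j l‖ = 1 ↔ (B.L j l).re = 0)
  sub : Tri q u eta rho ⊆ ball q B.R

private theorem Pt_hasDerivAt (q u : ℂ) (t s : ℝ) : HasDerivAt (fun s : ℝ => Pt q u t s) (I * u) s := by
  have h1 : HasDerivAt (fun s : ℝ => (s : ℂ)) 1 s := by
    simpa using (hasDerivAt_id s).ofReal_comp
  have h2 := (((h1.mul_const I).const_add (t : ℂ)).mul_const u).const_add q
  rw [one_mul] at h2
  exact h2

private theorem E_eq {phi : ℂ → ℂ} {q : ℂ} (B : Br phi q) (u : ℂ) (j : Fin B.k) :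
    B.E u j = (fun l => (B.L j l).re) ∨ B.E u j = fun l => -(B.L j l).re := by
  by_cases h : (B.a j * u).im < 0
  · left
    funext l
    exact if_pos h
  · right
    funext l
    exact if_neg h

private theorem tri_bd {q u l : ℂ} {eta rho : ℝ} (hu : ‖u‖ = 1) (he0 : 0 < eta) (he : eta ≤ 1)
    (hl : l ∈ Tri q u eta rho) : 0 < ‖l - q‖ ∧ ‖l - q‖ < 2 * rho := by
  have h1 := hl.1
  have h1' := hl.2
  set t := ((l - q) * conj u).re with ht
  set s := ((l - q) * conj u).im with hs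
  have h2 : 0 ≤ |s| := abs_nonneg s
  have h3 : 0 < t := by
    by_contra h
    push Not at h
    nlinarith
  have h4 : ‖l - q‖ = ‖(l - q) * conj u‖ := by
    rw [norm_mul, RCLike.norm_conj, hu, mul_one]
  constructor
  · rw [h4]
    have h5 := (le_abs_self _).trans (Complex.abs_re_le_norm ((l - q) * conj u))
    exact h3.trans_le h5
  · rw [h4]
    have h6 := Complex.norm_le_abs_re_add_abs_im ((l - q) * conj u)
    have h5 : |((l - q) * conj u).re| = t := abs_of_pos h3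
    rw [h5] at h6
    have h7 : |((l - q) * conj u).im| = |s| := rfl
    rw [h7] at h6
    nlinarith

private theorem mkDat {phi : ℂ → ℂ} {q : ℂ} (B : Br phi q)
    {u : ℂ} (hu : ‖u‖ = 1) {eta rho kap K r0 : ℝ}
    (h : B.TG u eta rho kap K)
    (hr0 : ∀ j, AnalyticOnNhd ℂ (B.L j) (ball q r0) ∧ ∀ l ∈ ball q r0,
      B.g j l = B.g j q * Complex.exp (B.L j l) ∧ (‖B.g j l‖ < 1 ↔ (B.L j l).re < 0) ∧
      (‖B.g j l‖ = 1 ↔ (B.L j l).re = 0)) (hrr : 2 * rho ≤ r0) (hrR : r0 ≤ B.R) :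
    Dat B u eta rho := by
  obtain ⟨he, he1, hrho, hkap, hK, hnt, htan⟩ := h
  have hWb : Tri q u eta rho ⊆ ball q r0 := by
    intro l hl
    rw [mem_ball, dist_eq_norm]
    have := (tri_bd hu he he1 hl).2
    linarith
  have hdiff : ∀ j, ∀ l ∈ Tri q u eta rho, DifferentiableAt ℝ (B.E u j) l := by
    intro j l hl
    have h1 : DifferentiableAt ℂ (B.L j) l := ((hr0 j).1 l (hWb hl)).differentiableAt
    have h2 : DifferentiableAt ℝ (fun l => (B.L j l).re) l :=
      Complex.reCLM.differentiableAt.comp l (h1.restrictScalars ℝ)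
    rcases E_eq B u j with h | h
    · rw [h]; exact h2
    · rw [h]; exact h2.neg
  have hcont : ∀ j, ContinuousOn (B.E u j) (Tri q u eta rho) := fun j l hl =>
    (hdiff j l hl).continuousAt.continuousWithinAt
  have hmem0 : ∀ t, 0 < t → t < rho → ∀ s, |s| ≤ eta / 2 * t → Pt q u t s ∈ Tri q u eta rho := by
    intro t h0 h1 s hs
    rw [Pt_mem hu]
    refine ⟨lt_of_le_of_lt hs ?_, h1⟩
    nlinarith
  refine ⟨hu, he, hrho, hcont, ?_, ?_, ?_, ?_, ?_, hWb.trans (ball_subset_ball hrR)⟩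
  · intro j hj t s1 s2 h1 h2 h12
    have hmem : ∀ s ∈ Ioo (-(eta * t)) (eta * t), Pt q u t s ∈ Tri q u eta rho := by
      intro s hs
      rw [Pt_mem hu]
      exact ⟨abs_lt.2 hs, ((Pt_mem hu).1 h1).2⟩
    have hder : ∀ s ∈ Ioo (-(eta * t)) (eta * t), HasDerivAt (fun s => B.E u j (Pt q u t s))
        (fderiv ℝ (B.E u j) (Pt q u t s) (I * u)) s := by
      intro s hs
      exact (hdiff j _ (hmem s hs)).hasFDerivAt.comp_hasDerivAt s (Pt_hasDerivAt q u t s)
    have hmono : StrictMonoOn (fun s => B.E u j (Pt q u t s)) (Ioo (-(eta * t)) (eta * t)) := by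
      refine strictMonoOn_of_deriv_pos (convex_Ioo _ _)
        (fun s hs => (hder s hs).continuousAt.continuousWithinAt) ?_
      intro s hs
      rw [interior_Ioo] at hs
      rw [(hder s hs).deriv]
      exact hkap.trans_le (htan j hj _ (hmem s hs)).1
    exact hmono (abs_lt.1 ((Pt_mem hu).1 h1).1) (abs_lt.1 ((Pt_mem hu).1 h2).1) h12
  · intro j hj t h0 h1
    have hp : 0 ≤ eta / 2 * t := by positivity
    have h2 := (htan j hj _ (hmem0 t h0 h1 (eta / 2 * t) (by rw [abs_of_nonneg hp]))).2.2.2.2.2.1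
    rw [Pt_re hu, Pt_im hu] at h2
    exact h2 le_rfl
  · intro j hj t h0 h1
    have hp : 0 ≤ eta / 2 * t := by positivity
    have h2 := (htan j hj _ (hmem0 t h0 h1 (-(eta / 2 * t))
      (by rw [abs_neg, abs_of_nonneg hp]))).2.2.2.2.2.2
    rw [Pt_re hu, Pt_im hu] at h2
    exact h2 le_rfl
  · intro j hj
    rcases hnt j hj with h | h
    · left
      intro l hl
      have h1 := h l hl
      have h2 := mul_pos hkap (tri_bd hu he he1 hl).1
      linarith
    · right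
      intro l hl
      have h1 := h l hl
      have h2 := mul_pos hkap (tri_bd hu he he1 hl).1
      linarith
  · intro j l hl
    exact ((hr0 j).2 l (hWb hl)).2

section
variable {phi : ℂ → ℂ} {q : ℂ} {B : Br phi q} {u : ℂ} {eta rho : ℝ}

private theorem Dat.tpos (H : Dat B u eta rho) {t s : ℝ} (h : Pt q u t s ∈ Tri q u eta rho) : 0 < t := by
  have h1 := ((Pt_mem H.hu).1 h).1
  have h2 := abs_nonneg s
  by_contra hc
  push Not at hc
  have := H.he
  nlinarith

private theorem Dat.zero_ex (H : Dat B u eta rho) {j : Fin B.k} (hj : (B.a j * u).re = 0) {t : ℝ}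
    (h0 : 0 < t) (h1 : t < rho) : ∃ s, Pt q u t s ∈ Tri q u eta rho ∧ B.E u j (Pt q u t s) = 0 := by
  have hp : 0 ≤ eta / 2 * t := by have := H.he; positivity
  have hmem : ∀ s ∈ Icc (-(eta / 2 * t)) (eta / 2 * t), Pt q u t s ∈ Tri q u eta rho := by
    intro s hs
    rw [Pt_mem H.hu]
    refine ⟨lt_of_le_of_lt (abs_le.2 hs) ?_, h1⟩
    have := H.he
    nlinarith
  have hc : ContinuousOn (fun s => B.E u j (Pt q u t s)) (Icc (-(eta / 2 * t)) (eta / 2 * t)) :=
    (H.cont j).comp (Pt_cont2 q u t).continuousOn hmem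
  have h2 := intermediate_value_Icc (by linarith) hc
  obtain ⟨s, hs, hs0⟩ := h2 (show (0 : ℝ) ∈ Icc _ _ from ⟨(H.neg j hj t h0 h1).le, (H.pos j hj t h0 h1).le⟩)
  exact ⟨s, hmem s hs, hs0⟩

private theorem Dat.zero_conn (H : Dat B u eta rho) {j : Fin B.k} (hj : (B.a j * u).re = 0) :
    IsPreconnected {l | l ∈ Tri q u eta rho ∧ B.E u j l = 0} := by
  have hz : ∀ t, 0 < t → t < rho → ∃ s, Pt q u t s ∈ Tri q u eta rho ∧ B.E u j (Pt q u t s) = 0 :=
    fun t h0 h1 => H.zero_ex hj h0 h1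
  choose! sg hsg using hz
  have hset : {l | l ∈ Tri q u eta rho ∧ B.E u j l = 0} = (fun t => Pt q u t (sg t)) '' Ioo 0 rho := by
    ext l
    constructor
    · rintro ⟨hl, hl0⟩
      have e := Pt_eq (q := q) H.hu l
      set t := ((l - q) * conj u).re
      set s := ((l - q) * conj u).im
      rw [← e] at hl hl0
      have ht0 := H.tpos hl
      have ht1 := ((Pt_mem H.hu).1 hl).2
      obtain ⟨h3, h4⟩ := hsg t ht0 ht1
      refine ⟨t, ⟨ht0, ht1⟩, ?_⟩
      have : sg t = s := by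
        rcases lt_trichotomy (sg t) s with h5 | h5 | h5
        · have := H.mono j hj t _ _ h3 hl h5
          rw [h4, hl0] at this
          exact absurd this (lt_irrefl _)
        · exact h5
        · have := H.mono j hj t _ _ hl h3 h5
          rw [h4, hl0] at this
          exact absurd this (lt_irrefl _)
      change Pt q u t (sg t) = l
      rw [this, e]
    · rintro ⟨t, ⟨ht0, ht1⟩, rfl⟩
      exact hsg t ht0 ht1
  rw [hset]
  refine isPreconnected_Ioo.image _ ?_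
  have hcont : ContinuousOn sg (Ioo 0 rho) := by
    intro t0 ht0
    apply ContinuousAt.continuousWithinAt
    obtain ⟨h3, h4⟩ := hsg t0 ht0.1 ht0.2
    have h5 := abs_lt.1 ((Pt_mem H.hu).1 h3).1
    have hEc : ∀ a', Pt q u t0 a' ∈ Tri q u eta rho → ContinuousAt (fun t => B.E u j (Pt q u t a')) t0 := by
      intro a' ha'
      have h6 : ContinuousAt (B.E u j) (Pt q u t0 a') :=
        (H.cont j).continuousAt ((Tri_open q u eta rho).mem_nhds ha')
      exact ContinuousAt.comp (f := fun t => Pt q u t a') h6 (Pt_cont1 q u a').continuousAt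
    have hWc : ∀ a', Pt q u t0 a' ∈ Tri q u eta rho → ∀ᶠ t in 𝓝 t0, Pt q u t a' ∈ Tri q u eta rho :=
      fun a' ha' => (Pt_cont1 q u a').continuousAt.eventually ((Tri_open q u eta rho).mem_nhds ha')
    have hI : ∀ᶠ t in 𝓝 t0, t ∈ Ioo 0 rho := isOpen_Ioo.mem_nhds ht0
    rw [ContinuousAt, tendsto_order]
    constructor
    · intro a ha
      have ha1 : max a ((-(eta * t0) + sg t0) / 2) < sg t0 := max_lt ha (by linarith)
      have ha2 : -(eta * t0) < max a ((-(eta * t0) + sg t0) / 2) := lt_max_of_lt_right (by linarith)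
      have ha3 : a ≤ max a ((-(eta * t0) + sg t0) / 2) := le_max_left _ _
      set a' := max a ((-(eta * t0) + sg t0) / 2)
      have hmem : Pt q u t0 a' ∈ Tri q u eta rho :=
        (Pt_mem H.hu).2 ⟨abs_lt.2 ⟨ha2, by linarith⟩, ht0.2⟩
      have hneg : B.E u j (Pt q u t0 a') < 0 := by
        rw [← h4]; exact H.mono j hj t0 _ _ hmem h3 ha1
      filter_upwards [(hEc a' hmem).eventually (gt_mem_nhds hneg), hWc a' hmem, hI] with t g1 g2 g3
      obtain ⟨g4, g5⟩ := hsg t g3.1 g3.2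
      refine lt_of_le_of_lt ha3 ?_
      by_contra hc
      push Not at hc
      rcases eq_or_lt_of_le hc with h7 | h7
      · rw [← h7, g5] at g1
        exact lt_irrefl _ g1
      · have := H.mono j hj t _ _ g4 g2 h7
        rw [g5] at this
        exact lt_asymm this g1
    · intro a ha
      have ha1 : sg t0 < min a ((eta * t0 + sg t0) / 2) := lt_min ha (by linarith)
      have ha2 : min a ((eta * t0 + sg t0) / 2) < eta * t0 := min_lt_of_right_lt (by linarith)
      have ha3 : min a ((eta * t0 + sg t0) / 2) ≤ a := min_le_left _ _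
      set a' := min a ((eta * t0 + sg t0) / 2)
      have hmem : Pt q u t0 a' ∈ Tri q u eta rho :=
        (Pt_mem H.hu).2 ⟨abs_lt.2 ⟨by linarith, ha2⟩, ht0.2⟩
      have hpos : 0 < B.E u j (Pt q u t0 a') := by
        rw [← h4]; exact H.mono j hj t0 _ _ h3 hmem ha1
      filter_upwards [(hEc a' hmem).eventually (lt_mem_nhds hpos), hWc a' hmem, hI] with t g1 g2 g3
      obtain ⟨g4, g5⟩ := hsg t g3.1 g3.2
      refine lt_of_lt_of_le ?_ ha3
      by_contra hc
      push Not at hc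
      rcases eq_or_lt_of_le hc with h7 | h7
      · rw [h7, g5] at g1
        exact lt_irrefl _ g1
      · have := H.mono j hj t _ _ g2 g4 h7
        rw [g5] at this
        exact lt_asymm this g1
  exact (Pt_cont q u).comp_continuousOn (continuousOn_id.prodMk hcont)

private theorem E_zero_iff (j : Fin B.k) (l : ℂ) : B.E u j l = 0 ↔ (B.L j l).re = 0 := by
  rcases E_eq B u j with h | h <;> rw [h] <;> simp

variable {S : Set ℂ} {x : ℤ}

/-- The description of `S` in the triangle. -/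
private def DS {phi : ℂ → ℂ} {q : ℂ} (B : Br phi q) (x : ℤ) (S W : Set ℂ) : Prop :=
  ∀ l ∈ W, ((∃ j, ‖B.g j l‖ = 1) → l ∈ S) ∧
    ((∀ j, ‖B.g j l‖ ≠ 1) →
      (l ∈ S ↔ x + ((Finset.univ.filter fun j => ‖B.g j l‖ < 1).card : ℤ) ≠ 0))

private theorem Dat.mem_S (H : Dat B u eta rho) (hD : DS B x S (Tri q u eta rho)) {j : Fin B.k}
    {l : ℂ} (hl : l ∈ Tri q u eta rho) (h : B.E u j l = 0) : l ∈ S := by
  rw [E_zero_iff] at h
  exact (hD l hl).1 ⟨j, (H.gre j l hl).2.2 h⟩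

private theorem Dat.norm_ne (H : Dat B u eta rho) {l : ℂ} (hl : l ∈ Tri q u eta rho)
    (h : ∀ j, (B.L j l).re ≠ 0) : ∀ j, ‖B.g j l‖ ≠ 1 := fun j h1 => h j ((H.gre j _ hl).2.1 h1)

private theorem Dat.Sg_const (H : Dat B u eta rho) (hD : DS B x S (Tri q u eta rho)) {l l' : ℂ} (hl : l ∈ Tri q u eta rho)
    (hl' : l' ∈ Tri q u eta rho) (h : ∀ j, (B.a j * u).re = 0 → B.E u j l ≠ 0 ∧ B.E u j l' ≠ 0 ∧
      (0 < B.E u j l' ↔ 0 < B.E u j l)) (hS : l ∈ S) : l' ∈ S := by
  have key : ∀ j, (B.L j l).re ≠ 0 ∧ (B.L j l').re ≠ 0 ∧ ((B.L j l).re < 0 ↔ (B.L j l').re < 0) := by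
    intro j
    by_cases hj : (B.a j * u).re = 0
    · obtain ⟨h1, h2, h3⟩ := h j hj
      rw [Ne, E_zero_iff] at h1 h2
      refine ⟨h1, h2, ?_⟩
      rcases E_eq B u j with he | he
      · rw [he] at h3
        constructor
        · intro h4
          rcases lt_or_gt_of_ne h2 with h5 | h5
          · exact h5
          · exact absurd (h3.1 h5) (lt_asymm h4)
        · intro h4
          rcases lt_or_gt_of_ne h1 with h5 | h5
          · exact h5
          · exact absurd (h3.2 h5) (lt_asymm h4)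
      · rw [he] at h3
        simp only [Left.neg_pos_iff] at h3
        exact h3.symm
    · rcases H.ntan j hj with h1 | h1
      · have h2 := h1 l hl
        have h3 := h1 l' hl'
        exact ⟨h2.ne', h3.ne', ⟨fun h4 => absurd h4 (lt_asymm h2), fun h4 => absurd h4 (lt_asymm h3)⟩⟩
      · have h2 := h1 l hl
        have h3 := h1 l' hl'
        exact ⟨h2.ne, h3.ne, ⟨fun _ => h3, fun _ => h2⟩⟩
  have hJ := H.norm_ne hl fun j => (key j).1
  have hJ' := H.norm_ne hl' fun j => (key j).2.1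
  · rw [(hD l hl).2 hJ] at hS
    rw [(hD l' hl').2 hJ']
    have e : (Finset.univ.filter fun j => ‖B.g j l'‖ < 1) = (Finset.univ.filter fun j => ‖B.g j l‖ < 1) := by
      ext j
      simp only [Finset.mem_filter, Finset.mem_univ, true_and]
      rw [(H.gre j l hl).1, (H.gre j l' hl').1]
      exact (key j).2.2.symm
    rw [e]
    exact hS

variable {U1 U2 : Set ℂ}

private theorem Dat.dich (H : Dat B u eta rho) (hD : DS B x S (Tri q u eta rho)) (o1 : IsOpen U1) (o2 : IsOpen U2) (hdis : Disjoint U1 U2)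
    (hcov : ∀ l ∈ Tri q u eta rho, l ∈ S → l ∈ U1 ∨ l ∈ U2) {j : Fin B.k}
    (hj : (B.a j * u).re = 0) :
    {l | l ∈ Tri q u eta rho ∧ B.E u j l = 0} ⊆ U1 ∨ {l | l ∈ Tri q u eta rho ∧ B.E u j l = 0} ⊆ U2 :=
  IsPreconnected.subset_or_subset o1 o2 hdis (fun l hl => hcov l hl.1 (H.mem_S hD hl.1 hl.2))
    (H.zero_conn hj)

private theorem Dat.seg (H : Dat B u eta rho) (o1 : IsOpen U1) (o2 : IsOpen U2) (hdis : Disjoint U1 U2)
    (hcov : ∀ l ∈ Tri q u eta rho, l ∈ S → l ∈ U1 ∨ l ∈ U2) {t s1 s2 : ℝ} (h12 : s1 ≤ s2)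
    (h1 : Pt q u t s1 ∈ Tri q u eta rho) (h2 : Pt q u t s2 ∈ Tri q u eta rho)
    (hS : ∀ s ∈ Icc s1 s2, Pt q u t s ∈ S) :
    (Pt q u t s1 ∈ U1 ↔ Pt q u t s2 ∈ U1) ∧ (Pt q u t s1 ∈ U2 ↔ Pt q u t s2 ∈ U2) := by
  have hc : IsPreconnected (Pt q u t '' Icc s1 s2) := isPreconnected_Icc.image _ (Pt_cont2 q u t).continuousOn
  have hW : ∀ s ∈ Icc s1 s2, Pt q u t s ∈ Tri q u eta rho := by
    intro s hs
    rw [Pt_mem H.hu] at h1 h2 ⊢
    have g1 := abs_lt.1 h1.1
    have g2 := abs_lt.1 h2.1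
    exact ⟨abs_lt.2 ⟨by linarith [hs.1], by linarith [hs.2]⟩, h1.2⟩
  have hsub := IsPreconnected.subset_or_subset o1 o2 hdis (by
    rintro _ ⟨s, hs, rfl⟩
    exact hcov _ (hW s hs) (hS s hs)) hc
  have m1 : Pt q u t s1 ∈ Pt q u t '' Icc s1 s2 := ⟨s1, ⟨le_rfl, h12⟩, rfl⟩
  have m2 : Pt q u t s2 ∈ Pt q u t '' Icc s1 s2 := ⟨s2, ⟨h12, le_rfl⟩, rfl⟩
  have hd := Set.disjoint_left.1 hdis
  rcases hsub with h | h
  · exact ⟨⟨fun _ => h m2, fun _ => h m1⟩, ⟨fun h3 => absurd h3 (hd (h m1)), fun h3 => absurd h3 (hd (h m2))⟩⟩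
  · exact ⟨⟨fun h3 => absurd (h m1) (hd h3), fun h3 => absurd (h m2) (hd h3)⟩, ⟨fun _ => h m2, fun _ => h m1⟩⟩

/-- Move up to the zero of `E i`. -/
private theorem Dat.up (H : Dat B u eta rho) (hD : DS B x S (Tri q u eta rho)) (o1 : IsOpen U1) (o2 : IsOpen U2) (hdis : Disjoint U1 U2)
    (hcov : ∀ l ∈ Tri q u eta rho, l ∈ S → l ∈ U1 ∨ l ∈ U2) {i : Fin B.k}
    (hi : (B.a i * u).re = 0) {l : ℂ} (hl : l ∈ Tri q u eta rho) (hS : l ∈ S)
    (hE : B.E u i l < 0) (hs : ∀ l' ∈ Tri q u eta rho, B.E u i l' < 0 →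
      (∀ j, (B.a j * u).re = 0 → B.E u j l ≤ B.E u j l') → ∀ j, (B.a j * u).re = 0 →
        B.E u j l ≠ 0 ∧ B.E u j l' ≠ 0 ∧ (0 < B.E u j l' ↔ 0 < B.E u j l)) :
    ∃ l0 ∈ Tri q u eta rho, B.E u i l0 = 0 ∧ (l0 ∈ U1 ↔ l ∈ U1) ∧ (l0 ∈ U2 ↔ l ∈ U2) := by
  have e := Pt_eq (q := q) H.hu l
  set t := ((l - q) * conj u).re
  set s := ((l - q) * conj u).im
  rw [← e] at hl hS hE hs ⊢
  obtain ⟨s0, hs0, hz⟩ := H.zero_ex hi (H.tpos hl) ((Pt_mem H.hu).1 hl).2
  have hlt : s < s0 := by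
    by_contra hc
    push Not at hc
    rcases eq_or_lt_of_le hc with h | h
    · rw [h] at hz
      rw [hz] at hE
      exact lt_irrefl _ hE
    · have := H.mono i hi t _ _ hs0 hl h
      rw [hz] at this
      exact lt_asymm this hE
  have h1 := H.seg o1 o2 hdis hcov hlt.le hl hs0 (by
    intro s' hs'
    have hW : Pt q u t s' ∈ Tri q u eta rho := by
      rw [Pt_mem H.hu] at hl hs0 ⊢
      have g1 := abs_lt.1 hl.1
      have g2 := abs_lt.1 hs0.1
      exact ⟨abs_lt.2 ⟨by linarith [hs'.1], by linarith [hs'.2]⟩, hl.2⟩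
    rcases eq_or_lt_of_le hs'.2 with h | h
    · rw [h]
      exact H.mem_S hD hs0 hz
    · have hneg : B.E u i (Pt q u t s') < 0 := by
        rw [← hz]; exact H.mono i hi t _ _ hW hs0 h
      refine H.Sg_const hD hl hW (hs _ hW hneg ?_) hS
      intro j hj
      rcases eq_or_lt_of_le hs'.1 with h' | h'
      · rw [h']
      · exact (H.mono j hj t _ _ hl hW h').le)
  exact ⟨_, hs0, hz, h1.1.symm, h1.2.symm⟩

/-- Move down to the zero of `E i`. -/
private theorem Dat.down (H : Dat B u eta rho) (hD : DS B x S (Tri q u eta rho)) (o1 : IsOpen U1) (o2 : IsOpen U2) (hdis : Disjoint U1 U2)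
    (hcov : ∀ l ∈ Tri q u eta rho, l ∈ S → l ∈ U1 ∨ l ∈ U2) {i : Fin B.k}
    (hi : (B.a i * u).re = 0) {l : ℂ} (hl : l ∈ Tri q u eta rho) (hS : l ∈ S)
    (hE : 0 < B.E u i l) (hs : ∀ l' ∈ Tri q u eta rho, 0 < B.E u i l' →
      (∀ j, (B.a j * u).re = 0 → B.E u j l' ≤ B.E u j l) → ∀ j, (B.a j * u).re = 0 →
        B.E u j l ≠ 0 ∧ B.E u j l' ≠ 0 ∧ (0 < B.E u j l' ↔ 0 < B.E u j l)) :
    ∃ l0 ∈ Tri q u eta rho, B.E u i l0 = 0 ∧ (l0 ∈ U1 ↔ l ∈ U1) ∧ (l0 ∈ U2 ↔ l ∈ U2) := by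
  have e := Pt_eq (q := q) H.hu l
  set t := ((l - q) * conj u).re
  set s := ((l - q) * conj u).im
  rw [← e] at hl hS hE hs ⊢
  obtain ⟨s0, hs0, hz⟩ := H.zero_ex hi (H.tpos hl) ((Pt_mem H.hu).1 hl).2
  have hlt : s0 < s := by
    by_contra hc
    push Not at hc
    rcases eq_or_lt_of_le hc with h | h
    · rw [← h] at hz
      rw [hz] at hE
      exact lt_irrefl _ hE
    · have := H.mono i hi t _ _ hl hs0 h
      rw [hz] at this
      exact lt_asymm this hE
  have h1 := H.seg o1 o2 hdis hcov hlt.le hs0 hl (by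
    intro s' hs'
    have hW : Pt q u t s' ∈ Tri q u eta rho := by
      rw [Pt_mem H.hu] at hl hs0 ⊢
      have g1 := abs_lt.1 hl.1
      have g2 := abs_lt.1 hs0.1
      exact ⟨abs_lt.2 ⟨by linarith [hs'.1], by linarith [hs'.2]⟩, hl.2⟩
    rcases eq_or_lt_of_le hs'.1 with h | h
    · rw [← h]
      exact H.mem_S hD hs0 hz
    · have hneg : 0 < B.E u i (Pt q u t s') := by
        rw [← hz]; exact H.mono i hi t _ _ hs0 hW h
      refine H.Sg_const hD hl hW (hs _ hW hneg ?_) hS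
      intro j hj
      rcases eq_or_lt_of_le hs'.2 with h' | h'
      · rw [h']
      · exact (H.mono j hj t _ _ hW hl h').le)
  exact ⟨_, hs0, hz, h1.1, h1.2⟩

end

theorem Br.chain {phi : ℂ → ℂ} {q : ℂ} (B : Br phi q) {x : ℤ} {S : Set ℂ}
    {u : ℂ} (hu : ‖u‖ = 1) (hT : ∃ j, (B.a j * u).re = 0) {U1 U2 : Set ℂ} (o1 : IsOpen U1)
    (o2 : IsOpen U2) (hdis : Disjoint U1 U2) {eta rho kap K r0 : ℝ}
    (h : B.TG u eta rho kap K)
    (hr0 : ∀ j, AnalyticOnNhd ℂ (B.L j) (ball q r0) ∧ ∀ l ∈ ball q r0,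
      B.g j l = B.g j q * Complex.exp (B.L j l) ∧ (‖B.g j l‖ < 1 ↔ (B.L j l).re < 0) ∧
      (‖B.g j l‖ = 1 ↔ (B.L j l).re = 0)) (hrr : 2 * rho ≤ r0) (hrR : r0 ≤ B.R)
    (hord : ∀ i j, (B.a i * u).re = 0 → (B.a j * u).re = 0 →
      B.Tie u (Tri q u eta rho) i j ∨ B.Below u (Tri q u eta rho) i j ∨
        B.Below u (Tri q u eta rho) j i)
    (hD : ∀ l ∈ Tri q u eta rho, ((∃ j, ‖B.g j l‖ = 1) → l ∈ S) ∧
      ((∀ j, ‖B.g j l‖ ≠ 1) →
        (l ∈ S ↔ x + ((Finset.univ.filter fun j => ‖B.g j l‖ < 1).card : ℤ) ≠ 0)))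
    (hcov : ∀ l ∈ Tri q u eta rho, l ∈ S → l ∈ U1 ∨ l ∈ U2) :
    ∃ (m : ℕ) (r : Fin m → Fin B.k) (col : Fin m → ℝ), 0 < m ∧
      (∀ a, (B.a (r a) * u).re = 0) ∧ (∀ j, (B.a j * u).re = 0 → ∃ a, r a = j) ∧
      (∀ a, col a = 0 ∨ col a = 1) ∧
      (∀ a b, a < b → B.Tie u (Tri q u eta rho) (r a) (r b) ∨
        B.Below u (Tri q u eta rho) (r a) (r b)) ∧
      (∀ a b, a < b → B.Tie u (Tri q u eta rho) (r a) (r b) → col a = col b) ∧
      (∀ a, ∀ l ∈ Tri q u eta rho, B.E u (r a) l = 0 →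
        l ∈ S ∧ (col a = 1 → l ∈ U1) ∧ (col a = 0 → l ∈ U2)) ∧
      (∀ a b : Fin m, (b : ℕ) = a + 1 → ∀ l ∈ Tri q u eta rho, l ∈ S →
        0 < B.E u (r a) l → B.E u (r b) l < 0 →
          col a = col b ∧ (col a = 1 → l ∈ U1) ∧ (col a = 0 → l ∈ U2)) ∧
      (∀ a : Fin m, (a : ℕ) = 0 → ∀ l ∈ Tri q u eta rho, l ∈ S → B.E u (r a) l < 0 →
        (col a = 1 → l ∈ U1) ∧ (col a = 0 → l ∈ U2)) ∧
      ∀ a : Fin m, (a : ℕ) + 1 = m → ∀ l ∈ Tri q u eta rho, l ∈ S → 0 < B.E u (r a) l →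
        (col a = 1 → l ∈ U1) ∧ (col a = 0 → l ∈ U2) := by
  classical
  have H : Dat B u eta rho := mkDat B hu h hr0 hrr hrR
  set W := Tri q u eta rho with hW
  -- sorting
  let T := {j : Fin B.k // (B.a j * u).re = 0}
  have ht0 : 0 < rho / 2 := by have := H.hrho; positivity
  have ht1 : rho / 2 < rho := by have := H.hrho; linarith
  have hkey : ∀ j : T, ∃ s, Pt q u (rho / 2) s ∈ W ∧ B.E u j.1 (Pt q u (rho / 2) s) = 0 :=
    fun j => H.zero_ex j.2 ht0 ht1
  choose key hkey using hkey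
  let e : Fin (Fintype.card T) ≃ T := (Fintype.equivFin T).symm
  let f : Fin (Fintype.card T) → ℝ := fun a => key (e a)
  have hmono : Monotone (f ∘ Tuple.sort f) := Tuple.monotone_sort f
  let r : Fin (Fintype.card T) → Fin B.k := fun a => (e (Tuple.sort f a)).1
  have hr : ∀ a, (B.a (r a) * u).re = 0 := fun a => (e (Tuple.sort f a)).2
  have hrs : ∀ j, (B.a j * u).re = 0 → ∃ a, r a = j := by
    intro j hj
    refine ⟨(Tuple.sort f).symm (e.symm ⟨j, hj⟩), ?_⟩
    change (e (Tuple.sort f ((Tuple.sort f).symm (e.symm ⟨j, hj⟩)))).1 = j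
    rw [Equiv.apply_symm_apply, Equiv.apply_symm_apply]
  have hk : ∀ a, ∃ s, Pt q u (rho / 2) s ∈ W ∧ B.E u (r a) (Pt q u (rho / 2) s) = 0 ∧
      s = (f ∘ Tuple.sort f) a := by
    intro a
    exact ⟨_, (hkey (e (Tuple.sort f a))).1, (hkey (e (Tuple.sort f a))).2, rfl⟩
  have hlt : ∀ a b, a < b → B.Tie u W (r a) (r b) ∨ B.Below u W (r a) (r b) := by
    intro a b hab
    rcases hord (r a) (r b) (hr a) (hr b) with h1 | h1 | h1
    · exact Or.inl h1
    · exact Or.inr h1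
    · exfalso
      obtain ⟨sa, ha1, ha2, ha3⟩ := hk a
      obtain ⟨sb, hb1, hb2, hb3⟩ := hk b
      have hle : sa ≤ sb := by
        rw [ha3, hb3]; exact hmono hab.le
      have h2 := h1.1 _ ha1 ha2.ge
      rcases eq_or_lt_of_le hle with h3 | h3
      · rw [h3, hb2] at h2
        exact lt_irrefl _ h2
      · have := H.mono (r b) (hr b) _ _ _ ha1 hb1 h3
        rw [hb2] at this
        exact lt_asymm this h2
  have hF1 : ∀ a b, a ≤ b → ∀ l ∈ W, 0 < B.E u (r b) l → 0 < B.E u (r a) l := by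
    intro a b hab l hl h1
    rcases eq_or_lt_of_le hab with h2 | h2
    · rw [h2]; exact h1
    · rcases hlt a b h2 with h3 | h3
      · exact (h3 l hl).2.2 h1
      · exact h3.1 l hl h1.le
  have hF2 : ∀ a b, a ≤ b → ∀ l ∈ W, B.E u (r a) l < 0 → B.E u (r b) l < 0 := by
    intro a b hab l hl h1
    rcases eq_or_lt_of_le hab with h2 | h2
    · rw [← h2]; exact h1
    · rcases hlt a b h2 with h3 | h3
      · have h4 := (h3 l hl).1
        have h5 := (h3 l hl).2
        rcases lt_trichotomy (B.E u (r b) l) 0 with h6 | h6 | h6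
        · exact h6
        · exact absurd (h4.2 h6) h1.ne
        · exact absurd (h5.2 h6) (lt_asymm h1)
      · by_contra h4
        push Not at h4
        exact absurd (h3.1 l hl h4) (lt_asymm h1)
  -- colours
  let col : Fin (Fintype.card T) → ℝ := fun a => if {l | l ∈ W ∧ B.E u (r a) l = 0} ⊆ U1 then 1 else 0
  have hcol1 : ∀ a, col a = 1 → {l | l ∈ W ∧ B.E u (r a) l = 0} ⊆ U1 := by
    intro a ha
    by_contra hc
    have : col a = 0 := if_neg hc
    rw [this] at ha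
    exact zero_ne_one ha
  have hcol0 : ∀ a, col a = 0 → {l | l ∈ W ∧ B.E u (r a) l = 0} ⊆ U2 := by
    intro a ha
    rcases H.dich hD o1 o2 hdis hcov (hr a) with h1 | h1
    · have : col a = 1 := if_pos h1
      rw [this] at ha
      exact absurd ha one_ne_zero
    · exact h1
  have hcol01 : ∀ a, col a = 0 ∨ col a = 1 := by
    intro a
    by_cases hc : {l | l ∈ W ∧ B.E u (r a) l = 0} ⊆ U1
    · exact Or.inr (if_pos hc)
    · exact Or.inl (if_neg hc)
  have hd := Set.disjoint_left.1 hdis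
  obtain ⟨j0, hj0⟩ := hT
  refine ⟨Fintype.card T, r, col, Fintype.card_pos_iff.2 ⟨⟨j0, hj0⟩⟩, hr, hrs, hcol01, hlt, ?_, ?_, ?_, ?_, ?_⟩
  · intro a b _ hTie
    have hset : {l | l ∈ W ∧ B.E u (r a) l = 0} = {l | l ∈ W ∧ B.E u (r b) l = 0} := by
      ext l
      constructor
      · rintro ⟨h1, h2⟩
        exact ⟨h1, (hTie l h1).1.1 h2⟩
      · rintro ⟨h1, h2⟩
        exact ⟨h1, (hTie l h1).1.2 h2⟩
    change (if {l | l ∈ W ∧ B.E u (r a) l = 0} ⊆ U1 then (1 : ℝ) else 0) =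
      (if {l | l ∈ W ∧ B.E u (r b) l = 0} ⊆ U1 then (1 : ℝ) else 0)
    rw [hset]
  · intro a l hl h0
    exact ⟨H.mem_S hD hl h0, fun hc => hcol1 a hc ⟨hl, h0⟩, fun hc => hcol0 a hc ⟨hl, h0⟩⟩
  · intro a b hab l hl hS ha hb
    have hsgn : ∀ l' ∈ W, 0 < B.E u (r a) l' → B.E u (r b) l' < 0 → ∀ j, (B.a j * u).re = 0 →
        B.E u j l ≠ 0 ∧ B.E u j l' ≠ 0 ∧ (0 < B.E u j l' ↔ 0 < B.E u j l) := by
      intro l' hl' ha' hb' j hj
      obtain ⟨c, rfl⟩ := hrs j hj
      rcases le_or_gt c a with hca | hca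
      · have h1 := hF1 c a hca l hl ha
        have h2 := hF1 c a hca l' hl' ha'
        exact ⟨h1.ne', h2.ne', ⟨fun _ => h1, fun _ => h2⟩⟩
      · have hbc : b ≤ c := by
          rw [Fin.le_def, hab]
          exact hca
        have h1 := hF2 b c hbc l hl hb
        have h2 := hF2 b c hbc l' hl' hb'
        exact ⟨h1.ne, h2.ne, ⟨fun h3 => absurd h3 (lt_asymm h2), fun h3 => absurd h3 (lt_asymm h1)⟩⟩
    obtain ⟨la, hla, hza, ha1, ha2⟩ := H.down hD o1 o2 hdis hcov (hr a) hl hS ha (fun l' hl' h1 h2 =>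
      hsgn l' hl' h1 (lt_of_le_of_lt (h2 (r b) (hr b)) hb))
    obtain ⟨lb, hlb, hzb, hb1, hb2⟩ := H.up hD o1 o2 hdis hcov (hr b) hl hS hb (fun l' hl' h1 h2 =>
      hsgn l' hl' (lt_of_lt_of_le ha (h2 (r a) (hr a))) h1)
    refine ⟨?_, fun hc => ha1.1 (hcol1 a hc ⟨hla, hza⟩), fun hc => ha2.1 (hcol0 a hc ⟨hla, hza⟩)⟩
    rcases hcol01 a with hc | hc
    · have h1 : l ∈ U2 := ha2.1 (hcol0 a hc ⟨hla, hza⟩)
      rcases hcol01 b with hc' | hc'
      · rw [hc, hc']
      · exact absurd h1 (hd (hb1.1 (hcol1 b hc' ⟨hlb, hzb⟩)))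
    · have h1 : l ∈ U1 := ha1.1 (hcol1 a hc ⟨hla, hza⟩)
      rcases hcol01 b with hc' | hc'
      · exact absurd (hb2.1 (hcol0 b hc' ⟨hlb, hzb⟩)) (hd h1)
      · rw [hc, hc']
  · intro a ha0 l hl hS ha
    obtain ⟨l0, hl0, hz, h1, h2⟩ := H.up hD o1 o2 hdis hcov (hr a) hl hS ha (by
      intro l' hl' h1 _ j hj
      obtain ⟨c, rfl⟩ := hrs j hj
      have hac : a ≤ c := by
        rw [Fin.le_def, ha0]
        exact Nat.zero_le _
      have h3 := hF2 a c hac l hl ha
      have h4 := hF2 a c hac l' hl' h1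
      exact ⟨h3.ne, h4.ne, ⟨fun h5 => absurd h5 (lt_asymm h4), fun h5 => absurd h5 (lt_asymm h3)⟩⟩)
    exact ⟨fun hc => h1.1 (hcol1 a hc ⟨hl0, hz⟩), fun hc => h2.1 (hcol0 a hc ⟨hl0, hz⟩)⟩
  · intro a ha0 l hl hS ha
    obtain ⟨l0, hl0, hz, h1, h2⟩ := H.down hD o1 o2 hdis hcov (hr a) hl hS ha (by
      intro l' hl' h1 _ j hj
      obtain ⟨c, rfl⟩ := hrs j hj
      have hac : c ≤ a := by
        rw [Fin.le_def]
        have := c.2
        omega
      have h3 := hF1 c a hac l hl ha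
      have h4 := hF1 c a hac l' hl' h1
      exact ⟨h3.ne', h4.ne', ⟨fun _ => h3, fun _ => h4⟩⟩)
    exact ⟨fun hc => h1.1 (hcol1 a hc ⟨hl0, hz⟩), fun hc => h2.1 (hcol0 a hc ⟨hl0, hz⟩)⟩

end Pool.Agent.TBirC
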