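import Pool.Agent.TBirC.Str
import Pool.Agent.TBirE.Tang
import Pool.Agent.TBirE.Nt

/-!
# Embedding in the gap between two tangent branches

Proof. `r, K0` from `Br.bas`, `m0` the minimum of the `‖a n‖`, `r0 ≤ r` with `K0 r0 ≤ m0 / 8`, `rho' ≤ rho` with
`2 rho' ≤ r0`, `W = Tri q u eta rho' ⊆ ball q r0`, `D = B.D u W i j`. Let `m` be a branch, `n = m` if `m` is tangent to `u`,
`n = i` otherwise, so `(a n * u).re = 0`. `D` is measurable (continuous functions on the open set `W`).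
Change of variables (`cv`, `lintegral_image_eq_lintegral_abs_det_fderiv_mul`, the determinant of multiplication by
`deriv (L n) l` is `‖deriv (L n) l‖^2 ≥ m0^2 / 4`): `∫⁻ l in D, G (L n l) ≤ C ∫⁻ w in D', G w`, `D' = L n '' D`, identified with
a subset of `ℝ × ℝ` (`Complex.measurableEquivRealProd`); `D'` is the image of a measurable set under an injective
continuous map (`MeasurableSet.image_of_continuousOn_injOn`).
With `x + y I = L n l`: `kap ‖l - q‖ ≤ |y| ≤ K ‖l - q‖` (`TG`), so by `Br.strip`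
`(E i l - E j l)⁻¹ ≤ C |y|^(-p)` and `|(L i l).re| ≤ E i l - E j l ≤ C |y|^p` on `D`.
Fibres (`fibre`, `elem`, `fib_le`): if `l1, l2 ∈ D` and `L n l1`, `L n l2` have the same imaginary part `y`, then
`L n l1 - L n l2 = a n (l1 - l2) + e_n`, `L i l1 - L i l2 = a i (l1 - l2) + e_i` with errors at most `(m0 / 8) ‖l1 - l2‖`
(mean value inequality, `lips`), and `a i = t a n` with `t` real, so
`‖a i‖ |x1 - x2| ≤ 2 ‖a n‖ |(L i l1).re - (L i l2).re| ≤ C |y|^p`: the fibre is contained in an interval of length `C' |y|^p`.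
Case `m` tangent: by `Br.strip` `c' |y|^p' ≤ |x| ≤ C' |y|^p'` with `2 ≤ p'`. Where `x < 0`:
`evr (g m l) h = ev (g m q * exp (x + y I)) h`; where `x > 0`: `evr (g m l) h = ev (g m q * exp (- x + y I)) h`
(`conj (g)⁻¹`, `‖g m q‖ = 1`), reflect this part of `D'`. Apply `tang_embed` to both parts.
Case `m` not tangent: `|(L m l).re| ≥ kap ‖l - q‖`, so `‖evr (g m l) h‖ ≤ FF h (1 - c2 |y|)` (`evr_le`: `norm_ev_le_FF`, `FF_mono`,
`exp (- v) ≤ 1 - v / 2` for `0 ≤ v ≤ 1`), apply `nt_thin`.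
The second claim (`thin_fin`): the same with `1` instead of `ev`: `∫_{|y| ≤ 1} C dy < ∞`.
-/

set_option autoImplicit false

open MeasureTheory Complex Set Filter Topology Metric AddCircle
open scoped ComplexConjugate InnerProductSpace ENNReal

namespace Pool.Agent.TBirC

open Pool.Agent.TBirE

open Pool.Agent.TBir Pool.Agent.TBirG
open Pool.Agent.TBirM (Tri)

private theorem det_cm (c : ℂ) :
    ((ContinuousLinearMap.toSpanSingleton ℂ c : ℂ →L[ℂ] ℂ).restrictScalars ℝ).det = ‖c‖ ^ 2 := by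
  rw [ContinuousLinearMap.det]
  have : (((ContinuousLinearMap.toSpanSingleton ℂ c : ℂ →L[ℂ] ℂ).restrictScalars ℝ : ℂ →L[ℝ] ℂ) :
      ℂ →ₗ[ℝ] ℂ) = ((ContinuousLinearMap.toSpanSingleton ℂ c : ℂ →L[ℂ] ℂ) :
        ℂ →ₗ[ℂ] ℂ).restrictScalars ℝ := rfl
  rw [this, LinearMap.det_restrictScalars]
  have h2 : LinearMap.det ((ContinuousLinearMap.toSpanSingleton ℂ c : ℂ →L[ℂ] ℂ) :
      ℂ →ₗ[ℂ] ℂ) = c := by
    have := ContinuousLinearMap.det_toSpanSingleton (𝕜 := ℂ) c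
    exact this
  rw [h2, Algebra.norm_complex_eq]
  simp [Complex.normSq_eq_norm_sq]

/-- Change of variables. -/
private theorem cv {D : Set ℂ} (hD : MeasurableSet D) {f f' : ℂ → ℂ}
    (hf : ∀ l ∈ D, HasDerivAt f (f' l) l) (hinj : InjOn f D) {m : ℝ} (hm : 0 < m)
    (hd : ∀ l ∈ D, m ≤ ‖f' l‖) :
    MeasurableSet {w : ℝ × ℝ | (w.1 : ℂ) + w.2 * I ∈ f '' D} ∧
    ∀ G : ℂ → ℝ≥0∞, ∫⁻ l in D, G (f l) ≤ ENNReal.ofReal ((m ^ 2)⁻¹) *
      ∫⁻ w in {w : ℝ × ℝ | (w.1 : ℂ) + w.2 * I ∈ f '' D}, G (w.1 + w.2 * I) := by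
  have hS : MeasurableSet (f '' D) := hD.image_of_continuousOn_injOn
    (fun l hl => (hf l hl).continuousAt.continuousWithinAt) hinj
  have he : ∀ w : ℝ × ℝ, Complex.measurableEquivRealProd.symm w = (w.1 : ℂ) + w.2 * I := by
    intro w
    rw [Complex.measurableEquivRealProd_symm_apply, Complex.mk_eq_add_mul_I]
  have hpre : {w : ℝ × ℝ | (w.1 : ℂ) + w.2 * I ∈ f '' D} =
      Complex.measurableEquivRealProd.symm ⁻¹' (f '' D) := by
    ext w
    rw [mem_preimage, he]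
    rfl
  refine ⟨?_, fun G => ?_⟩
  · rw [hpre]
    exact Complex.measurableEquivRealProd.symm.measurable hS
  · have h1 : ∫⁻ w in {w : ℝ × ℝ | (w.1 : ℂ) + w.2 * I ∈ f '' D}, G (w.1 + w.2 * I) =
        ∫⁻ w in f '' D, G w := by
      rw [hpre, ← (Complex.volume_preserving_equiv_real_prod.symm
        Complex.measurableEquivRealProd).setLIntegral_comp_preimage_emb
          Complex.measurableEquivRealProd.symm.measurableEmbedding G (f '' D)]
      refine lintegral_congr fun w => ?_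
      rw [he]
    have h2 : ∫⁻ w in f '' D, G w = ∫⁻ z in D, ENNReal.ofReal (‖f' z‖ ^ 2) * G (f z) := by
      rw [lintegral_image_eq_lintegral_abs_det_fderiv_mul volume hD
        (fun z hz => ((hf z hz).hasFDerivAt.restrictScalars ℝ).hasFDerivWithinAt) hinj G]
      refine lintegral_congr fun z => ?_
      rw [det_cm, abs_of_nonneg (by positivity)]
    rw [h1, h2, ← lintegral_const_mul' _ _ ENNReal.ofReal_ne_top]
    refine setLIntegral_mono' hD fun l hl => ?_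
    rw [← mul_assoc, ← ENNReal.ofReal_mul (by positivity)]
    have h3 : (1 : ℝ≥0∞) ≤ ENNReal.ofReal ((m ^ 2)⁻¹ * ‖f' l‖ ^ 2) := by
      rw [ENNReal.one_le_ofReal, inv_mul_eq_div, le_div_iff₀ (by positivity), one_mul]
      exact pow_le_pow_left₀ hm.le (hd l hl) 2
    calc G (f l) = 1 * G (f l) := (one_mul _).symm
      _ ≤ _ := mul_le_mul_left h3 _

private theorem fib_le {S : Set ℝ} {d : ℝ} (h : ∀ x1 ∈ S, ∀ x2 ∈ S, |x1 - x2| ≤ d) :
    volume S ≤ ENNReal.ofReal (2 * d) := by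
  rcases S.eq_empty_or_nonempty with rfl | ⟨x0, hx0⟩
  · simp
  · have h1 : S ⊆ Icc (x0 - d) (x0 + d) := by
      intro x hx
      have := abs_le.1 (h x hx x0 hx0)
      exact ⟨by linarith [this.1], by linarith [this.2]⟩
    refine (measure_mono h1).trans ?_
    rw [Real.volume_Icc]
    exact ENNReal.ofReal_le_ofReal (by linarith)

private theorem thin_fin {D : Set (ℝ × ℝ)} (hD : MeasurableSet D) {p : ℕ} {C : ℝ}
    (h1 : ∀ w ∈ D, w.2 ≠ 0 ∧ |w.2| ≤ 1)
    (h2 : ∀ y : ℝ, volume {x : ℝ | (x, y) ∈ D} ≤ ENNReal.ofReal (C * |y| ^ p)) :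
    ∫⁻ w in D, ENNReal.ofReal ((|w.2| ^ p)⁻¹) < ⊤ := by
  have hm : Measurable fun w : ℝ × ℝ => ENNReal.ofReal ((|w.2| ^ p)⁻¹) := by
    fun_prop
  rw [← lintegral_indicator hD, Measure.volume_eq_prod, lintegral_prod_symm' _ (hm.indicator hD)]
  have h3 : ∀ y : ℝ, ∫⁻ x : ℝ, D.indicator (fun w : ℝ × ℝ => ENNReal.ofReal ((|w.2| ^ p)⁻¹)) (x, y) ≤
      (Icc (-1 : ℝ) 1).indicator (fun _ => ENNReal.ofReal C) y := by
    intro y
    have hDy : MeasurableSet {x : ℝ | (x, y) ∈ D} := measurable_prodMk_right hD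
    have h4 : ∫⁻ x : ℝ, D.indicator (fun w : ℝ × ℝ => ENNReal.ofReal ((|w.2| ^ p)⁻¹)) (x, y) =
        ENNReal.ofReal ((|y| ^ p)⁻¹) * volume {x : ℝ | (x, y) ∈ D} := by
      rw [← setLIntegral_const, ← lintegral_indicator hDy]
      refine lintegral_congr fun x => ?_
      by_cases hx : (x, y) ∈ D
      · rw [indicator_of_mem hx, indicator_of_mem (show x ∈ {x : ℝ | (x, y) ∈ D} from hx)]
      · rw [indicator_of_notMem hx,
          indicator_of_notMem (show x ∉ {x : ℝ | (x, y) ∈ D} from hx)]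
    rw [h4]
    rcases ({x : ℝ | (x, y) ∈ D}).eq_empty_or_nonempty with h5 | ⟨x0, hx0⟩
    · rw [h5, measure_empty, mul_zero]
      exact bot_le
    · obtain ⟨h6, h7⟩ := h1 _ hx0
      have h6' : 0 < |y| ^ p := pow_pos (abs_pos.2 h6) p
      rw [indicator_of_mem (show y ∈ Icc (-1 : ℝ) 1 from abs_le.1 h7)]
      calc ENNReal.ofReal ((|y| ^ p)⁻¹) * volume {x : ℝ | (x, y) ∈ D}
          ≤ ENNReal.ofReal ((|y| ^ p)⁻¹) * ENNReal.ofReal (C * |y| ^ p) := by
            exact mul_le_mul_right (h2 y) _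
        _ = ENNReal.ofReal C := by
            rw [← ENNReal.ofReal_mul (by positivity)]
            congr 1
            field_simp
  refine (lintegral_mono h3).trans_lt ?_
  rw [lintegral_indicator measurableSet_Icc, setLIntegral_const, Real.volume_Icc]
  exact ENNReal.mul_lt_top ENNReal.ofReal_lt_top ENNReal.ofReal_lt_top

private theorem norm_zexp {z0 : ℂ} (h0 : ‖z0‖ = 1) (x y : ℝ) :
    ‖z0 * Complex.exp (x + y * I)‖ = Real.exp x := by
  rw [norm_mul, h0, one_mul, Complex.norm_exp]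
  simp

private theorem evr_neg {z0 : ℂ} (h0 : ‖z0‖ = 1) {x : ℝ} (y : ℝ) (hx : x < 0) (h : Hardy) :
    evr (z0 * Complex.exp (x + y * I)) h = ev (z0 * Complex.exp (x + y * I)) h := by
  unfold evr
  rw [if_pos]
  rw [norm_zexp h0, Real.exp_lt_one_iff]
  exact hx

private theorem evr_pos {z0 : ℂ} (h0 : ‖z0‖ = 1) {x : ℝ} (y : ℝ) (hx : x < 0) (h : Hardy) :
    evr (z0 * Complex.exp (((-x : ℝ) : ℂ) + y * I)) h = ev (z0 * Complex.exp (x + y * I)) h := by
  unfold evr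
  rw [if_neg]
  · congr 2
    have h1 : conj z0 * z0 = 1 := by
      rw [mul_comm, Complex.mul_conj, Complex.normSq_eq_norm_sq, h0]
      simp
    have h2 : conj (z0 * Complex.exp (((-x : ℝ) : ℂ) + y * I)) * (z0 * Complex.exp (x + y * I)) =
        1 := by
      rw [map_mul, ← Complex.exp_conj, map_add, map_mul, Complex.conj_ofReal, Complex.conj_ofReal,
        Complex.conj_I]
      calc conj z0 * Complex.exp (((-x : ℝ) : ℂ) + y * -I) * (z0 * Complex.exp (x + y * I))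
          = (conj z0 * z0) * (Complex.exp (((-x : ℝ) : ℂ) + y * -I) * Complex.exp (x + y * I)) := by
            ring
        _ = 1 := by
            rw [h1, ← Complex.exp_add, one_mul]
            have : ((-x : ℝ) : ℂ) + y * -I + (x + y * I) = 0 := by
              push_cast
              ring
            rw [this, Complex.exp_zero]
    exact (eq_inv_of_mul_eq_one_right h2).symm
  · rw [norm_zexp h0, not_lt, Real.one_le_exp_iff]
    linarith

private theorem exp_neg_le {d : ℝ} (h0 : 0 ≤ d) (h1 : d ≤ 1) : Real.exp (-d) ≤ 1 - d / 2 := by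
  have h2 : 1 + d ≤ Real.exp d := by
    have := Real.add_one_le_exp d
    linarith
  rw [Real.exp_neg, inv_le_comm₀ (Real.exp_pos d) (by linarith)]
  refine le_trans ?_ h2
  rw [inv_le_comm₀ (by linarith) (by linarith), ← one_div, div_le_iff₀ (by linarith)]
  nlinarith

private theorem evr_le {z : ℂ} {d : ℝ} (h0 : 0 < d) (h1 : d ≤ 1) (hz : z ≠ 0)
    (h2 : d ≤ |Real.log ‖z‖|) (h : Hardy) : ‖evr z h‖ ≤ FF h (1 - d / 2) := by
  have hz0 : 0 < ‖z‖ := norm_pos_iff.2 hz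
  have h3 : ∃ w : ℂ, evr z h = ev w h ∧ ‖w‖ = Real.exp (-|Real.log ‖z‖|) := by
    unfold evr
    split_ifs with h4
    · refine ⟨z, rfl, ?_⟩
      rw [abs_of_neg (Real.log_neg hz0 h4), neg_neg, Real.exp_log hz0]
    · refine ⟨(conj z)⁻¹, rfl, ?_⟩
      rw [abs_of_nonneg (Real.log_nonneg (not_lt.1 h4)), Real.exp_neg, Real.exp_log hz0, norm_inv,
        RCLike.norm_conj]
  obtain ⟨w, hw1, hw2⟩ := h3
  have h5 : ‖w‖ ≤ 1 - d / 2 := by
    rw [hw2]
    refine le_trans (Real.exp_le_exp.2 ?_) (exp_neg_le h0.le h1)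
    linarith
  have h6 : ‖w‖ < 1 := by linarith
  rw [hw1]
  exact (norm_ev_le_FF h6 h).trans (FF_mono h (norm_nonneg _) h5 (by linarith))

private theorem lips {f : ℂ → ℂ} {q a : ℂ} {r r0 K e : ℝ} (hf : AnalyticOnNhd ℂ f (ball q r))
    (hK : ∀ l ∈ ball q r, ‖deriv f l - a‖ ≤ K * ‖l - q‖) (hK0 : 0 ≤ K) (hr0 : r0 ≤ r)
    (he : K * r0 ≤ e) {l1 l2 : ℂ} (h1 : l1 ∈ ball q r0) (h2 : l2 ∈ ball q r0) :
    ‖f l1 - f l2 - a * (l1 - l2)‖ ≤ e * ‖l1 - l2‖ := by
  have h3 : ∀ x ∈ ball q r0, HasDerivWithinAt (fun l => f l - a * l) (deriv f x - a)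
      (ball q r0) x := by
    intro x hx
    have h4 := (hf x (ball_subset_ball hr0 hx)).differentiableAt.hasDerivAt
    have h5 := (hasDerivAt_id x).const_mul a
    rw [mul_one] at h5
    exact (h4.sub h5).hasDerivWithinAt
  have h4 : ∀ x ∈ ball q r0, ‖deriv f x - a‖ ≤ e := by
    intro x hx
    refine (hK x (ball_subset_ball hr0 hx)).trans (le_trans ?_ he)
    refine mul_le_mul_of_nonneg_left ?_ hK0
    rw [← dist_eq_norm]
    exact (mem_ball.1 hx).le
  have h5 := (convex_ball q r0).norm_image_sub_le_of_norm_hasDerivWithin_le h3 h4 h2 h1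
  refine le_trans (le_of_eq ?_) h5
  congr 1
  ring

private theorem tri_b {q u : ℂ} (hu : ‖u‖ = 1) {eta rho : ℝ} (he : 0 < eta) (he1 : eta ≤ 1)
    {l : ℂ} (hl : l ∈ Tri q u eta rho) : 0 < ‖l - q‖ ∧ ‖l - q‖ < 2 * rho := by
  obtain ⟨h1, h2⟩ := hl
  have hn : ‖(l - q) * conj u‖ = ‖l - q‖ := by rw [norm_mul, RCLike.norm_conj, hu, mul_one]
  have h3 : 0 < ((l - q) * conj u).re := by
    by_contra h
    have := abs_nonneg ((l - q) * conj u).im
    nlinarith
  have h4 := Complex.norm_le_abs_re_add_abs_im ((l - q) * conj u)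
  have h5 := Complex.abs_re_le_norm ((l - q) * conj u)
  rw [hn, abs_of_pos h3] at h4 h5
  constructor
  · linarith
  · nlinarith

private theorem tri_o (q u : ℂ) (eta rho : ℝ) : IsOpen (Tri q u eta rho) := by
  have h1 : Continuous fun l : ℂ => ((l - q) * conj u).re := by fun_prop
  have h2 : Continuous fun l : ℂ => ((l - q) * conj u).im := by fun_prop
  exact (isOpen_lt h2.abs (h1.const_mul eta)).inter (isOpen_lt h1 continuous_const)

/-- The elementary inequality for the fibres. -/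
private theorem elem {m A N X d R : ℝ} (hm : 0 < m) (hA : m ≤ A) (hN : m ≤ N) (hX : 0 ≤ X)
    (h1 : N * X ≤ d + m / 8 * X) (h2 : A * d ≤ N * R + (A + N) * (m / 8 * X)) :
    A * d ≤ 2 * (N * R) := by
  have h3 : m * X ≤ N * X := mul_le_mul_of_nonneg_right hN hX
  have h4 : 7 / 8 * (N * X) ≤ d := by nlinarith
  have hd : 0 ≤ d := by
    refine le_trans ?_ h4
    have : 0 ≤ N * X := mul_nonneg (hm.le.trans hN) hX
    positivity
  have h5 : A * (m * X) ≤ A * (N * X) := mul_le_mul_of_nonneg_left h3 (hm.le.trans hA)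
  have h6 : A * (7 / 8 * (N * X)) ≤ A * d := mul_le_mul_of_nonneg_left h4 (hm.le.trans hA)
  have h7 : m * (7 / 8 * (N * X)) ≤ m * d := mul_le_mul_of_nonneg_left h4 hm.le
  have h8 : m * d ≤ A * d := mul_le_mul_of_nonneg_right hA hd
  nlinarith


private theorem meas_D {W : Set ℂ} (hW : IsOpen W) {f g : ℂ → ℝ} (hf : ContinuousOn f W)
    (hg : ContinuousOn g W) : MeasurableSet {l | l ∈ W ∧ 0 < f l ∧ g l < 0 ∧
      f l - g l ≤ 4 * f l ∧ f l - g l ≤ 4 * -g l} := by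
  have h1 : IsOpen (W ∩ f ⁻¹' Ioi 0) := hf.isOpen_inter_preimage hW isOpen_Ioi
  have h2 : IsOpen (W ∩ g ⁻¹' Iio 0) := hg.isOpen_inter_preimage hW isOpen_Iio
  have hc3 : ContinuousOn (fun l => 4 * f l - (f l - g l)) W := by fun_prop
  have hc4 : ContinuousOn (fun l => 4 * -g l - (f l - g l)) W := by fun_prop
  have h3 := hc3.isOpen_inter_preimage hW (isOpen_Iio (a := (0 : ℝ)))
  have h4 := hc4.isOpen_inter_preimage hW (isOpen_Iio (a := (0 : ℝ)))
  have h5 : {l | l ∈ W ∧ 0 < f l ∧ g l < 0 ∧ f l - g l ≤ 4 * f l ∧ f l - g l ≤ 4 * -g l} =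
      ((W ∩ f ⁻¹' Ioi 0) ∩ (W ∩ g ⁻¹' Iio 0)) ∩
        ((W \ (W ∩ (fun l => 4 * f l - (f l - g l)) ⁻¹' Iio 0)) ∩
          (W \ (W ∩ (fun l => 4 * -g l - (f l - g l)) ⁻¹' Iio 0))) := by
    ext l
    simp only [mem_ofPred_eq, mem_inter_iff, mem_preimage, mem_Ioi, mem_Iio, Set.mem_sdiff]
    constructor
    · rintro ⟨h1, h2, h3, h4, h5⟩
      exact ⟨⟨⟨h1, h2⟩, h1, h3⟩, ⟨h1, fun h => by linarith [h.2]⟩, h1, fun h => by linarith [h.2]⟩
    · rintro ⟨⟨⟨h1, h2⟩, -, h3⟩, ⟨-, h4⟩, -, h5⟩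
      refine ⟨h1, h2, h3, ?_, ?_⟩
      · by_contra h
        exact h4 ⟨h1, by linarith⟩
      · by_contra h
        exact h5 ⟨h1, by linarith⟩
  rw [h5]
  exact (h1.measurableSet.inter h2.measurableSet).inter
    ((hW.measurableSet.diff h3.measurableSet).inter (hW.measurableSet.diff h4.measurableSet))

/-- Two numbers on the same real line. -/
private theorem real_mul {a b u : ℂ} (hu : ‖u‖ = 1) (ha0 : a ≠ 0) (ha : (a * u).re = 0)
    (hb : (b * u).re = 0) : ∃ t : ℝ, b = t * a ∧ ‖b‖ = |t| * ‖a‖ := by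
  have hu0 : u ≠ 0 := by
    rintro rfl
    simp at hu
  have h1 : a * u = ((a * u).im : ℂ) * I := by
    apply Complex.ext <;> simp [ha]
  have h2 : b * u = ((b * u).im : ℂ) * I := by
    apply Complex.ext <;> simp [hb]
  have h3 : (a * u).im ≠ 0 := by
    intro h
    rw [h] at h1
    simp [ha0, hu0] at h1
  have h3' : ((a * u).im : ℂ) ≠ 0 := by exact_mod_cast h3
  have h4 : b = (((b * u).im / (a * u).im : ℝ) : ℂ) * a := by
    apply mul_right_cancel₀ hu0
    generalize (a * u).im = s at h1 h3'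
    generalize (b * u).im = t at h2
    rw [mul_assoc, h1, h2]
    push_cast
    field_simp
  refine ⟨_, h4, ?_⟩
  conv_lhs => rw [h4]
  rw [norm_mul, Complex.norm_real, Real.norm_eq_abs]

/-- The fibre estimate. -/
private theorem fibre {f g : ℂ → ℂ} {a b u l1 l2 : ℂ} (hu : ‖u‖ = 1) {m : ℝ} (hm : 0 < m)
    (hma : m ≤ ‖a‖) (hmb : m ≤ ‖b‖) (ha : (a * u).re = 0) (hb : (b * u).re = 0)
    (hf : ‖f l1 - f l2 - a * (l1 - l2)‖ ≤ m / 8 * ‖l1 - l2‖)
    (hg : ‖g l1 - g l2 - b * (l1 - l2)‖ ≤ m / 8 * ‖l1 - l2‖)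
    (him : (f l1).im = (f l2).im) :
    ‖b‖ * |(f l1).re - (f l2).re| ≤ 2 * (‖a‖ * |(g l1).re - (g l2).re|) := by
  have ha0 : a ≠ 0 := by
    intro h
    rw [h, norm_zero] at hma
    linarith
  obtain ⟨t, ht, ht2⟩ := real_mul hu ha0 ha hb
  have hd : ‖f l1 - f l2‖ = |(f l1).re - (f l2).re| := by
    have : f l1 - f l2 = (((f l1).re - (f l2).re : ℝ) : ℂ) := by
      apply Complex.ext <;> simp [him]
    rw [this, Complex.norm_real, Real.norm_eq_abs]
  refine elem hm hmb hma (norm_nonneg (l1 - l2)) ?_ ?_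
  · rw [← norm_mul, ← hd]
    have : a * (l1 - l2) = (f l1 - f l2) - (f l1 - f l2 - a * (l1 - l2)) := by ring
    rw [this]
    exact (norm_sub_le _ _).trans (by linarith)
  · have h1 : (t : ℂ) * (f l1 - f l2) = (g l1 - g l2) - (g l1 - g l2 - b * (l1 - l2)) +
        t * (f l1 - f l2 - a * (l1 - l2)) := by
      rw [ht]
      ring
    have h2 : t * ((f l1).re - (f l2).re) = ((g l1).re - (g l2).re) -
        (g l1 - g l2 - b * (l1 - l2)).re + t * (f l1 - f l2 - a * (l1 - l2)).re := by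
      have := congrArg Complex.re h1
      rw [Complex.re_ofReal_mul, Complex.add_re, Complex.sub_re, Complex.sub_re,
        Complex.re_ofReal_mul, Complex.sub_re] at this
      exact this
    have h3 : |t| * |(f l1).re - (f l2).re| ≤ |(g l1).re - (g l2).re| + m / 8 * ‖l1 - l2‖ +
        |t| * (m / 8 * ‖l1 - l2‖) := by
      rw [← abs_mul, h2]
      refine (abs_add_le _ _).trans ?_
      have h4 := (Complex.abs_re_le_norm (g l1 - g l2 - b * (l1 - l2))).trans hg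
      have h5 := (Complex.abs_re_le_norm (f l1 - f l2 - a * (l1 - l2))).trans hf
      have h6 := abs_sub ((g l1).re - (g l2).re) (g l1 - g l2 - b * (l1 - l2)).re
      rw [abs_mul]
      have h7 := mul_le_mul_of_nonneg_left h5 (abs_nonneg t)
      linarith
    have h4 := mul_le_mul_of_nonneg_left h3 (norm_nonneg a)
    rw [ht2]
    nlinarith


private theorem E_cont {phi : ℂ → ℂ} {q : ℂ} (B : Br phi q) (u : ℂ) (j : Fin B.k) {W : Set ℂ}
    (h : ContinuousOn (B.L j) W) : ContinuousOn (B.E u j) W := by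
  by_cases hs : (B.a j * u).im < 0
  · have h1 : B.E u j = fun l => (B.L j l).re := by
      funext l
      unfold Br.E
      rw [if_pos hs]
    rw [h1]
    exact Complex.continuous_re.comp_continuousOn h
  · have h1 : B.E u j = fun l => -(B.L j l).re := by
      funext l
      unfold Br.E
      rw [if_neg hs]
    rw [h1]
    exact (Complex.continuous_re.comp_continuousOn h).neg

private theorem E_abs {phi : ℂ → ℂ} {q : ℂ} (B : Br phi q) (u : ℂ) (j : Fin B.k) (l : ℂ) :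
    |B.E u j l| = |(B.L j l).re| := by
  unfold Br.E
  split_ifs
  · rfl
  · rw [abs_neg]

/-- Reflection in the first variable. -/
private theorem refl_lint {D : Set (ℝ × ℝ)} (hD : MeasurableSet D) (G : ℝ × ℝ → ℝ≥0∞) :
    MeasurableSet {w : ℝ × ℝ | (-w.1, w.2) ∈ D} ∧
    ∫⁻ w in D, G w = ∫⁻ w in {w : ℝ × ℝ | (-w.1, w.2) ∈ D}, G (-w.1, w.2) := by
  have h1 : MeasurePreserving (fun w : ℝ × ℝ => ((-w.1 : ℝ), w.2)) := by
    have := (Measure.measurePreserving_neg (volume : Measure ℝ)).prod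
      (MeasurePreserving.id (volume : Measure ℝ))
    exact this
  have h2 : MeasurableEmbedding (fun w : ℝ × ℝ => ((-w.1 : ℝ), w.2)) := by
    have h3 : Function.Involutive (fun w : ℝ × ℝ => ((-w.1 : ℝ), w.2)) := fun w => by simp
    exact (MeasurableEquiv.ofInvolutive _ h3 (by fun_prop)).measurableEmbedding
  refine ⟨h1.measurable hD, ?_⟩
  exact (h1.setLIntegral_comp_preimage_emb h2 G D).symm

private theorem refl_fib {D : Set (ℝ × ℝ)} (y : ℝ) :
    volume {x : ℝ | (x, y) ∈ {w : ℝ × ℝ | (-w.1, w.2) ∈ D}} = volume {x : ℝ | (x, y) ∈ D} := by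
  exact Measure.measure_preimage_neg volume {x : ℝ | (x, y) ∈ D}


/-- The transfer of the integrals over `D` to `ℝ × ℝ`. -/
private theorem key {D : Set ℂ} (hD : MeasurableSet D) {q a b u : ℂ} (hu : ‖u‖ = 1)
    {m kap K c C : ℝ} {p : ℕ} (hm : 0 < m) (hkap : 0 < kap) (hK : 0 < K) (hc : 0 < c) (hC : 0 < C)
    (hma : m ≤ ‖a‖) (hmb : m ≤ ‖b‖) (ha : (a * u).re = 0) (hb : (b * u).re = 0)
    {f g : ℂ → ℂ} (hfd : ∀ l ∈ D, HasDerivAt f (deriv f l) l) (hfd2 : ∀ l ∈ D, m / 2 ≤ ‖deriv f l‖)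
    (hinj : InjOn f D)
    (hf : ∀ l1 ∈ D, ∀ l2 ∈ D, ‖f l1 - f l2 - a * (l1 - l2)‖ ≤ m / 8 * ‖l1 - l2‖)
    (hg : ∀ l1 ∈ D, ∀ l2 ∈ D, ‖g l1 - g l2 - b * (l1 - l2)‖ ≤ m / 8 * ‖l1 - l2‖)
    (hq : ∀ l ∈ D, 0 < ‖l - q‖) (h1 : ∀ l ∈ D, kap * ‖l - q‖ ≤ |(f l).im|)
    (h2 : ∀ l ∈ D, |(f l).im| ≤ K * ‖l - q‖) {e : ℂ → ℝ}
    (he1 : ∀ l ∈ D, c * ‖l - q‖ ^ p ≤ e l) (he2 : ∀ l ∈ D, e l ≤ C * ‖l - q‖ ^ p)
    (hge : ∀ l ∈ D, |(g l).re| ≤ e l) :
    ∃ (D' : Set (ℝ × ℝ)) (C0 c1 : ℝ), MeasurableSet D' ∧ 0 < C0 ∧ 0 ≤ c1 ∧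
      (∀ w ∈ D', ∃ l ∈ D, f l = w.1 + w.2 * I) ∧
      (∀ y : ℝ, volume {x : ℝ | (x, y) ∈ D'} ≤ ENNReal.ofReal (C0 * |y| ^ p)) ∧
      ∀ F V : ℂ → ℝ≥0∞, (∀ l ∈ D, F l ≤ V (f l)) →
        ∫⁻ l in D, ENNReal.ofReal ((e l)⁻¹) * F l ≤
          ENNReal.ofReal c1 * ∫⁻ w in D', ENNReal.ofReal ((|w.2| ^ p)⁻¹) * V (w.1 + w.2 * I) := by
  obtain ⟨hD', hcv⟩ := cv hD hfd hinj (half_pos hm) hfd2
  have ha0 : 0 < ‖a‖ := hm.trans_le hma
  have hb0 : 0 < ‖b‖ := hm.trans_le hmb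
  refine ⟨{w : ℝ × ℝ | (w.1 : ℂ) + w.2 * I ∈ f '' D},
    2 * (2 * (‖a‖ / ‖b‖) * (2 * (C / kap ^ p))), ((m / 2) ^ 2)⁻¹ * (c⁻¹ * K ^ p), hD',
    by positivity, by positivity, fun w hw => hw, ?_, ?_⟩
  · intro y
    have hd : ∀ x1 ∈ {x : ℝ | (x, y) ∈ {w : ℝ × ℝ | (w.1 : ℂ) + w.2 * I ∈ f '' D}},
        ∀ x2 ∈ {x : ℝ | (x, y) ∈ {w : ℝ × ℝ | (w.1 : ℂ) + w.2 * I ∈ f '' D}},
        |x1 - x2| ≤ 2 * (‖a‖ / ‖b‖) * (2 * (C / kap ^ p)) * |y| ^ p := by
      rintro x1 ⟨l1, hl1, hfl1⟩ x2 ⟨l2, hl2, hfl2⟩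
      have e1 : (f l1).re = x1 := by rw [hfl1]; simp
      have e2 : (f l1).im = y := by rw [hfl1]; simp
      have e3 : (f l2).re = x2 := by rw [hfl2]; simp
      have e4 : (f l2).im = y := by rw [hfl2]; simp
      have h3 := fibre hu hm hma hmb ha hb (hf l1 hl1 l2 hl2) (hg l1 hl1 l2 hl2)
        (e2.trans e4.symm)
      rw [e1, e3] at h3
      have hb1 : ∀ l ∈ D, (f l).im = y → |(g l).re| ≤ C / kap ^ p * |y| ^ p := by
        intro l hl hly
        refine (hge l hl).trans ((he2 l hl).trans ?_)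
        have h4 : ‖l - q‖ ≤ |y| / kap := by
          rw [le_div_iff₀ hkap, mul_comm, ← hly]
          exact h1 l hl
        calc C * ‖l - q‖ ^ p ≤ C * (|y| / kap) ^ p :=
              mul_le_mul_of_nonneg_left (pow_le_pow_left₀ (norm_nonneg _) h4 p) hC.le
          _ = C / kap ^ p * |y| ^ p := by
              rw [div_pow]
              ring
      have h5 : |(g l1).re - (g l2).re| ≤ 2 * (C / kap ^ p * |y| ^ p) := by
        have := abs_sub (g l1).re (g l2).re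
        linarith [hb1 l1 hl1 e2, hb1 l2 hl2 e4]
      have h6 : ‖b‖ * |x1 - x2| ≤ 2 * (‖a‖ * (2 * (C / kap ^ p * |y| ^ p))) :=
        h3.trans (by
          have := mul_le_mul_of_nonneg_left h5 ha0.le
          linarith)
      rw [mul_comm, ← le_div_iff₀ hb0] at h6
      refine h6.trans_eq ?_
      ring
    refine (fib_le hd).trans_eq ?_
    congr 1
    ring
  · intro F V hFV
    have h3 : ∫⁻ l in D, ENNReal.ofReal ((e l)⁻¹) * F l ≤
        ∫⁻ l in D, ENNReal.ofReal (c⁻¹ * K ^ p) *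
          (fun z : ℂ => ENNReal.ofReal ((|z.im| ^ p)⁻¹) * V z) (f l) := by
      refine setLIntegral_mono' hD fun l hl => ?_
      have hq0 := hq l hl
      have hy0 : 0 < |(f l).im| := lt_of_lt_of_le (by positivity) (h1 l hl)
      have h4 : (e l)⁻¹ ≤ (c⁻¹ * K ^ p) * (|(f l).im| ^ p)⁻¹ := by
        have h5 : 0 < c * ‖l - q‖ ^ p := by positivity
        have h6 : c⁻¹ * K ^ p * (|(f l).im| ^ p)⁻¹ = (c * (|(f l).im| ^ p / K ^ p))⁻¹ := by
          rw [mul_inv, inv_div]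
          ring
        rw [h6]
        refine inv_anti₀ (by positivity) (le_trans ?_ (he1 l hl))
        refine mul_le_mul_of_nonneg_left ?_ hc.le
        rw [div_le_iff₀ (by positivity), ← mul_pow]
        refine pow_le_pow_left₀ (abs_nonneg _) ?_ p
        rw [mul_comm]
        exact h2 l hl
      show _ ≤ ENNReal.ofReal (c⁻¹ * K ^ p) *
        (ENNReal.ofReal ((|(f l).im| ^ p)⁻¹) * V (f l))
      rw [← mul_assoc, ← ENNReal.ofReal_mul (by positivity)]
      exact mul_le_mul' (ENNReal.ofReal_le_ofReal h4) (hFV l hl)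
    refine h3.trans ?_
    rw [lintegral_const_mul' _ _ ENNReal.ofReal_ne_top]
    have h4 := hcv (fun z : ℂ => ENNReal.ofReal ((|z.im| ^ p)⁻¹) * V z)
    have h5 := mul_le_mul_right h4 (ENNReal.ofReal (c⁻¹ * K ^ p))
    refine h5.trans_eq ?_
    rw [← mul_assoc, ← ENNReal.ofReal_mul (by positivity), mul_comm (c⁻¹ * K ^ p)]
    congr 1
    refine lintegral_congr fun w => ?_
    simp


theorem Br.emb {phi : ℂ → ℂ} {q : ℂ} (B : Br phi q)
    {u : ℂ} (hu : ‖u‖ = 1) {eta rho kap K : ℝ} (h : B.TG u eta rho kap K) (hrho : 2 * rho ≤ 1)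
    {i j : Fin B.k} (hi : (B.a i * u).re = 0) (hj : (B.a j * u).re = 0)
    (hB : B.Below u (Tri q u eta rho) i j) : ∃ rho' : ℝ, 0 < rho' ∧ rho' ≤ rho ∧
      (∀ m, ((B.a m * u).re = 0 → B.Tie u (Tri q u eta rho) m i ∨
          B.Below u (Tri q u eta rho) m i ∨ B.Tie u (Tri q u eta rho) j m ∨
          B.Below u (Tri q u eta rho) j m) →
        ∃ K' : ℝ, ∀ h' : Hardy, ∫⁻ l in B.D u (Tri q u eta rho') i j,
          ENNReal.ofReal ((B.E u i l - B.E u j l)⁻¹) * ‖evr (B.g m l) h'‖ₑ ^ 2 ≤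
            ENNReal.ofReal (K' * ‖h'‖ ^ 2)) ∧
      ∫⁻ l in B.D u (Tri q u eta rho') i j, ENNReal.ofReal ((B.E u i l - B.E u j l)⁻¹) < ⊤ := by
  obtain ⟨p, c, C, -, hc, hC, hs1, hs2⟩ := Br.strip B hu h hrho hi hj hB
  obtain ⟨heta, heta1, hrho0, hkap, hK, hnt, htg⟩ := h
  obtain ⟨ha, r, K0, hr, hrR, hr1, hK0, hbas⟩ := B.bas
  have _ : Nonempty (Fin B.k) := ⟨i⟩
  obtain ⟨j0, hj0⟩ := Finite.exists_min (fun j => ‖B.a j‖)
  obtain ⟨m0, hm0⟩ : ∃ m0 : ℝ, m0 = ‖B.a j0‖ := ⟨_, rfl⟩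
  have hm : 0 < m0 := by rw [hm0]; exact norm_pos_iff.2 (ha j0)
  have hma : ∀ n, m0 ≤ ‖B.a n‖ := fun n => by rw [hm0]; exact hj0 n
  obtain ⟨r0, hr0, hr0r, hr0m⟩ : ∃ r0 : ℝ, 0 < r0 ∧ r0 ≤ r ∧ K0 * r0 ≤ m0 / 8 := by
    refine ⟨min r (m0 / 8 / K0), lt_min hr (by positivity), min_le_left _ _, ?_⟩
    have := min_le_right r (m0 / 8 / K0)
    calc K0 * min r (m0 / 8 / K0) ≤ K0 * (m0 / 8 / K0) := mul_le_mul_of_nonneg_left this hK0.le
      _ = m0 / 8 := by field_simp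
  obtain ⟨rho', hrho'0, hrho'r, hrho'2⟩ : ∃ rho' : ℝ, 0 < rho' ∧ rho' ≤ rho ∧ 2 * rho' ≤ r0 :=
    ⟨min rho (r0 / 2), lt_min hrho0 (by positivity), min_le_left _ _, by
      have := min_le_right rho (r0 / 2)
      linarith⟩
  have hTT : ∀ l ∈ Tri q u eta rho', l ∈ Tri q u eta rho := fun l hl =>
    ⟨hl.1, hl.2.trans_le hrho'r⟩
  have hTb : ∀ l ∈ Tri q u eta rho', l ∈ ball q r0 := by
    intro l hl
    rw [mem_ball, dist_eq_norm]
    exact (tri_b hu heta heta1 hl).2.trans_le hrho'2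
  have hTq : ∀ l ∈ Tri q u eta rho', 0 < ‖l - q‖ := fun l hl => (tri_b hu heta heta1 hl).1
  -- the set `D`
  obtain ⟨D, hDdef⟩ : ∃ D : Set ℂ, D = B.D u (Tri q u eta rho') i j := ⟨_, rfl⟩
  have hDT : ∀ l ∈ D, l ∈ Tri q u eta rho' := by
    intro l hl
    rw [hDdef] at hl
    exact hl.1
  have hDD : ∀ l ∈ D, l ∈ B.D u (Tri q u eta rho) i j := by
    intro l hl
    rw [hDdef] at hl
    exact ⟨hTT l hl.1, hl.2⟩
  have hLc : ∀ n, ContinuousOn (B.L n) (Tri q u eta rho') := fun n =>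
    (hbas n).1.continuousOn.mono fun l hl => ball_subset_ball hr0r (hTb l hl)
  have hDm : MeasurableSet D := by
    rw [hDdef]
    exact meas_D (tri_o q u eta rho') (E_cont B u i (hLc i)) (E_cont B u j (hLc j))
  have hli : ∀ n, ∀ l1 ∈ D, ∀ l2 ∈ D,
      ‖B.L n l1 - B.L n l2 - B.a n * (l1 - l2)‖ ≤ m0 / 8 * ‖l1 - l2‖ := fun n l1 h1 l2 h2 =>
    lips (hbas n).1 (fun l hl => ((hbas n).2.2.2 l hl).2.2.2.2.2.1) hK0.le hr0r hr0m
      (hTb l1 (hDT l1 h1)) (hTb l2 (hDT l2 h2))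
  have hDr : ∀ l ∈ D, l ∈ ball q r := fun l hl => ball_subset_ball hr0r (hTb l (hDT l hl))
  have hder : ∀ n, ∀ l ∈ D, HasDerivAt (B.L n) (deriv (B.L n) l) l := fun n l hl =>
    ((hbas n).1 l (hDr l hl)).differentiableAt.hasDerivAt
  have hder2 : ∀ n, ∀ l ∈ D, m0 / 2 ≤ ‖deriv (B.L n) l‖ := by
    intro n l hl
    have h1 := ((hbas n).2.2.2 l (hDr l hl)).2.2.2.2.2.1
    have h2 : K0 * ‖l - q‖ ≤ m0 / 8 := by
      refine le_trans (mul_le_mul_of_nonneg_left ?_ hK0.le) hr0m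
      rw [← dist_eq_norm]
      exact (mem_ball.1 (hTb l (hDT l hl))).le
    have h3 : ‖B.a n‖ ≤ ‖deriv (B.L n) l‖ + ‖deriv (B.L n) l - B.a n‖ := by
      have h4 : B.a n = deriv (B.L n) l - (deriv (B.L n) l - B.a n) := by ring
      conv_lhs => rw [h4]
      exact norm_sub_le _ _
    have h4 := hma n
    linarith
  have hinj : ∀ n, InjOn (B.L n) D := fun n => (hbas n).2.2.1.mono fun l hl => hDr l hl
  have hgap1 : ∀ l ∈ D, c * ‖l - q‖ ^ p ≤ B.E u i l - B.E u j l := fun l hl =>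
    (hs1 l (hTT l (hDT l hl)) (hDD l hl).2.1 (hDD l hl).2.2.1).1
  have hgap2 : ∀ l ∈ D, B.E u i l - B.E u j l ≤ C * ‖l - q‖ ^ p := fun l hl =>
    (hs1 l (hTT l (hDT l hl)) (hDD l hl).2.1 (hDD l hl).2.2.1).2
  have hge : ∀ l ∈ D, |(B.L i l).re| ≤ B.E u i l - B.E u j l := by
    intro l hl
    have h1 := (hDD l hl).2.1
    have h2 := (hDD l hl).2.2.1
    rw [← E_abs B u i l, abs_of_pos h1]
    linarith
  have hkey := fun (n : Fin B.k) (hn : (B.a n * u).re = 0) =>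
    key (e := fun l => B.E u i l - B.E u j l) hDm hu hm hkap hK hc hC (hma n) (hma i) hn hi
      (hder n) (hder2 n) (hinj n) (hli n) (hli i) (fun l hl => hTq l (hDT l hl))
      (fun l hl => (htg n hn l (hTT l (hDT l hl))).2.2.1)
      (fun l hl => (htg n hn l (hTT l (hDT l hl))).2.2.2.1) hgap1 hgap2 hge
  have hyn : ∀ n, (B.a n * u).re = 0 → ∀ l ∈ D, (B.L n l).im ≠ 0 ∧ |(B.L n l).im| ≤ 1 := by
    intro n hn l hl
    have h1 := (htg n hn l (hTT l (hDT l hl))).2.2.1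
    refine ⟨?_, (Complex.abs_im_le_norm _).trans ((hbas n).2.2.2 l (hDr l hl)).2.2.2.2.1⟩
    rw [← abs_pos]
    exact lt_of_lt_of_le (mul_pos hkap (hTq l (hDT l hl))) h1
  refine ⟨rho', hrho'0, hrho'r, ?_⟩
  rw [← hDdef]
  refine ⟨?_, ?_⟩
  · intro m hm4
    by_cases hmt : (B.a m * u).re = 0
    · -- tangent
      obtain ⟨p', c', C', hp', hc', hC', hs3⟩ := hs2 m hmt (hm4 hmt)
      obtain ⟨D', C0, c1, hD'm, hC0, hc1, hD'1, hD'2, hD'3⟩ := hkey m hmt
      have hz0 : ‖B.g m q‖ = 1 := B.norm_q m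
      obtain ⟨Cm, hCm0, hCm1, hCm2⟩ : ∃ Cm : ℝ, 0 < Cm ∧ C' / kap ^ p' ≤ Cm ∧ C0 ≤ Cm :=
        ⟨max (C' / kap ^ p') C0, lt_max_of_lt_right hC0, le_max_left _ _, le_max_right _ _⟩
      obtain ⟨Kt, hKt, hte⟩ := tang_embed p p' hp' (c := c' / K ^ p') (C := Cm) (by positivity) hCm0
      have hw : ∀ w ∈ D', w.2 ≠ 0 ∧ |w.2| ≤ 1 ∧ c' / K ^ p' * |w.2| ^ p' ≤ |w.1| ∧
          |w.1| ≤ Cm * |w.2| ^ p' := by
        intro w hw
        obtain ⟨l, hl, hlw⟩ := hD'1 w hw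
        have e1 : (B.L m l).re = w.1 := by rw [hlw]; simp
        have e2 : (B.L m l).im = w.2 := by rw [hlw]; simp
        obtain ⟨h1, h2⟩ := hyn m hmt l hl
        obtain ⟨-, -, h3, h4, -⟩ := htg m hmt l (hTT l (hDT l hl))
        obtain ⟨h5, h6⟩ := hs3 l (hDD l hl)
        rw [e2] at h1 h2 h3 h4
        rw [e1] at h5 h6
        refine ⟨h1, h2, le_trans ?_ h5, h6.trans ?_⟩
        · have h7 : |w.2| ^ p' ≤ K ^ p' * ‖l - q‖ ^ p' := by
            rw [← mul_pow]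
            exact pow_le_pow_left₀ (abs_nonneg _) h4 p'
          calc c' / K ^ p' * |w.2| ^ p' ≤ c' / K ^ p' * (K ^ p' * ‖l - q‖ ^ p') :=
                mul_le_mul_of_nonneg_left h7 (by positivity)
            _ = c' * ‖l - q‖ ^ p' := by field_simp
        · have h7 : kap ^ p' * ‖l - q‖ ^ p' ≤ |w.2| ^ p' := by
            rw [← mul_pow]
            exact pow_le_pow_left₀ (by positivity) h3 p'
          calc C' * ‖l - q‖ ^ p' = C' / kap ^ p' * (kap ^ p' * ‖l - q‖ ^ p') := by field_simp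
            _ ≤ C' / kap ^ p' * |w.2| ^ p' := mul_le_mul_of_nonneg_left h7 (by positivity)
            _ ≤ Cm * |w.2| ^ p' := mul_le_mul_of_nonneg_right hCm1 (by positivity)
      have hfib : ∀ y : ℝ, volume {x : ℝ | (x, y) ∈ D'} ≤ ENNReal.ofReal (Cm * |y| ^ p) :=
        fun y => (hD'2 y).trans (ENNReal.ofReal_le_ofReal
          (mul_le_mul_of_nonneg_right hCm2 (by positivity)))
      refine ⟨c1 * (2 * Kt), fun h' => ?_⟩
      have hV := hD'3 (fun l => ‖evr (B.g m l) h'‖ₑ ^ 2)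
        (fun w => ‖evr (B.g m q * Complex.exp w) h'‖ₑ ^ 2) (by
          intro l hl
          rw [← ((hbas m).2.2.2 l (hDr l hl)).1])
      refine hV.trans ?_
      -- the two parts
      obtain ⟨D1, hD1⟩ : ∃ D1 : Set (ℝ × ℝ), D1 = D' ∩ {w : ℝ × ℝ | w.1 < 0} := ⟨_, rfl⟩
      obtain ⟨D2, hD2⟩ : ∃ D2 : Set (ℝ × ℝ), D2 = D' ∩ {w : ℝ × ℝ | 0 < w.1} := ⟨_, rfl⟩
      have hm1 : MeasurableSet D1 := by
        rw [hD1]
        exact hD'm.inter (measurableSet_lt measurable_fst measurable_const)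
      have hm2 : MeasurableSet D2 := by
        rw [hD2]
        exact hD'm.inter (measurableSet_lt measurable_const measurable_fst)
      have hsub : D' ⊆ D1 ∪ D2 := by
        intro w hwD
        obtain ⟨h1, h2, h3, h4⟩ := hw w hwD
        have h5 : 0 < |w.1| := lt_of_lt_of_le (by positivity) h3
        rcases lt_or_gt_of_ne (abs_pos.1 h5) with h6 | h6
        · left
          rw [hD1]
          exact ⟨hwD, h6⟩
        · right
          rw [hD2]
          exact ⟨hwD, h6⟩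
      have hI1 : ∫⁻ w in D1, ENNReal.ofReal ((|w.2| ^ p)⁻¹) *
          ‖evr (B.g m q * Complex.exp (w.1 + w.2 * I)) h'‖ₑ ^ 2 ≤
            ENNReal.ofReal (Kt * ‖h'‖ ^ 2) := by
        refine le_trans (le_of_eq ?_) (hte (B.g m q) hz0 D1 hm1 ?_ ?_ h')
        · refine setLIntegral_congr_fun hm1 fun w hwD => ?_
          rw [hD1] at hwD
          show ENNReal.ofReal ((|w.2| ^ p)⁻¹) *
            ‖evr (B.g m q * Complex.exp (w.1 + w.2 * I)) h'‖ₑ ^ 2 = ENNReal.ofReal ((|w.2| ^ p)⁻¹) *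
              ENNReal.ofReal (‖ev (B.g m q * Complex.exp (w.1 + w.2 * I)) h'‖ ^ 2)
          rw [evr_neg hz0 w.2 hwD.2, ENNReal.ofReal_pow (norm_nonneg _), ofReal_norm]
        · intro w hwD
          rw [hD1] at hwD
          obtain ⟨h1, h2, h3, h4⟩ := hw w hwD.1
          have h5 : |w.1| = -w.1 := abs_of_neg hwD.2
          rw [h5] at h3 h4
          exact ⟨h1, h2, h3, h4⟩
        · intro y
          refine le_trans (measure_mono ?_) (hfib y)
          intro x hx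
          have hx' : (x, y) ∈ D1 := hx
          rw [hD1] at hx'
          exact hx'.1
      have hI2 : ∫⁻ w in D2, ENNReal.ofReal ((|w.2| ^ p)⁻¹) *
          ‖evr (B.g m q * Complex.exp (w.1 + w.2 * I)) h'‖ₑ ^ 2 ≤
            ENNReal.ofReal (Kt * ‖h'‖ ^ 2) := by
        obtain ⟨hr1, hr2⟩ := refl_lint hm2 (fun w : ℝ × ℝ => ENNReal.ofReal ((|w.2| ^ p)⁻¹) *
          ‖evr (B.g m q * Complex.exp (w.1 + w.2 * I)) h'‖ₑ ^ 2)
        rw [hr2]
        refine le_trans (le_of_eq ?_) (hte (B.g m q) hz0 _ hr1 ?_ ?_ h')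
        · refine setLIntegral_congr_fun hr1 fun w hwD => ?_
          have hwD' : (-w.1, w.2) ∈ D2 := hwD
          rw [hD2] at hwD'
          have hneg : w.1 < 0 := by
            have h9 : 0 < -w.1 := hwD'.2
            linarith
          show ENNReal.ofReal ((|w.2| ^ p)⁻¹) *
            ‖evr (B.g m q * Complex.exp (((-w.1 : ℝ) : ℂ) + w.2 * I)) h'‖ₑ ^ 2 =
              ENNReal.ofReal ((|w.2| ^ p)⁻¹) *
              ENNReal.ofReal (‖ev (B.g m q * Complex.exp (w.1 + w.2 * I)) h'‖ ^ 2)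
          rw [evr_pos hz0 w.2 hneg, ENNReal.ofReal_pow (norm_nonneg _), ofReal_norm]
        · intro w hwD
          have hwD' : (-w.1, w.2) ∈ D2 := hwD
          rw [hD2] at hwD'
          obtain ⟨h1, h2, h3, h4⟩ := hw _ hwD'.1
          have h9 : 0 < -w.1 := hwD'.2
          have h5 : |(-w.1, w.2).1| = -w.1 := abs_of_pos h9
          rw [h5] at h3 h4
          exact ⟨h1, h2, h3, h4⟩
        · intro y
          rw [refl_fib]
          refine le_trans (measure_mono ?_) (hfib y)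
          intro x hx
          have hx' : (x, y) ∈ D2 := hx
          rw [hD2] at hx'
          exact hx'.1
      have hI : ∫⁻ w in D', ENNReal.ofReal ((|w.2| ^ p)⁻¹) *
          ‖evr (B.g m q * Complex.exp (w.1 + w.2 * I)) h'‖ₑ ^ 2 ≤
            ENNReal.ofReal (2 * Kt * ‖h'‖ ^ 2) := by
        refine (lintegral_mono_set hsub).trans ((lintegral_union_le _ _ _).trans ?_)
        refine (add_le_add hI1 hI2).trans_eq ?_
        rw [← ENNReal.ofReal_add (by positivity) (by positivity)]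
        congr 1
        ring
      calc _ ≤ ENNReal.ofReal c1 * ENNReal.ofReal (2 * Kt * ‖h'‖ ^ 2) := mul_le_mul_right hI _
        _ = ENNReal.ofReal (c1 * (2 * Kt) * ‖h'‖ ^ 2) := by
            rw [← ENNReal.ofReal_mul hc1]
            congr 1
            ring
    · -- not tangent
      obtain ⟨D', C0, c1, hD'm, hC0, hc1, hD'1, hD'2, hD'3⟩ := hkey i hi
      have hz0 : ‖B.g m q‖ = 1 := B.norm_q m
      obtain ⟨c2, hc2, hc21, hc22⟩ : ∃ c2 : ℝ, 0 < c2 ∧ 2 * c2 ≤ 1 ∧ 2 * c2 ≤ kap / K := by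
        refine ⟨min (kap / K) 1 / 2, by positivity, ?_, ?_⟩
        · have := min_le_right (kap / K) 1
          linarith
        · have := min_le_left (kap / K) 1
          linarith
      obtain ⟨Kt, hKt, hte⟩ := nt_thin p hc2 hC0
      refine ⟨c1 * Kt, fun h' => ?_⟩
      have hV := hD'3 (fun l => ‖evr (B.g m l) h'‖ₑ ^ 2)
        (fun w => ENNReal.ofReal (FF h' (1 - c2 * |w.im|) ^ 2)) (by
          intro l hl
          obtain ⟨hy0, hy1⟩ := hyn i hi l hl
          obtain ⟨h1, h2, -⟩ := (hbas m).2.2.2 l (hDr l hl)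
          have hz : B.g m l ≠ 0 := by
            rw [h1]
            refine mul_ne_zero ?_ (Complex.exp_ne_zero _)
            intro h0
            rw [h0, norm_zero] at hz0
            exact zero_ne_one hz0
          have hre : kap * ‖l - q‖ ≤ |(B.L m l).re| := by
            rcases hnt m hmt with h3 | h3
            · exact (h3 l (hTT l (hDT l hl))).trans (le_abs_self _)
            · have := h3 l (hTT l (hDT l hl))
              exact (by linarith : kap * ‖l - q‖ ≤ -(B.L m l).re).trans (neg_le_abs _)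
          have him := (htg i hi l (hTT l (hDT l hl))).2.2.2.1
          have hd1 : 2 * c2 * |(B.L i l).im| ≤ |Real.log ‖B.g m l‖| := by
            rw [← h2]
            refine le_trans ?_ hre
            calc 2 * c2 * |(B.L i l).im| ≤ kap / K * (K * ‖l - q‖) :=
                  mul_le_mul hc22 him (abs_nonneg _) (by positivity)
              _ = kap * ‖l - q‖ := by field_simp
          have hpos : 0 < 2 * c2 * |(B.L i l).im| := by
            have := abs_pos.2 hy0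
            positivity
          have hle : 2 * c2 * |(B.L i l).im| ≤ 1 := by
            have := abs_nonneg (B.L i l).im
            nlinarith
          have h4 := evr_le hpos hle hz hd1 h'
          have h5 : 1 - 2 * c2 * |(B.L i l).im| / 2 = 1 - c2 * |(B.L i l).im| := by ring
          rw [h5] at h4
          rw [← ofReal_norm, ← ENNReal.ofReal_pow (norm_nonneg _)]
          exact ENNReal.ofReal_le_ofReal (pow_le_pow_left₀ (norm_nonneg _) h4 2))
      refine hV.trans ?_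
      have hI := hte 1 one_pos (by linarith) D' hD'm (fun w hw => by
        obtain ⟨l, hl, hlw⟩ := hD'1 w hw
        have e2 : (B.L i l).im = w.2 := by rw [hlw]; simp
        rw [← e2]
        exact hyn i hi l hl) hD'2 h'
      have hI' : ∫⁻ w in D', ENNReal.ofReal ((|w.2| ^ p)⁻¹) *
          ENNReal.ofReal (FF h' (1 - c2 * |((w.1 : ℂ) + w.2 * I).im|) ^ 2) ≤
            ENNReal.ofReal (Kt * ‖h'‖ ^ 2) := by
        refine le_trans (le_of_eq ?_) hI
        refine lintegral_congr fun w => ?_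
        simp
      calc _ ≤ ENNReal.ofReal c1 * ENNReal.ofReal (Kt * ‖h'‖ ^ 2) := mul_le_mul_right hI' _
        _ = ENNReal.ofReal (c1 * Kt * ‖h'‖ ^ 2) := by
            rw [← ENNReal.ofReal_mul hc1]
            congr 1
            ring
  · obtain ⟨D', C0, c1, hD'm, hC0, hc1, hD'1, hD'2, hD'3⟩ := hkey i hi
    have hV := hD'3 (fun _ => 1) (fun _ => 1) (fun _ _ => le_rfl)
    simp only [mul_one] at hV
    refine hV.trans_lt (ENNReal.mul_lt_top ENNReal.ofReal_lt_top ?_)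
    refine thin_fin hD'm (fun w hw => ?_) hD'2
    obtain ⟨l, hl, hlw⟩ := hD'1 w hw
    have e2 : (B.L i l).im = w.2 := by rw [hlw]; simp
    rw [← e2]
    exact hyn i hi l hl

end Pool.Agent.TBirC
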