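import Pool.Agent.TBirC.Chn
import Pool.Agent.TBirE.ThF
import Pool.Agent.TBirC.Emb

/-!
# The cutoff function around a tangent direction

Paper proof. `r, K0` from `Br.bas`; `eta, rho, kap, K` from `Br.tg` with `2 rho ≤ min r 1`, and so small that `hcov` holds on
`Tri q u eta rho` (`‖l - q‖ ≤ 2 rho`, `q ∉ Tri`): this is `B.TG u eta rho kap K` (definition in TBirE/Bas). `Br.ord` gives a
smaller `rho`, then `Br.chain` gives `m, r, col`. For each of the finitely many pairs `a`, `b = a + 1` with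
`col a ≠ col b`, `Below (r a) (r b)` holds and `Br.emb` gives a smaller `rho'`; take the minimum over these pairs. All the
data restrict to the smaller triangle `W`. `thin_fun` with `E a = B.E u (r a)` (`C^1` on `W`: real and imaginary parts of
analytic functions; `hch`, `hst` from `Tie` and `Below`) gives `f`. For `l ∈ W ∩ S ∩ U1` one of the four cases of
`thin_fun` applies: take the largest `a` with `0 ≤ E a l`, if there is one; (i) no such `a`: `E 0 l < 0`; (ii) `E a l = 0`;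
(iii) `0 < E a l`, `a` last; (iv) `0 < E a l`, `E (a+1) l < 0`. In all cases `col a = 1` (the colour `0` gives
`l ∈ U2`, disjoint from `U1`), so `f = 1` near `l`. Likewise for `U2`.
If `dbar f l ≠ 0` or `f l ∉ {0, 1}` then `l ∈ D (r a) (r b)` for a pair `a`, `b` as above (last clause of `thin_fun`). There
`|(L j l).re| ≥ c ‖l - q‖^p` for every `j`: by `TG` if `j` is not tangent, and by `Br.strip` if `j = r c` is tangent: for
`c ≤ a` `Tie (r c) (r a)` (trivially if `c = a`) or `Below (r c) (r a)`, for `b ≤ c` `Tie (r b) (r c)` or `Below (r b) (r c)`;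
take the largest exponent, `‖l - q‖ ≤ 1`. The integrals over `W` are at most the sums over the pairs of the
integrals over `D (r a) (r b)` with `‖dbar f l‖ ≤ C / (E a l - E b l)`, finite by `Br.emb`.
-/

set_option autoImplicit false

open MeasureTheory Complex Set Filter Topology Metric AddCircle
open scoped ComplexConjugate InnerProductSpace ENNReal
open Pool.Lib (dbar)

namespace Pool.Agent.TBirC

open Pool.Agent.TBirE

open Pool.Agent.TBir Pool.Agent.TBirG
open Pool.Agent.TBirM (Tri)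
open Pool.Agent.TBirS (Sg)

private theorem isOpen_Tri (q u : ℂ) (eta rho : ℝ) : IsOpen (Tri q u eta rho) := by
  have h1 : Continuous fun l : ℂ => |((l - q) * conj u).im| := by fun_prop
  have h2 : Continuous fun l : ℂ => eta * ((l - q) * conj u).re := by fun_prop
  have h3 : Continuous fun l : ℂ => ((l - q) * conj u).re := by fun_prop
  exact (isOpen_lt h1 h2).inter (isOpen_lt h3 continuous_const)

private theorem Tri_mono {q u : ℂ} {eta rho rho' : ℝ} (h : rho' ≤ rho) :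
    Tri q u eta rho' ⊆ Tri q u eta rho := fun _ hl => ⟨hl.1, hl.2.trans_le h⟩

private theorem Tri_norm {q u l : ℂ} {eta rho : ℝ} (hu : ‖u‖ = 1) (he0 : 0 < eta) (he : eta ≤ 1)
    (hl : l ∈ Tri q u eta rho) : 0 < ‖l - q‖ ∧ ‖l - q‖ < 2 * rho := by
  obtain ⟨h1, h2⟩ := hl
  have h3 : ‖(l - q) * conj u‖ = ‖l - q‖ := by
    rw [norm_mul, Complex.norm_conj, hu, mul_one]
  have h4 : 0 < ((l - q) * conj u).re := by
    have h5 := (abs_nonneg _).trans_lt h1
    exact pos_of_mul_pos_right h5 he0.le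
  rw [← h3]
  refine ⟨h4.trans_le ((le_abs_self _).trans (Complex.abs_re_le_norm _)), ?_⟩
  refine (Complex.norm_le_abs_re_add_abs_im _).trans_lt ?_
  rw [abs_of_pos h4]
  have h5 : eta * ((l - q) * conj u).re ≤ 1 * ((l - q) * conj u).re :=
    mul_le_mul_of_nonneg_right he h4.le
  linarith

private theorem TG_mono {phi : ℂ → ℂ} {q : ℂ} {B : Br phi q} {u : ℂ} {eta rho rho' kap K : ℝ}
    (h : B.TG u eta rho kap K) (h0 : 0 < rho') (hr : rho' ≤ rho) : B.TG u eta rho' kap K := by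
  obtain ⟨h1, h2, h3, h4, h5, h6, h7⟩ := h
  refine ⟨h1, h2, h0, h4, h5, fun j hj => ?_, fun j hj l hl => h7 j hj l (Tri_mono hr hl)⟩
  rcases h6 j hj with h8 | h8
  · exact Or.inl fun l hl => h8 l (Tri_mono hr hl)
  · exact Or.inr fun l hl => h8 l (Tri_mono hr hl)

private theorem D_mono {phi : ℂ → ℂ} {q : ℂ} {B : Br phi q} {u : ℂ} {W W' : Set ℂ} (h : W ⊆ W')
    (i j : Fin B.k) : B.D u W i j ⊆ B.D u W' i j := fun _ hl => ⟨h hl.1, hl.2⟩

private theorem Tie_refl {phi : ℂ → ℂ} {q : ℂ} (B : Br phi q) (u : ℂ) (W : Set ℂ) (i : Fin B.k) :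
    B.Tie u W i i := fun _ _ => ⟨Iff.rfl, Iff.rfl⟩

/-- a common lower bound -/
private theorem ex_min {α : Type} [Finite α] (r : α → ℝ) (hr : ∀ a, 0 < r a) (r1 : ℝ) (h1 : 0 < r1) :
    ∃ r0 : ℝ, 0 < r0 ∧ r0 ≤ r1 ∧ ∀ a, r0 ≤ r a := by
  rcases isEmpty_or_nonempty α with he | he
  · exact ⟨r1, h1, le_rfl, fun a => he.elim a⟩
  · obtain ⟨a0, ha0⟩ := Finite.exists_min r
    exact ⟨min r1 (r a0), lt_min h1 (hr a0), min_le_left _ _, fun a =>
      (min_le_right _ _).trans (ha0 a)⟩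

private theorem ex_max {α : Type} [Finite α] (p : α → ℕ) : ∃ p0 : ℕ, ∀ a, p a ≤ p0 := by
  rcases isEmpty_or_nonempty α with he | he
  · exact ⟨0, fun a => he.elim a⟩
  · obtain ⟨a0, ha0⟩ := Finite.exists_max p
    exact ⟨p a0, ha0⟩

private theorem meas_D {phi : ℂ → ℂ} {q : ℂ} {B : Br phi q} {u : ℂ} {W : Set ℂ} (hW : IsOpen W)
    {i j : Fin B.k} (hi : ContinuousOn (B.E u i) W) (hj : ContinuousOn (B.E u j) W) :
    MeasurableSet (B.D u W i j) := by
  have h1 : Measurable fun x : W => B.E u i x := (continuousOn_iff_continuous_domRestrict.1 hi).measurable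
  have h2 : Measurable fun x : W => B.E u j x := (continuousOn_iff_continuous_domRestrict.1 hj).measurable
  have e : B.D u W i j = (fun x : W => (x : ℂ)) '' {x : W | 0 < B.E u i x ∧ B.E u j x < 0 ∧
      B.E u i x - B.E u j x ≤ 4 * B.E u i x ∧ B.E u i x - B.E u j x ≤ 4 * -B.E u j x} := by
    ext l
    constructor
    · intro hl
      exact ⟨⟨l, hl.1⟩, hl.2, rfl⟩
    · rintro ⟨x, hx, rfl⟩
      exact ⟨x.2, hx⟩
  rw [e]
  refine hW.measurableSet.subtype_image ?_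
  exact (measurableSet_lt measurable_const h1).inter ((measurableSet_lt h2 measurable_const).inter
    ((measurableSet_le (h1.sub h2) (h1.const_mul 4)).inter
      (measurableSet_le (h1.sub h2) (h2.neg.const_mul 4))))

private theorem contDiff_E {phi : ℂ → ℂ} {q : ℂ} (B : Br phi q) (u : ℂ) {r : ℝ} {j : Fin B.k}
    (h : AnalyticOnNhd ℂ (B.L j) (ball q r)) : ContDiffOn ℝ 1 (B.E u j) (ball q r) := by
  have h1 : ContDiffOn ℂ 1 (B.L j) (ball q r) := h.contDiffOn isOpen_ball.uniqueDiffOn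
  have h2 : ContDiffOn ℝ 1 (fun l => (B.L j l).re) (ball q r) :=
    Complex.reCLM.contDiff.comp_contDiffOn (h1.restrict_scalars ℝ)
  by_cases hc : (B.a j * u).im < 0
  · have h3 : B.E u j = fun l => (B.L j l).re := by
      funext l
      simp only [Br.E, hc, if_true]
    rw [h3]
    exact h2
  · have h3 : B.E u j = fun l => -(B.L j l).re := by
      funext l
      simp only [Br.E, hc, if_false]
    rw [h3]
    exact h2.neg

/-- The integral over `W` of a function which vanishes outside the sets `D a`. -/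
private theorem lint_le {α : Type} [Fintype α] {W : Set ℂ} (hW : MeasurableSet W) {D : α → Set ℂ}
    (hD : ∀ a, MeasurableSet (D a)) (F : ℂ → ℝ≥0∞) (h : ∀ l ∈ W, (∀ a, l ∉ D a) → F l = 0) :
    ∫⁻ l in W, F l ≤ ∑ a, ∫⁻ l in D a, F l := by
  have hS : MeasurableSet (⋃ a, D a) := MeasurableSet.iUnion hD
  rw [← lintegral_inter_add_sdiff F W hS]
  have h1 : ∫⁻ l in W \ ⋃ a, D a, F l = 0 := by
    rw [setLIntegral_congr_fun (hW.diff hS) (g := fun _ => 0) (fun l hl => h l hl.1 fun a ha =>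
      hl.2 (mem_iUnion.2 ⟨a, ha⟩))]
    simp
  rw [h1, add_zero]
  refine (lintegral_mono_set inter_subset_right).trans ?_
  refine (lintegral_iUnion_le _ _).trans ?_
  rw [tsum_fintype]

theorem Br.dsol {phi : ℂ → ℂ} {q : ℂ} (B : Br phi q) {x : ℤ} {S : Set ℂ} (hD : B.Des x S)
    {u : ℂ} (hu : ‖u‖ = 1) (hT : ∃ j, (B.a j * u).re = 0) {U1 U2 : Set ℂ} (o1 : IsOpen U1)
    (o2 : IsOpen U2) (hdis : Disjoint U1 U2)
    (hcov : ∀ᶠ l in 𝓝 q, l ∈ S → l ≠ q → l ∈ U1 ∨ l ∈ U2) : DSol B S U1 U2 u := by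
  classical
  obtain ⟨hane, r, K0, hr, hrR, hr1, hK0, hbas⟩ := B.bas
  obtain ⟨rD, hrD, hDes⟩ := hD
  obtain ⟨δ0, hδ0, hδ0'⟩ := Metric.eventually_nhds_iff_ball.1 hcov
  obtain ⟨δ, hδe⟩ : ∃ δ : ℝ, δ = min δ0 rD := ⟨_, rfl⟩
  have hδ : 0 < δ := by rw [hδe]; exact lt_min hδ0 hrD
  have hδ' : ∀ l ∈ ball q δ, l ∈ S → l ≠ q → l ∈ U1 ∨ l ∈ U2 := fun l hl =>
    hδ0' l (ball_subset_ball (by rw [hδe]; exact min_le_left _ _) hl)
  obtain ⟨eta, rho1, kap, K, he0, he1, hrho1, hrho1', hkap, hK, htg1, htg2⟩ :=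
    B.tg hu (r := min (min r 1) δ) (lt_min (lt_min hr one_pos) hδ)
  have hTG1 : B.TG u eta rho1 kap K := ⟨he0, he1, hrho1, hkap, hK, htg1, htg2⟩
  have b1 : 2 * rho1 ≤ r := hrho1'.trans ((min_le_left _ _).trans (min_le_left _ _))
  have b2 : 2 * rho1 ≤ 1 := hrho1'.trans ((min_le_left _ _).trans (min_le_right _ _))
  have b3 : 2 * rho1 ≤ δ := hrho1'.trans (min_le_right _ _)
  obtain ⟨rho, hrho, hrhole, hord⟩ := B.ord hu hTG1
  have hTG : B.TG u eta rho kap K := TG_mono hTG1 hrho hrhole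
  have hcovW : ∀ l ∈ Tri q u eta rho, l ∈ S → l ∈ U1 ∨ l ∈ U2 := by
    intro l hl hS
    obtain ⟨h1, h2⟩ := Tri_norm hu he0 he1 hl
    refine hδ' l ?_ hS ?_
    · rw [mem_ball, dist_eq_norm]
      linarith
    · intro h0
      rw [h0, sub_self, norm_zero] at h1
      exact lt_irrefl _ h1
  have hDW : ∀ l ∈ Tri q u eta rho, ((∃ j, ‖B.g j l‖ = 1) → l ∈ S) ∧
      ((∀ j, ‖B.g j l‖ ≠ 1) →
        (l ∈ S ↔ x + ((Finset.univ.filter fun j => ‖B.g j l‖ < 1).card : ℤ) ≠ 0)) := by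
    intro l hl
    obtain ⟨h1, h2⟩ := Tri_norm hu he0 he1 hl
    refine hDes l ?_
    have h3 : δ ≤ rD := by rw [hδe]; exact min_le_right _ _
    rw [mem_ball, dist_eq_norm]
    linarith
  obtain ⟨m, rr, col, hm, c0, c0', ccol, c1, c2, c3, c4, c5, c6⟩ :=
    B.chain hu hT o1 o2 hdis hTG (r0 := r)
      (fun j => ⟨(hbas j).1, fun l hl => by
        obtain ⟨d1, -, d3, d4, -⟩ := (hbas j).2.2.2 l hl
        exact ⟨d1, d3, d4⟩⟩) (by linarith) hrR hord hDW hcovW
  have hbelow : ∀ a b : Fin m, (b : ℕ) = a + 1 → col a ≠ col b →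
      B.Below u (Tri q u eta rho) (rr a) (rr b) := by
    intro a b hab hcol
    have hlt : a < b := Fin.lt_def.2 (by omega)
    rcases c1 a b hlt with h1 | h1
    · exact absurd (c2 a b hlt h1) hcol
    · exact h1
  have hrel : ∀ a b : Fin m, (b : ℕ) = a + 1 → ∀ j, (B.a j * u).re = 0 →
      B.Tie u (Tri q u eta rho) j (rr a) ∨ B.Below u (Tri q u eta rho) j (rr a) ∨
        B.Tie u (Tri q u eta rho) (rr b) j ∨ B.Below u (Tri q u eta rho) (rr b) j := by
    intro a b hab j hj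
    obtain ⟨c, rfl⟩ := c0' j hj
    rcases lt_trichotomy c a with h1 | h1 | h1
    · rcases c1 c a h1 with h2 | h2
      · exact Or.inl h2
      · exact Or.inr (Or.inl h2)
    · subst h1
      exact Or.inl (Tie_refl B u _ _)
    · by_cases h2 : b = c
      · subst h2
        exact Or.inr (Or.inr (Or.inl (Tie_refl B u _ _)))
      · have h3 : b < c := by
          rw [Fin.lt_def] at h1 ⊢
          have h4 : (b : ℕ) ≠ c := fun h => h2 (Fin.ext h)
          omega
        rcases c1 b c h3 with h2 | h2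
        · exact Or.inr (Or.inr (Or.inl h2))
        · exact Or.inr (Or.inr (Or.inr h2))
  have hb2 : 2 * rho ≤ 1 := by linarith
  -- the pairs
  let P : Type := {p : Fin m × Fin m // (p.2 : ℕ) = p.1 + 1 ∧ col p.1 ≠ col p.2}
  have hemb : ∀ p : P, ∃ rho' : ℝ, 0 < rho' ∧ rho' ≤ rho ∧
      (∀ j, ∃ K' : ℝ, ∀ h' : Hardy, ∫⁻ l in B.D u (Tri q u eta rho') (rr p.1.1) (rr p.1.2),
          ENNReal.ofReal ((B.E u (rr p.1.1) l - B.E u (rr p.1.2) l)⁻¹) * ‖evr (B.g j l) h'‖ₑ ^ 2 ≤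
            ENNReal.ofReal (K' * ‖h'‖ ^ 2)) ∧
      ∫⁻ l in B.D u (Tri q u eta rho') (rr p.1.1) (rr p.1.2),
        ENNReal.ofReal ((B.E u (rr p.1.1) l - B.E u (rr p.1.2) l)⁻¹) < ⊤ := by
    intro p
    obtain ⟨rho', h1, h2, h3, h4⟩ := B.emb hu hTG hb2 (c0 p.1.1) (c0 p.1.2)
      (hbelow _ _ p.2.1 p.2.2)
    exact ⟨rho', h1, h2, fun j => h3 j (hrel _ _ p.2.1 j), h4⟩
  choose rh hrh0 hrh1 hrhK hrhT using hemb
  obtain ⟨rho3, hrho3, hrho3le, hrho3'⟩ := ex_min rh hrh0 rho hrho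
  have hWsub : Tri q u eta rho3 ⊆ Tri q u eta rho := Tri_mono hrho3le
  have hWball : Tri q u eta rho ⊆ ball q r := by
    intro l hl
    obtain ⟨-, h2⟩ := Tri_norm hu he0 he1 hl
    rw [mem_ball, dist_eq_norm]
    linarith
  have hWo : IsOpen (Tri q u eta rho3) := isOpen_Tri _ _ _ _
  have hEc : ∀ j, ContDiffOn ℝ 1 (B.E u j) (Tri q u eta rho3) := fun j =>
    (contDiff_E B u (hbas j).1).mono (hWsub.trans hWball)
  have hch : ∀ a b : Fin m, a < b → ∀ l ∈ Tri q u eta rho3,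
      (0 ≤ B.E u (rr b) l → 0 ≤ B.E u (rr a) l) ∧ (0 < B.E u (rr b) l → 0 < B.E u (rr a) l) := by
    intro a b hab l hl
    rcases c1 a b hab with h1 | h1
    · obtain ⟨h2, h3⟩ := h1 l (hWsub hl)
      refine ⟨fun h4 => ?_, h3.2⟩
      rcases h4.lt_or_eq with h5 | h5
      · exact (h3.2 h5).le
      · exact (h2.2 h5.symm).ge
    · have h2 := h1.1 l (hWsub hl)
      exact ⟨fun h4 => (h2 h4).le, fun h4 => h2 h4.le⟩
  obtain ⟨f, C, f1, f2, f3, f4, f5, f6, f7⟩ := thin_fun hWo hm (E := fun a => B.E u (rr a))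
    (fun a => hEc (rr a)) (K := K) (fun a l hl => (hTG.2.2.2.2.2.2 (rr a) (c0 a) l (hWsub hl)).2.1)
    (kap := col) ccol hch (fun a b hab hcol l hl => (hbelow a b hab hcol).1 l (hWsub hl))
  -- the values on the spectrum
  have hval : ∀ l ∈ Tri q u eta rho3, l ∈ S → ∃ a, (∀ᶠ l' in 𝓝 l, f l' = col a) ∧
      (col a = 1 → l ∈ U1) ∧ (col a = 0 → l ∈ U2) := by
    intro l hl hS
    by_cases hz : ∃ a, B.E u (rr a) l = 0
    · obtain ⟨a, ha⟩ := hz
      exact ⟨a, f3 a l hl ha, (c3 a l (hWsub hl) ha).2⟩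
    · push Not at hz
      by_cases h0 : B.E u (rr ⟨0, hm⟩) l < 0
      · exact ⟨⟨0, hm⟩, f5 _ rfl l hl h0, c5 _ rfl l (hWsub hl) hS h0⟩
      · have h0' : 0 < B.E u (rr ⟨0, hm⟩) l :=
          lt_of_le_of_ne (not_lt.1 h0) (hz _).symm
        obtain ⟨a, ha, ha'⟩ := (Finset.univ.filter fun a => 0 < B.E u (rr a) l).exists_max_image
          (fun a => (a : ℕ)) ⟨⟨0, hm⟩, by simp [h0']⟩
        rw [Finset.mem_filter] at ha
        by_cases hlast : (a : ℕ) + 1 = m
        · exact ⟨a, f6 a hlast l hl ha.2, c6 a hlast l (hWsub hl) hS ha.2⟩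
        · have hlt : (a : ℕ) + 1 < m := by
            have := a.2
            omega
          have hneg : B.E u (rr ⟨a + 1, hlt⟩) l < 0 := by
            by_contra hcon
            have h2 : 0 < B.E u (rr ⟨a + 1, hlt⟩) l :=
              lt_of_le_of_ne (not_lt.1 hcon) (hz _).symm
            have h3 := ha' ⟨a + 1, hlt⟩ (by simp [h2])
            simp at h3
          obtain ⟨g1, g2⟩ := c4 a ⟨a + 1, hlt⟩ rfl l (hWsub hl) hS ha.2 hneg
          exact ⟨a, f4 a ⟨a + 1, hlt⟩ rfl g1 l hl ha.2 hneg, g2⟩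
  -- the sets D
  let DD : P → Set ℂ := fun p => B.D u (Tri q u eta rho3) (rr p.1.1) (rr p.1.2)
  have hDDm : ∀ p, MeasurableSet (DD p) := fun p =>
    meas_D hWo (hEc _).continuousOn (hEc _).continuousOn
  have hbad : ∀ l ∈ Tri q u eta rho3, (dbar f l ≠ 0 ∨ (f l ≠ 0 ∧ f l ≠ 1)) → ∃ p : P, l ∈ DD p ∧
      ‖dbar f l‖ ≤ C / (B.E u (rr p.1.1) l - B.E u (rr p.1.2) l) := by
    intro l hl h
    obtain ⟨a, b, hab, hcol, g1, g2, g3, g4, g5⟩ := f7 l hl h
    exact ⟨⟨(a, b), hab, hcol⟩, ⟨hl, g1, g2, g3, g4⟩, g5⟩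
  have huniq : ∀ p p' : P, ∀ l, l ∈ DD p → l ∈ DD p' → p = p' := by
    have key : ∀ p p' : P, ∀ l, l ∈ DD p → l ∈ DD p' → ¬ (p.1.1 : ℕ) < p'.1.1 := by
      intro p p' l h1 h2 hlt
      have h3 : ¬ 0 < B.E u (rr p.1.2) l := not_lt.2 h1.2.2.1.le
      have h4 : 0 < B.E u (rr p'.1.1) l := h2.2.1
      by_cases h5 : p.1.2 = p'.1.1
      · rw [h5] at h3
        exact h3 h4
      · have h6 : p.1.2 < p'.1.1 := by
          rw [Fin.lt_def]
          have h7 : (p.1.2 : ℕ) ≠ p'.1.1 := fun h => h5 (Fin.ext h)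
          have h8 := p.2.1
          omega
        exact h3 ((hch _ _ h6 l h1.1).2 h4)
    intro p p' l h1 h2
    have h3 := key p p' l h1 h2
    have h4 := key p' p l h2 h1
    have h5 : p.1.1 = p'.1.1 := Fin.ext (by omega)
    have h6 : p.1.2 = p'.1.2 := Fin.ext (by rw [p.2.1, p'.2.1, h5])
    exact Subtype.ext (Prod.ext h5 h6)
  have hdb : ∀ (p : P), ∀ l ∈ DD p, ‖dbar f l‖ₑ ≤ ENNReal.ofReal |C| *
      ENNReal.ofReal ((B.E u (rr p.1.1) l - B.E u (rr p.1.2) l)⁻¹) := by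
    intro p l hl
    by_cases h0 : dbar f l = 0
    · rw [h0, enorm_zero]
      exact zero_le
    · obtain ⟨p', hp', h1⟩ := hbad l hl.1 (Or.inl h0)
      have h2 := huniq p p' l hl hp'
      subst h2
      rw [← ENNReal.ofReal_mul (abs_nonneg _), ← ofReal_norm]
      refine ENNReal.ofReal_le_ofReal (h1.trans ?_)
      rw [div_eq_mul_inv]
      refine mul_le_mul_of_nonneg_right (le_abs_self _) (inv_nonneg.2 ?_)
      linarith [hl.2.1, hl.2.2.1]
  have hmain : ∀ G : ℂ → ℝ≥0∞, ∫⁻ l in Tri q u eta rho3, ‖dbar f l‖ₑ * G l ≤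
      ∑ p : P, ENNReal.ofReal |C| * ∫⁻ l in B.D u (Tri q u eta (rh p)) (rr p.1.1) (rr p.1.2),
        ENNReal.ofReal ((B.E u (rr p.1.1) l - B.E u (rr p.1.2) l)⁻¹) * G l := by
    intro G
    refine (lint_le hWo.measurableSet hDDm (fun l => ‖dbar f l‖ₑ * G l) ?_).trans
      (Finset.sum_le_sum fun p _ => ?_)
    · intro l hl hno
      have h0 : dbar f l = 0 := by
        by_contra h0
        obtain ⟨p, hp, -⟩ := hbad l hl (Or.inl h0)
        exact hno p hp
      show ‖dbar f l‖ₑ * G l = 0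
      rw [h0, enorm_zero, zero_mul]
    · rw [← lintegral_const_mul' _ _ ENNReal.ofReal_ne_top]
      refine (setLIntegral_mono' (hDDm p) (g := fun l => ENNReal.ofReal |C| *
        (ENNReal.ofReal ((B.E u (rr p.1.1) l - B.E u (rr p.1.2) l)⁻¹) * G l)) fun l hl => ?_).trans
        (lintegral_mono_set (D_mono (Tri_mono (hrho3' p)) _ _))
      rw [← mul_assoc]
      exact mul_le_mul_left (hdb p l hl) _
  -- the lower bound for the distance to the curve
  have hlow : ∀ (p : P) (j : Fin B.k), ∃ (p' : ℕ) (c' : ℝ), 0 < c' ∧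
      ∀ l ∈ DD p, c' * ‖l - q‖ ^ p' ≤ |(B.L j l).re| := by
    intro p j
    by_cases hj : (B.a j * u).re = 0
    · obtain ⟨-, -, -, -, -, -, -, hs⟩ := B.strip hu hTG hb2 (c0 p.1.1) (c0 p.1.2)
        (hbelow _ _ p.2.1 p.2.2)
      obtain ⟨p', c', C', -, hc', -, h1⟩ := hs j hj (hrel _ _ p.2.1 j hj)
      exact ⟨p', c', hc', fun l hl => (h1 l (D_mono hWsub _ _ hl)).1⟩
    · refine ⟨1, kap, hkap, fun l hl => ?_⟩
      rw [pow_one]
      rcases hTG.2.2.2.2.2.1 j hj with h1 | h1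
      · exact (h1 l (hWsub hl.1)).trans (le_abs_self _)
      · have h2 := h1 l (hWsub hl.1)
        exact (le_neg.1 h2).trans (neg_le_abs _)
  choose pp cc hcc hlow' using hlow
  obtain ⟨p0, hp0⟩ := ex_max fun x : P × Fin B.k => pp x.1 x.2
  obtain ⟨c, hc, -, hc'⟩ := ex_min (fun x : P × Fin B.k => cc x.1 x.2) (fun x => hcc x.1 x.2) 1 one_pos
  refine ⟨eta, rho3, f, c, p0, he0, hrho3, hc, f1, f2, ?_, ?_, ?_, ?_, ?_⟩
  · intro l hl hS h1
    obtain ⟨a, ha, ha1, ha0⟩ := hval l hl hS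
    rcases ccol a with h2 | h2
    · exact absurd (ha0 h2) (Set.disjoint_left.1 hdis h1)
    · rw [h2] at ha
      simpa using ha
  · intro l hl hS h1
    obtain ⟨a, ha, ha1, ha0⟩ := hval l hl hS
    rcases ccol a with h2 | h2
    · rw [h2] at ha
      simpa using ha
    · exact absurd h1 (Set.disjoint_left.1 hdis (ha1 h2))
  · intro l hl h j
    obtain ⟨p, hp, -⟩ := hbad l hl h
    obtain ⟨h1, h2⟩ := Tri_norm hu he0 he1 (hWsub hl)
    have h3 : ‖l - q‖ ^ p0 ≤ ‖l - q‖ ^ pp p j :=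
      pow_le_pow_of_le_one h1.le (by linarith) (hp0 (p, j))
    exact (mul_le_mul (hc' (p, j)) h3 (by positivity) (hcc p j).le).trans (hlow' p j l hp)
  · have h1 := hmain fun _ => 1
    simp only [mul_one] at h1
    refine h1.trans_lt (ENNReal.sum_lt_top.2 fun p _ => ?_)
    exact ENNReal.mul_lt_top ENNReal.ofReal_lt_top (hrhT p)
  · intro j
    choose K' hK' using fun p => hrhK p j
    refine ⟨∑ p : P, |C| * |K' p|, fun h => (hmain fun l => ‖evr (B.g j l) h‖ₑ ^ 2).trans ?_⟩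
    rw [Finset.sum_mul, ENNReal.ofReal_sum_of_nonneg fun p _ => by positivity]
    refine Finset.sum_le_sum fun p _ => ?_
    rw [mul_assoc, ENNReal.ofReal_mul (abs_nonneg _)]
    refine mul_le_mul_right ((hK' p h).trans (ENNReal.ofReal_le_ofReal ?_)) _
    exact mul_le_mul_of_nonneg_right (le_abs_self _) (by positivity)

end Pool.Agent.TBirC
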