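import Pool.Agent.TBirC.Loc
import Mathlib.Analysis.Calculus.DSlope

/-!
# Divided differences near the points `g j q`

`dslope phi z w = (phi w - phi z) / (w - z)` for `w ≠ z`, and `deriv phi z` for `w = z`.

Paper proof. `phi` is analytic on a ball around `t = g j q` with `deriv phi t ≠ 0` (`B.an`, `B.inv`, chain rule, as in `bas_loc`
of TBirC/Loc). There is `δ` with `‖deriv phi w - deriv phi t‖ ≤ ‖deriv phi t‖ / 2` on `ball t (3 * δ)` (convex), so
for `w`, `z` in it `‖phi w - phi z - deriv phi t * (w - z)‖ ≤ ‖deriv phi t‖ / 2 * ‖w - z‖` (mean value inequality), and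
`‖deriv phi t‖ / 2 ≤ ‖dslope phi z w‖ ≤ 2 ‖deriv phi t‖`. Differentiability in `w`: `dslope` of a differentiable function on an
open set is differentiable (`DifferentiableOn.dslope`-type lemma: `Complex.differentiableOn_dslope`). Uniform convergence
as `l → q`: `dslope phi z w - dslope phi t w` for `w ∈ ball t (2 δ)`: for `‖w - t‖ ≥ δ`, clear (`phi z = l`, `phi t = q`, the
denominators are bounded below); for `‖w - t‖ < δ` use the maximum principle on the circle of radius `3 δ / 2` (the difference is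
differentiable in `w` on `ball t (2 δ)`), or the integral form `∫ deriv phi (z + s (w - z))` and uniform continuity of
`deriv phi`. Choose one `δ`, also with `4 δ ≤ ‖g i q - g j q‖` for `i ≠ j`, and `δ ≤ 1 / 4`.
-/

set_option autoImplicit false

open MeasureTheory Complex Set Filter Topology Metric AddCircle
open scoped ComplexConjugate InnerProductSpace ENNReal

namespace Pool.Agent.TBirC

open Pool.Agent.TBir

private theorem exists_le {ι : Type*} [Finite ι] (a : ι → ℝ) (h : ∀ i, 0 < a i) :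
    ∃ x : ℝ, 0 < x ∧ ∀ i, x ≤ a i := by
  have h1 : ∀ᶠ x in 𝓝[>] (0 : ℝ), ∀ i, x ≤ a i := by
    rw [eventually_all]
    intro i
    have h2 : ∀ᶠ x in 𝓝 (0 : ℝ), x < a i := eventually_lt_nhds (h i)
    exact (h2.filter_mono nhdsWithin_le_nhds).mono fun x hx => hx.le
  obtain ⟨x, hx, hx0⟩ := (h1.and self_mem_nhdsWithin).exists
  exact ⟨x, hx0, hx⟩

private theorem exists_ge {ι : Type*} [Finite ι] (a : ι → ℝ) :
    ∃ x : ℝ, 0 < x ∧ ∀ i, a i ≤ x := by
  have h1 : ∀ᶠ x in atTop, ∀ i, a i ≤ x := by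
    rw [eventually_all]
    intro i
    exact eventually_ge_atTop (a i)
  obtain ⟨x, hx, hx0⟩ := (h1.and (eventually_gt_atTop (0 : ℝ))).exists
  exact ⟨x, hx0, hx⟩

/-- the divided differences near one point -/
private theorem dd_one {g phi : ℂ → ℂ} {q : ℂ} {R : ℝ} (hR : 0 < R)
    (hg : DifferentiableOn ℂ g (ball q R)) (hphi : AnalyticAt ℂ phi (g q))
    (hinv : ∀ l ∈ ball q R, phi (g l) = l) :
    ∃ r D : ℝ, 0 < r ∧ 0 < D ∧ DifferentiableOn ℂ phi (ball (g q) r) ∧
      ∀ z ∈ ball (g q) r, ∀ w ∈ ball (g q) r, D / 2 ≤ ‖dslope phi z w‖ ∧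
        ‖dslope phi z w‖ ≤ 2 * D ∧
        ‖dslope phi z w - dslope phi (g q) w‖ ≤ 2 * D / r * ‖z - g q‖ := by
  have hgan : AnalyticAt ℂ g q := hg.analyticAt (ball_mem_nhds q hR)
  have hd : deriv phi (g q) ≠ 0 := by
    intro h0
    have h1 : HasDerivAt (fun l => phi (g l)) (deriv phi (g q) * deriv g q) q :=
      hphi.differentiableAt.hasDerivAt.comp q hgan.differentiableAt.hasDerivAt
    have h2 : HasDerivAt (fun l => phi (g l)) 1 q := by
      refine (hasDerivAt_id q).congr_of_eventuallyEq ?_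
      filter_upwards [ball_mem_nhds q hR] with l hl
      exact hinv l hl
    have h3 := h1.unique h2
    rw [h0, zero_mul] at h3
    exact zero_ne_one h3
  obtain ⟨t, ht⟩ : ∃ t, t = g q := ⟨_, rfl⟩
  rw [← ht] at hd hphi ⊢
  obtain ⟨d, hdd⟩ : ∃ d, d = deriv phi t := ⟨_, rfl⟩
  rw [← hdd] at hd
  have hD : 0 < ‖d‖ := norm_pos_iff.2 hd
  have hc : ∀ᶠ w in 𝓝 t, ‖deriv phi w - d‖ < ‖d‖ / 2 := by
    have h1 : ContinuousAt (fun w => ‖deriv phi w - d‖) t :=
      (hphi.deriv.continuousAt.sub continuousAt_const).norm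
    refine h1.eventually_lt_const ?_
    show ‖deriv phi t - d‖ < ‖d‖ / 2
    rw [hdd, sub_self, norm_zero, ← hdd]
    linarith
  obtain ⟨r, hr, H⟩ := Metric.eventually_nhds_iff_ball.1 (hphi.eventually_analyticAt.and hc)
  have hdiff : DifferentiableOn ℂ phi (ball t r) :=
    fun w hw => (H w hw).1.differentiableAt.differentiableWithinAt
  have hmv : ∀ z ∈ ball t r, ∀ w ∈ ball t r, ‖dslope phi z w - d‖ ≤ ‖d‖ / 2 := by
    intro z hz w hw
    by_cases hwz : w = z
    · rw [hwz, dslope_same]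
      exact (H z hz).2.le
    · rw [dslope_of_ne _ hwz, slope_def_field]
      have hder : ∀ x ∈ ball t r,
          HasDerivWithinAt (fun x => phi x - d * x) (deriv phi x - d) (ball t r) x := by
        intro x hx
        have c1 := (H x hx).1.differentiableAt.hasDerivAt
        have c2 : HasDerivAt (fun x => d * x) (d * 1) x := (hasDerivAt_id x).const_mul d
        rw [mul_one] at c2
        exact (c1.sub c2).hasDerivWithinAt
      have c3 := (convex_ball t r).norm_image_sub_le_of_norm_hasDerivWithin_le hder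
        (fun x hx => (H x hx).2.le) hz hw
      have hne : w - z ≠ 0 := sub_ne_zero.2 hwz
      have e1 : (phi w - phi z) / (w - z) - d = (phi w - d * w - (phi z - d * z)) / (w - z) := by
        field_simp
        ring
      rw [e1, norm_div, div_le_iff₀ (norm_pos_iff.2 hne)]
      exact c3
  refine ⟨r, ‖d‖, hr, hD, hdiff, fun z hz w hw => ?_⟩
  have h1 := hmv z hz w hw
  have h2 : ‖d‖ ≤ ‖dslope phi z w‖ + ‖dslope phi z w - d‖ := by
    have h3 := norm_sub_le (dslope phi z w) (dslope phi z w - d)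
    rwa [sub_sub_cancel] at h3
  have h3 : ‖dslope phi z w‖ ≤ ‖dslope phi z w - d‖ + ‖d‖ := by
    have h4 := norm_add_le (dslope phi z w - d) d
    rwa [sub_add_cancel] at h4
  refine ⟨by linarith, by linarith, ?_⟩
  have hsym : ∀ x y, dslope phi x y = dslope phi y x := by
    intro x y
    by_cases hxy : x = y
    · rw [hxy]
    · rw [dslope_of_ne _ (Ne.symm hxy), dslope_of_ne _ hxy, slope_comm]
  have hdw : DifferentiableOn ℂ (dslope phi w) (ball t r) :=
    (Complex.differentiableOn_dslope (isOpen_ball.mem_nhds hw)).2 hdiff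
  have htb : t ∈ ball t r := mem_ball_self hr
  have hmaps : MapsTo (dslope phi w) (ball t r) (closedBall (dslope phi w t) (2 * ‖d‖)) := by
    intro x hx
    rw [mem_closedBall, dist_eq_norm]
    have c1 := hmv w hw x hx
    have c2 := hmv w hw t htb
    have c3 := norm_sub_le (dslope phi w x - d) (dslope phi w t - d)
    rw [sub_sub_sub_cancel_right] at c3
    linarith
  have h5 := Complex.dist_le_div_mul_dist_of_mapsTo_ball hdw hmaps hz
  rw [dist_eq_norm, dist_eq_norm] at h5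
  rw [hsym z w, hsym t w]
  exact h5

theorem dd_loc {phi : ℂ → ℂ} {q : ℂ} (B : Br phi q) :
    ∃ δ c C s : ℝ, 0 < δ ∧ δ ≤ 1 / 4 ∧ 0 < c ∧ 0 < C ∧ 0 < s ∧ s ≤ B.R ∧
      (∀ i j, i ≠ j → 4 * δ ≤ ‖B.g i q - B.g j q‖) ∧
      (∀ j, ∀ l ∈ ball q s, ‖B.g j l - B.g j q‖ < δ / 2) ∧
      (∀ j, DifferentiableOn ℂ phi (ball (B.g j q) (2 * δ))) ∧
      (∀ j, ∀ l ∈ ball q s, DifferentiableOn ℂ (dslope phi (B.g j l)) (ball (B.g j q) (2 * δ)) ∧
        ∀ w ∈ ball (B.g j q) (2 * δ), c ≤ ‖dslope phi (B.g j l) w‖ ∧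
          ‖dslope phi (B.g j l) w‖ ≤ C) ∧
      ∀ ep : ℝ, 0 < ep → ∃ s' : ℝ, 0 < s' ∧ s' ≤ s ∧ ∀ l ∈ ball q s', ∀ j,
        ‖B.g j l - B.g j q‖ ≤ ep ∧ ∀ w ∈ ball (B.g j q) (2 * δ),
          ‖dslope phi (B.g j l) w - dslope phi (B.g j q) w‖ ≤ ep := by
  have h1 := fun j => dd_one B.R_pos (B.diff j) (B.an j) (B.inv j)
  choose r D hr hD hdf H using h1
  obtain ⟨ρ, hρ, hρr⟩ := exists_le r hr
  obtain ⟨c, hc, hcD⟩ := exists_le (fun j => D j / 2) (fun j => half_pos (hD j))
  obtain ⟨C, hC, hCD⟩ := exists_ge (fun j => 2 * D j)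
  obtain ⟨K, hK, hKD⟩ := exists_ge (fun j => 2 * D j / r j)
  obtain ⟨e, he, hee⟩ := exists_le
    (fun p : Fin B.k × Fin B.k => if p.1 = p.2 then (1 : ℝ) else ‖B.g p.1 q - B.g p.2 q‖)
    (fun p => by
      split_ifs with hp
      · exact one_pos
      · exact norm_pos_iff.2 (sub_ne_zero.2 (B.ne _ _ hp)))
  obtain ⟨δ, hδ, hδe, hδρ, hδ1⟩ : ∃ δ : ℝ, 0 < δ ∧ 4 * δ ≤ e ∧ 4 * δ ≤ ρ ∧ 4 * δ ≤ 1 := by
    refine ⟨min (min e ρ) 1 / 4, by positivity, ?_, ?_, ?_⟩
    · have : min (min e ρ) 1 ≤ e := (min_le_left _ _).trans (min_le_left _ _)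
      linarith
    · have : min (min e ρ) 1 ≤ ρ := (min_le_left _ _).trans (min_le_right _ _)
      linarith
    · have : min (min e ρ) 1 ≤ 1 := min_le_right _ _
      linarith
  have hcont : ∀ x : ℝ, 0 < x → ∃ s : ℝ, 0 < s ∧ s ≤ B.R ∧
      ∀ j, ∀ l ∈ ball q s, ‖B.g j l - B.g j q‖ < x := by
    intro x hx
    have h2 : ∀ j, ∃ s : ℝ, 0 < s ∧ ∀ l ∈ ball q s, ‖B.g j l - B.g j q‖ < x := by
      intro j
      have h3 : ContinuousAt (B.g j) q :=
        ((B.diff j).differentiableAt (ball_mem_nhds q B.R_pos)).continuousAt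
      obtain ⟨s, hs, h4⟩ := Metric.continuousAt_iff.1 h3 x hx
      refine ⟨s, hs, fun l hl => ?_⟩
      rw [← dist_eq_norm]
      exact h4 (mem_ball.1 hl)
    choose s hs h3 using h2
    obtain ⟨s0, hs0, h4⟩ := exists_le s hs
    refine ⟨min s0 B.R, lt_min hs0 B.R_pos, min_le_right _ _, fun j l hl => ?_⟩
    exact h3 j l (ball_subset_ball ((min_le_left _ _).trans (h4 j)) hl)
  obtain ⟨s, hs, hsR, hs2⟩ := hcont (δ / 2) (half_pos hδ)
  have hsub : ∀ j, ball (B.g j q) (2 * δ) ⊆ ball (B.g j q) (r j) :=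
    fun j => ball_subset_ball (by linarith [hρr j])
  have hmem : ∀ j, ∀ l ∈ ball q s, B.g j l ∈ ball (B.g j q) (r j) := by
    intro j l hl
    rw [mem_ball, dist_eq_norm]
    have := hs2 j l hl
    linarith [hρr j]
  refine ⟨δ, c, C, s, hδ, by linarith, hc, hC, hs, hsR, ?_, hs2, ?_, ?_, ?_⟩
  · intro i j hij
    have h2 := hee (i, j)
    dsimp only at h2
    rw [if_neg hij] at h2
    linarith
  · intro j
    exact (hdf j).mono (hsub j)
  · intro j l hl
    refine ⟨((Complex.differentiableOn_dslope (isOpen_ball.mem_nhds (hmem j l hl))).2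
      (hdf j)).mono (hsub j), fun w hw => ?_⟩
    have h2 := H j _ (hmem j l hl) w (hsub j hw)
    exact ⟨(hcD j).trans h2.1, h2.2.1.trans (hCD j)⟩
  · intro ep hep
    obtain ⟨s', hs', _, h2⟩ := hcont (min ep (ep / K)) (lt_min hep (div_pos hep hK))
    refine ⟨min s' s, lt_min hs' hs, min_le_right _ _, fun l hl j => ?_⟩
    have h3 := (h2 j l (ball_subset_ball (min_le_left _ _) hl)).le
    refine ⟨h3.trans (min_le_left _ _), fun w hw => ?_⟩
    have h4 := (H j _ (hmem j l (ball_subset_ball (min_le_right _ _) hl)) w (hsub j hw)).2.2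
    calc ‖dslope phi (B.g j l) w - dslope phi (B.g j q) w‖
        ≤ 2 * D j / r j * ‖B.g j l - B.g j q‖ := h4
      _ ≤ K * (ep / K) := mul_le_mul (hKD j) (h3.trans (min_le_right _ _)) (norm_nonneg _) hK.le
      _ = ep := by field_simp

end Pool.Agent.TBirC
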