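import Pool.Agent.TBirE.Bas

/-!
# Splitting for bounded symbols: definitions

`A` is an operator on the Hardy space, `S` its spectrum. The symbol `phi` is only essentially bounded on the circle and
analytic near the finitely many points of the circle which it sends to `q`; `B : Br phi q` are the branches of the
inverse near `q` (as TBirE/Bas, without winding numbers).

`mf a` is the multiplication operator by `a` on `L2`, `TM M` the compression of `M` to the Hardy space, so `TM (mf a)` is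
the Toeplitz operator with symbol `a`. `Cm M`: `M` commutes with the multiplication by continuous functions.

`FacL M B x` is the local factorisation: for `l` near `q`, `M - l = Th * zeta^x * prod (zeta - g j l)`, where `TM Th` is
invertible, and `1 / Th` is interpolated at the points `g j l` by a polynomial in `zeta` and by one in `1 / zeta`.
-/

set_option autoImplicit false

open MeasureTheory Complex Set Filter Topology Metric AddCircle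
open scoped ComplexConjugate InnerProductSpace ENNReal
open Pool.Lib (dbar)

namespace Pool.Agent.TBirC

open Pool.Agent.TBir Pool.Agent.TBirG
open Pool.Agent.TBirM (Tri)
open Pool.Agent.TBirE (evr)

/-- Bounded operators on the Hardy space. -/
abbrev Op : Type := Hardy →L[ℂ] Hardy

/-- Bounded operators on `L2`. -/
abbrev Op2 : Type := L2 →L[ℂ] L2

/-- The branches of the inverse of `phi` near `q`. -/
structure Br (phi : ℂ → ℂ) (q : ℂ) where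
  R : ℝ
  k : ℕ
  g : Fin k → ℂ → ℂ
  R_pos : 0 < R
  diff : ∀ j, DifferentiableOn ℂ (g j) (ball q R)
  norm_q : ∀ j, ‖g j q‖ = 1
  ne : ∀ i j, i ≠ j → g i q ≠ g j q
  inv : ∀ j, ∀ l ∈ ball q R, phi (g j l) = l
  an : ∀ j, AnalyticAt ℂ phi (g j q)

/-- The logarithm of the branch. -/
noncomputable def Br.L {phi : ℂ → ℂ} {q : ℂ} (B : Br phi q) (j : Fin B.k) (l : ℂ) : ℂ :=
  Complex.log (B.g j l / B.g j q)

/-- The derivative of `B.L j` at `q`. -/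
noncomputable def Br.a {phi : ℂ → ℂ} {q : ℂ} (B : Br phi q) (j : Fin B.k) : ℂ :=
  deriv (B.g j) q / B.g j q

/-- The oriented real part. -/
noncomputable def Br.E {phi : ℂ → ℂ} {q : ℂ} (B : Br phi q) (u : ℂ) (j : Fin B.k) (l : ℂ) : ℝ :=
  if (B.a j * u).im < 0 then (B.L j l).re else -(B.L j l).re

/-- Two branches tangent to `u` coincide in `W`. -/
def Br.Tie {phi : ℂ → ℂ} {q : ℂ} (B : Br phi q) (u : ℂ) (W : Set ℂ) (i j : Fin B.k) : Prop :=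
  ∀ l ∈ W, (B.E u i l = 0 ↔ B.E u j l = 0) ∧ (0 < B.E u i l ↔ 0 < B.E u j l)

/-- Branch `i` is below branch `j` in `W`, contact of order `p - 1`. -/
def Br.Below {phi : ℂ → ℂ} {q : ℂ} (B : Br phi q) (u : ℂ) (W : Set ℂ) (i j : Fin B.k) : Prop :=
  (∀ l ∈ W, 0 ≤ B.E u j l → 0 < B.E u i l) ∧ ∃ (p : ℕ) (c C : ℝ), 2 ≤ p ∧ 0 < c ∧ 0 < C ∧
    (∀ l ∈ W, B.E u i l = 0 → c * ‖l - q‖ ^ p ≤ -B.E u j l ∧ -B.E u j l ≤ C * ‖l - q‖ ^ p) ∧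
    ∀ l ∈ W, B.E u j l = 0 → c * ‖l - q‖ ^ p ≤ B.E u i l ∧ B.E u i l ≤ C * ‖l - q‖ ^ p

/-- The estimates in the thin triangle `Tri q u eta rho` (see TBirE/Tg). -/
def Br.TG {phi : ℂ → ℂ} {q : ℂ} (B : Br phi q) (u : ℂ) (eta rho kap K : ℝ) : Prop :=
  0 < eta ∧ eta ≤ 1 ∧ 0 < rho ∧ 0 < kap ∧ 0 < K ∧
  (∀ j, (B.a j * u).re ≠ 0 → (∀ l ∈ Tri q u eta rho, kap * ‖l - q‖ ≤ (B.L j l).re) ∨
    ∀ l ∈ Tri q u eta rho, (B.L j l).re ≤ -(kap * ‖l - q‖)) ∧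
  ∀ j, (B.a j * u).re = 0 → ∀ l ∈ Tri q u eta rho,
    kap ≤ fderiv ℝ (B.E u j) l (I * u) ∧ ‖fderiv ℝ (B.E u j) l‖ ≤ K ∧
    kap * ‖l - q‖ ≤ |(B.L j l).im| ∧ |(B.L j l).im| ≤ K * ‖l - q‖ ∧
    0 < (B.L j l).im * (B.a j * u).im ∧
    (eta / 2 * ((l - q) * conj u).re ≤ ((l - q) * conj u).im → 0 < B.E u j l) ∧
    (((l - q) * conj u).im ≤ -(eta / 2 * ((l - q) * conj u).re) → B.E u j l < 0)

/-- The middle part of the gap between the branches `i` and `j`. -/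
def Br.D {phi : ℂ → ℂ} {q : ℂ} (B : Br phi q) (u : ℂ) (W : Set ℂ) (i j : Fin B.k) : Set ℂ :=
  {l | l ∈ W ∧ 0 < B.E u i l ∧ B.E u j l < 0 ∧ B.E u i l - B.E u j l ≤ 4 * B.E u i l ∧
    B.E u i l - B.E u j l ≤ 4 * -B.E u j l}

/-- The description of the set `S` near `q` by the branches: all branches are in `S`, and a point off the branches is in
`S` if and only if `x` plus the number of the branches inside the disc is not zero. -/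
def Br.Des {phi : ℂ → ℂ} {q : ℂ} (B : Br phi q) (x : ℤ) (S : Set ℂ) : Prop :=
  ∃ r : ℝ, 0 < r ∧ ∀ l ∈ ball q r, ((∃ j, ‖B.g j l‖ = 1) → l ∈ S) ∧
    ((∀ j, ‖B.g j l‖ ≠ 1) →
      (l ∈ S ↔ x + ((Finset.univ.filter fun j => ‖B.g j l‖ < 1).card : ℤ) ≠ 0))

/-- A cutoff function in a thin triangle around the direction `u`. -/
def DSol {phi : ℂ → ℂ} {q : ℂ} (B : Br phi q) (S U1 U2 : Set ℂ) (u : ℂ) : Prop :=
  ∃ (eta rho : ℝ) (f : ℂ → ℂ) (c : ℝ) (p : ℕ), 0 < eta ∧ 0 < rho ∧ 0 < c ∧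
    ContDiffOn ℝ 1 f (Tri q u eta rho) ∧ (∀ l, ∃ t : ℝ, 0 ≤ t ∧ t ≤ 1 ∧ f l = t) ∧
    (∀ l ∈ Tri q u eta rho, l ∈ S → l ∈ U1 → ∀ᶠ l' in 𝓝 l, f l' = 1) ∧
    (∀ l ∈ Tri q u eta rho, l ∈ S → l ∈ U2 → ∀ᶠ l' in 𝓝 l, f l' = 0) ∧
    (∀ l ∈ Tri q u eta rho, (dbar f l ≠ 0 ∨ (f l ≠ 0 ∧ f l ≠ 1)) →
      ∀ j, c * ‖l - q‖ ^ p ≤ |(B.L j l).re|) ∧
    ∫⁻ l in Tri q u eta rho, ‖dbar f l‖ₑ < ⊤ ∧
    ∀ j, ∃ K : ℝ, ∀ h : Hardy, ∫⁻ l in Tri q u eta rho, ‖dbar f l‖ₑ * ‖evr (B.g j l) h‖ₑ ^ 2 ≤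
      ENNReal.ofReal (K * ‖h‖ ^ 2)

/-- A cutoff function near `q`. -/
def GSol {phi : ℂ → ℂ} {q : ℂ} (B : Br phi q) (S U1 U2 : Set ℂ) : Prop :=
  ∃ (R : ℝ) (f : ℂ → ℂ) (c : ℝ) (p : ℕ), 0 < R ∧ 0 < c ∧
    ContDiffOn ℝ 1 f {q}ᶜ ∧ (∀ l, ∃ t : ℝ, 0 ≤ t ∧ t ≤ 1 ∧ f l = t) ∧
    (∀ l ∈ ball q R, l ≠ q → l ∈ S → l ∈ U1 → ∀ᶠ l' in 𝓝 l, f l' = 1) ∧
    (∀ l ∈ ball q R, l ≠ q → l ∈ S → l ∈ U2 → ∀ᶠ l' in 𝓝 l, f l' = 0) ∧
    (∀ l ∈ ball q R, l ≠ q → (dbar f l ≠ 0 ∨ (f l ≠ 0 ∧ f l ≠ 1)) →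
      ∀ j, c * ‖l - q‖ ^ p ≤ |(B.L j l).re|) ∧
    ∫⁻ l in ball q R, ‖dbar f l‖ₑ < ⊤ ∧
    ∀ j, ∃ K : ℝ, ∀ h : Hardy, ∫⁻ l in ball q R, ‖dbar f l‖ₑ * ‖evr (B.g j l) h‖ₑ ^ 2 ≤
      ENNReal.ofReal (K * ‖h‖ ^ 2)

/-- The local input of the splitting theorem for the operator `A` at `q`; `N l` is the part of the resolvent which is
bounded in the mean. -/
def LocA (A : Op) (N : ℂ → Op) (U1 U2 : Set ℂ) (q : ℂ) : Prop :=
  ∃ (R : ℝ) (f : ℂ → ℂ) (C : ℝ) (p : ℕ), 0 < R ∧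
    ContDiffOn ℝ 1 f {q}ᶜ ∧ (∀ l, ∃ t : ℝ, 0 ≤ t ∧ t ≤ 1 ∧ f l = t) ∧
    (∀ l ∈ ball q R, l ≠ q → l ∈ spectrum ℂ A → l ∈ U1 → ∀ᶠ l' in 𝓝 l, f l' = 1) ∧
    (∀ l ∈ ball q R, l ≠ q → l ∈ spectrum ℂ A → l ∈ U2 → ∀ᶠ l' in 𝓝 l, f l' = 0) ∧
    (∀ l ∈ ball q R, l ≠ q → (dbar f l ≠ 0 ∨ (f l ≠ 0 ∧ f l ≠ 1)) →
      l ∉ spectrum ℂ A ∧ ‖l - q‖ ^ p * ‖resolvent A l‖ ≤ C) ∧
    ∫⁻ l in ball q R, ‖dbar f l‖ₑ < ⊤ ∧
    ∃ C' : ℝ, ∀ f' g' : Hardy, ∫⁻ l in ball q R, ‖dbar f l‖ₑ *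
      ‖inner ℂ g' ((resolvent A l - N l) f')‖ₑ ≤ ENNReal.ofReal (C' * ‖f'‖ * ‖g'‖)

/-- `N` is continuous off the spectrum of `A` and has a bounded functional calculus. -/
def Bfc (A : Op) (N : ℂ → Op) : Prop :=
  ContinuousOn N (spectrum ℂ A)ᶜ ∧ ∀ C : ℝ, 0 ≤ C → ∀ w : ℂ → ℂ, Continuous w →
    HasCompactSupport w → (∀ l ∈ spectrum ℂ A, ∀ᶠ l' in 𝓝 l, w l' = 0) →
    (∀ mu : ℂ, ‖∫ l, w l / (l - mu)‖ ≤ C) → ‖∫ l, w l • N l‖ ≤ C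

open Classical in
/-- The multiplication operator by the essentially bounded function `a` on `L2`. -/
noncomputable def mf (a : UnitAddCircle → ℂ) : Op2 :=
  if h : MemLp a ∞ (haarAddCircle (T := (1 : ℝ))) then
    (ContinuousLinearMap.mul ℂ ℂ).holderL (haarAddCircle (T := (1 : ℝ))) ∞ 2 2 (h.toLp a) else 0

/-- The compression of an operator on `L2` to the Hardy space. -/
noncomputable def TM (M : Op2) : Op := proj ∘L M ∘L incl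

/-- `M` commutes with the multiplication by continuous functions. -/
def Cm (M : Op2) : Prop := ∀ a : CT, M * mul a = mul a * M

/-- `sum a_i zeta ^ i`, `i < k`. -/
noncomputable def pl (k : ℕ) (a : ℕ → ℂ) : CT := ∑ i ∈ Finset.range k, a i • fourier (i : ℤ)

/-- `sum a_i zeta ^ (-i)`, `i < k`. -/
noncomputable def mi (k : ℕ) (a : ℕ → ℂ) : CT := ∑ i ∈ Finset.range k, a i • fourier (-(i : ℤ))

/-- The polynomial `prod (zeta - g j l)`. -/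
noncomputable def Br.pz {phi : ℂ → ℂ} {q : ℂ} (B : Br phi q) (l : ℂ) : CT :=
  ∏ j, (fourier 1 - algebraMap ℂ CT (B.g j l))

/-- The local factorisation. -/
def FacL (M : Op2) {phi : ℂ → ℂ} {q : ℂ} (B : Br phi q) (x : ℤ) : Prop :=
  ∃ C s : ℝ, 0 < C ∧ 0 < s ∧ ∀ l ∈ ball q s, ∃ (Th K1 K2 : Op2) (a1 a2 : ℕ → ℂ),
    Cm Th ∧ Cm K1 ∧ Cm K2 ∧ ‖Th‖ ≤ C ∧ ‖K1‖ ≤ C ∧ ‖K2‖ ≤ C ∧
    (∀ i, ‖a1 i‖ ≤ C ∧ ‖a2 i‖ ≤ C) ∧ IsUnit Th ∧ ‖Ring.inverse Th‖ ≤ C ∧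
    IsUnit (TM Th) ∧ ‖Ring.inverse (TM Th)‖ ≤ C ∧
    M - algebraMap ℂ Op2 l = Th * mul (fourier x * B.pz l) ∧
    Th * mul (pl B.k a1) - 1 = K1 * mul (B.pz l) ∧
    Th * mul (mi B.k a2) - 1 = K2 * mul (B.pz l)

/-- The points of the complex plane where `T_phi - l` is not invertible. -/
def Spec (phi : ℂ → ℂ) : Set ℂ :=
  {l | ¬ ∀ g ∈ H2, ∃! f, IsToeplitz (fun w => phi w - l) f g}

/-- `phi` is analytic with nonzero derivative at the finitely many different points `t j` of the circle, `phi (t j) = q`,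
and for some `n` the Toeplitz operator with symbol `z ^ n (phi z - q) / prod (z - t j)` is invertible. -/
def Reg1 (phi : ℂ → ℂ) (q : ℂ) : Prop :=
  ∃ (k : ℕ) (t : Fin k → ℂ) (n : ℤ), Function.Injective t ∧
    (∀ j, ‖t j‖ = 1 ∧ AnalyticAt ℂ phi (t j) ∧ phi (t j) = q ∧ deriv phi (t j) ≠ 0) ∧
    ∀ g ∈ H2, ∃! f, IsToeplitz (fun w => w ^ n * ((phi w - q) / ∏ j, (w - t j))) f g

/-- `phi` is continuous on the circle, and analytic with nonzero derivative at the points which it sends to `q`. -/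
def Reg2 (phi : ℂ → ℂ) (q : ℂ) : Prop :=
  ContinuousOn phi (sphere 0 1) ∧
    ∀ z ∈ sphere (0 : ℂ) 1, phi z = q → AnalyticAt ℂ phi z ∧ deriv phi z ≠ 0

end Pool.Agent.TBirC
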