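import Pool.Agent.TBirC.Bd

/-!
# The truncated functional calculus on eigenvectors

As Pool/Agent/TBirM/EigB.lean, for the cutoff `CutA`.
-/

set_option autoImplicit false

open MeasureTheory Complex Set Filter Topology Metric AddCircle
open scoped ComplexConjugate InnerProductSpace ENNReal
open Pool.Lib (dbar)

namespace Pool.Agent.TBirC

open Pool.Agent.TBirE (isOpen_compl_Q)

open Pool.Agent.TBir
open Pool.Agent.TBirS (Sg isCompact_Sg isOpen_compl_Sg off_Sg)

theorem EigB_mem {Ao : Op}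
    {U1 U2 : Set ℂ} (K : CutA Ao U1 U2) (n : ℕ) {l : ℂ}
    (hw : K.w n l ≠ 0) : l ∈ resolventSet ℂ Ao :=
  rT fun h => hw (K.w_zero_near n h).self_of_nhds

theorem EigB_left {Ao : Op}
    {U1 U2 : Set ℂ} (K : CutA Ao U1 U2) (n : ℕ) {l : ℂ} (hw : K.w n l ≠ 0) (f : Hardy) :
    resolvent Ao l (l • f - Ao f) = f := by
  have hu : IsUnit (algebraMap ℂ (Hardy →L[ℂ] Hardy) l - Ao) := EigB_mem K n hw
  have h := congrArg (fun B : Hardy →L[ℂ] Hardy => B f) (Ring.inverse_mul_cancel _ hu)
  exact h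

theorem EigB_right {Ao : Op}
    {U1 U2 : Set ℂ} (K : CutA Ao U1 U2) (n : ℕ) {l : ℂ} (hw : K.w n l ≠ 0) (f : Hardy) :
    l • resolvent Ao l f - Ao (resolvent Ao l f) = f := by
  have hu : IsUnit (algebraMap ℂ (Hardy →L[ℂ] Hardy) l - Ao) := EigB_mem K n hw
  have h := congrArg (fun B : Hardy →L[ℂ] Hardy => B f) (Ring.mul_inverse_cancel _ hu)
  exact h

theorem CutA.P_apply {Ao : Op}
    {U1 U2 : Set ℂ} (K : CutA Ao U1 U2) (n : ℕ) (f : Hardy) :
    K.P n f = -(Real.pi : ℂ)⁻¹ • ∫ l : ℂ, K.w n l • resolvent Ao l f := by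
  have h1 := (ContinuousLinearMap.apply ℂ Hardy f).integral_comp_comm (K.integrable_res n)
  have h2 : (∫ l : ℂ, K.w n l • resolvent Ao l) f =
      ∫ l : ℂ, K.w n l • resolvent Ao l f := h1.symm
  rw [← h2]
  rfl

theorem CutA.P_eig {Ao : Op}
    {U1 U2 : Set ℂ} (K : CutA Ao U1 U2) (n : ℕ) {mu : ℂ} {v : Hardy}
    (hv : Ao v = mu • v) : K.P n v = K.s n mu • v := by
  rcases eq_or_ne v 0 with rfl | hv0
  · rw [map_zero, smul_zero]
  rw [K.P_apply n v]
  have h1 : ∀ l, K.w n l • resolvent Ao l v = (K.w n l / (l - mu)) • v := by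
    intro l
    by_cases hw : K.w n l = 0
    · rw [hw, zero_smul, zero_div, zero_smul]
    · have h2 := EigB_left K n hw v
      rw [hv, ← sub_smul, map_smul] at h2
      have h3 : l - mu ≠ 0 := by
        intro h
        rw [h, zero_smul] at h2
        exact hv0 h2.symm
      have h4 : resolvent Ao l v = (l - mu)⁻¹ • v := by
        rw [eq_inv_smul_iff₀ h3]
        exact h2
      rw [h4, smul_smul, div_eq_mul_inv]
  rw [integral_congr_ae (Eventually.of_forall h1), integral_smul_const, smul_smul]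
  rfl

theorem CutA.P_eig_adj {Ao : Op}
    {U1 U2 : Set ℂ} (K : CutA Ao U1 U2) (n : ℕ) {mu : ℂ} {v : Hardy}
    (hv : ContinuousLinearMap.adjoint Ao v = conj mu • v) (f : Hardy) :
    inner ℂ v (K.P n f) = K.s n mu * inner ℂ v f := by
  rcases eq_or_ne v 0 with rfl | hv0
  · rw [inner_zero_left, inner_zero_left, mul_zero]
  have h0 : ∀ u : Hardy, inner ℂ v (Ao u) = mu * inner ℂ v u := by
    intro u
    rw [← ContinuousLinearMap.adjoint_inner_left, hv, inner_smul_left, Complex.conj_conj]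
  have hmu : ∀ l, K.w n l ≠ 0 → l - mu ≠ 0 := by
    intro l hw h
    have h2 := congrArg (fun y : Hardy => inner ℂ v y) (EigB_right K n hw v)
    simp only [inner_sub_right, inner_smul_right, h0] at h2
    rw [← sub_mul, h, zero_mul] at h2
    exact hv0 (inner_self_eq_zero.1 h2.symm)
  have h1 : ∀ l, K.w n l * inner ℂ v (resolvent Ao l f) =
      (K.w n l / (l - mu)) * inner ℂ v f := by
    intro l
    by_cases hw : K.w n l = 0
    · rw [hw, zero_mul, zero_div, zero_mul]
    · have h2 := congrArg (fun y : Hardy => inner ℂ v y) (EigB_right K n hw f)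
      simp only [inner_sub_right, inner_smul_right, h0] at h2
      have h3 := hmu l hw
      rw [← h2]
      field_simp
  have h4 : inner ℂ v (K.P n f) =
      -(Real.pi : ℂ)⁻¹ * ∫ l : ℂ, K.w n l * inner ℂ v (resolvent Ao l f) := by
    have h5 := ((innerSL ℂ v).comp (ContinuousLinearMap.apply ℂ Hardy f)).integral_comp_comm
      (K.integrable_res n)
    have h6 : ((innerSL ℂ v).comp (ContinuousLinearMap.apply ℂ Hardy f))
        (∫ l : ℂ, K.w n l • resolvent Ao l) =
        inner ℂ v ((∫ l : ℂ, K.w n l • resolvent Ao l) f) := rfl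
    have h7 : ∀ l, ((innerSL ℂ v).comp (ContinuousLinearMap.apply ℂ Hardy f))
        (K.w n l • resolvent Ao l) = K.w n l * inner ℂ v (resolvent Ao l f) := by
      intro l
      rw [map_smul]
      rfl
    rw [h6] at h5
    simp only [h7] at h5
    rw [h5]
    change inner ℂ v ((-(Real.pi : ℂ)⁻¹ • ∫ l : ℂ, K.w n l • resolvent Ao l) f) = _
    rw [ContinuousLinearMap.smul_apply, inner_smul_right]
  rw [h4, integral_congr_ae (Eventually.of_forall h1), integral_mul_const, ← mul_assoc]
  rfl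

theorem CutA.P_comm {Ao : Op}
    {U1 U2 : Set ℂ} (K : CutA Ao U1 U2) (n : ℕ) :
    K.P n * Ao = Ao * K.P n := by
  have hI := K.integrable_res n
  have h1 : (∫ l : ℂ, K.w n l • resolvent Ao l) * Ao =
      Ao * ∫ l : ℂ, K.w n l • resolvent Ao l := by
    rw [← integral_mul_const_of_integrable hI, ← integral_const_mul_of_integrable hI]
    refine integral_congr_ae (Eventually.of_forall fun l => ?_)
    change K.w n l • resolvent Ao l * Ao = Ao * (K.w n l • resolvent Ao l)
    by_cases hw : K.w n l = 0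
    · rw [hw, zero_smul, zero_mul, mul_zero]
    · rw [smul_mul_assoc, mul_smul_comm]
      congr 1
      ext f
      change resolvent Ao l (Ao f) = Ao (resolvent Ao l f)
      have h2 := EigB_right K n hw f
      have h3 := EigB_left K n hw f
      rw [map_sub, map_smul] at h3
      have h4 := h2.trans h3.symm
      exact (sub_right_injective h4).symm
  change (-(Real.pi : ℂ)⁻¹ • ∫ l : ℂ, K.w n l • resolvent Ao l) * Ao =
    Ao * (-(Real.pi : ℂ)⁻¹ • ∫ l : ℂ, K.w n l • resolvent Ao l)
  rw [smul_mul_assoc, mul_smul_comm, h1]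

end Pool.Agent.TBirC
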