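import Pool.Agent.TBirC.Lin

/-!
# Hartman-Wintner

Paper proof. Let `M` commute with the multiplication operators by continuous functions, `TM M` invertible, `c = ‖(TM M)⁻¹‖`.
For `f ∈ L2` and `n : ℕ` put `h_n = proj (mul (fourier n) f)`. `‖incl h_n - mul (fourier n) f‖ → 0` (the norm squared is the sum
over `k < 0` of `‖coeff of f of index k - n‖ ^ 2`, a tail of a convergent series; or: the set of `f` with this property is
a closed subspace which contains all `fourierLp 2 k`). `‖h_n‖ ≤ c ‖TM M h_n‖ ≤ c ‖M (incl h_n)‖ ≤ c (‖M (mul (fourier n) f)‖ + ‖M‖ ‖incl h_n - mul (fourier n) f‖)`,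
and `M (mul (fourier n) f) = mul (fourier n) (M f)` has the norm `‖M f‖` (`mul (fourier n)` is an isometry, its adjoint
`mul (fourier (-n))` is its inverse). Limit: `‖f‖ ≤ c ‖M f‖`. The same holds for the adjoint of `M` (`Cm.adjoint`,
`adjoint_TM`). So `M` is bounded below and its adjoint too, `M` is invertible and `‖M⁻¹‖ ≤ c`.
-/

set_option autoImplicit false

open MeasureTheory Complex Set Filter Topology Metric AddCircle
open scoped ComplexConjugate InnerProductSpace ENNReal

namespace Pool.Agent.TBirC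

open Pool.Agent.TBir

private theorem hw_norm_le (n : ℤ) (f : L2) : ‖mul (fourier n) f‖ ≤ ‖f‖ := by
  have h1 : ‖mul (fourier n)‖ ≤ 1 := by
    refine (norm_mul_ct_le _).trans ?_
    rw [fourier_norm]
  calc ‖mul (fourier n) f‖ ≤ ‖mul (fourier n)‖ * ‖f‖ := ContinuousLinearMap.le_opNorm _ _
    _ ≤ 1 * ‖f‖ := by gcongr
    _ = ‖f‖ := one_mul _

private theorem hw_mul (m n : ℤ) (f : L2) :
    mul (fourier m) (mul (fourier n) f) = mul (fourier (m + n)) f := by
  have : (fourier (m + n) : CT) = fourier m * fourier n := by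
    ext x
    simp only [ContinuousMap.mul_apply]
    exact fourier_add
  rw [this, mul_ct]
  rfl

private theorem hw_norm (n : ℤ) (f : L2) : ‖mul (fourier n) f‖ = ‖f‖ := by
  refine le_antisymm (hw_norm_le n f) ?_
  have h := hw_norm_le (-n) (mul (fourier n) f)
  rw [hw_mul] at h
  have h0 : (fourier (-n + n) : CT) = 1 := by
    rw [neg_add_cancel]
    exact ContinuousMap.ext fun x => fourier_zero
  rw [h0, mul_one_ct] at h
  exact h

/-- The defect. -/
private noncomputable def hwD (n : ℕ) : Op2 := incl ∘L proj ∘L mul (fourier (n : ℤ)) - mul (fourier (n : ℤ))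

private theorem hwD_apply (n : ℕ) (f : L2) :
    hwD n f = incl (proj (mul (fourier (n : ℤ)) f)) - mul (fourier (n : ℤ)) f := rfl

private theorem hwD_norm (n : ℕ) (f : L2) : ‖hwD n f‖ ≤ 2 * ‖f‖ := by
  rw [hwD_apply]
  refine (norm_sub_le _ _).trans ?_
  have h1 : ‖incl (proj (mul (fourier (n : ℤ)) f))‖ ≤ ‖f‖ := by
    rw [TpB_norm_incl]
    exact (TpB_norm_proj _).trans (hw_norm_le _ _)
  have h2 := hw_norm_le (n : ℤ) f
  linarith

/-- The functions whose defect tends to zero. -/
private noncomputable def hwS : Submodule ℂ L2 where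
  carrier := {f | Tendsto (fun n => hwD n f) atTop (𝓝 0)}
  zero_mem' := by
    simp only [mem_ofPred_eq, map_zero]
    exact tendsto_const_nhds
  add_mem' := by
    intro f g hf hg
    simp only [mem_ofPred_eq, map_add] at hf hg ⊢
    simpa using hf.add hg
  smul_mem' := by
    intro c f hf
    simp only [mem_ofPred_eq, map_smul] at hf ⊢
    simpa using hf.const_smul c

private theorem hwS_mem (f : L2) : f ∈ hwS ↔ Tendsto (fun n => hwD n f) atTop (𝓝 0) := Iff.rfl

private theorem hwS_closed : IsClosed (hwS : Set L2) := by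
  refine isClosed_of_closure_subset fun f hf => ?_
  rw [SetLike.mem_coe, hwS_mem, Metric.tendsto_atTop]
  intro ε hε
  obtain ⟨g, hg, hfg⟩ := Metric.mem_closure_iff.mp hf (ε / 4) (by positivity)
  rw [SetLike.mem_coe, hwS_mem, Metric.tendsto_atTop] at hg
  obtain ⟨N, hN⟩ := hg (ε / 2) (by positivity)
  refine ⟨N, fun n hn => ?_⟩
  have h1 := hN n hn
  rw [dist_zero_right] at h1 ⊢
  have h2 := hwD_norm n (f - g)
  rw [map_sub] at h2
  rw [dist_eq_norm] at hfg
  have h3 : ‖hwD n f‖ ≤ ‖hwD n f - hwD n g‖ + ‖hwD n g‖ := by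
    have := norm_add_le (hwD n f - hwD n g) (hwD n g)
    rwa [sub_add_cancel] at this
  linarith

private theorem hw_mul_fourierLp (n k : ℤ) :
    mul (fourier n) (fourierLp 2 k : L2) = (fourierLp 2 (n + k) : L2) := by
  refine Lp.ext ?_
  filter_upwards [mul_ae (fourier n) (fourierLp 2 k : L2), coeFn_fourierLp (T := (1 : ℝ)) 2 k,
    coeFn_fourierLp (T := (1 : ℝ)) 2 (n + k)] with x h1 h2 h3
  rw [h1, h2, h3]
  exact fourier_add.symm

private theorem hw_fourierLp_mem {k : ℤ} (hk : 0 ≤ k) : (fourierLp 2 k : L2) ∈ H2 := by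
  intro m hm
  have hne : m ≠ k := by omega
  have h1 : (fourierLp 2 k : L2) = fourierBasis k := by
    rw [coe_fourierBasis]
  rw [← fourierBasis_repr, h1, HilbertBasis.repr_self, lp.single_apply_ne _ _ _ hne]

private theorem hwS_top : hwS = ⊤ := by
  rw [eq_top_iff, ← span_fourierLp_closure_eq_top (T := (1 : ℝ)) (p := 2) (by norm_num)]
  refine Submodule.topologicalClosure_minimal _ ?_ hwS_closed
  rw [Submodule.span_le]
  rintro _ ⟨k, rfl⟩
  rw [SetLike.mem_coe, hwS_mem]
  refine tendsto_const_nhds.congr' ?_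
  filter_upwards [eventually_ge_atTop (k.natAbs)] with n hn
  rw [hwD_apply, hw_mul_fourierLp, TpB_incl_proj, sub_self]
  exact hw_fourierLp_mem (by omega)

private theorem hw_tendsto (f : L2) : Tendsto (fun n => hwD n f) atTop (𝓝 0) := by
  have : f ∈ hwS := by rw [hwS_top]; trivial
  exact this

private theorem hw_below {M : Op2} (hM : Cm M) (h : IsUnit (TM M)) (f : L2) :
    ‖f‖ ≤ ‖Ring.inverse (TM M)‖ * ‖M f‖ := by
  set c := ‖Ring.inverse (TM M)‖ with hc
  have hc0 : 0 ≤ c := norm_nonneg _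
  have h1 : ∀ g : Hardy, ‖g‖ ≤ c * ‖M (incl g)‖ := by
    intro g
    have e1 : Ring.inverse (TM M) (TM M g) = g := by
      have := Ring.inverse_mul_cancel _ h
      calc Ring.inverse (TM M) (TM M g) = (Ring.inverse (TM M) * TM M) g := rfl
        _ = g := by rw [this]; rfl
    calc ‖g‖ = ‖Ring.inverse (TM M) (TM M g)‖ := by rw [e1]
      _ ≤ c * ‖TM M g‖ := ContinuousLinearMap.le_opNorm _ _
      _ ≤ c * ‖M (incl g)‖ := by
          gcongr
          exact TpB_norm_proj _
  have h2 : ∀ n : ℕ, ‖f‖ ≤ c * ‖M f‖ + (c * ‖M‖ + 1) * ‖hwD n f‖ := by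
    intro n
    have e1 : incl (proj (mul (fourier (n : ℤ)) f)) = mul (fourier (n : ℤ)) f + hwD n f := by
      rw [hwD_apply]; abel
    have e2 : M (mul (fourier (n : ℤ)) f) = mul (fourier (n : ℤ)) (M f) := by
      have := hM (fourier (n : ℤ))
      exact congrArg (fun A : Op2 => A f) this
    have e3 := h1 (proj (mul (fourier (n : ℤ)) f))
    rw [e1, map_add, e2] at e3
    have e4 : ‖mul (fourier (n : ℤ)) (M f) + M (hwD n f)‖ ≤ ‖M f‖ + ‖M‖ * ‖hwD n f‖ := by
      refine (norm_add_le _ _).trans ?_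
      rw [hw_norm]
      gcongr
      exact ContinuousLinearMap.le_opNorm _ _
    have e5 : ‖f‖ ≤ ‖proj (mul (fourier (n : ℤ)) f)‖ + ‖hwD n f‖ := by
      rw [← TpB_norm_incl, e1]
      have := norm_sub_le (mul (fourier (n : ℤ)) f + hwD n f) (hwD n f)
      rw [add_sub_cancel_right, hw_norm] at this
      exact this
    have e6 : c * ‖mul (fourier (n : ℤ)) (M f) + M (hwD n f)‖ ≤ c * (‖M f‖ + ‖M‖ * ‖hwD n f‖) := by
      gcongr
    nlinarith
  have h3 : Tendsto (fun n => c * ‖M f‖ + (c * ‖M‖ + 1) * ‖hwD n f‖) atTop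
      (𝓝 (c * ‖M f‖ + (c * ‖M‖ + 1) * ‖(0 : L2)‖)) :=
    tendsto_const_nhds.add ((hw_tendsto f).norm.const_mul _)
  rw [norm_zero, mul_zero, add_zero] at h3
  exact ge_of_tendsto' h3 h2

theorem isUnit_of_TM {M : Op2} (hM : Cm M) (h : IsUnit (TM M)) :
    IsUnit M ∧ ‖Ring.inverse M‖ ≤ ‖Ring.inverse (TM M)‖ := by
  set c := ‖Ring.inverse (TM M)‖ with hc
  have hc0 : 0 ≤ c := norm_nonneg _
  have h1 : ∀ f, ‖f‖ ≤ c * ‖M f‖ := hw_below hM h
  have h2 : ∀ f, ‖f‖ ≤ ‖Ring.inverse (TM (ContinuousLinearMap.adjoint M))‖ *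
      ‖ContinuousLinearMap.adjoint M f‖ := by
    refine hw_below hM.adjoint ?_
    rw [← adjoint_TM, ← ContinuousLinearMap.star_eq_adjoint]
    exact h.star
  have hanti : AntilipschitzWith c.toNNReal M := by
    refine ContinuousLinearMap.antilipschitz_of_bound _ fun f => ?_
    rw [Real.coe_toNNReal _ hc0]
    exact h1 f
  have hclosed : IsClosed (Set.range M) := hanti.isClosed_range M.uniformContinuous
  have hker : (ContinuousLinearMap.adjoint M).ker = ⊥ := by
    rw [Submodule.eq_bot_iff]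
    intro f hf
    have h3 := h2 f
    have h4 : ContinuousLinearMap.adjoint M f = 0 := hf
    rw [h4, norm_zero, mul_zero] at h3
    exact norm_le_zero_iff.mp h3
  have hsurj : Function.Surjective M := by
    have h5 : (M.range)ᗮ = ⊥ := by
      rw [ContinuousLinearMap.orthogonal_range, hker]
    have h6 : IsClosed (M.range : Set L2) := by
      have : (M.range : Set L2) = Set.range M := rfl
      rw [this]; exact hclosed
    have h7 : M.range = ⊤ := by
      have _ : CompleteSpace M.range := h6.completeSpace_coe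
      rwa [Submodule.orthogonal_eq_bot_iff] at h5
    intro g
    have : g ∈ M.range := by rw [h7]; trivial
    exact this
  have hunit : IsUnit M := by
    rw [ContinuousLinearMap.isUnit_iff_bijective]
    exact ⟨hanti.injective, hsurj⟩
  refine ⟨hunit, ContinuousLinearMap.opNorm_le_bound _ hc0 fun g => ?_⟩
  have e1 : M (Ring.inverse M g) = g := by
    have := Ring.mul_inverse_cancel _ hunit
    calc M (Ring.inverse M g) = (M * Ring.inverse M) g := rfl
      _ = g := by rw [this]; rfl
  have := h1 (Ring.inverse M g)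
  rwa [e1] at this

theorem resolventSet_of_TM {M : Op2} (hM : Cm M) {l : ℂ} (h : l ∉ spectrum ℂ (TM M)) :
    l ∈ resolventSet ℂ M := by
  rw [spectrum.notMem_iff, ← TM_algebraMap, ← TM_sub] at h
  exact (isUnit_of_TM ((Cm.algebraMap l).sub hM) h).1

end Pool.Agent.TBirC
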