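import Pool.Agent.TBirC.Loc
import Pool.Agent.TBirE.Nt
import Pool.Agent.TBir.STr

/-!
# Gluing the cutoff functions of the tangent directions

Paper proof. `r, K0` from `Br.bas`. Let `Dir` be the finite set of the `u`, `‖u‖ = 1`, with `(a j * u).re = 0` for some `j`
(two for every `j`, `a j ≠ 0`). For `u ∈ Dir` take `eta, rho, f_u, ...` from `hD u`. Let `ep > 0` be so small that for all
`u ∈ Dir` the `l` with `0 < ‖l - q‖ < R0` and `‖(l - q)/‖l - q‖ - u‖ ≤ 2 ep` are in `Tri q u eta rho`, and `4 ep < ‖u - u'‖` for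
`u ≠ u'` in `Dir`. Let `b : ℂ → ℝ` be smooth, `b = 1` for `‖v‖ ≤ ep`, `0` for `‖v‖ ≥ 2 ep`, values in `[0, 1]` (`ContDiffBump`),
`X_u l = b ((l - q)/‖l - q‖ - u)`, `C^1` off `q`, `‖dX_u l‖ ≤ C / ‖l - q‖` (homogeneity, see `paC_smul`, `pa_grad` in
TBirS/Plan.lean, or TBirM/LocC.lean where the same is done). Let `Z = {l | l ∈ Z ∧ l ∈ U1}` and
`f0 l = ∑ u ∈ Dir, X_u l * f_u l + (1 - ∑ u ∈ Dir, X_u l) * (if l ∈ Z then 1 else 0)`.
Let `C0` be the set of the `l` with `0 < ‖l - q‖ < R0` and `‖(l - q)/‖l - q‖ - u‖ ≥ ep` for all `u ∈ Dir`. For small `R0`: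
`c ‖l - q‖ ≤ |(L j l).re|` on `C0` for all `j` (`|(a j v).re| ≥ c'` for unit `v` at distance `≥ ep` from `Dir`, compactness,
and `Br.bas`). So `C0 ∩ J phi = ∅` (`cov`), the winding number is locally constant near `C0` (`wd_loc`), and with `hcov`
the function `1_Z` is locally constant at the points of `C0`.
Where `∑ X_u ≠ 1` near `l` we are in `C0`; so `f0` is `C^1` on `ball q R0 \ {q}`, with values in `[0, 1]`, equal to `1` near the
points of `U1 ∩ Z` and to `0` near those of `U2 ∩ Z`.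
The integrals are estimated on the sets where `‖dbar f0 l‖ ≤ 2 ‖dbar f_u l‖`, `l ∈ Tri q u eta rho`, and on the set where
`l ∈ C0` and `‖dbar f0 l‖ ≤ 2 C / ‖l - q‖`.
-/

set_option autoImplicit false

open MeasureTheory Complex Set Filter Topology Metric AddCircle
open scoped ComplexConjugate InnerProductSpace ENNReal
open Pool.Lib (dbar)

namespace Pool.Agent.TBirC

open Pool.Agent.TBirE

open Pool.Agent.TBir Pool.Agent.TBirG
open Pool.Agent.TBirM (Tri)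
open Pool.Agent.TBirS (Sg)

/-! ### Directions -/

/-- The direction of `v`. -/
private noncomputable def gU (v : ℂ) : ℂ := ‖v‖⁻¹ • v

private theorem gU_norm {v : ℂ} (hv : v ≠ 0) : ‖gU v‖ = 1 := by
  unfold gU
  rw [norm_smul, norm_inv, norm_norm, inv_mul_cancel₀ (norm_ne_zero_iff.2 hv)]

private theorem gU_smul (v : ℂ) {t : ℝ} (ht : 0 < t) : gU (t • v) = gU v := by
  unfold gU
  rw [norm_smul, Real.norm_eq_abs, abs_of_pos ht, smul_smul, mul_inv, mul_comm t⁻¹, mul_assoc,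
    inv_mul_cancel₀ ht.ne', mul_one]

private theorem gU_contDiffAt {v : ℂ} (hv : v ≠ 0) : ContDiffAt ℝ 1 gU v := by
  unfold gU
  exact ((contDiffAt_norm ℝ hv).inv (norm_ne_zero_iff.2 hv)).smul contDiffAt_id

private theorem gU_eq {v : ℂ} (hv : v ≠ 0) : v = (‖v‖ : ℂ) * gU v := by
  unfold gU
  rw [Complex.real_smul, Complex.ofReal_inv, ← mul_assoc, mul_inv_cancel₀, one_mul]
  exact_mod_cast norm_ne_zero_iff.2 hv

private theorem g_meas : Measurable gU := by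
  unfold gU
  exact measurable_norm.inv.smul measurable_id

private theorem g_grad {h : ℂ → ℂ} (hC : ∀ v : ℂ, v ≠ 0 → ContDiffAt ℝ 1 h v)
    (hh : ∀ (v : ℂ) (t : ℝ), 0 < t → h (t • v) = h v) :
    ∃ C : ℝ, 0 < C ∧ ∀ v : ℂ, v ≠ 0 → ‖dbar h v‖ ≤ C / ‖v‖ := by
  have hCD : ContDiffOn ℝ 1 h {(0 : ℂ)}ᶜ := fun v hv => (hC v hv).contDiffWithinAt
  have hcont : ContinuousOn (fderiv ℝ h) {(0 : ℂ)}ᶜ :=
    hCD.continuousOn_fderiv_of_isOpen isOpen_compl_singleton le_rfl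
  have hsub : sphere (0 : ℂ) 1 ⊆ {(0 : ℂ)}ᶜ := by
    intro z hz h0
    rw [mem_singleton_iff] at h0
    rw [h0, mem_sphere_iff_norm] at hz
    simp at hz
  obtain ⟨M, hM⟩ := (isCompact_sphere (0 : ℂ) 1).exists_bound_of_continuousOn
    (hcont.mono hsub)
  have hM0 : 0 ≤ M := (norm_nonneg _).trans (hM 1 (by simp))
  refine ⟨M + 1, by linarith, fun v hv => ?_⟩
  have hv0 : 0 < ‖v‖ := norm_pos_iff.mpr hv
  have ht : 0 < ‖v‖⁻¹ := inv_pos.mpr hv0
  have e1 : (fun x : ℂ => h (‖v‖⁻¹ • x)) = h := by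
    funext x
    exact hh x _ ht
  have e2 : fderiv ℝ h v = ‖v‖⁻¹ • fderiv ℝ h (‖v‖⁻¹ • v) := by
    conv_lhs => rw [← e1]
    exact fderiv_comp_smul ‖v‖⁻¹
  have hsph : ‖v‖⁻¹ • v ∈ sphere (0 : ℂ) 1 := by
    rw [mem_sphere_iff_norm, sub_zero, norm_smul, norm_inv, norm_norm,
      inv_mul_cancel₀ hv0.ne']
  have h3 : ‖fderiv ℝ h v‖ ≤ ‖v‖⁻¹ * M := by
    rw [e2, norm_smul, norm_inv, norm_norm]
    exact mul_le_mul_of_nonneg_left (hM _ hsph) ht.le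
  have h4 : ∀ u : ℂ, ‖u‖ = 1 → ‖fderiv ℝ h v u‖ ≤ ‖v‖⁻¹ * M := by
    intro u hu
    have := (fderiv ℝ h v).le_opNorm u
    rw [hu, mul_one] at this
    exact this.trans h3
  have h5 : ‖dbar h v‖ ≤ ‖v‖⁻¹ * M := by
    unfold Pool.Lib.dbar
    rw [norm_div]
    have h6 : ‖fderiv ℝ h v 1 + I * fderiv ℝ h v I‖ ≤ ‖v‖⁻¹ * M + ‖v‖⁻¹ * M := by
      refine (norm_add_le _ _).trans ?_
      rw [norm_mul, Complex.norm_I, one_mul]
      exact add_le_add (h4 1 (by simp)) (h4 I (by simp))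
    have h7 : ‖(2 : ℂ)‖ = 2 := by simp
    rw [h7, div_le_iff₀ (by norm_num)]
    linarith
  refine h5.trans ?_
  rw [div_eq_inv_mul]
  exact mul_le_mul_of_nonneg_left (by linarith) ht.le

private theorem g_dbar_sub (h : ℂ → ℂ) (q l : ℂ) : dbar (fun x => h (x - q)) l = dbar h (l - q) := by
  unfold Pool.Lib.dbar
  rw [fderiv_comp_sub]

private theorem g_dbar_mix {X f : ℂ → ℂ} {z : ℂ} (e : ℂ) (hX : DifferentiableAt ℝ X z)
    (hf : DifferentiableAt ℝ f z) :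
    dbar (fun x => X x * f x + (1 - X x) * e) z = X z * dbar f z + dbar X z * (f z - e) := by
  have h1 : HasFDerivAt (fun x => X x * f x + (1 - X x) * e)
      ((X z • fderiv ℝ f z + f z • fderiv ℝ X z) + e • ((0 : ℂ →L[ℝ] ℂ) - fderiv ℝ X z)) z := by
    have h2 := (hX.hasFDerivAt.mul hf.hasFDerivAt).add
      (((hasFDerivAt_const (1 : ℂ) z).sub hX.hasFDerivAt).mul_const e)
    exact h2
  unfold Pool.Lib.dbar
  rw [h1.fderiv]
  simp only [add_apply, smul_apply, sub_apply, zero_apply, smul_eq_mul]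
  ring

private theorem g_dbar_meas (f : ℂ → ℂ) : Measurable fun l => ‖dbar f l‖ₑ := by
  have h1 : Measurable fun l => fderiv ℝ f l 1 := measurable_fderiv_apply_const ℝ f 1
  have h2 : Measurable fun l => fderiv ℝ f l I := measurable_fderiv_apply_const ℝ f I
  unfold Pool.Lib.dbar
  exact ((h1.add (h2.const_mul I)).div_const 2).enorm

/-! ### The functions X -/

private theorem exists_X (q u : ℂ) {ep : ℝ} (hep : 0 < ep) : ∃ (X : ℂ → ℂ) (C : ℝ), 0 < C ∧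
    (∀ l, l ≠ q → ContDiffAt ℝ 1 X l) ∧ (∀ l, ∃ t : ℝ, 0 ≤ t ∧ t ≤ 1 ∧ X l = t) ∧
    (∀ l, l ≠ q → ‖gU (l - q) - u‖ < ep → ∀ᶠ l' in 𝓝 l, X l' = 1) ∧
    (∀ l, 2 * ep ≤ ‖gU (l - q) - u‖ → X l = 0) ∧
    (∀ l, l ≠ q → 2 * ep < ‖gU (l - q) - u‖ → ∀ᶠ l' in 𝓝 l, X l' = 0) ∧
    ∀ l, l ≠ q → ‖dbar X l‖ ≤ C / ‖l - q‖ := by
  let b : ContDiffBump (0 : ℂ) := ⟨ep, 2 * ep, hep, by linarith⟩
  have hne : ∀ {l : ℂ}, l ≠ q → l - q ≠ 0 := fun h => sub_ne_zero.2 h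
  obtain ⟨h, hh⟩ : ∃ h : ℂ → ℂ, h = fun v => ((b (gU v - u) : ℝ) : ℂ) := ⟨_, rfl⟩
  have hC : ∀ v : ℂ, v ≠ 0 → ContDiffAt ℝ 1 h v := by
    intro v hv
    rw [hh]
    have h1 : ContDiffAt ℝ 1 (fun v => gU v - u) v := (gU_contDiffAt hv).sub contDiffAt_const
    have h2 : ContDiffAt ℝ 1 (fun v => b (gU v - u)) v :=
      ContDiffAt.comp (f := fun v => gU v - u) v b.contDiff.contDiffAt h1
    exact ContDiffAt.comp (f := fun v => b (gU v - u)) v Complex.ofRealCLM.contDiff.contDiffAt h2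
  have hhom : ∀ (v : ℂ) (t : ℝ), 0 < t → h (t • v) = h v := by
    intro v t ht
    rw [hh]
    simp only []
    rw [gU_smul v ht]
  obtain ⟨C, hC0, hgrad⟩ := g_grad hC hhom
  have huc : ∀ l : ℂ, l ≠ q → ContinuousAt (fun l' : ℂ => ‖gU (l' - q) - u‖) l := by
    intro l hl
    have h1 : ContinuousAt gU (l - q) := (gU_contDiffAt (hne hl)).continuousAt
    have h2 : ContinuousAt (fun l' : ℂ => l' - q) l :=
      (continuous_id.sub continuous_const).continuousAt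
    exact ((ContinuousAt.comp (f := fun l' : ℂ => l' - q) h1 h2).sub continuousAt_const).norm
  have hz : ∀ l, 2 * ep ≤ ‖gU (l - q) - u‖ → h (l - q) = 0 := by
    intro l hl
    rw [hh]
    simp only []
    rw [b.zero_of_le_dist (by rw [dist_zero_right]; exact hl)]
    simp
  refine ⟨fun l => h (l - q), C, hC0, ?_, ?_, ?_, hz, ?_, ?_⟩
  · intro l hl
    have h1 : ContDiffAt ℝ 1 (fun x : ℂ => x - q) l := (contDiff_id.sub contDiff_const).contDiffAt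
    exact ContDiffAt.comp (f := fun x : ℂ => x - q) l (hC _ (hne hl)) h1
  · intro l
    refine ⟨b (gU (l - q) - u), b.nonneg, b.le_one, ?_⟩
    rw [hh]
  · intro l hl hlt
    filter_upwards [(huc l hl).eventually_lt_const hlt] with l' hl'
    rw [hh]
    simp only []
    rw [b.one_of_mem_closedBall (by rw [mem_closedBall, dist_zero_right]; exact hl'.le)]
    simp
  · intro l hl hlt
    filter_upwards [(huc l hl).eventually_const_lt hlt] with l' hl'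
    exact hz l' hl'.le
  · intro l hl
    rw [g_dbar_sub]
    exact hgrad _ (hne hl)

/-! ### Elementary facts -/

private theorem g_lb {ι : Type*} (S : Finset ι) (c : ι → ℝ) (h : ∀ u ∈ S, 0 < c u) :
    ∃ c0 : ℝ, 0 < c0 ∧ ∀ u ∈ S, c0 ≤ c u := by
  classical
  induction S using Finset.induction_on with
  | empty => exact ⟨1, one_pos, fun u hu => absurd hu (Finset.notMem_empty u)⟩
  | insert a s ha ih =>
    obtain ⟨c1, h1, h2⟩ := ih fun u hu => h u (Finset.mem_insert_of_mem hu)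
    refine ⟨min c1 (c a), lt_min h1 (h a (Finset.mem_insert_self _ _)), fun u hu => ?_⟩
    rcases Finset.mem_insert.1 hu with rfl | hu
    · exact min_le_right _ _
    · exact (min_le_left _ _).trans (h2 u hu)

private theorem g_dir_fin {a : ℂ} (ha : a ≠ 0) : {u : ℂ | ‖u‖ = 1 ∧ (a * u).re = 0}.Finite := by
  have hsub : {u : ℂ | ‖u‖ = 1 ∧ (a * u).re = 0} ⊆
      {I * (‖a‖ : ℂ) / a, -(I * (‖a‖ : ℂ)) / a} := by
    rintro u ⟨h1, h2⟩
    have h3 : a * u = I * ((a * u).im : ℂ) := by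
      apply Complex.ext
      · rw [h2]
        simp
      · simp
    have h4 : |(a * u).im| = ‖a‖ := by
      have h5 := congrArg norm h3
      rw [norm_mul, h1, mul_one, norm_mul, Complex.norm_I, one_mul, Complex.norm_real,
        Real.norm_eq_abs] at h5
      exact h5.symm
    have h6 : ∀ t : ℂ, a * u = t → u = t / a := by
      intro t ht
      rw [← ht, mul_div_cancel_left₀ _ ha]
    rcases (abs_eq (norm_nonneg a)).1 h4 with h5 | h5
    · left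
      apply h6
      rw [h3, h5]
    · right
      rw [mem_singleton_iff]
      apply h6
      rw [h3, h5]
      push_cast
      ring
  exact (Set.toFinite _).subset hsub

private theorem g_tri_open (q u : ℂ) (eta rho : ℝ) : IsOpen (Tri q u eta rho) := by
  have hc : Continuous fun l : ℂ => (l - q) * conj u := by fun_prop
  have h1 : Continuous fun l : ℂ => |((l - q) * conj u).im| := (Complex.continuous_im.comp hc).abs
  have h2 : Continuous fun l : ℂ => ((l - q) * conj u).re := Complex.continuous_re.comp hc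
  exact (isOpen_lt h1 (continuous_const.mul h2)).inter (isOpen_lt h2 continuous_const)

private theorem g_mem_tri {q u l : ℂ} (hu : ‖u‖ = 1) (hl : l ≠ q) {ep eta rho : ℝ} (h8 : ep ≤ 1 / 8)
    (he : ep ≤ eta / 4) (heta : 0 < eta) (hr : ‖l - q‖ < rho) (hd : ‖gU (l - q) - u‖ ≤ 2 * ep) :
    l ∈ Tri q u eta rho := by
  have hne : l - q ≠ 0 := sub_ne_zero.2 hl
  have hpos : 0 < ‖l - q‖ := norm_pos_iff.2 hne
  obtain ⟨w, hw⟩ : ∃ w : ℂ, w = (gU (l - q) - u) * conj u := ⟨_, rfl⟩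
  have hwn : ‖w‖ ≤ 2 * ep := by
    rw [hw, norm_mul, RCLike.norm_conj, hu, mul_one]
    exact hd
  have huu : u * conj u = 1 := by
    rw [Complex.mul_conj, Complex.normSq_eq_norm_sq, hu]
    simp
  have e0 : 1 + w = gU (l - q) * conj u := by
    rw [hw, sub_mul (gU (l - q)) u, huu]
    ring
  have e1 : (l - q) * conj u = (‖l - q‖ : ℂ) * (1 + w) := by
    rw [e0]
    conv_lhs => rw [gU_eq hne]
    ring
  have hre := (abs_le.1 ((Complex.abs_re_le_norm w).trans hwn))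
  have him := (Complex.abs_im_le_norm w).trans hwn
  have e2 : ((l - q) * conj u).re = ‖l - q‖ * (1 + w.re) := by
    rw [e1, Complex.re_ofReal_mul, Complex.add_re, Complex.one_re]
  have e3 : ((l - q) * conj u).im = ‖l - q‖ * w.im := by
    rw [e1, Complex.im_ofReal_mul, Complex.add_im, Complex.one_im, zero_add]
  have e4 : ((l - q) * conj u).re ≤ ‖l - q‖ := by
    refine (Complex.re_le_norm _).trans ?_
    rw [norm_mul, RCLike.norm_conj, hu, mul_one]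
  refine ⟨?_, lt_of_le_of_lt e4 hr⟩
  rw [e2, e3, abs_mul, abs_of_pos hpos]
  have h1 : |w.im| < eta * (1 + w.re) := by
    have h2 : 3 / 4 ≤ 1 + w.re := by linarith [hre.1]
    have h3 : eta * (3 / 4) ≤ eta * (1 + w.re) := mul_le_mul_of_nonneg_left h2 heta.le
    linarith
  calc ‖l - q‖ * |w.im| < ‖l - q‖ * (eta * (1 + w.re)) := mul_lt_mul_of_pos_left h1 hpos
    _ = eta * (‖l - q‖ * (1 + w.re)) := by ring

private theorem g_union {ι : Type*} (S : Finset ι) (M : ι → Set ℂ) (F : ℂ → ℝ≥0∞) (A : ι → ℝ≥0∞)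
    (h : ∀ u ∈ S, ∫⁻ l in M u, F l ≤ A u) : ∫⁻ l in ⋃ u ∈ S, M u, F l ≤ ∑ u ∈ S, A u := by
  classical
  induction S using Finset.induction_on with
  | empty => simp
  | insert a s ha ih =>
    rw [Finset.set_biUnion_insert, Finset.sum_insert ha]
    exact (lintegral_union_le _ _ _).trans (add_le_add (h a (Finset.mem_insert_self _ _))
      (ih fun u hu => h u (Finset.mem_insert_of_mem hu)))

private theorem g_lower {phi : ℂ → ℂ} {q : ℂ}
    (B : Br phi q) (S : Finset ℂ) (hS : ∀ u : ℂ, ‖u‖ = 1 → (∃ j, (B.a j * u).re = 0) → u ∈ S)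
    {ep : ℝ} (hep : 0 < ep) : ∃ c0 R1 : ℝ, 0 < c0 ∧ c0 ≤ 1 ∧ 0 < R1 ∧ R1 ≤ B.R ∧ R1 ≤ 1 ∧
      ∀ l, l ≠ q → ‖l - q‖ < R1 → (∀ u ∈ S, ep ≤ ‖gU (l - q) - u‖) →
        (∀ j, c0 * ‖l - q‖ ≤ |(B.L j l).re|) ∧ (∀ j, ‖B.g j l‖ ≠ 1) ∧
        ∀ j, ∀ h : Hardy, ‖evr (B.g j l) h‖ ≤ FF h (1 - c0 / 2 * ‖l - q‖) := by
  obtain ⟨ha, r, K, hr, hrR, hr1, hK, hb⟩ := B.bas
  obtain ⟨Kc, hKc⟩ : ∃ Kc : Set ℂ, Kc = sphere (0 : ℂ) 1 ∩ {v | ∀ u ∈ S, ep ≤ ‖v - u‖} := ⟨_, rfl⟩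
  have hcl : IsClosed {v : ℂ | ∀ u ∈ S, ep ≤ ‖v - u‖} := by
    have : {v : ℂ | ∀ u ∈ S, ep ≤ ‖v - u‖} = ⋂ u ∈ S, {v : ℂ | ep ≤ ‖v - u‖} := by
      ext v
      simp
    rw [this]
    exact isClosed_biInter fun u _ => isClosed_le continuous_const (by fun_prop)
  have hcomp : IsCompact Kc := by
    rw [hKc]
    exact (isCompact_sphere (0 : ℂ) 1).inter_right hcl
  have h1 : ∀ j, ∃ c : ℝ, 0 < c ∧ ∀ v ∈ Kc, c ≤ |(B.a j * v).re| := by
    intro j
    rcases Kc.eq_empty_or_nonempty with he | hne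
    · exact ⟨1, one_pos, fun v hv => by rw [he] at hv; exact absurd hv (notMem_empty v)⟩
    · have hco : ContinuousOn (fun v : ℂ => |(B.a j * v).re|) Kc := by fun_prop
      obtain ⟨v0, hv0, hmin⟩ := hcomp.exists_isMinOn hne hco
      refine ⟨|(B.a j * v0).re|, ?_, fun v hv => hmin hv⟩
      rw [abs_pos]
      intro h0
      rw [hKc] at hv0
      have h2 : ‖v0‖ = 1 := by simpa using hv0.1
      have h3 := hv0.2 v0 (hS v0 h2 ⟨j, h0⟩)
      rw [sub_self, norm_zero] at h3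
      linarith
  choose cj hcj hcj' using h1
  obtain ⟨c', hc', hc''⟩ := g_lb Finset.univ cj fun j _ => hcj j
  obtain ⟨c0, hc0, hc01, hc0'⟩ : ∃ c0 : ℝ, 0 < c0 ∧ c0 ≤ 1 ∧ c0 ≤ c' / 2 :=
    ⟨min 1 (c' / 2), lt_min one_pos (by linarith), min_le_left _ _, min_le_right _ _⟩
  obtain ⟨R1, hR1, hR1r, hR1c⟩ : ∃ R1 : ℝ, 0 < R1 ∧ R1 ≤ r ∧ R1 ≤ c' / (2 * K) :=
    ⟨min r (c' / (2 * K)), lt_min hr (by positivity), min_le_left _ _, min_le_right _ _⟩
  refine ⟨c0, R1, hc0, hc01, hR1, hR1r.trans hrR, hR1r.trans hr1, fun l hl hlR hlS => ?_⟩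
  have hne : l - q ≠ 0 := sub_ne_zero.2 hl
  have hpos : 0 < ‖l - q‖ := norm_pos_iff.2 hne
  have hlr : l ∈ ball q r := by
    rw [mem_ball, dist_eq_norm]
    exact lt_of_lt_of_le hlR hR1r
  have hlow : ∀ j, c0 * ‖l - q‖ ≤ |(B.L j l).re| := by
    intro j
    obtain ⟨-, -, -, h5⟩ := hb j
    obtain ⟨-, -, -, -, -, -, h6⟩ := h5 l hlr
    have h7 : c' ≤ |(B.a j * gU (l - q)).re| := by
      refine (hc'' j (Finset.mem_univ j)).trans (hcj' j _ ?_)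
      rw [hKc]
      exact ⟨by rw [mem_sphere_iff_norm, sub_zero]; exact gU_norm hne, hlS⟩
    have h8 : (B.a j * (l - q)).re = ‖l - q‖ * (B.a j * gU (l - q)).re := by
      have h9 : B.a j * (l - q) = (‖l - q‖ : ℂ) * (B.a j * gU (l - q)) := by
        conv_lhs => rw [gU_eq hne]
        ring
      rw [h9, Complex.re_ofReal_mul]
    have h10 : c' * ‖l - q‖ ≤ |(B.a j * (l - q)).re| := by
      rw [h8, abs_mul, abs_of_pos hpos, mul_comm]
      exact mul_le_mul_of_nonneg_left h7 hpos.le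
    have h11 : |(B.L j l).re - (B.a j * (l - q)).re| ≤ K * ‖l - q‖ ^ 2 := by
      rw [← Complex.sub_re]
      exact (Complex.abs_re_le_norm _).trans h6
    have h12 : K * ‖l - q‖ ^ 2 ≤ c' / 2 * ‖l - q‖ := by
      have h13 : ‖l - q‖ ≤ c' / (2 * K) := hlR.le.trans hR1c
      have h14 : K * ‖l - q‖ ≤ c' / 2 := by
        rw [le_div_iff₀ (by positivity)] at h13
        linarith
      calc K * ‖l - q‖ ^ 2 = K * ‖l - q‖ * ‖l - q‖ := by ring
        _ ≤ c' / 2 * ‖l - q‖ := mul_le_mul_of_nonneg_right h14 hpos.le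
    have h15 : c0 * ‖l - q‖ ≤ c' / 2 * ‖l - q‖ := mul_le_mul_of_nonneg_right hc0' hpos.le
    have h16 : |(B.a j * (l - q)).re| - |(B.L j l).re| ≤ |(B.L j l).re - (B.a j * (l - q)).re| := by
      rw [abs_sub_comm]
      exact abs_sub_abs_le_abs_sub _ _
    linarith
  have hne0 : ∀ j, (B.L j l).re ≠ 0 := by
    intro j h0
    have := hlow j
    rw [h0, abs_zero] at this
    have : 0 < c0 * ‖l - q‖ := by positivity
    linarith
  refine ⟨hlow, ?_, ?_⟩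
  · intro j hz
    obtain ⟨-, -, -, h5⟩ := hb j
    obtain ⟨-, -, -, h6, -⟩ := h5 l hlr
    exact hne0 j (h6.1 hz)
  · intro j h
    obtain ⟨-, -, -, h5⟩ := hb j
    obtain ⟨h6, h7, h8, h9, h10, -⟩ := h5 l hlr
    have hx1 : |(B.L j l).re| ≤ 1 := (Complex.abs_re_le_norm _).trans h10
    have hgn : ‖B.g j l‖ = Real.exp (B.L j l).re := by
      rw [h6, norm_mul, B.norm_q j, one_mul, Complex.norm_exp]
    have hexp : Real.exp (-|(B.L j l).re|) ≤ 1 - c0 / 2 * ‖l - q‖ := by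
      obtain ⟨x, hx⟩ : ∃ x : ℝ, x = |(B.L j l).re| := ⟨_, rfl⟩
      have hx0 : 0 ≤ x := by rw [hx]; exact abs_nonneg _
      have hlx := hlow j
      rw [← hx] at hx1 hlx ⊢
      have h11 : Real.exp (-x) ≤ (1 + x)⁻¹ := by
        rw [Real.exp_neg]
        refine inv_anti₀ (by linarith) ?_
        linarith [Real.add_one_le_exp x]
      have h12 : (1 + x)⁻¹ ≤ 1 - x / 2 := by
        rw [inv_le_iff_one_le_mul₀ (by linarith)]
        nlinarith
      linarith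
    have ht1 : 1 - c0 / 2 * ‖l - q‖ < 1 := by
      have : 0 < c0 / 2 * ‖l - q‖ := by positivity
      linarith
    unfold evr
    split_ifs with hg
    · have h11 : (B.L j l).re < 0 := h8.1 hg
      refine (norm_ev_le_FF hg h).trans (FF_mono h (norm_nonneg _) ?_ ht1)
      rw [hgn]
      rw [abs_of_neg h11, neg_neg] at hexp
      exact hexp
    · have h11 : 0 < (B.L j l).re := by
        rcases lt_trichotomy (B.L j l).re 0 with h12 | h12 | h12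
        · exact absurd (h8.2 h12) hg
        · exact absurd h12 (hne0 j)
        · exact h12
      have h12 : ‖(conj (B.g j l))⁻¹‖ = Real.exp (-|(B.L j l).re|) := by
        rw [norm_inv, RCLike.norm_conj, hgn, abs_of_pos h11, Real.exp_neg]
      have h13 : ‖(conj (B.g j l))⁻¹‖ < 1 := by
        rw [h12]
        exact lt_of_le_of_lt hexp ht1
      refine (norm_ev_le_FF h13 h).trans (FF_mono h (norm_nonneg _) ?_ ht1)
      rw [h12]
      exact hexp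

/-- Off the branches the set `Z` is locally constant. -/
theorem Br.des_loc {phi : ℂ → ℂ} {q : ℂ} (B : Br phi q) {x : ℤ} {Z : Set ℂ} {r : ℝ}
    (hD : ∀ l ∈ ball q r, ((∃ j, ‖B.g j l‖ = 1) → l ∈ Z) ∧ ((∀ j, ‖B.g j l‖ ≠ 1) →
      (l ∈ Z ↔ x + ((Finset.univ.filter fun j => ‖B.g j l‖ < 1).card : ℤ) ≠ 0)))
    {l : ℂ} (hl : l ∈ ball q r) (hlR : l ∈ ball q B.R) (hne : ∀ j, ‖B.g j l‖ ≠ 1) :
    ∀ᶠ l' in 𝓝 l, (l' ∈ Z ↔ l ∈ Z) := by
  have h1 : ∀ j, ∀ᶠ l' in 𝓝 l, ‖B.g j l'‖ ≠ 1 ∧ (‖B.g j l'‖ < 1 ↔ ‖B.g j l‖ < 1) := by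
    intro j
    have hc : ContinuousAt (fun l' => ‖B.g j l'‖) l :=
      ((B.diff j).differentiableAt (isOpen_ball.mem_nhds hlR)).continuousAt.norm
    rcases lt_or_gt_of_ne (hne j) with h | h
    · filter_upwards [hc.eventually (gt_mem_nhds h)] with l' hl'
      exact ⟨hl'.ne, ⟨fun _ => h, fun _ => hl'⟩⟩
    · filter_upwards [hc.eventually (lt_mem_nhds h)] with l' hl'
      exact ⟨hl'.ne', ⟨fun h2 => absurd h2 (lt_asymm hl'), fun h2 => absurd h2 (lt_asymm h)⟩⟩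
  filter_upwards [Filter.eventually_all.2 h1, isOpen_ball.mem_nhds hl] with l' hl' hb
  rw [(hD l' hb).2 fun j => (hl' j).1, (hD l hl).2 hne]
  have e : (Finset.univ.filter fun j => ‖B.g j l'‖ < 1) =
      (Finset.univ.filter fun j => ‖B.g j l‖ < 1) := by
    ext j
    simp only [Finset.mem_filter, Finset.mem_univ, true_and]
    exact (hl' j).2
  rw [e]

private theorem g_zloc {Z U1 U2 : Set ℂ}
    (o1 : IsOpen U1) (o2 : IsOpen U2) (hdis : Disjoint U1 U2) {zf : ℂ → ℂ}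
    (hz1 : ∀ l, l ∈ Z → l ∈ U1 → zf l = 1) (hz0 : ∀ l, ¬ (l ∈ Z ∧ l ∈ U1) → zf l = 0)
    {l : ℂ} (hw : ∀ᶠ l' in 𝓝 l, (l' ∈ Z ↔ l ∈ Z)) (hc : l ∈ Z → l ∈ U1 ∨ l ∈ U2) :
    ∃ e : ℂ, (e = 0 ∨ e = 1) ∧ (∀ᶠ l' in 𝓝 l, zf l' = e) ∧ (l ∈ Z → l ∈ U1 → e = 1) ∧
      (l ∈ Z → l ∈ U2 → e = 0) := by
  by_cases h0 : l ∈ Z
  · rcases hc h0 with hU | hU
    · refine ⟨1, Or.inr rfl, ?_, fun _ _ => rfl, fun _ h2 => absurd h2 (hdis.notMem_of_mem_left hU)⟩
      filter_upwards [hw, o1.mem_nhds hU] with l' hl' hl1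
      exact hz1 l' (hl'.2 h0) hl1
    · refine ⟨0, Or.inl rfl, ?_, fun _ h1 => absurd hU (hdis.notMem_of_mem_left h1), fun _ _ => rfl⟩
      filter_upwards [o2.mem_nhds hU] with l' hl2
      exact hz0 l' fun h => hdis.notMem_of_mem_left h.2 hl2
  · refine ⟨0, Or.inl rfl, ?_, fun h => absurd h h0, fun _ _ => rfl⟩
    filter_upwards [hw] with l' hl'
    exact hz0 l' fun h => h0 (hl'.1 h.1)

theorem Br.glue {phi : ℂ → ℂ} {q : ℂ} (B : Br phi q) {x : ℤ} {Z : Set ℂ} (hDs : B.Des x Z)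
    {U1 U2 : Set ℂ} (o1 : IsOpen U1) (o2 : IsOpen U2) (hdis : Disjoint U1 U2)
    (hcov : ∀ᶠ l in 𝓝 q, l ∈ Z → l ≠ q → l ∈ U1 ∨ l ∈ U2)
    (hD : ∀ u : ℂ, ‖u‖ = 1 → (∃ j, (B.a j * u).re = 0) → DSol B Z U1 U2 u) : GSol B Z U1 U2 := by
  obtain ⟨ha, -⟩ := B.bas
  have hfin : {u : ℂ | ‖u‖ = 1 ∧ ∃ j, (B.a j * u).re = 0}.Finite := by
    have h1 : {u : ℂ | ‖u‖ = 1 ∧ ∃ j, (B.a j * u).re = 0} =
        ⋃ j, {u : ℂ | ‖u‖ = 1 ∧ (B.a j * u).re = 0} := by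
      ext u
      simp
    rw [h1]
    exact Set.finite_iUnion fun j => g_dir_fin (ha j)
  obtain ⟨S, hS⟩ : ∃ S : Finset ℂ, ∀ u, u ∈ S ↔ (‖u‖ = 1 ∧ ∃ j, (B.a j * u).re = 0) :=
    ⟨hfin.toFinset, fun u => by simp⟩
  have hD' : ∀ u, ∃ (eta rho : ℝ) (f : ℂ → ℂ) (c : ℝ) (p : ℕ), u ∈ S → 0 < eta ∧ 0 < rho ∧ 0 < c ∧
      ContDiffOn ℝ 1 f (Tri q u eta rho) ∧ (∀ l, ∃ t : ℝ, 0 ≤ t ∧ t ≤ 1 ∧ f l = t) ∧
      (∀ l ∈ Tri q u eta rho, l ∈ Z → l ∈ U1 → ∀ᶠ l' in 𝓝 l, f l' = 1) ∧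
      (∀ l ∈ Tri q u eta rho, l ∈ Z → l ∈ U2 → ∀ᶠ l' in 𝓝 l, f l' = 0) ∧
      (∀ l ∈ Tri q u eta rho, (dbar f l ≠ 0 ∨ (f l ≠ 0 ∧ f l ≠ 1)) →
        ∀ j, c * ‖l - q‖ ^ p ≤ |(B.L j l).re|) ∧
      ∫⁻ l in Tri q u eta rho, ‖dbar f l‖ₑ < ⊤ ∧
      ∀ j, ∃ K : ℝ, ∀ h : Hardy, ∫⁻ l in Tri q u eta rho, ‖dbar f l‖ₑ * ‖evr (B.g j l) h‖ₑ ^ 2 ≤
        ENNReal.ofReal (K * ‖h‖ ^ 2) := by
    intro u
    by_cases h : u ∈ S
    · obtain ⟨eta, rho, f, c, p, h'⟩ := hD u ((hS u).1 h).1 ((hS u).1 h).2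
      exact ⟨eta, rho, f, c, p, fun _ => h'⟩
    · exact ⟨0, 0, 0, 0, 0, fun h' => absurd h' h⟩
  choose eta rho f c p hdat using hD'
  -- the small number ep
  obtain ⟨e1, he1, he1'⟩ := g_lb S (fun u => eta u / 4) fun u hu => by
    have := (hdat u hu).1
    positivity
  obtain ⟨e2, he2, he2'⟩ := g_lb S.offDiag (fun x => ‖x.1 - x.2‖ / 8) fun x hx => by
    have h1 := (Finset.mem_offDiag.1 hx).2.2
    have h2 : 0 < ‖x.1 - x.2‖ := norm_pos_iff.2 (sub_ne_zero.2 h1)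
    positivity
  obtain ⟨ep, hep, hep8, hep1, hep2⟩ : ∃ ep : ℝ, 0 < ep ∧ ep ≤ 1 / 8 ∧ ep ≤ e1 ∧ ep ≤ e2 :=
    ⟨min (1 / 8) (min e1 e2), lt_min (by norm_num) (lt_min he1 he2), min_le_left _ _,
      (min_le_right _ _).trans (min_le_left _ _), (min_le_right _ _).trans (min_le_right _ _)⟩
  choose X CX hCX hXc hXv hX1 hX0 hX0' hXd using fun u => exists_X q u hep
  obtain ⟨C, hC, hCle⟩ : ∃ C : ℝ, 0 < C ∧ ∀ u ∈ S, CX u ≤ C := by
    refine ⟨∑ u ∈ S, CX u + 1, ?_, fun u hu => ?_⟩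
    · have : 0 ≤ ∑ u ∈ S, CX u := Finset.sum_nonneg fun u _ => (hCX u).le
      linarith
    · have := Finset.single_le_sum (fun u _ => (hCX u).le) hu
      linarith
  obtain ⟨c0, R1, hc0, hc01, hR1, hR1R, hR11, hlow⟩ :=
    g_lower B S (fun u h1 h2 => (hS u).2 ⟨h1, h2⟩) hep
  obtain ⟨rD, hrD, hDes⟩ := hDs
  obtain ⟨r20, hr20, hcv0⟩ := Metric.eventually_nhds_iff_ball.1 hcov
  obtain ⟨r2, hr2e⟩ : ∃ r2 : ℝ, r2 = min r20 rD := ⟨_, rfl⟩
  have hr2 : 0 < r2 := by rw [hr2e]; exact lt_min hr20 hrD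
  have hr2D : r2 ≤ rD := by rw [hr2e]; exact min_le_right _ _
  have hcv : ∀ l ∈ ball q r2, l ∈ Z → l ≠ q → l ∈ U1 ∨ l ∈ U2 := fun l hl =>
    hcv0 l (ball_subset_ball (by rw [hr2e]; exact min_le_left _ _) hl)
  obtain ⟨r3, hr3, hr3'⟩ := g_lb S rho fun u hu => (hdat u hu).2.1
  obtain ⟨R0, hR0, hR01, hR02, hR03⟩ : ∃ R0 : ℝ, 0 < R0 ∧ R0 ≤ R1 ∧ R0 ≤ r2 ∧ R0 ≤ r3 :=
    ⟨min R1 (min r2 r3), lt_min hR1 (lt_min hr2 hr3), min_le_left _ _,
      (min_le_right _ _).trans (min_le_left _ _), (min_le_right _ _).trans (min_le_right _ _)⟩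
  obtain ⟨zf, hz1, hz0⟩ : ∃ zf : ℂ → ℂ, (∀ l, l ∈ Z → l ∈ U1 → zf l = 1) ∧
      ∀ l, ¬ (l ∈ Z ∧ l ∈ U1) → zf l = 0 := by
    classical
    exact ⟨fun l => if l ∈ Z ∧ l ∈ U1 then 1 else 0, fun l h1 h2 => if_pos ⟨h1, h2⟩,
      fun l h => if_neg h⟩
  obtain ⟨f0, hf0⟩ : ∃ f0 : ℂ → ℂ, ∀ l, f0 l = ∑ u ∈ S, X u l * f u l +
      (1 - ∑ u ∈ S, X u l) * zf l := ⟨_, fun l => rfl⟩
  have hone : ∀ u ∈ S, ∀ l, (∀ u' ∈ S, u' ≠ u → X u' l = 0) →
      f0 l = X u l * f u l + (1 - X u l) * zf l := by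
    intro u hu l h
    rw [hf0, Finset.sum_eq_single_of_mem u hu (fun b hb hbu => by rw [h b hb hbu, zero_mul]),
      Finset.sum_eq_single_of_mem u hu (fun b hb hbu => h b hb hbu)]
  have hzero : ∀ l, (∀ u' ∈ S, X u' l = 0) → f0 l = zf l := by
    intro l h
    rw [hf0, Finset.sum_eq_zero (fun u hu => by rw [h u hu, zero_mul]), Finset.sum_eq_zero h]
    ring
  have hsep : ∀ u ∈ S, ∀ u' ∈ S, u' ≠ u → ∀ l, ‖gU (l - q) - u‖ ≤ 2 * ep →
      2 * ep < ‖gU (l - q) - u'‖ := by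
    intro u hu u' hu' hne l hl
    have h1 := he2' (u, u') (Finset.mem_offDiag.2 ⟨hu, hu', hne.symm⟩)
    simp only [] at h1
    have h2 : ‖u - u'‖ ≤ ‖gU (l - q) - u‖ + ‖gU (l - q) - u'‖ := by
      rw [norm_sub_rev (gU (l - q)) u]
      exact norm_sub_le_norm_sub_add_norm_sub _ _ _
    linarith
  have hval : ∀ l, ∃ t : ℝ, 0 ≤ t ∧ t ≤ 1 ∧ f0 l = t := by
    intro l
    obtain ⟨z, hz, hz', hzz⟩ : ∃ z : ℝ, 0 ≤ z ∧ z ≤ 1 ∧ zf l = z := by
      by_cases h : l ∈ Z ∧ l ∈ U1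
      · exact ⟨1, zero_le_one, le_rfl, by rw [hz1 l h.1 h.2]; simp⟩
      · exact ⟨0, le_rfl, zero_le_one, by rw [hz0 l h]; simp⟩
    by_cases h : ∃ u ∈ S, ‖gU (l - q) - u‖ ≤ 2 * ep
    · obtain ⟨u, hu, hul⟩ := h
      obtain ⟨x, hx, hx', hxx⟩ := hXv u l
      obtain ⟨y, hy, hy', hyy⟩ := (hdat u hu).2.2.2.2.1 l
      refine ⟨x * y + (1 - x) * z, by nlinarith, by nlinarith, ?_⟩
      rw [hone u hu l fun u' hu' hne => hX0 u' l (hsep u hu u' hu' hne l hul).le, hxx, hyy, hzz]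
      push_cast
      ring
    · refine ⟨z, hz, hz', ?_⟩
      rw [hzero l fun u hu => hX0 u l ?_, hzz]
      by_contra hlt
      rw [not_le] at hlt
      exact h ⟨u, hu, hlt.le⟩
  -- the three cases
  have hcase : ∀ l, l ≠ q → ‖l - q‖ < R0 →
      (∃ u ∈ S, l ∈ Tri q u (eta u) (rho u) ∧ f0 =ᶠ[𝓝 l] f u) ∨
      ∃ e : ℂ, (e = 0 ∨ e = 1) ∧ (∀ u ∈ S, ep ≤ ‖gU (l - q) - u‖) ∧
        (l ∈ Z → l ∈ U1 → e = 1) ∧ (l ∈ Z → l ∈ U2 → e = 0) ∧
        ((∃ u ∈ S, l ∈ Tri q u (eta u) (rho u) ∧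
          f0 =ᶠ[𝓝 l] fun x => X u x * f u x + (1 - X u x) * e) ∨ f0 =ᶠ[𝓝 l] fun _ => e) := by
    intro l hl hlR
    have hTri : ∀ u ∈ S, ‖gU (l - q) - u‖ ≤ 2 * ep → l ∈ Tri q u (eta u) (rho u) := by
      intro u hu h
      have h1 := he1' u hu
      exact g_mem_tri ((hS u).1 hu).1 hl hep8 (hep1.trans h1) (hdat u hu).1
        (lt_of_lt_of_le hlR (hR03.trans (hr3' u hu))) h
    have hoth : ∀ u ∈ S, ‖gU (l - q) - u‖ ≤ 2 * ep → ∀ᶠ l' in 𝓝 l, ∀ u' ∈ S, u' ≠ u → X u' l' = 0 := by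
      intro u hu h
      rw [Filter.eventually_all_finset]
      intro u' hu'
      by_cases hne : u' = u
      · exact Eventually.of_forall fun l' h => absurd hne h
      · filter_upwards [hX0' u' l hl (hsep u hu u' hu' hne l h)] with l' hl' _
        exact hl'
    by_cases h1 : ∃ u ∈ S, ‖gU (l - q) - u‖ < ep
    · obtain ⟨u, hu, hul⟩ := h1
      left
      refine ⟨u, hu, hTri u hu (by linarith), ?_⟩
      filter_upwards [hoth u hu (by linarith), hX1 u l hl hul] with l' h2 h3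
      rw [hone u hu l' h2, h3]
      ring
    · right
      have hP : ∀ u ∈ S, ep ≤ ‖gU (l - q) - u‖ := by
        intro u hu
        by_contra hlt
        rw [not_le] at hlt
        exact h1 ⟨u, hu, hlt⟩
      obtain ⟨-, hJ, -⟩ := hlow l hl (lt_of_lt_of_le hlR hR01) hP
      have hlb : l ∈ ball q r2 := by
        rw [mem_ball, dist_eq_norm]
        exact lt_of_lt_of_le hlR hR02
      have hlBR : l ∈ ball q B.R := by
        rw [mem_ball, dist_eq_norm]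
        exact lt_of_lt_of_le hlR (hR01.trans hR1R)
      obtain ⟨e, he, hze, hE1, hE0⟩ := g_zloc o1 o2 hdis hz1 hz0
        (B.des_loc hDes (ball_subset_ball hr2D hlb) hlBR hJ) fun h => hcv l hlb h hl
      refine ⟨e, he, hP, hE1, hE0, ?_⟩
      by_cases h2 : ∃ u ∈ S, ‖gU (l - q) - u‖ ≤ 2 * ep
      · obtain ⟨u, hu, hul⟩ := h2
        left
        refine ⟨u, hu, hTri u hu hul, ?_⟩
        filter_upwards [hoth u hu hul, hze] with l' h3 h4
        rw [hone u hu l' h3, h4]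
      · right
        have h3 : ∀ᶠ l' in 𝓝 l, ∀ u ∈ S, X u l' = 0 := by
          rw [Filter.eventually_all_finset]
          intro u hu
          refine hX0' u l hl ?_
          by_contra hlt
          rw [not_lt] at hlt
          exact h2 ⟨u, hu, hlt⟩
        filter_upwards [h3, hze] with l' h4 h5
        rw [hzero l' h4, h5]
  have hcd : ∀ l, l ≠ q → ‖l - q‖ < R0 → ContDiffAt ℝ 1 f0 l := by
    intro l hl hlR
    have hfu : ∀ u ∈ S, l ∈ Tri q u (eta u) (rho u) → ContDiffAt ℝ 1 (f u) l := fun u hu hT =>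
      (hdat u hu).2.2.2.1.contDiffAt ((g_tri_open q u _ _).mem_nhds hT)
    rcases hcase l hl hlR with ⟨u, hu, hT, h⟩ | ⟨e, -, -, -, -, ⟨u, hu, hT, h⟩ | h⟩
    · exact (hfu u hu hT).congr_of_eventuallyEq h
    · refine ContDiffAt.congr_of_eventuallyEq ?_ h
      exact ((hXc u l hl).mul (hfu u hu hT)).add
        ((contDiffAt_const.sub (hXc u l hl)).mul contDiffAt_const)
    · exact contDiffAt_const.congr_of_eventuallyEq h
  have hU1 : ∀ l, l ≠ q → ‖l - q‖ < R0 → l ∈ Z → l ∈ U1 → ∀ᶠ l' in 𝓝 l, f0 l' = 1 := by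
    intro l hl hlR hs hU
    rcases hcase l hl hlR with ⟨u, hu, hT, h⟩ | ⟨e, -, -, hE1, -, ⟨u, hu, hT, h⟩ | h⟩
    · filter_upwards [h, (hdat u hu).2.2.2.2.2.1 l hT hs hU] with l' h1 h2
      rw [h1, h2]
    · filter_upwards [h, (hdat u hu).2.2.2.2.2.1 l hT hs hU] with l' h1 h2
      rw [h1, h2, hE1 hs hU]
      ring
    · filter_upwards [h] with l' h1
      rw [h1, hE1 hs hU]
  have hU2 : ∀ l, l ≠ q → ‖l - q‖ < R0 → l ∈ Z → l ∈ U2 → ∀ᶠ l' in 𝓝 l, f0 l' = 0 := by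
    intro l hl hlR hs hU
    rcases hcase l hl hlR with ⟨u, hu, hT, h⟩ | ⟨e, -, -, -, hE0, ⟨u, hu, hT, h⟩ | h⟩
    · filter_upwards [h, (hdat u hu).2.2.2.2.2.2.1 l hT hs hU] with l' h1 h2
      rw [h1, h2]
    · filter_upwards [h, (hdat u hu).2.2.2.2.2.2.1 l hT hs hU] with l' h1 h2
      rw [h1, h2, hE0 hs hU]
      ring
    · filter_upwards [h] with l' h1
      rw [h1, hE0 hs hU]
  -- the lower bound
  obtain ⟨c1, hc1, hc1'⟩ := g_lb S c fun u hu => (hdat u hu).2.2.1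
  obtain ⟨cm, hcm, hcm0, hcm1⟩ : ∃ cm : ℝ, 0 < cm ∧ cm ≤ c0 ∧ cm ≤ c1 :=
    ⟨min c0 c1, lt_min hc0 hc1, min_le_left _ _, min_le_right _ _⟩
  obtain ⟨P, hP1, hPp⟩ : ∃ P : ℕ, 1 ≤ P ∧ ∀ u ∈ S, p u ≤ P :=
    ⟨S.sup p + 1, Nat.le_add_left _ _, fun u hu => (Finset.le_sup hu).trans (Nat.le_succ _)⟩
  have hpow : ∀ l : ℂ, ‖l - q‖ < R0 → ∀ (c' : ℝ) (m : ℕ), cm ≤ c' → m ≤ P →
      cm * ‖l - q‖ ^ P ≤ c' * ‖l - q‖ ^ m := by
    intro l hlR c' m h1 h2
    have h3 : ‖l - q‖ ≤ 1 := hlR.le.trans (hR01.trans hR11)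
    exact mul_le_mul h1 (pow_le_pow_of_le_one (norm_nonneg _) h3 h2) (by positivity)
      (hcm.le.trans h1)
  have hlb : ∀ l, l ≠ q → ‖l - q‖ < R0 → (dbar f0 l ≠ 0 ∨ (f0 l ≠ 0 ∧ f0 l ≠ 1)) →
      ∀ j, cm * ‖l - q‖ ^ P ≤ |(B.L j l).re| := by
    intro l hl hlR hd j
    rcases hcase l hl hlR with ⟨u, hu, hT, h⟩ | ⟨e, -, hP, -, -, -⟩
    · rw [Pool.Lib.dbar_congr h, h.self_of_nhds] at hd
      exact (hpow l hlR (c u) (p u) (hcm1.trans (hc1' u hu)) (hPp u hu)).trans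
        ((hdat u hu).2.2.2.2.2.2.2.1 l hT hd j)
    · have h1 := (hlow l hl (lt_of_lt_of_le hlR hR01) hP).1 j
      have h2 := hpow l hlR c0 1 hcm0 hP1
      rw [pow_one] at h2
      exact h2.trans h1
  -- the size of dbar
  have hdb : ∀ l, l ≠ q → ‖l - q‖ < R0 →
      (∃ u ∈ S, l ∈ Tri q u (eta u) (rho u) ∧ ‖dbar f0 l‖ₑ ≤ 2 * ‖dbar (f u) l‖ₑ) ∨
      ((∀ u ∈ S, ep ≤ ‖gU (l - q) - u‖) ∧
        ‖dbar f0 l‖ₑ ≤ 2 * ENNReal.ofReal (C * ‖l - q‖⁻¹)) := by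
    intro l hl hlR
    have h2 : (2 : ℝ≥0∞) = ENNReal.ofReal 2 := by simp
    rcases hcase l hl hlR with ⟨u, hu, hT, h⟩ | ⟨e, he, hP, -, -, ⟨u, hu, hT, h⟩ | h⟩
    · left
      refine ⟨u, hu, hT, ?_⟩
      rw [Pool.Lib.dbar_congr h]
      exact le_mul_of_one_le_left bot_le (by norm_num)
    · have hfu : DifferentiableAt ℝ (f u) l :=
        ((hdat u hu).2.2.2.1.contDiffAt ((g_tri_open q u _ _).mem_nhds hT)).differentiableAt
          one_ne_zero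
      have hXu : DifferentiableAt ℝ (X u) l := (hXc u l hl).differentiableAt one_ne_zero
      have e1 : dbar f0 l = X u l * dbar (f u) l + dbar (X u) l * (f u l - e) := by
        rw [Pool.Lib.dbar_congr h, g_dbar_mix e hXu hfu]
      have e2 : ‖X u l‖ ≤ 1 := by
        obtain ⟨x, hx, hx', hxx⟩ := hXv u l
        rw [hxx, Complex.norm_real, Real.norm_eq_abs, abs_of_nonneg hx]
        exact hx'
      have e3 : ‖f u l - e‖ ≤ 1 := by
        obtain ⟨y, hy, hy', hyy⟩ := (hdat u hu).2.2.2.2.1 l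
        rcases he with he | he
        · rw [he, sub_zero, hyy, Complex.norm_real, Real.norm_eq_abs, abs_of_nonneg hy]
          exact hy'
        · rw [he, hyy, ← Complex.ofReal_one, ← Complex.ofReal_sub, Complex.norm_real,
            Real.norm_eq_abs, abs_le]
          constructor <;> linarith
      have hpos : 0 < ‖l - q‖ := norm_pos_iff.2 (sub_ne_zero.2 hl)
      have e4 : ‖dbar (X u) l‖ ≤ C * ‖l - q‖⁻¹ := by
        refine (hXd u l hl).trans ?_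
        rw [div_eq_mul_inv]
        exact mul_le_mul_of_nonneg_right (hCle u hu) (by positivity)
      have e5 : ‖dbar f0 l‖ ≤ ‖dbar (f u) l‖ + C * ‖l - q‖⁻¹ := by
        rw [e1]
        refine (norm_add_le _ _).trans (add_le_add ?_ ?_)
        · rw [norm_mul]
          exact mul_le_of_le_one_left (norm_nonneg _) e2
        · rw [norm_mul]
          exact (mul_le_of_le_one_right (norm_nonneg _) e3).trans e4
      rcases le_total (C * ‖l - q‖⁻¹) ‖dbar (f u) l‖ with h3 | h3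
      · left
        refine ⟨u, hu, hT, ?_⟩
        rw [← ofReal_norm, ← ofReal_norm, h2,
          ← ENNReal.ofReal_mul (by norm_num)]
        exact ENNReal.ofReal_le_ofReal (by linarith)
      · right
        refine ⟨hP, ?_⟩
        rw [← ofReal_norm, h2, ← ENNReal.ofReal_mul (by norm_num)]
        exact ENNReal.ofReal_le_ofReal (by linarith)
    · right
      refine ⟨hP, ?_⟩
      rw [Pool.Lib.dbar_congr h, Pool.Lib.dbar_eq_zero (differentiableAt_const _), enorm_zero]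
      exact bot_le
  -- the integrals
  obtain ⟨M2, hM2⟩ : ∃ M2 : Set ℂ, M2 = {l | l ≠ q ∧ ‖l - q‖ < R0 ∧
      (∀ u ∈ S, ep ≤ ‖gU (l - q) - u‖) ∧ ‖dbar f0 l‖ₑ ≤ 2 * ENNReal.ofReal (C * ‖l - q‖⁻¹)} :=
    ⟨_, rfl⟩
  have hM2m : MeasurableSet M2 := by
    have m1 : MeasurableSet {l : ℂ | l ≠ q} := (measurableSet_singleton q).compl
    have m2 : MeasurableSet {l : ℂ | ‖l - q‖ < R0} :=
      measurableSet_lt (measurable_id.sub_const q).norm measurable_const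
    have m3 : MeasurableSet {l : ℂ | ∀ u ∈ S, ep ≤ ‖gU (l - q) - u‖} := by
      have h1 : {l : ℂ | ∀ u ∈ S, ep ≤ ‖gU (l - q) - u‖} =
          ⋂ u ∈ S, {l : ℂ | ep ≤ ‖gU (l - q) - u‖} := by
        ext l
        simp
      rw [h1]
      refine Finset.measurableSet_biInter _ fun u _ => measurableSet_le measurable_const ?_
      exact ((g_meas.comp (measurable_id.sub_const q)).sub_const u).norm
    have m4 : MeasurableSet {l : ℂ | ‖dbar f0 l‖ₑ ≤ 2 * ENNReal.ofReal (C * ‖l - q‖⁻¹)} := by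
      refine measurableSet_le (g_dbar_meas f0) (Measurable.const_mul ?_ 2)
      exact ((measurable_id.sub_const q).norm.inv.const_mul C).ennreal_ofReal
    have h1 : M2 = {l : ℂ | l ≠ q} ∩ ({l : ℂ | ‖l - q‖ < R0} ∩
        ({l : ℂ | ∀ u ∈ S, ep ≤ ‖gU (l - q) - u‖} ∩
          {l : ℂ | ‖dbar f0 l‖ₑ ≤ 2 * ENNReal.ofReal (C * ‖l - q‖⁻¹)})) := by
      rw [hM2]
      rfl
    rw [h1]
    exact m1.inter (m2.inter (m3.inter m4))
  have hint : ∀ w : ℂ → ℝ≥0∞, ∫⁻ l in ball q (R0 / 2), ‖dbar f0 l‖ₑ * w l ≤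
      (∑ u ∈ S, 2 * ∫⁻ l in Tri q u (eta u) (rho u), ‖dbar (f u) l‖ₑ * w l) +
        2 * ∫⁻ l in M2, ENNReal.ofReal (C * ‖l - q‖⁻¹) * w l := by
    intro w
    obtain ⟨Mu, hMu⟩ : ∃ Mu : ℂ → Set ℂ, Mu = fun u => {l | l ∈ Tri q u (eta u) (rho u) ∧
      ‖dbar f0 l‖ₑ ≤ 2 * ‖dbar (f u) l‖ₑ} := ⟨_, rfl⟩
    have hMum : ∀ u, MeasurableSet (Mu u) := by
      intro u
      rw [hMu]
      exact (g_tri_open q u _ _).measurableSet.inter
        (measurableSet_le (g_dbar_meas f0) ((g_dbar_meas (f u)).const_mul 2))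
    have hsub : ball q (R0 / 2) ⊆ ((⋃ u ∈ S, Mu u) ∪ M2) ∪ {q} := by
      intro l hl
      rw [mem_ball, dist_eq_norm] at hl
      by_cases hq : l = q
      · exact Or.inr hq
      · left
        rcases hdb l hq (by linarith) with ⟨u, hu, hT, h⟩ | ⟨hP, h⟩
        · left
          rw [mem_iUnion₂]
          exact ⟨u, hu, by rw [hMu]; exact ⟨hT, h⟩⟩
        · right
          rw [hM2]
          exact ⟨hq, by linarith, hP, h⟩
    have h1 : ∫⁻ l in ({q} : Set ℂ), ‖dbar f0 l‖ₑ * w l = 0 :=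
      setLIntegral_measure_zero _ _ (measure_singleton q)
    have h2 : ∫⁻ l in ⋃ u ∈ S, Mu u, ‖dbar f0 l‖ₑ * w l ≤
        ∑ u ∈ S, 2 * ∫⁻ l in Tri q u (eta u) (rho u), ‖dbar (f u) l‖ₑ * w l := by
      refine g_union S Mu _ _ fun u hu => ?_
      calc ∫⁻ l in Mu u, ‖dbar f0 l‖ₑ * w l ≤ ∫⁻ l in Mu u, 2 * (‖dbar (f u) l‖ₑ * w l) := by
            refine setLIntegral_mono' (hMum u) fun l hl => ?_
            rw [hMu] at hl
            rw [← mul_assoc]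
            exact mul_le_mul_left hl.2 _
        _ ≤ ∫⁻ l in Tri q u (eta u) (rho u), 2 * (‖dbar (f u) l‖ₑ * w l) := by
            refine lintegral_mono_set ?_
            rw [hMu]
            exact fun l hl => hl.1
        _ = 2 * ∫⁻ l in Tri q u (eta u) (rho u), ‖dbar (f u) l‖ₑ * w l :=
            lintegral_const_mul' _ _ (by simp)
    have h3 : ∫⁻ l in M2, ‖dbar f0 l‖ₑ * w l ≤
        2 * ∫⁻ l in M2, ENNReal.ofReal (C * ‖l - q‖⁻¹) * w l := by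
      rw [← lintegral_const_mul' _ _ (by simp)]
      refine setLIntegral_mono' hM2m fun l hl => ?_
      rw [hM2] at hl
      rw [← mul_assoc]
      exact mul_le_mul_left hl.2.2.2 _
    calc ∫⁻ l in ball q (R0 / 2), ‖dbar f0 l‖ₑ * w l
        ≤ ∫⁻ l in ((⋃ u ∈ S, Mu u) ∪ M2) ∪ {q}, ‖dbar f0 l‖ₑ * w l := lintegral_mono_set hsub
      _ ≤ (∫⁻ l in (⋃ u ∈ S, Mu u) ∪ M2, ‖dbar f0 l‖ₑ * w l) +
          ∫⁻ l in ({q} : Set ℂ), ‖dbar f0 l‖ₑ * w l := lintegral_union_le _ _ _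
      _ = ∫⁻ l in (⋃ u ∈ S, Mu u) ∪ M2, ‖dbar f0 l‖ₑ * w l := by rw [h1, add_zero]
      _ ≤ (∫⁻ l in ⋃ u ∈ S, Mu u, ‖dbar f0 l‖ₑ * w l) + ∫⁻ l in M2, ‖dbar f0 l‖ₑ * w l :=
          lintegral_union_le _ _ _
      _ ≤ _ := add_le_add h2 h3
  have hM2b : M2 ⊆ ball q R0 := by
    intro l hl
    rw [hM2] at hl
    rw [mem_ball, dist_eq_norm]
    exact hl.2.1
  have hofR : ∀ l : ℂ, ENNReal.ofReal (C * ‖l - q‖⁻¹) =
      ENNReal.ofReal C * ENNReal.ofReal (‖l - q‖⁻¹) := fun l => ENNReal.ofReal_mul hC.le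
  -- the cutoff function
  let chi : ContDiffBump q := ⟨R0 / 2, 3 * R0 / 4, by linarith, by linarith⟩
  obtain ⟨F, hF⟩ : ∃ F : ℂ → ℂ, F = fun l => ((chi l : ℝ) : ℂ) * f0 l := ⟨_, rfl⟩
  have hFe : ∀ l ∈ ball q (R0 / 2), F =ᶠ[𝓝 l] f0 := by
    intro l hl
    filter_upwards [isOpen_ball.mem_nhds hl] with l' hl'
    have h1 : chi l' = 1 := chi.one_of_mem_closedBall (ball_subset_closedBall hl')
    rw [hF]
    simp only []
    rw [h1]
    simp
  have hFd : ∀ l ∈ ball q (R0 / 2), dbar F l = dbar f0 l := fun l hl =>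
    Pool.Lib.dbar_congr (hFe l hl)
  have hnorm : ∀ l ∈ ball q (R0 / 2), ‖l - q‖ < R0 := by
    intro l hl
    rw [mem_ball, dist_eq_norm] at hl
    linarith
  refine ⟨R0 / 2, F, cm, P, by positivity, hcm, ?_, ?_, ?_, ?_, ?_, ?_, ?_⟩
  · intro l hl
    refine ContDiffAt.contDiffWithinAt ?_
    by_cases hlR : ‖l - q‖ < R0
    · rw [hF]
      exact (ContDiffAt.comp (f := fun v => (chi v : ℝ)) l Complex.ofRealCLM.contDiff.contDiffAt
        chi.contDiff.contDiffAt).mul (hcd l hl hlR)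
    · have hc : ContinuousAt (fun l' : ℂ => ‖l' - q‖) l := by fun_prop
      have h1 : 3 * R0 / 4 < ‖l - q‖ := by linarith
      refine ContDiffAt.congr_of_eventuallyEq (contDiffAt_const (c := (0 : ℂ))) ?_
      filter_upwards [hc.eventually_const_lt h1] with l' hl'
      have h2 : chi l' = 0 := chi.zero_of_le_dist (by rw [dist_eq_norm]; exact hl'.le)
      rw [hF]
      simp only []
      rw [h2]
      simp
  · intro l
    obtain ⟨t, ht, ht', htt⟩ := hval l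
    refine ⟨chi l * t, mul_nonneg chi.nonneg ht, mul_le_one₀ chi.le_one ht ht', ?_⟩
    rw [hF]
    simp only []
    rw [htt]
    push_cast
    ring
  · intro l hl hlq hs hU
    filter_upwards [hFe l hl, hU1 l hlq (hnorm l hl) hs hU] with l' h1 h2
    rw [h1, h2]
  · intro l hl hlq hs hU
    filter_upwards [hFe l hl, hU2 l hlq (hnorm l hl) hs hU] with l' h1 h2
    rw [h1, h2]
  · intro l hl hlq hd
    rw [hFd l hl, (hFe l hl).self_of_nhds] at hd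
    exact hlb l hlq (hnorm l hl) hd
  · have h1 : ∫⁻ l in ball q (R0 / 2), ‖dbar F l‖ₑ = ∫⁻ l in ball q (R0 / 2), ‖dbar f0 l‖ₑ * 1 :=
      setLIntegral_congr_fun measurableSet_ball fun l hl => by
        simp only [mul_one]
        rw [hFd l hl]
    rw [h1]
    refine (hint fun _ => 1).trans_lt ?_
    simp only [mul_one]
    refine ENNReal.add_lt_top.2 ⟨ENNReal.sum_lt_top.2 fun u hu =>
      ENNReal.mul_lt_top (by simp) (hdat u hu).2.2.2.2.2.2.2.2.1, ENNReal.mul_lt_top (by simp) ?_⟩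
    calc ∫⁻ l in M2, ENNReal.ofReal (C * ‖l - q‖⁻¹)
        = ENNReal.ofReal C * ∫⁻ l in M2, ENNReal.ofReal (‖l - q‖⁻¹) := by
          rw [← lintegral_const_mul' _ _ (by simp)]
          exact lintegral_congr fun l => hofR l
      _ ≤ ENNReal.ofReal C * ∫⁻ l in closedBall q R0, ENNReal.ofReal (1 / ‖l - q‖) := by
          refine mul_le_mul_right ?_ _
          simp only [one_div]
          exact lintegral_mono_set (hM2b.trans ball_subset_closedBall)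
      _ < ⊤ := ENNReal.mul_lt_top (by simp)
          ((lintegral_inv_ball_le q q hR0).trans_lt ENNReal.ofReal_lt_top)
  · intro j
    have hK' : ∀ u, ∃ K : ℝ, 0 ≤ K ∧ (u ∈ S → ∀ h : Hardy,
        ∫⁻ l in Tri q u (eta u) (rho u), ‖dbar (f u) l‖ₑ * ‖evr (B.g j l) h‖ₑ ^ 2 ≤
          ENNReal.ofReal (K * ‖h‖ ^ 2)) := by
      intro u
      by_cases hu : u ∈ S
      · obtain ⟨K, hK⟩ := (hdat u hu).2.2.2.2.2.2.2.2.2 j
        refine ⟨max K 0, le_max_right _ _, fun _ h => (hK h).trans (ENNReal.ofReal_le_ofReal ?_)⟩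
        exact mul_le_mul_of_nonneg_right (le_max_left _ _) (by positivity)
      · exact ⟨0, le_rfl, fun h => absurd h hu⟩
    choose K hK0 hK using hK'
    obtain ⟨K', hK'0, hK'⟩ := nt_wide (c := c0 / 2) (by positivity)
    refine ⟨∑ u ∈ S, 2 * K u + 2 * (C * K'), fun h => ?_⟩
    have h1 : ∫⁻ l in ball q (R0 / 2), ‖dbar F l‖ₑ * ‖evr (B.g j l) h‖ₑ ^ 2 =
        ∫⁻ l in ball q (R0 / 2), ‖dbar f0 l‖ₑ * ‖evr (B.g j l) h‖ₑ ^ 2 :=
      setLIntegral_congr_fun measurableSet_ball fun l hl => by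
        rw [hFd l hl]
    rw [h1]
    refine (hint fun l => ‖evr (B.g j l) h‖ₑ ^ 2).trans ?_
    have h2 : ∑ u ∈ S, 2 * ∫⁻ l in Tri q u (eta u) (rho u),
        ‖dbar (f u) l‖ₑ * ‖evr (B.g j l) h‖ₑ ^ 2 ≤
          ENNReal.ofReal (∑ u ∈ S, 2 * K u * ‖h‖ ^ 2) := by
      rw [ENNReal.ofReal_sum_of_nonneg fun u _ => by have := hK0 u; positivity]
      refine Finset.sum_le_sum fun u hu => ?_
      rw [mul_assoc 2 (K u), ENNReal.ofReal_mul (by norm_num : (0 : ℝ) ≤ 2)]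
      simp only [ENNReal.ofReal_ofNat]
      exact mul_le_mul_right (hK u hu h) _
    have h3 : ∫⁻ l in M2, ENNReal.ofReal (C * ‖l - q‖⁻¹) * ‖evr (B.g j l) h‖ₑ ^ 2 ≤
        ENNReal.ofReal (C * (K' * ‖h‖ ^ 2)) := by
      calc ∫⁻ l in M2, ENNReal.ofReal (C * ‖l - q‖⁻¹) * ‖evr (B.g j l) h‖ₑ ^ 2
          ≤ ∫⁻ l in M2, ENNReal.ofReal C * (ENNReal.ofReal (‖l - q‖⁻¹) *
            ENNReal.ofReal (FF h (1 - c0 / 2 * ‖l - q‖) ^ 2)) := by
            refine setLIntegral_mono' hM2m fun l hl => ?_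
            rw [hofR, mul_assoc]
            refine mul_le_mul_right (mul_le_mul_right ?_ _) _
            rw [hM2] at hl
            have h4 := (hlow l hl.1 (lt_of_lt_of_le hl.2.1 hR01) hl.2.2.1).2.2 j h
            rw [← ofReal_norm, ← ENNReal.ofReal_pow (norm_nonneg _)]
            exact ENNReal.ofReal_le_ofReal (pow_le_pow_left₀ (norm_nonneg _) h4 2)
        _ = ENNReal.ofReal C * ∫⁻ l in M2, ENNReal.ofReal (‖l - q‖⁻¹) *
            ENNReal.ofReal (FF h (1 - c0 / 2 * ‖l - q‖) ^ 2) := lintegral_const_mul' _ _ (by simp)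
        _ ≤ ENNReal.ofReal C * ENNReal.ofReal (K' * ‖h‖ ^ 2) := by
            refine mul_le_mul_right ((lintegral_mono_set hM2b).trans (hK' q R0 hR0 ?_ h)) _
            have h5 : R0 ≤ 1 := hR01.trans hR11
            nlinarith
        _ = ENNReal.ofReal (C * (K' * ‖h‖ ^ 2)) := (ENNReal.ofReal_mul hC.le).symm
    have h6 : (∑ u ∈ S, 2 * K u + 2 * (C * K')) * ‖h‖ ^ 2 =
        ∑ u ∈ S, 2 * K u * ‖h‖ ^ 2 + 2 * (C * (K' * ‖h‖ ^ 2)) := by
      rw [add_mul, Finset.sum_mul]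
      ring
    rw [h6, ENNReal.ofReal_add (Finset.sum_nonneg fun u _ => by have := hK0 u; positivity)
      (by positivity), ENNReal.ofReal_mul (by norm_num : (0 : ℝ) ≤ 2) (q := C * (K' * ‖h‖ ^ 2))]
    simp only [ENNReal.ofReal_ofNat]
    exact add_le_add h2 (mul_le_mul_right h3 _)

end Pool.Agent.TBirC
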