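import Pool.Agent.TBirC.Loc

/-!
# From the cutoff function near `q` to the local input

Paper proof. `f, R, c, p` from `hG`, `r, K0` from `Br.bas`. Smaller `R`: `R ≤ s`, `2 R ≤ r`, `R ≤ 1`. If `dbar f l ≠ 0` or
`f l ∉ {0, 1}`, `l ∈ ball q R`, `l ≠ q`, then `l ∉ spectrum ℂ A` (`hcov`: else `f` is locally `0` or `1`). Distance: let `l' ∈ spectrum ℂ A`. If
`‖l' - l‖ ≥ R` we are done with the constant `min`, as `‖l - q‖^p ≤ 1`. Otherwise the segment from `l` to `l'` is in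
`ball q (2 R)`, it contains a point `l''` of `J phi` (otherwise the winding number is constant on it (`wd_loc`,
preconnected), it is `0` at `l` and not `0` at `l'`), `l'' = phi z`, `‖z‖ = 1`, so `(L j l'').re = 0` for some `j` (`cov`), and
`c ‖l - q‖^p ≤ |(L j l).re| ≤ ‖L j l - L j l''‖ ≤ K1 ‖l - l''‖ ≤ K1 ‖l - l'‖` (`deriv (L j)` is bounded near `q`).
The form: for such `l`, by `hF` and `2 a b ≤ t a^2 + b^2 / t` with `t = ‖g'‖/‖f'‖` (the
cases `f' = 0`, `g' = 0` are trivial), and `(x0 + ... + xk)^2 ≤ (k + 1) (x0^2 + ... + xk^2)`. Where `dbar f l = 0` the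
integrand is `0`. Measurability: on the open set where `dbar f l ≠ 0` (and `l ≠ q`) all `‖g j l‖ ≠ 1`, so that
`l ↦ evr (g j l) h` is continuous there.
-/

set_option autoImplicit false
set_option linter.unusedVariables false

open MeasureTheory Complex Set Filter Topology Metric AddCircle
open scoped ComplexConjugate InnerProductSpace ENNReal
open Pool.Lib (dbar)

namespace Pool.Agent.TBirC

open Pool.Agent.TBirE

open Pool.Agent.TBir Pool.Agent.TBirG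
open Pool.Agent.TBirS (Sg)

/-- The sum and the sum of squares. -/
private theorem g2_sq {n : ℕ} (x : ℝ) (y : Fin n → ℝ) :
    (x + ∑ j, y j) ^ 2 ≤ (n + 1) * (x ^ 2 + ∑ j, y j ^ 2) := by
  have h := sq_sum_le_card_mul_sum_sq (s := (Finset.univ : Finset (Option (Fin n))))
    (f := fun o => o.elim x y)
  simpa [Fintype.sum_option] using h

/-- A segment from outside the spectrum to the spectrum meets the curve. -/
private theorem g2_evr {z : ℂ} (hz : ‖z‖ ≠ 1) (h : Hardy) :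
    ContinuousAt (fun w => evr w h) z := by
  have hev : ∀ w : ℂ, ‖w‖ < 1 → ContinuousAt (fun x => ev x h) w := by
    intro w hw
    have h1 : DifferentiableAt ℂ ev w :=
      ev_diffOn.differentiableAt (isOpen_ball.mem_nhds (by simpa using hw))
    exact h1.continuousAt.clm_apply continuousAt_const
  rcases lt_or_gt_of_ne hz with h1 | h1
  · have h2 : (fun w => evr w h) =ᶠ[𝓝 z] fun w => ev w h := by
      have : ∀ᶠ w : ℂ in 𝓝 z, ‖w‖ < 1 := continuous_norm.continuousAt.eventually_lt_const h1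
      filter_upwards [this] with w hw
      unfold evr
      rw [if_pos hw]
    exact (hev z h1).congr h2.symm
  · have h2 : (fun w => evr w h) =ᶠ[𝓝 z] fun w => ev (conj w)⁻¹ h := by
      have : ∀ᶠ w : ℂ in 𝓝 z, 1 < ‖w‖ := continuous_norm.continuousAt.eventually_const_lt h1
      filter_upwards [this] with w hw
      unfold evr
      rw [if_neg (not_lt.2 hw.le)]
    have hz0 : conj z ≠ 0 := by
      intro h0
      have : ‖z‖ = 0 := by
        rw [← Complex.norm_conj, h0, norm_zero]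
      linarith
    have h3 : ContinuousAt (fun w : ℂ => (conj w)⁻¹) z :=
      (Complex.continuous_conj.continuousAt).inv₀ hz0
    have h4 : ‖(conj z)⁻¹‖ < 1 := by
      rw [norm_inv, Complex.norm_conj]
      exact inv_lt_one_of_one_lt₀ h1
    have h5 : ContinuousAt (fun w : ℂ => ev (conj w)⁻¹ h) z :=
      ContinuousAt.comp (f := fun w : ℂ => (conj w)⁻¹) (g := fun x => ev x h) (hev _ h4) h3
    exact h5.congr h2.symm

/-- The weighted square integrals. -/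
private theorem g2_int {k : ℕ} {D : Set ℂ} (hD : MeasurableSet D) {w : ℂ → ℝ≥0∞} {A : ℝ≥0∞}
    (hA : ∫⁻ l in D, w l ≤ A) (hAt : A < ⊤) (hw : AEMeasurable w (volume.restrict D))
    {v : Fin k → Hardy → ℂ → ℂ}
    (hv : ∀ j h, AEMeasurable (fun l => ‖v j h l‖ₑ) (volume.restrict D)) {K : Fin k → ℝ}
    (hK : ∀ j h, ∫⁻ l in D, w l * ‖v j h l‖ₑ ^ 2 ≤ ENNReal.ofReal (K j * ‖h‖ ^ 2)) :
    ∃ K2 : ℝ, 0 ≤ K2 ∧ ∀ h : Hardy,
      ∫⁻ l in D, w l * ENNReal.ofReal (‖h‖ ^ 2 + ∑ j, ‖v j h l‖ ^ 2) ≤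
        ENNReal.ofReal (K2 * ‖h‖ ^ 2) := by
  refine ⟨A.toReal + ∑ j, |K j|, by positivity, fun h => ?_⟩
  have e1 : ∀ l, w l * ENNReal.ofReal (‖h‖ ^ 2 + ∑ j, ‖v j h l‖ ^ 2) =
      ENNReal.ofReal (‖h‖ ^ 2) * w l + ∑ j, w l * ‖v j h l‖ₑ ^ 2 := by
    intro l
    rw [ENNReal.ofReal_add (by positivity) (by positivity),
      ENNReal.ofReal_sum_of_nonneg (fun j _ => by positivity), mul_add, Finset.mul_sum,
      mul_comm (w l) (ENNReal.ofReal (‖h‖ ^ 2))]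
    congr 1
    refine Finset.sum_congr rfl fun j _ => ?_
    rw [ENNReal.ofReal_pow (norm_nonneg _), ofReal_norm]
  simp_rw [e1]
  have hm : ∀ j, AEMeasurable (fun l => w l * ‖v j h l‖ₑ ^ 2) (volume.restrict D) :=
    fun j => hw.mul ((hv j h).pow_const 2)
  rw [lintegral_add_left' (hw.const_mul _),
    lintegral_const_mul' _ _ ENNReal.ofReal_ne_top,
    lintegral_finsetSum' _ (fun j _ => hm j)]
  have h1 : ENNReal.ofReal (‖h‖ ^ 2) * ∫⁻ l in D, w l ≤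
      ENNReal.ofReal (A.toReal * ‖h‖ ^ 2) := by
    rw [mul_comm A.toReal, ENNReal.ofReal_mul (by positivity), ENNReal.ofReal_toReal hAt.ne]
    gcongr
  have h2 : ∑ j, ∫⁻ l in D, w l * ‖v j h l‖ₑ ^ 2 ≤
      ENNReal.ofReal ((∑ j, |K j|) * ‖h‖ ^ 2) := by
    rw [Finset.sum_mul, ENNReal.ofReal_sum_of_nonneg (fun j _ => by positivity)]
    refine Finset.sum_le_sum fun j _ => (hK j h).trans ?_
    refine ENNReal.ofReal_le_ofReal ?_
    gcongr
    exact le_abs_self _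
  refine (add_le_add h1 h2).trans ?_
  rw [← ENNReal.ofReal_add (by positivity) (by positivity), add_mul]

/-- The bound of the form. -/
private theorem g2_form {k : ℕ} {D : Set ℂ} {w : ℂ → ℝ≥0∞}
    (hw : AEMeasurable w (volume.restrict D)) (hD : MeasurableSet D)
    {v : Fin k → Hardy → ℂ → ℂ}
    (hv : ∀ j h, AEMeasurable (fun l => ‖v j h l‖ₑ) (volume.restrict D)) {C K2 : ℝ}
    (hC : 0 ≤ C) (hK20 : 0 ≤ K2)
    (hK2 : ∀ h : Hardy, ∫⁻ l in D, w l * ENNReal.ofReal (‖h‖ ^ 2 + ∑ j, ‖v j h l‖ ^ 2) ≤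
        ENNReal.ofReal (K2 * ‖h‖ ^ 2)) {F : ℂ → Hardy →L[ℂ] Hardy}
    (hF : ∀ l ∈ D, ∀ f g : Hardy, ‖inner ℂ g (F l f)‖ ≤
      C * ((‖f‖ + ∑ j, ‖v j f l‖) * (‖g‖ + ∑ j, ‖v j g l‖))) (f g : Hardy) :
    ∫⁻ l in D, w l * ‖inner ℂ g (F l f)‖ₑ ≤
      ENNReal.ofReal (C * (k + 1) * K2 * ‖f‖ * ‖g‖) := by
  rcases eq_or_ne f 0 with hf | hf
  · subst hf
    simp
  rcases eq_or_ne g 0 with hg | hg
  · subst hg
    simp
  have hf0 : 0 < ‖f‖ := norm_pos_iff.2 hf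
  have hg0 : 0 < ‖g‖ := norm_pos_iff.2 hg
  obtain ⟨t, ht0, ht1, ht2⟩ : ∃ t : ℝ, 0 < t ∧ t * ‖f‖ ^ 2 = ‖f‖ * ‖g‖ ∧
      t⁻¹ * ‖g‖ ^ 2 = ‖f‖ * ‖g‖ := by
    refine ⟨‖g‖ / ‖f‖, by positivity, by field_simp, ?_⟩
    rw [inv_div]
    field_simp
  set C1 : ℝ := C * (k + 1) / 2 with hC1
  have hC10 : 0 ≤ C1 := by positivity
  have hpt : ∀ l ∈ D, w l * ‖inner ℂ g (F l f)‖ₑ ≤
      ENNReal.ofReal (C1 * t) * (w l * ENNReal.ofReal (‖f‖ ^ 2 + ∑ j, ‖v j f l‖ ^ 2)) +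
      ENNReal.ofReal (C1 * t⁻¹) * (w l * ENNReal.ofReal (‖g‖ ^ 2 + ∑ j, ‖v j g l‖ ^ 2)) := by
    intro l hl
    have h1 := hF l hl f g
    have h2 := g2_sq ‖f‖ (fun j => ‖v j f l‖)
    have h3 := g2_sq ‖g‖ (fun j => ‖v j g l‖)
    set a : ℝ := ‖f‖ + ∑ j, ‖v j f l‖ with ha
    set b : ℝ := ‖g‖ + ∑ j, ‖v j g l‖ with hb
    set nf : ℝ := ‖f‖ ^ 2 + ∑ j, ‖v j f l‖ ^ 2 with hnf
    set ng : ℝ := ‖g‖ ^ 2 + ∑ j, ‖v j g l‖ ^ 2 with hng
    have hnf0 : 0 ≤ nf := by positivity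
    have hng0 : 0 ≤ ng := by positivity
    have h4 : a * b ≤ (t * a ^ 2 + t⁻¹ * b ^ 2) / 2 := by
      have h5 : 0 ≤ t * (a - t⁻¹ * b) ^ 2 := by positivity
      have h6 : t * (a - t⁻¹ * b) ^ 2 = t * a ^ 2 - 2 * (a * b) + t⁻¹ * b ^ 2 := by
        field_simp
        ring
      linarith
    have h5 : ‖inner ℂ g (F l f)‖ ≤ C1 * t * nf + C1 * t⁻¹ * ng := by
      have h6 : t * a ^ 2 ≤ t * ((k + 1) * nf) := mul_le_mul_of_nonneg_left h2 ht0.le
      have h7 : t⁻¹ * b ^ 2 ≤ t⁻¹ * ((k + 1) * ng) :=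
        mul_le_mul_of_nonneg_left h3 (inv_pos.2 ht0).le
      have h8 : a * b ≤ (t * ((k + 1) * nf) + t⁻¹ * ((k + 1) * ng)) / 2 := by linarith
      calc ‖inner ℂ g (F l f)‖ ≤ C * (a * b) := h1
        _ ≤ C * ((t * ((k + 1) * nf) + t⁻¹ * ((k + 1) * ng)) / 2) :=
          mul_le_mul_of_nonneg_left h8 hC
        _ = C1 * t * nf + C1 * t⁻¹ * ng := by rw [hC1]; ring
    have h6 : ‖inner ℂ g (F l f)‖ₑ ≤ ENNReal.ofReal (C1 * t) * ENNReal.ofReal nf +
        ENNReal.ofReal (C1 * t⁻¹) * ENNReal.ofReal ng := by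
      rw [← ofReal_norm, ← ENNReal.ofReal_mul (by positivity), ← ENNReal.ofReal_mul (by positivity),
        ← ENNReal.ofReal_add (by positivity) (by positivity)]
      exact ENNReal.ofReal_le_ofReal h5
    calc w l * ‖inner ℂ g (F l f)‖ₑ ≤ w l * (ENNReal.ofReal (C1 * t) * ENNReal.ofReal nf +
        ENNReal.ofReal (C1 * t⁻¹) * ENNReal.ofReal ng) := by gcongr
      _ = _ := by ring
  have hms : ∀ h : Hardy, AEMeasurable
      (fun l => w l * ENNReal.ofReal (‖h‖ ^ 2 + ∑ j, ‖v j h l‖ ^ 2)) (volume.restrict D) := by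
    intro h
    refine hw.mul (ENNReal.measurable_ofReal.comp_aemeasurable ?_)
    refine aemeasurable_const.add ?_
    refine Finset.aemeasurable_fun_sum _ fun j _ => ?_
    refine AEMeasurable.pow_const ?_ 2
    have := (hv j h).ennreal_toReal
    simpa using this
  calc ∫⁻ l in D, w l * ‖inner ℂ g (F l f)‖ₑ
      ≤ ∫⁻ l in D, (ENNReal.ofReal (C1 * t) * (w l * ENNReal.ofReal (‖f‖ ^ 2 + ∑ j, ‖v j f l‖ ^ 2)) +
      ENNReal.ofReal (C1 * t⁻¹) * (w l * ENNReal.ofReal (‖g‖ ^ 2 + ∑ j, ‖v j g l‖ ^ 2))) := by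
        refine lintegral_mono_ae ?_
        filter_upwards [ae_restrict_mem hD] with l hl
        exact hpt l hl
    _ = ENNReal.ofReal (C1 * t) * (∫⁻ l in D, w l * ENNReal.ofReal (‖f‖ ^ 2 + ∑ j, ‖v j f l‖ ^ 2)) +
      ENNReal.ofReal (C1 * t⁻¹) *
        (∫⁻ l in D, w l * ENNReal.ofReal (‖g‖ ^ 2 + ∑ j, ‖v j g l‖ ^ 2)) := by
        rw [lintegral_add_left' ((hms f).const_mul _),
          lintegral_const_mul' _ _ ENNReal.ofReal_ne_top,
          lintegral_const_mul' _ _ ENNReal.ofReal_ne_top]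
    _ ≤ ENNReal.ofReal (C1 * t) * ENNReal.ofReal (K2 * ‖f‖ ^ 2) +
        ENNReal.ofReal (C1 * t⁻¹) * ENNReal.ofReal (K2 * ‖g‖ ^ 2) := by
        gcongr
        · exact hK2 f
        · exact hK2 g
    _ = ENNReal.ofReal (C * (k + 1) * K2 * ‖f‖ * ‖g‖) := by
        rw [← ENNReal.ofReal_mul (by positivity), ← ENNReal.ofReal_mul (by positivity),
          ← ENNReal.ofReal_add (by positivity) (by positivity)]
        congr 1
        have h1 : C1 * t * (K2 * ‖f‖ ^ 2) + C1 * t⁻¹ * (K2 * ‖g‖ ^ 2) =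
            C1 * K2 * (t * ‖f‖ ^ 2) + C1 * K2 * (t⁻¹ * ‖g‖ ^ 2) := by ring
        rw [h1, ht1, ht2, hC1]
        ring

theorem Br.locA {phi : ℂ → ℂ} {q : ℂ} (B : Br phi q)
    {A : Op} {N : ℂ → Op} {U1 U2 : Set ℂ} (hdis : Disjoint U1 U2)
    (hcov : ∀ᶠ l in 𝓝 q, l ∈ spectrum ℂ A → l ≠ q → l ∈ U1 ∨ l ∈ U2)
    (hF : ∃ C s : ℝ, 0 < s ∧ ∀ l ∈ ball q s, l ∉ spectrum ℂ A → ∀ f g : Hardy,
      ‖inner ℂ g ((resolvent A l - N l) f)‖ ≤
        C * ((‖f‖ + ∑ j, ‖evr (B.g j l) f‖) * (‖g‖ + ∑ j, ‖evr (B.g j l) g‖)))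
    (hGr : ∃ C s : ℝ, 0 < C ∧ 0 < s ∧ ∀ l ∈ ball q s, l ∉ spectrum ℂ A →
      (∏ j, |(B.L j l).re|) * ‖resolvent A l‖ ≤ C)
    (hG : GSol B (spectrum ℂ A) U1 U2) : LocA A N U1 U2 q := by
  obtain ⟨R0, f, c0, p, hR0, hc0, hfC, hfv, hf1, hf0, hfd, hfi, hfe⟩ := hG
  obtain ⟨-, r, K0, hr, hrR, hr1, hK0, hbas⟩ := Br.bas B
  obtain ⟨r1, hr10, hcv⟩ := Metric.eventually_nhds_iff_ball.1 hcov
  obtain ⟨C0, s0, hs0, hF00⟩ := hF
  obtain ⟨Cg, sg, hCg, hsg, hGr0⟩ := hGr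
  obtain ⟨s, hse⟩ : ∃ s : ℝ, s = min s0 sg := ⟨_, rfl⟩
  have hs : 0 < s := by rw [hse]; exact lt_min hs0 hsg
  have hss0 : s ≤ s0 := by rw [hse]; exact min_le_left _ _
  have hssg : s ≤ sg := by rw [hse]; exact min_le_right _ _
  have hF0 := fun l (hl : l ∈ ball q s) => hF00 l (ball_subset_ball hss0 hl)
  obtain ⟨C, hC, hF1⟩ : ∃ C : ℝ, 0 ≤ C ∧ ∀ l ∈ ball q s, l ∉ spectrum ℂ A → ∀ f g : Hardy,
      ‖inner ℂ g ((resolvent A l - N l) f)‖ ≤
        C * ((‖f‖ + ∑ j, ‖evr (B.g j l) f‖) * (‖g‖ + ∑ j, ‖evr (B.g j l) g‖)) := by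
    refine ⟨|C0|, abs_nonneg _, fun l hl hl' f g => (hF0 l hl hl' f g).trans ?_⟩
    exact mul_le_mul_of_nonneg_right (le_abs_self _) (by positivity)
  obtain ⟨R, hR, hRR0, hRs, hRr1, hRr, hR1⟩ : ∃ R : ℝ, 0 < R ∧ R ≤ R0 ∧ R ≤ s ∧ R ≤ r1 ∧
      2 * R ≤ r ∧ R ≤ 1 := by
    refine ⟨min (min R0 s) (min r1 (r / 2)), by positivity, ?_, ?_, ?_, ?_, ?_⟩
    · exact (min_le_left _ _).trans (min_le_left _ _)
    · exact (min_le_left _ _).trans (min_le_right _ _)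
    · exact (min_le_right _ _).trans (min_le_left _ _)
    · have : min (min R0 s) (min r1 (r / 2)) ≤ r / 2 :=
        (min_le_right _ _).trans (min_le_right _ _)
      linarith
    · have : min (min R0 s) (min r1 (r / 2)) ≤ r / 2 :=
        (min_le_right _ _).trans (min_le_right _ _)
      linarith
  -- the points where the cutoff function is not locally `0` or `1`
  have hout : ∀ l ∈ ball q R, l ≠ q → (dbar f l ≠ 0 ∨ (f l ≠ 0 ∧ f l ≠ 1)) → l ∉ spectrum ℂ A := by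
    intro l hl hlq hd hS
    have hconst : ∀ a : ℂ, (∀ᶠ l' in 𝓝 l, f l' = a) → dbar f l = 0 := by
      intro a ha
      have h1 : f =ᶠ[𝓝 l] fun _ => a := ha
      rw [Pool.Lib.dbar_congr h1]
      exact Pool.Lib.dbar_eq_zero (differentiableAt_const a)
    have hl0 : l ∈ ball q R0 := ball_subset_ball hRR0 hl
    rcases hcv l (ball_subset_ball hRr1 hl) hS hlq with hU | hU
    · have h1 := hf1 l hl0 hlq hS hU
      rcases hd with h2 | h2
      · exact h2 (hconst 1 h1)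
      · exact h2.2 h1.self_of_nhds
    · have h1 := hf0 l hl0 hlq hS hU
      rcases hd with h2 | h2
      · exact h2 (hconst 0 h1)
      · exact h2.1 h1.self_of_nhds
  -- the growth
  have hgrow : ∀ l ∈ ball q R, l ≠ q → (dbar f l ≠ 0 ∨ (f l ≠ 0 ∧ f l ≠ 1)) →
      l ∉ spectrum ℂ A ∧ ‖l - q‖ ^ (p * B.k) * ‖resolvent A l‖ ≤ Cg * (c0 ^ B.k)⁻¹ := by
    intro l hl hlq hd
    refine ⟨hout l hl hlq hd, ?_⟩
    have h1 := hGr0 l (ball_subset_ball (hRs.trans hssg) hl) (hout l hl hlq hd)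
    have h2 : (c0 * ‖l - q‖ ^ p) ^ B.k ≤ ∏ j, |(B.L j l).re| := by
      have h3 : ∏ _j : Fin B.k, (c0 * ‖l - q‖ ^ p) ≤ ∏ j, |(B.L j l).re| :=
        Finset.prod_le_prod (fun j _ => by positivity) fun j _ =>
          hfd l (ball_subset_ball hRR0 hl) hlq hd j
      rwa [Finset.prod_const, Finset.card_univ, Fintype.card_fin] at h3
    have h4 : (c0 * ‖l - q‖ ^ p) ^ B.k * ‖resolvent A l‖ ≤ Cg :=
      (mul_le_mul_of_nonneg_right h2 (norm_nonneg _)).trans h1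
    have h5 : (c0 * ‖l - q‖ ^ p) ^ B.k = c0 ^ B.k * ‖l - q‖ ^ (p * B.k) := by
      rw [mul_pow, ← pow_mul]
    have h6 : 0 < c0 ^ B.k := by positivity
    rw [h5, mul_assoc] at h4
    rw [← div_eq_mul_inv, le_div_iff₀ h6, mul_comm]
    exact h4
  -- the open set of integration
  have hdb : ContinuousOn (dbar f) {q}ᶜ := by
    have h1 : ContinuousOn (fderiv ℝ f) {q}ᶜ :=
      hfC.continuousOn_fderiv_of_isOpen isOpen_compl_singleton le_rfl
    unfold Pool.Lib.dbar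
    exact ((h1.clm_apply continuousOn_const).add
      (continuousOn_const.mul (h1.clm_apply continuousOn_const))).div_const 2
  set D : Set ℂ := {l | (l ∈ ball q R ∧ l ≠ q) ∧ dbar f l ≠ 0} with hDdef
  have hDo : IsOpen D := by
    have h1 : IsOpen ((ball q R ∩ {q}ᶜ) ∩ dbar f ⁻¹' {0}ᶜ) :=
      (hdb.mono inter_subset_right).isOpen_inter_preimage
        (isOpen_ball.inter isOpen_compl_singleton) isOpen_compl_singleton
    exact h1
  have hDm : MeasurableSet D := hDo.measurableSet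
  have hDR : D ⊆ ball q R := fun l hl => hl.1.1
  have hD0 : D ⊆ ball q R0 := hDR.trans (ball_subset_ball hRR0)
  have hwm : AEMeasurable (fun l => ‖dbar f l‖ₑ) (volume.restrict D) := by
    have h1 : ContinuousOn (fun l => ‖dbar f l‖ₑ) D :=
      (hdb.mono fun l hl => hl.1.2).enorm
    exact h1.aemeasurable hDm
  have hvm : ∀ (j : Fin B.k) (h : Hardy),
      AEMeasurable (fun l => ‖evr (B.g j l) h‖ₑ) (volume.restrict D) := by
    intro j h
    have h1 : ContinuousOn (fun l => ‖evr (B.g j l) h‖ₑ) D := by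
      intro l hl
      have h2 : l ∈ ball q r := ball_subset_ball (by linarith) hl.1.1
      have h3 : ContinuousAt (B.g j) l :=
        ((B.diff j).differentiableAt (isOpen_ball.mem_nhds (ball_subset_ball hrR h2))).continuousAt
      have h4 : ‖B.g j l‖ ≠ 1 := by
        obtain ⟨-, -, -, h5, -, -, -⟩ := (hbas j).2.2.2 l h2
        rw [Ne, h5]
        intro h6
        have h7 := hfd l (hD0 hl) hl.1.2 (Or.inl hl.2) j
        rw [h6, abs_zero] at h7
        have h8 : 0 < ‖l - q‖ := norm_pos_iff.2 (sub_ne_zero.2 hl.1.2)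
        have h9 : 0 < c0 * ‖l - q‖ ^ p := by positivity
        linarith
      have h5 : ContinuousAt (fun l => evr (B.g j l) h) l :=
        ContinuousAt.comp (f := B.g j) (g := fun w => evr w h) (g2_evr h4 h) h3
      exact h5.enorm.continuousWithinAt
    exact h1.aemeasurable hDm
  have hAi : ∫⁻ l in D, ‖dbar f l‖ₑ ≤ ∫⁻ l in ball q R0, ‖dbar f l‖ₑ :=
    lintegral_mono_set hD0
  choose K hK using hfe
  obtain ⟨K2, hK20, hK2⟩ := g2_int (v := fun j h l => evr (B.g j l) h) (K := K) hDm hAi hfi hwm hvm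
    (fun j h => (lintegral_mono_set hD0).trans (hK j h))
  refine ⟨R, f, _, p * B.k, hR, hfC, hfv, ?_, ?_, hgrow, ?_, ?_⟩
  · exact fun l hl => hf1 l (ball_subset_ball hRR0 hl)
  · exact fun l hl => hf0 l (ball_subset_ball hRR0 hl)
  · exact (lintegral_mono_set (ball_subset_ball hRR0)).trans_lt hfi
  · refine ⟨C * (B.k + 1) * K2, fun f' g' => ?_⟩
    have h1 := g2_form (v := fun j h l => evr (B.g j l) h) hwm hDm hvm hC hK20 hK2
      (F := fun l => resolvent A l - N l)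
      (fun l hl f g => hF1 l (ball_subset_ball hRs hl.1.1)
        (hout l hl.1.1 hl.1.2 (Or.inl hl.2)) f g) f' g'
    refine le_trans ?_ h1
    have h2 : ∫⁻ l in ball q R, ‖dbar f l‖ₑ *
        ‖inner ℂ g' ((resolvent A l - N l) f')‖ₑ ≤
        ∫⁻ l in ball q R, D.indicator (fun l => ‖dbar f l‖ₑ *
        ‖inner ℂ g' ((resolvent A l - N l) f')‖ₑ) l := by
      refine lintegral_mono_ae ?_
      have h3 : ∀ᵐ l : ℂ ∂(volume.restrict (ball q R)), l ≠ q :=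
        ae_restrict_of_ae (by simp [ae_iff])
      filter_upwards [ae_restrict_mem measurableSet_ball, h3] with l hl hlq
      by_cases h4 : l ∈ D
      · rw [indicator_of_mem h4]
      · have h5 : dbar f l = 0 := by
          by_contra h5
          exact h4 ⟨⟨hl, hlq⟩, h5⟩
        rw [h5]
        simp
    refine h2.trans ?_
    rw [lintegral_indicator hDm, Measure.restrict_restrict hDm, inter_eq_left.2 hDR]

end Pool.Agent.TBirC
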