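import Pool.Agent.TBirC.HW
import Pool.Agent.TBirC.Loc
import Pool.Agent.TBirM.Fac
import Pool.Agent.TBirS.NonT
import Pool.Agent.TBirS.Dense

/-!
# Spectrum near `q`, growth of the resolvent, dense range

Paper proof. `z i = g i l`, `Th` from `FacL`. (des) If `‖z j‖ = 1` for some `j`: `M - l = N' * mul (fourier 1 - z j)` with `Cm N'`, so
`TM (M - l) = TM N' * (S - z j)` (`TM_plus`), which is not invertible: `S - z j` would have a left inverse (`S_sub_not_left` in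
TBirS/NonT). So `l` is in the spectrum. If all `‖z i‖ ≠ 1`, `I = {i | ‖z i‖ < 1}`, `O` the complement:
`fourier x * pz = fourier (x + card I) * Bm * Bp` with `Bm = prod (I) (1 - z i / zeta)` (`Minus`), `Bp = prod (O) (zeta - z i)` (`Plus`),
`T Bm`, `T Bp` invertible with inverses `T (prod Gk)`, `T (prod Ak)`. `TM (M - l) = T Bm * TM (Th * mul (fourier y)) * T Bp`,
`y = x + card I`. It is invertible if and only if `TM (Th * mul (fourier y))` is. For `y = 0` it is. For `y > 0`: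
`TM Th * S ^ y` is not surjective (`TM Th` is invertible, `S` is not surjective). For `y < 0`: `Sa ^ (-y) * TM Th` (`Cm Th`) is not
injective. So `l` is in the spectrum if and only if `y ≠ 0`.
(grow) For `l` off the spectrum `y = 0` and `resolvent (TM M) l = - T al * inverse (TM Th) * T dl`, `al = prod (O) Ak (z i)`,
`dl = prod (I) Gk (z i)`; `‖Ak w‖ ≤ (‖w‖ - 1)⁻¹`, `‖Gk z‖ ≤ (1 - ‖z‖)⁻¹` (values: `Ak_apply`, `Gk_apply`), and
`|(L j l).re| ≤ 2 |1 - ‖z j‖|` since `(L j l).re = log ‖z j‖`, `|(L j l).re| ≤ 1` (`Br.bas`): for `t ≤ 1`, `|exp t - 1| ≥ |t| / 2`.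
(dr) `l = q`: all `‖z i‖ = 1`. There are points `l'` off the spectrum arbitrarily near `q` (`hcl`); there
`x = - card {j | ‖g j l'‖ < 1}`, so `0 ≤ - x ≤ k`. Choose `I' ⊆ Fin k` with `card I' = - x` and write
`fourier x * pz q = prod (I') (1 - z i / zeta) * prod (complement) (zeta - z i)`:
`TM (M - q) = T (..) * TM Th * T (..)`, a product of operators with dense range: `DR.mul`, `DR.of_inv`,
`dr_S_sub`, `dr_one_sub_Sa` of TBirS/Dense.
-/

set_option autoImplicit false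

open MeasureTheory Complex Set Filter Topology Metric AddCircle
open scoped ComplexConjugate InnerProductSpace ENNReal

namespace Pool.Agent.TBirC

open Pool.Agent.TBir
open Pool.Agent.TBirM
open Pool.Agent.TBirS (DR)

namespace Grw

/-- The factors for the points of `I` and of the complement. -/
noncomputable def bm {k : ℕ} (z : Fin k → ℂ) (I : Finset (Fin k)) : CT :=
  ∏ i ∈ I, (1 - z i • fourier (-1) : CT)

noncomputable def bp {k : ℕ} (z : Fin k → ℂ) (I : Finset (Fin k)) : CT :=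
  ∏ i ∈ Iᶜ, (fourier 1 - algebraMap ℂ CT (z i) : CT)

theorem minus_bm {k : ℕ} (z : Fin k → ℂ) (I : Finset (Fin k)) : Minus (bm z I) :=
  minus_prod _ fun i _ => minus_one_sub (z i)

theorem plus_bp {k : ℕ} (z : Fin k → ℂ) (I : Finset (Fin k)) : Plus (bp z I) :=
  plus_prod _ fun i _ => plus_sub (z i)

/-- The factorisation of the symbol. -/
theorem symb {k : ℕ} (z : Fin k → ℂ) (I : Finset (Fin k)) (x : ℤ) :
    (fourier x : CT) * ∏ i, (fourier 1 - algebraMap ℂ CT (z i)) =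
      bm z I * (fourier (x + (I.card : ℤ)) * bp z I) := by
  unfold bm bp
  rw [← four_prod, ← Finset.prod_mul_prod_compl I (fun i => (fourier 1 - algebraMap ℂ CT (z i) : CT))]
  have h1 : (fourier x : CT) = fourier (x + (I.card : ℤ)) * fourier (-(I.card : ℤ)) := by
    rw [idx_fourier_mul]
    congr 1
    ring
  rw [h1]
  ring

/-- The factorisation of the compression. -/
theorem comp {Th : Op2} (hTh : Cm Th) {m f p : CT} (hm : Minus m) (hp : Plus p) :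
    TM (Th * mul (m * (f * p))) = T m * (TM (Th * mul f) * T p) := by
  rw [mul_ct m, ← mul_assoc, hTh m, mul_assoc, TM_minus _ hm, mul_ct f, ← mul_assoc, TM_plus _ hp]

theorem TM_sub_alg (M : Op2) (l : ℂ) :
    TM (M - algebraMap ℂ Op2 l) = TM M - algebraMap ℂ Op l := by
  rw [TM_sub, TM_algebraMap]

theorem mem_spec (A : Op) (l : ℂ) : l ∈ spectrum ℂ A ↔ ¬ IsUnit (A - algebraMap ℂ Op l) := by
  rw [spectrum.mem_iff, ← IsUnit.neg_iff, neg_sub]

theorem not_unit_fourier {y : ℤ} (hy : y ≠ 0) : ¬ IsUnit (T (fourier y)) := by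
  have key : ∀ n : ℤ, n < 0 → ∀ L : Op, L * T (fourier n) ≠ 1 := by
    intro n hn L hL
    have h1 := congrArg (fun X : Op => X (mono 0)) hL
    have h2 : L (T (fourier n) (mono 0)) = mono 0 := h1
    rw [idx_T_neg_mono hn, map_zero] at h2
    exact idx_mono_ne_zero 0 h2.symm
  rcases lt_or_gt_of_ne hy with h | h
  · rintro ⟨u, hu⟩
    exact key y h ((u⁻¹ : Opˣ) : Op) (by rw [← hu]; exact u.inv_mul)
  · rintro ⟨u, hu⟩
    obtain ⟨n, rfl⟩ := Int.eq_ofNat_of_zero_le h.le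
    have h1 : T (fourier (-(n : ℤ))) * T (fourier (n : ℤ)) = 1 := T_fourier_neg_mul
    rw [← hu] at h1
    have h2 : T (fourier (-(n : ℤ))) = ((u⁻¹ : Opˣ) : Op) := eq_inv_of_mul_eq_one_left' h1
    refine key (-(n : ℤ)) (by omega) ((u : Opˣ) : Op) ?_
    rw [h2]
    exact u.mul_inv
where
  eq_inv_of_mul_eq_one_left' {a : Op} {u : Opˣ} (h : a * (u : Op) = 1) : a = ((u⁻¹ : Opˣ) : Op) := by
    rw [← Units.mul_eq_one_iff_eq_inv]
    exact h

theorem unit_core {Th : Op2} (hTh : Cm Th) (hu : IsUnit (TM Th)) (y : ℤ) :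
    IsUnit (TM (Th * mul (fourier y))) ↔ y = 0 := by
  constructor
  · intro h
    by_contra hy
    apply not_unit_fourier hy
    obtain ⟨u, hu⟩ := hu
    rcases le_or_gt 0 y with h0 | h0
    · rw [TM_plus _ (plus_fourier h0), ← hu] at h
      exact (Units.isUnit_units_mul u _).1 h
    · rw [hTh, TM_minus _ (minus_fourier h0.le), ← hu] at h
      exact (Units.isUnit_mul_units _ u).1 h
  · rintro rfl
    rw [idx_fourier_zero, mul_one_ct, mul_one]
    exact hu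

/-- The inverse factors. -/
noncomputable def dl {k : ℕ} (z : Fin k → ℂ) (I : Finset (Fin k)) : CT := ∏ i ∈ I, Gk (z i)

noncomputable def al {k : ℕ} (z : Fin k → ℂ) (I : Finset (Fin k)) : CT := ∏ i ∈ Iᶜ, Ak (z i)

theorem minus_dl {k : ℕ} {z : Fin k → ℂ} {I : Finset (Fin k)} (hI : ∀ i ∈ I, ‖z i‖ < 1) :
    Minus (dl z I) :=
  minus_prod _ fun i hi => minus_Gk (hI i hi)

theorem plus_al {k : ℕ} {z : Fin k → ℂ} {I : Finset (Fin k)} (hO : ∀ i ∉ I, 1 < ‖z i‖) :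
    Plus (al z I) :=
  plus_prod _ fun i hi => plus_Ak (hO i (Finset.mem_compl.1 hi))

theorem dl_bm {k : ℕ} {z : Fin k → ℂ} {I : Finset (Fin k)} (hI : ∀ i ∈ I, ‖z i‖ < 1) :
    dl z I * bm z I = 1 := by
  unfold dl bm
  rw [← Finset.prod_mul_distrib]
  exact Finset.prod_eq_one fun i hi => Gk_mul (hI i hi)

theorem al_bp {k : ℕ} {z : Fin k → ℂ} {I : Finset (Fin k)} (hO : ∀ i ∉ I, 1 < ‖z i‖) :
    al z I * bp z I = 1 := by
  unfold al bp
  rw [← Finset.prod_mul_distrib]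
  exact Finset.prod_eq_one fun i hi => Ak_mul (hO i (Finset.mem_compl.1 hi))

theorem T_dl_bm {k : ℕ} {z : Fin k → ℂ} {I : Finset (Fin k)} (hI : ∀ i ∈ I, ‖z i‖ < 1) :
    T (dl z I) * T (bm z I) = 1 ∧ T (bm z I) * T (dl z I) = 1 := by
  constructor
  · rw [← T_mul_left (minus_dl hI), dl_bm hI, T_one]
  · rw [← T_mul_left (minus_bm z I), mul_comm, dl_bm hI, T_one]

theorem T_al_bp {k : ℕ} {z : Fin k → ℂ} {I : Finset (Fin k)} (hO : ∀ i ∉ I, 1 < ‖z i‖) :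
    T (al z I) * T (bp z I) = 1 ∧ T (bp z I) * T (al z I) = 1 := by
  constructor
  · rw [← T_mul_right _ (plus_bp z I), al_bp hO, T_one]
  · rw [← T_mul_right _ (plus_al hO), mul_comm, al_bp hO, T_one]

theorem norm_Gk_le {z : ℂ} (hz : ‖z‖ < 1) : ‖Gk z‖ ≤ (1 - ‖z‖)⁻¹ := by
  rw [ContinuousMap.norm_le _ (inv_nonneg.2 (by linarith))]
  intro x
  rw [Gk_apply hz, norm_inv]
  apply inv_anti₀ (by linarith)
  have h1 : ‖z * (e x)⁻¹‖ = ‖z‖ := by rw [norm_mul, norm_inv, norm_e, inv_one, mul_one]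
  have h2 := norm_sub_norm_le (1 : ℂ) (z * (e x)⁻¹)
  rw [h1, norm_one] at h2
  exact h2

theorem norm_Ak_le {w : ℂ} (hw : 1 < ‖w‖) : ‖Ak w‖ ≤ (‖w‖ - 1)⁻¹ := by
  rw [ContinuousMap.norm_le _ (inv_nonneg.2 (by linarith))]
  intro x
  rw [Ak_apply hw, norm_inv]
  apply inv_anti₀ (by linarith)
  have h2 := norm_sub_norm_le w (e x)
  rw [norm_e] at h2
  rw [norm_sub_rev]
  exact h2

theorem norm_dl_le {k : ℕ} {z : Fin k → ℂ} {I : Finset (Fin k)} (hI : ∀ i ∈ I, ‖z i‖ < 1) :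
    ‖dl z I‖ ≤ ∏ i ∈ I, |1 - ‖z i‖|⁻¹ := by
  unfold dl
  refine (Finset.norm_prod_le _ _).trans ?_
  refine Finset.prod_le_prod (fun i _ => norm_nonneg _) fun i hi => ?_
  have h1 := hI i hi
  rw [abs_of_pos (by linarith)]
  exact norm_Gk_le h1

theorem norm_al_le {k : ℕ} {z : Fin k → ℂ} {I : Finset (Fin k)} (hO : ∀ i ∉ I, 1 < ‖z i‖) :
    ‖al z I‖ ≤ ∏ i ∈ Iᶜ, |1 - ‖z i‖|⁻¹ := by
  unfold al
  refine (Finset.norm_prod_le _ _).trans ?_
  refine Finset.prod_le_prod (fun i _ => norm_nonneg _) fun i hi => ?_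
  have h1 := hO i (Finset.mem_compl.1 hi)
  rw [abs_sub_comm, abs_of_pos (by linarith)]
  exact norm_Ak_le h1

/-- The points with `‖z j‖ < 1`. -/
noncomputable def ins {k : ℕ} (z : Fin k → ℂ) : Finset (Fin k) := Finset.univ.filter fun j => ‖z j‖ < 1

theorem mem_ins {k : ℕ} {z : Fin k → ℂ} {i : Fin k} : i ∈ ins z ↔ ‖z i‖ < 1 := by
  unfold ins
  rw [Finset.mem_filter]
  exact and_iff_right (Finset.mem_univ _)

theorem out_ins {k : ℕ} {z : Fin k → ℂ} (h : ∀ j, ‖z j‖ ≠ 1) : ∀ i ∉ ins z, 1 < ‖z i‖ := by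
  intro i hi
  rw [mem_ins, not_lt] at hi
  exact lt_of_le_of_ne hi (Ne.symm (h i))

/-- Some point is on the circle. -/
theorem on_circle {Th : Op2} (hTh : Cm Th) {k : ℕ} {z : Fin k → ℂ} {x : ℤ} {j : Fin k} (hj : ‖z j‖ = 1) :
    ¬ IsUnit (TM (Th * mul (fourier x * ∏ i, (fourier 1 - algebraMap ℂ CT (z i))))) := by
  rintro ⟨u, hu⟩
  have h1 : (fourier x : CT) * ∏ i, (fourier 1 - algebraMap ℂ CT (z i)) =
      (fourier x * ∏ i ∈ Finset.univ.erase j, (fourier 1 - algebraMap ℂ CT (z i))) *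
        (fourier 1 - algebraMap ℂ CT (z j)) := by
    rw [mul_assoc, Finset.prod_erase_mul _ _ (Finset.mem_univ j)]
  rw [h1, mul_ct _ (fourier 1 - algebraMap ℂ CT (z j)), ← mul_assoc, TM_plus _ (plus_sub _)] at hu
  have h2 : T (fourier 1 - algebraMap ℂ CT (z j) : CT) = S - z j • (1 : Hardy →L[ℂ] Hardy) := by
    rw [T_sub, T_algebraMap]
    rfl
  rw [h2] at hu
  refine Pool.Agent.TBirS.S_sub_not_left hj (((u⁻¹ : Opˣ) : Op) * TM (Th *
    mul (fourier x * ∏ i ∈ Finset.univ.erase j, (fourier 1 - algebraMap ℂ CT (z i))))) ?_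
  rw [mul_assoc, ← hu]
  exact u.inv_mul

/-- No point is on the circle. -/
theorem off_circle {Th : Op2} (hTh : Cm Th) (hu : IsUnit (TM Th)) {k : ℕ} {z : Fin k → ℂ} {x : ℤ}
    (h : ∀ j, ‖z j‖ ≠ 1) :
    IsUnit (TM (Th * mul (fourier x * ∏ i, (fourier 1 - algebraMap ℂ CT (z i))))) ↔
      x + ((ins z).card : ℤ) = 0 := by
  rw [symb z (ins z) x, comp hTh (minus_bm _ _) (plus_bp _ _)]
  obtain ⟨a1, a2⟩ := T_dl_bm (z := z) (I := ins z) fun i hi => mem_ins.1 hi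
  obtain ⟨b1, b2⟩ := T_al_bp (out_ins h)
  have e1 : ((⟨T (bm z (ins z)), T (dl z (ins z)), a2, a1⟩ : Opˣ) : Op) = T (bm z (ins z)) := rfl
  have e2 : ((⟨T (bp z (ins z)), T (al z (ins z)), b2, b1⟩ : Opˣ) : Op) = T (bp z (ins z)) := rfl
  rw [← e1, ← e2, Units.isUnit_units_mul, Units.isUnit_mul_units, unit_core hTh hu]

/-- The bound for the inverse. -/
theorem res_bd {Th : Op2} (hTh : Cm Th) (hu : IsUnit (TM Th)) {k : ℕ} {z : Fin k → ℂ} {x : ℤ}
    (h : ∀ j, ‖z j‖ ≠ 1) (hx : x + ((ins z).card : ℤ) = 0) :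
    ∃ Y : Op, TM (Th * mul (fourier x * ∏ i, (fourier 1 - algebraMap ℂ CT (z i)))) * Y = 1 ∧
      Y * TM (Th * mul (fourier x * ∏ i, (fourier 1 - algebraMap ℂ CT (z i)))) = 1 ∧
      ‖Y‖ ≤ (∏ i, |1 - ‖z i‖|⁻¹) * ‖Ring.inverse (TM Th)‖ := by
  rw [symb z (ins z) x, comp hTh (minus_bm _ _) (plus_bp _ _), hx, idx_fourier_zero, mul_one_ct,
    mul_one]
  obtain ⟨a1, a2⟩ := T_dl_bm (z := z) (I := ins z) fun i hi => mem_ins.1 hi
  obtain ⟨b1, b2⟩ := T_al_bp (out_ins h)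
  have c1 : Ring.inverse (TM Th) * TM Th = 1 := Ring.inverse_mul_cancel _ hu
  have c2 : TM Th * Ring.inverse (TM Th) = 1 := Ring.mul_inverse_cancel _ hu
  refine ⟨T (al z (ins z)) * (Ring.inverse (TM Th) * T (dl z (ins z))), ?_, ?_, ?_⟩
  · calc T (bm z (ins z)) * (TM Th * T (bp z (ins z))) *
        (T (al z (ins z)) * (Ring.inverse (TM Th) * T (dl z (ins z)))) =
        T (bm z (ins z)) * (TM Th * (T (bp z (ins z)) * T (al z (ins z))) *
          Ring.inverse (TM Th)) * T (dl z (ins z)) := by simp only [mul_assoc]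
      _ = 1 := by rw [b2, mul_one, c2, mul_one, a2]
  · calc T (al z (ins z)) * (Ring.inverse (TM Th) * T (dl z (ins z))) *
        (T (bm z (ins z)) * (TM Th * T (bp z (ins z)))) =
        T (al z (ins z)) * (Ring.inverse (TM Th) * (T (dl z (ins z)) * T (bm z (ins z))) *
          TM Th) * T (bp z (ins z)) := by simp only [mul_assoc]
      _ = 1 := by rw [a1, mul_one, c1, mul_one, b1]
  · have n1 : ‖T (al z (ins z))‖ ≤ ∏ i ∈ (ins z)ᶜ, |1 - ‖z i‖|⁻¹ :=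
      (norm_T_le _).trans (norm_al_le (out_ins h))
    have n2 : ‖T (dl z (ins z))‖ ≤ ∏ i ∈ ins z, |1 - ‖z i‖|⁻¹ :=
      (norm_T_le _).trans (norm_dl_le fun i hi => mem_ins.1 hi)
    have p1 : 0 ≤ ∏ i ∈ (ins z)ᶜ, |1 - ‖z i‖|⁻¹ := Finset.prod_nonneg fun i _ => by positivity
    have p2 : 0 ≤ ∏ i ∈ ins z, |1 - ‖z i‖|⁻¹ := Finset.prod_nonneg fun i _ => by positivity
    calc ‖T (al z (ins z)) * (Ring.inverse (TM Th) * T (dl z (ins z)))‖
        ≤ ‖T (al z (ins z))‖ * (‖Ring.inverse (TM Th)‖ * ‖T (dl z (ins z))‖) :=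
          (norm_mul_le _ _).trans (mul_le_mul_of_nonneg_left (norm_mul_le _ _) (norm_nonneg _))
      _ ≤ (∏ i ∈ (ins z)ᶜ, |1 - ‖z i‖|⁻¹) * (‖Ring.inverse (TM Th)‖ * ∏ i ∈ ins z, |1 - ‖z i‖|⁻¹) := by
          gcongr
      _ = ((∏ i ∈ ins z, |1 - ‖z i‖|⁻¹) * ∏ i ∈ (ins z)ᶜ, |1 - ‖z i‖|⁻¹) *
          ‖Ring.inverse (TM Th)‖ := by ring
      _ = _ := by rw [Finset.prod_mul_prod_compl]

theorem exp_bd {t : ℝ} (ht : |t| ≤ 1) : |t| ≤ 2 * |1 - Real.exp t| := by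
  rcases le_or_gt 0 t with h | h
  · have h1 := Real.add_one_le_exp t
    rw [abs_of_nonneg h, abs_sub_comm, abs_of_nonneg (by linarith)]
    linarith
  · have h1 := Real.add_one_le_exp (-t)
    rw [abs_of_neg h] at ht ⊢
    have h2 : Real.exp t * Real.exp (-t) = 1 := by rw [← Real.exp_add]; simp
    have h3 := Real.exp_pos t
    have h4 : Real.exp t * (-t + 1) ≤ 1 :=
      (mul_le_mul_of_nonneg_left h1 h3.le).trans_eq h2
    have h5 : Real.exp t < 1 := Real.exp_lt_one_iff.2 h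
    rw [abs_of_pos (by linarith)]
    nlinarith

theorem dr_T_bm {k : ℕ} (z : Fin k → ℂ) (I : Finset (Fin k)) : DR (T (bm z I)) := by
  unfold bm
  induction I using Finset.induction_on with
  | empty =>
    rw [Finset.prod_empty, T_one]
    exact Pool.Agent.TBirS.DR.one
  | insert i s hi ih =>
    rw [Finset.prod_insert hi, T_mul_left (minus_one_sub (z i))]
    have h1 : T (1 - z i • fourier (-1) : CT) = (1 : Hardy →L[ℂ] Hardy) - z i • Sa := by
      rw [T_sub, T_one, T_smul]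
      rfl
    rw [h1]
    exact (Pool.Agent.TBirS.dr_one_sub_Sa _).mul ih

theorem dr_T_bp {k : ℕ} (z : Fin k → ℂ) (hz : ∀ i, ‖z i‖ = 1) (s : Finset (Fin k)) :
    DR (T (∏ i ∈ s, (fourier 1 - algebraMap ℂ CT (z i) : CT))) := by
  induction s using Finset.induction_on with
  | empty =>
    rw [Finset.prod_empty, T_one]
    exact Pool.Agent.TBirS.DR.one
  | insert i s hi ih =>
    rw [Finset.prod_insert hi, T_mul_right _ (plus_prod _ fun i _ => plus_sub (z i))]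
    have h1 : T (fourier 1 - algebraMap ℂ CT (z i) : CT) = S - z i • (1 : Hardy →L[ℂ] Hardy) := by
      rw [T_sub, T_algebraMap]
      rfl
    rw [h1]
    exact (Pool.Agent.TBirS.dr_S_sub (hz i)).mul ih

end Grw

open Grw

theorem des_fac {M : Op2} (hM : Cm M) {phi : ℂ → ℂ} {q : ℂ} (B : Br phi q) {x : ℤ}
    (hF : FacL M B x) : B.Des x (spectrum ℂ (TM M)) := by
  obtain ⟨C, s, hC, hs, hfac⟩ := hF
  refine ⟨s, hs, fun l hl => ?_⟩
  obtain ⟨Th, K1, K2, a1, a2, cT, -, -, -, -, -, -, -, -, uT, -, h1, -, -⟩ := hfac l hl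
  have hpz : B.pz l = ∏ i, (fourier 1 - algebraMap ℂ CT (B.g i l)) := rfl
  have hmem : l ∈ spectrum ℂ (TM M) ↔
      ¬ IsUnit (TM (Th * mul (fourier x * ∏ i, (fourier 1 - algebraMap ℂ CT (B.g i l))))) := by
    rw [mem_spec, ← TM_sub_alg, h1, hpz]
  refine ⟨?_, fun h => ?_⟩
  · rintro ⟨j, hj⟩
    rw [hmem]
    exact on_circle cT (z := fun i => B.g i l) hj
  · rw [hmem, off_circle cT uT (z := fun i => B.g i l) h]
    rfl

theorem grow_fac {M : Op2} (hM : Cm M) {phi : ℂ → ℂ} {q : ℂ} (B : Br phi q) {x : ℤ}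
    (hF : FacL M B x) : ∃ C s : ℝ, 0 < C ∧ 0 < s ∧ ∀ l ∈ ball q s,
      l ∉ spectrum ℂ (TM M) → (∏ j, |(B.L j l).re|) * ‖resolvent (TM M) l‖ ≤ C := by
  obtain ⟨C, s, hC, hs, hfac⟩ := hF
  obtain ⟨-, r, K, hr, -, -, hK, hbas⟩ := B.bas
  refine ⟨2 ^ B.k * C, min s r, by positivity, lt_min hs hr, fun l hl hspec => ?_⟩
  have hls : l ∈ ball q s := ball_subset_ball (min_le_left _ _) hl
  have hlr : l ∈ ball q r := ball_subset_ball (min_le_right _ _) hl
  obtain ⟨Th, K1, K2, a1, a2, cT, -, -, -, -, -, -, -, -, uT, nT, h1, -, -⟩ := hfac l hls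
  have hpz : B.pz l = ∏ i, (fourier 1 - algebraMap ℂ CT (B.g i l)) := rfl
  have hmem : l ∈ spectrum ℂ (TM M) ↔
      ¬ IsUnit (TM (Th * mul (fourier x * ∏ i, (fourier 1 - algebraMap ℂ CT (B.g i l))))) := by
    rw [mem_spec, ← TM_sub_alg, h1, hpz]
  rw [hmem, not_not] at hspec
  have hne : ∀ j, ‖B.g j l‖ ≠ 1 := by
    intro j hj
    exact on_circle cT (z := fun i => B.g i l) hj hspec
  have hx := (off_circle cT uT (z := fun i => B.g i l) hne).1 hspec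
  obtain ⟨Y, hY1, hY2, hY3⟩ := res_bd cT uT (z := fun i => B.g i l) hne hx
  rw [← hpz, ← h1, TM_sub_alg] at hY1 hY2
  have hres : resolvent (TM M) l = -Y := resolvent_eq_neg hY1 hY2
  rw [hres, norm_neg]
  have hY4 : ‖Y‖ ≤ (∏ i, |1 - ‖B.g i l‖|⁻¹) * C :=
    hY3.trans (mul_le_mul_of_nonneg_left nT (Finset.prod_nonneg fun i _ => by positivity))
  have hL : ∏ j, |(B.L j l).re| ≤ 2 ^ B.k * ∏ j, |1 - ‖B.g j l‖| := by
    have e1 : (2 : ℝ) ^ B.k * ∏ j, |1 - ‖B.g j l‖| = ∏ j, (2 * |1 - ‖B.g j l‖|) := by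
      rw [Finset.prod_mul_distrib]
      simp
    rw [e1]
    refine Finset.prod_le_prod (fun j _ => abs_nonneg _) fun j _ => ?_
    obtain ⟨-, -, -, hb⟩ := hbas j
    obtain ⟨b1, b2, -, -, b3, -, -⟩ := hb l hlr
    have b4 : ‖B.g j l‖ = Real.exp (B.L j l).re := by
      have e2 := congrArg norm b1
      rw [norm_mul, B.norm_q j, one_mul, Complex.norm_exp] at e2
      exact e2
    rw [b4]
    exact exp_bd ((Complex.abs_re_le_norm _).trans b3)
  have hprod : (∏ j, |1 - ‖B.g j l‖|) * ∏ i, |1 - ‖B.g i l‖|⁻¹ = 1 := by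
    rw [← Finset.prod_mul_distrib]
    refine Finset.prod_eq_one fun j _ => ?_
    refine mul_inv_cancel₀ ?_
    rw [abs_ne_zero, sub_ne_zero]
    exact (hne j).symm
  have hp0 : 0 ≤ ∏ j, |1 - ‖B.g j l‖| := Finset.prod_nonneg fun j _ => abs_nonneg _
  calc (∏ j, |(B.L j l).re|) * ‖Y‖
      ≤ (2 ^ B.k * ∏ j, |1 - ‖B.g j l‖|) * ((∏ i, |1 - ‖B.g i l‖|⁻¹) * C) :=
        mul_le_mul hL hY4 (norm_nonneg _) (by positivity)
    _ = 2 ^ B.k * ((∏ j, |1 - ‖B.g j l‖|) * ∏ i, |1 - ‖B.g i l‖|⁻¹) * C := by ring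
    _ = 2 ^ B.k * C := by rw [hprod, mul_one]

theorem dr_fac {M : Op2} (hM : Cm M) {phi : ℂ → ℂ} {q : ℂ} (B : Br phi q) {x : ℤ}
    (hF : FacL M B x) (hcl : q ∈ closure (spectrum ℂ (TM M))ᶜ) :
    DR (TM M - q • (1 : Hardy →L[ℂ] Hardy)) := by
  obtain ⟨r, hr, hdes⟩ := des_fac hM B hF
  obtain ⟨l', hl', hl'b⟩ := Metric.mem_closure_iff.1 hcl r hr
  rw [dist_comm] at hl'b
  obtain ⟨d1, d2⟩ := hdes l' hl'b
  have hne : ∀ j, ‖B.g j l'‖ ≠ 1 := fun j hj => hl' (d1 ⟨j, hj⟩)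
  have hx : x + (((Finset.univ.filter fun j => ‖B.g j l'‖ < 1).card : ℕ) : ℤ) = 0 := by
    by_contra hc
    exact hl' ((d2 hne).2 hc)
  obtain ⟨C, s, hC, hs, hfac⟩ := hF
  obtain ⟨Th, K1, K2, a1, a2, cT, -, -, -, -, -, -, -, -, uT, -, h1, -, -⟩ := hfac q (mem_ball_self hs)
  have hpz : B.pz q = ∏ i, (fourier 1 - algebraMap ℂ CT (B.g i q)) := rfl
  have h2 : TM M - q • (1 : Hardy →L[ℂ] Hardy) =
      T (bm (fun i => B.g i q) (Finset.univ.filter fun j => ‖B.g j l'‖ < 1)) *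
        (TM Th * T (bp (fun i => B.g i q) (Finset.univ.filter fun j => ‖B.g j l'‖ < 1))) := by
    have e1 := TM_sub_alg M q
    rw [Algebra.algebraMap_eq_smul_one (A := Op)] at e1
    rw [← e1, h1, hpz, symb (fun i => B.g i q) (Finset.univ.filter fun j => ‖B.g j l'‖ < 1) x, hx,
      comp cT (minus_bm _ _) (plus_bp _ _), idx_fourier_zero, mul_one_ct, mul_one]
  rw [h2]
  refine (dr_T_bm _ _).mul (Pool.Agent.TBirS.DR.mul ?_ (dr_T_bp _ (fun i => B.norm_q i) _))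
  exact Pool.Agent.TBirS.DR.of_inv (Ring.mul_inverse_cancel _ uT)

end Pool.Agent.TBirC
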