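import Pool.Agent.TBirC.Psi

/-!
# Interpolation of the inverse of the quotient

Paper proof. `δ`, `c`, `C`, `s` from `dd_loc`; `z j = g j l`. For `w ∈ ball (g j q) (2 δ)` put
`th j w = w ^ n * dslope phi (z j) w / prod (i ≠ j) (w - z i)`: differentiable (`w ≠ 0`, `‖w - z i‖ ≥ δ`), bounded,
and `th j (z j) = (z j) ^ n * deriv phi (z j) / prod (i ≠ j) (z j - z i)` is bounded below. Lagrange polynomials:
`P1 w = sum_j (th j (z j))⁻¹ prod (i ≠ j) ((w - z i) / (z j - z i))`,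
`P2 w = sum_j (th j (z j))⁻¹ prod (i ≠ j) ((w⁻¹ - (z i)⁻¹) / ((z j)⁻¹ - (z i)⁻¹))`. They are polynomials in `w` and in `w⁻¹` of degree
`< k` with bounded coefficients `a1`, `a2` (one may prove: the set of the coefficient sequences of products of at most `k`
factors `X - z` with `‖z‖ ≤ 2` is bounded, by induction; `Polynomial.coeff`), and `P1 (z j) = P2 (z j) = (th j (z j))⁻¹`. For
`e x` in `ball (g j q) δ`: `G w = th j w * P1 w - 1` is differentiable and bounded on `ball (g j q) (2 δ)`, `G (z j) = 0`, so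
`‖G w‖ ≤ C' ‖w - z j‖` on `ball (g j q) δ` (Schwarz lemma, or `dslope G (z j)` and the maximum principle), and
`G (e x) / prod (e x - z i)` is bounded. For `e x` outside of all these balls the
denominator is bounded below and the numerator is bounded for almost all `x` (`exists_Th`, the bound of `ps`).
-/

set_option autoImplicit false

open MeasureTheory Complex Set Filter Topology Metric AddCircle
open scoped ComplexConjugate InnerProductSpace ENNReal

namespace Pool.Agent.TBirC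

open Pool.Agent.TBir

namespace ItpAux

open Polynomial in
/-- The coefficients of a product of linear factors. -/
theorem coeff_prod {ι : Type*} (t : Finset ι) (y : ι → ℂ) (hy : ∀ i, ‖y i‖ ≤ 2) (m : ℕ) :
    ‖(∏ i ∈ t, (X - C (y i))).coeff m‖ ≤ 3 ^ t.card := by
  classical
  induction t using Finset.induction_on generalizing m with
  | empty =>
    rw [Finset.prod_empty, Finset.card_empty, pow_zero, coeff_one]
    split_ifs
    · rw [norm_one]
    · rw [norm_zero]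
      exact zero_le_one
  | insert a t ha ih =>
    rw [Finset.prod_insert ha, Finset.card_insert_of_notMem ha, sub_mul, coeff_sub, coeff_C_mul,
      pow_succ]
    have h1 : ‖(X * ∏ i ∈ t, (X - C (y i))).coeff m‖ ≤ 3 ^ t.card := by
      cases m with
      | zero =>
        rw [coeff_X_mul_zero, norm_zero]
        positivity
      | succ m =>
        rw [coeff_X_mul]
        exact ih m
    have h2 : ‖y a * (∏ i ∈ t, (X - C (y i))).coeff m‖ ≤ 2 * 3 ^ t.card := by
      rw [norm_mul]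
      exact mul_le_mul (hy a) (ih m) (norm_nonneg _) (by norm_num)
    refine (norm_sub_le _ _).trans ?_
    linarith

open Polynomial in
/-- Lagrange interpolation with bounded coefficients. -/
theorem lag (k : ℕ) {δ U : ℝ} (hδ : 0 < δ) (hδ1 : δ ≤ 1) (hU : 0 ≤ U) : ∃ C : ℝ, 0 ≤ C ∧
    ∀ y u : Fin k → ℂ, (∀ i, ‖y i‖ ≤ 2) → (∀ i j, i ≠ j → δ ≤ ‖y i - y j‖) →
    (∀ j, ‖u j‖ ≤ U) → ∃ a : ℕ → ℂ, (∀ i, ‖a i‖ ≤ C) ∧
      (∀ j, ∑ i ∈ Finset.range k, a i * y j ^ i = u j) ∧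
      ∀ w : ℂ, ‖w‖ ≤ 2 → ‖∑ i ∈ Finset.range k, a i * w ^ i‖ ≤ C := by
  classical
  set C1 : ℝ := ∑ _j : Fin k, U / δ ^ k * 3 ^ k with hC1
  have hC10 : 0 ≤ C1 := by positivity
  refine ⟨C1 + ∑ i ∈ Finset.range k, C1 * 2 ^ i, by positivity, ?_⟩
  intro y u hy hsep hu
  set b : Fin k → ℂ := fun j => u j * (∏ i ∈ Finset.univ.erase j, (y j - y i))⁻¹ with hb
  set P : ℂ[X] := ∑ j, C (b j) * ∏ i ∈ Finset.univ.erase j, (X - C (y i)) with hP
  have hne : ∀ j, ∏ i ∈ Finset.univ.erase j, (y j - y i) ≠ 0 := by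
    intro j
    rw [Finset.prod_ne_zero_iff]
    intro i hi
    have h1 := hsep j i (Finset.ne_of_mem_erase hi).symm
    exact norm_pos_iff.1 (hδ.trans_le h1)
  have hbn : ∀ j, ‖b j‖ ≤ U / δ ^ k := by
    intro j
    rw [hb]
    change ‖u j * (∏ i ∈ Finset.univ.erase j, (y j - y i))⁻¹‖ ≤ U / δ ^ k
    rw [norm_mul, norm_inv, ← div_eq_mul_inv]
    have h1 : δ ^ k ≤ ‖∏ i ∈ Finset.univ.erase j, (y j - y i)‖ := by
      rw [norm_prod]
      have h2 : δ ^ (Finset.univ.erase j).card ≤ ∏ i ∈ Finset.univ.erase j, ‖y j - y i‖ := by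
        rw [← Finset.prod_const]
        refine Finset.prod_le_prod (fun i _ => hδ.le) fun i hi => ?_
        exact hsep j i (Finset.ne_of_mem_erase hi).symm
      refine le_trans ?_ h2
      refine pow_le_pow_of_le_one hδ.le hδ1 ?_
      exact (Finset.card_le_univ _).trans (by rw [Fintype.card_fin])
    have h0 : 0 < δ ^ k := by positivity
    gcongr
    exact hu j
  have hdeg : P.degree < k := by
    rw [hP]
    refine (degree_sum_le _ _).trans_lt ?_
    refine (Finset.sup_lt_iff (WithBot.bot_lt_coe k)).2 ?_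
    intro j _
    rw [C_mul']
    refine (degree_smul_le _ _).trans_lt ?_
    rw [degree_prod]
    simp only [degree_X_sub_C]
    rw [Finset.sum_const, Finset.card_erase_of_mem (Finset.mem_univ j), Finset.card_univ,
      Fintype.card_fin]
    have hk : 0 < k := j.pos
    rw [nsmul_one]
    have h9 : k - 1 < k := Nat.sub_lt hk one_pos
    exact WithBot.coe_lt_coe.2 h9
  have hco : ∀ m, ‖P.coeff m‖ ≤ C1 := by
    intro m
    rw [hP, finsetSum_coeff]
    refine (norm_sum_le _ _).trans (Finset.sum_le_sum fun j _ => ?_)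
    rw [coeff_C_mul, norm_mul]
    have h1 := coeff_prod (Finset.univ.erase j) y hy m
    have h2 : (3 : ℝ) ^ (Finset.univ.erase j).card ≤ 3 ^ k :=
      pow_le_pow_right₀ (by norm_num) ((Finset.card_le_univ _).trans (by rw [Fintype.card_fin]))
    exact mul_le_mul (hbn j) (h1.trans h2) (norm_nonneg _) (by positivity)
  have hev : ∀ w : ℂ, ∑ i ∈ Finset.range k, P.coeff i * w ^ i = P.eval w := by
    intro w
    rcases Nat.eq_zero_or_pos k with hk | hk
    · subst hk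
      have h1 : P = 0 := by
        rw [hP]
        exact Finset.sum_of_isEmpty _
      rw [h1]
      simp
    · have h1 : P.natDegree < k := by
        rcases eq_or_ne P 0 with h0 | h0
        · rw [h0, natDegree_zero]
          exact hk
        · exact (natDegree_lt_iff_degree_lt h0).2 hdeg
      exact (eval_eq_sum_range' h1 w).symm
  refine ⟨P.coeff, fun i => (hco i).trans (by
    have : 0 ≤ ∑ i ∈ Finset.range k, C1 * (2 : ℝ) ^ i := by positivity
    linarith), fun j => ?_, fun w hw => ?_⟩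
  · rw [hev, hP, eval_finsetSum, Finset.sum_eq_single j]
    · rw [eval_mul, eval_C, eval_prod]
      simp only [eval_sub, eval_X, eval_C]
      rw [hb]
      change u j * (∏ i ∈ Finset.univ.erase j, (y j - y i))⁻¹ * _ = u j
      rw [mul_assoc, inv_mul_cancel₀ (hne j), mul_one]
    · intro i _ hij
      rw [eval_mul, eval_prod, Finset.prod_eq_zero (i := j)
        (Finset.mem_erase.2 ⟨Ne.symm hij, Finset.mem_univ j⟩), mul_zero]
      simp
    · intro h
      exact absurd (Finset.mem_univ j) h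
  · refine (norm_sum_le _ _).trans ?_
    refine le_trans (Finset.sum_le_sum fun i _ => ?_) (le_add_of_nonneg_left hC10)
    rw [norm_mul, norm_pow]
    exact mul_le_mul (hco i) (pow_le_pow_left₀ (norm_nonneg _) hw i) (by positivity) hC10

/-- A product of factors bounded below. -/
theorem prod_ge {ι : Type*} (t : Finset ι) (f : ι → ℂ) {c : ℝ} (hc : 0 < c) (hc1 : c ≤ 1) {k : ℕ}
    (hk : t.card ≤ k) (h : ∀ i ∈ t, c ≤ ‖f i‖) : c ^ k ≤ ‖∏ i ∈ t, f i‖ := by
  rw [norm_prod]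
  have h2 : c ^ t.card ≤ ∏ i ∈ t, ‖f i‖ := by
    rw [← Finset.prod_const]
    exact Finset.prod_le_prod (fun i _ => hc.le) h
  exact (pow_le_pow_of_le_one hc.le hc1 hk).trans h2

theorem prod_le {ι : Type*} (t : Finset ι) (f : ι → ℂ) {c : ℝ} (hc1 : 1 ≤ c) {k : ℕ}
    (hk : t.card ≤ k) (h : ∀ i ∈ t, ‖f i‖ ≤ c) : ‖∏ i ∈ t, f i‖ ≤ c ^ k := by
  rw [norm_prod]
  have h2 : ∏ i ∈ t, ‖f i‖ ≤ c ^ t.card := by
    rw [← Finset.prod_const]
    exact Finset.prod_le_prod (fun i _ => norm_nonneg _) h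
  exact h2.trans (pow_le_pow_right₀ hc1 hk)

theorem zpow_bd {w : ℂ} (h1 : 1 / 2 ≤ ‖w‖) (h2 : ‖w‖ ≤ 2) (n : ℤ) :
    ‖w ^ n‖ ≤ 2 ^ n.natAbs := by
  have hw : 0 < ‖w‖ := by linarith
  rw [norm_zpow]
  rcases Int.natAbs_eq n with h | h
  · rw [h, zpow_natCast, Int.natAbs_natCast]
    exact pow_le_pow_left₀ hw.le h2 _
  · rw [h, zpow_neg, zpow_natCast, ← inv_pow, Int.natAbs_neg, Int.natAbs_natCast]
    refine pow_le_pow_left₀ (by positivity) ?_ _
    rw [inv_le_comm₀ hw (by norm_num)]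
    linarith

/-- The local description of the quotient near `g j q`. -/
theorem local_bd {phi : ℂ → ℂ} {q : ℂ} (B : Br phi q) (n : ℤ) (C0 CQ : ℝ) {δ c C s : ℝ}
    (hδ : 0 < δ) (hδ4 : δ ≤ 1 / 4) (hC : 0 < C) (hsR : s ≤ B.R)
    (hsep : ∀ i j, i ≠ j → 4 * δ ≤ ‖B.g i q - B.g j q‖)
    (hnear : ∀ j, ∀ l ∈ ball q s, ‖B.g j l - B.g j q‖ < δ / 2)
    (hdd : ∀ j, ∀ l ∈ ball q s, DifferentiableOn ℂ (dslope phi (B.g j l)) (ball (B.g j q) (2 * δ)) ∧
        ∀ w ∈ ball (B.g j q) (2 * δ), c ≤ ‖dslope phi (B.g j l) w‖ ∧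
          ‖dslope phi (B.g j l) w‖ ≤ C) (hC0 : 0 ≤ C0) (hCQ : 0 ≤ CQ) :
    ∃ C' : ℝ, 0 ≤ C' ∧ ∀ l ∈ ball q s, ∀ Q : ℂ → ℂ,
      (∀ w, 1 / 2 ≤ ‖w‖ → ‖w‖ ≤ 2 → ‖Q w‖ ≤ CQ ∧ DifferentiableAt ℂ Q w) →
      (∀ j, (B.g j l) ^ n * dslope phi (B.g j l) (B.g j l) /
        (∏ i ∈ Finset.univ.erase j, (B.g j l - B.g i l)) * Q (B.g j l) = 1) →
      ∀ x : UnitAddCircle, (∀ j, e x ≠ B.g j l) → ‖B.ps l x‖ ≤ C0 →
        ‖((e x) ^ n * B.ps l x * Q (e x) - 1) / ∏ j, (e x - B.g j l)‖ ≤ C' := by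
  classical
  set CG : ℝ := 2 ^ n.natAbs * C / δ ^ B.k * CQ + 1 with hCG
  have hCG0 : 0 < CG := by positivity
  refine ⟨max ((C0 * CQ + 1) / (δ / 2) ^ B.k) (CG / (3 * δ / 2) / δ ^ B.k), by positivity, ?_⟩
  intro l hl Q hQ hQ1 x hx hps
  have hcard : ∀ t : Finset (Fin B.k), t.card ≤ B.k := fun t =>
    (Finset.card_le_univ t).trans (by rw [Fintype.card_fin])
  have hball : ∀ j, ∀ w ∈ ball (B.g j q) (2 * δ), 1 / 2 ≤ ‖w‖ ∧ ‖w‖ ≤ 2 := by
    intro j w hw
    rw [mem_ball, dist_eq_norm] at hw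
    have h1 := B.norm_q j
    have h2 : ‖B.g j q‖ ≤ ‖w‖ + ‖w - B.g j q‖ := by
      calc ‖B.g j q‖ = ‖w - (w - B.g j q)‖ := by congr 1; ring
        _ ≤ _ := norm_sub_le _ _
    have h3 : ‖w‖ ≤ ‖B.g j q‖ + ‖w - B.g j q‖ := by
      calc ‖w‖ = ‖B.g j q + (w - B.g j q)‖ := by congr 1; ring
        _ ≤ _ := norm_add_le _ _
    exact ⟨by linarith, by linarith⟩
  have hsepw : ∀ j, ∀ w ∈ ball (B.g j q) (2 * δ), ∀ i, i ≠ j → δ ≤ ‖w - B.g i l‖ := by
    intro j w hw i hij
    rw [mem_ball, dist_eq_norm] at hw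
    have h1 := hsep i j hij
    have h2 := hnear i l hl
    have h4 : ‖B.g i q - B.g j q‖ ≤ ‖w - B.g i l‖ + ‖B.g i l - B.g i q‖ + ‖w - B.g j q‖ := by
      calc ‖B.g i q - B.g j q‖ = ‖(w - B.g j q) - (w - B.g i l) - (B.g i l - B.g i q)‖ := by
            congr 1; ring
        _ ≤ ‖w - B.g j q‖ + ‖w - B.g i l‖ + ‖B.g i l - B.g i q‖ :=
            (norm_sub_le _ _).trans (add_le_add_left (norm_sub_le _ _) _)
        _ = _ := by ring
    linarith
  by_cases hcase : ∃ j, e x ∈ ball (B.g j q) δ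
  · obtain ⟨j, hj⟩ := hcase
    refine le_trans ?_ (le_max_right _ _)
    set z : ℂ := B.g j l with hz
    have hzn : ‖z - B.g j q‖ < δ / 2 := hnear j l hl
    set G : ℂ → ℂ := fun w => w ^ n * dslope phi z w /
      (∏ i ∈ Finset.univ.erase j, (w - B.g i l)) * Q w - 1 with hG
    have hsub : ball z (3 * δ / 2) ⊆ ball (B.g j q) (2 * δ) := by
      intro w hw
      rw [mem_ball, dist_eq_norm] at hw ⊢
      calc ‖w - B.g j q‖ = ‖(w - z) + (z - B.g j q)‖ := by congr 1; ring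
        _ ≤ ‖w - z‖ + ‖z - B.g j q‖ := norm_add_le _ _
        _ < 2 * δ := by linarith
    have hprodne : ∀ w ∈ ball (B.g j q) (2 * δ),
        (∏ i ∈ Finset.univ.erase j, (w - B.g i l)) ≠ 0 := by
      intro w hw
      rw [Finset.prod_ne_zero_iff]
      intro i hi
      exact norm_pos_iff.1 (hδ.trans_le (hsepw j w hw i (Finset.ne_of_mem_erase hi)))
    have hGd : DifferentiableOn ℂ G (ball z (3 * δ / 2)) := by
      intro w hw
      have hw2 := hsub hw
      have hb := hball j w hw2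
      have hw0 : w ≠ 0 := by
        rintro rfl
        rw [norm_zero] at hb
        linarith [hb.1]
      have d1 : DifferentiableAt ℂ (fun w : ℂ => w ^ n) w :=
        differentiableAt_zpow.2 (Or.inl hw0)
      have d2 : DifferentiableAt ℂ (dslope phi z) w :=
        ((hdd j l hl).1).differentiableAt (isOpen_ball.mem_nhds hw2)
      have d3 : DifferentiableAt ℂ (fun w : ℂ => ∏ i ∈ Finset.univ.erase j, (w - B.g i l)) w := by
        fun_prop
      have d4 := (hQ w hb.1 hb.2).2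
      exact ((((d1.mul d2).div d3 (hprodne w hw2)).mul d4).sub_const 1).differentiableWithinAt
    have hGz : G z = 0 := by
      have h1 := hQ1 j
      rw [← hz] at h1
      change z ^ n * dslope phi z z / (∏ i ∈ Finset.univ.erase j, (z - B.g i l)) * Q z - 1 = 0
      rw [h1, sub_self]
    have hGb : ∀ w ∈ ball z (3 * δ / 2), ‖G w‖ ≤ CG := by
      intro w hw
      have hw2 := hsub hw
      have hb := hball j w hw2
      have h1 := zpow_bd hb.1 hb.2 n
      have h2 := ((hdd j l hl).2 w hw2).2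
      have h3 : δ ^ B.k ≤ ‖∏ i ∈ Finset.univ.erase j, (w - B.g i l)‖ :=
        prod_ge _ _ hδ (by linarith) (hcard _) fun i hi =>
          hsepw j w hw2 i (Finset.ne_of_mem_erase hi)
      have h4 := (hQ w hb.1 hb.2).1
      have h5 : 0 < δ ^ B.k := by positivity
      change ‖w ^ n * dslope phi z w /
        (∏ i ∈ Finset.univ.erase j, (w - B.g i l)) * Q w - 1‖ ≤ CG
      refine (norm_sub_le _ _).trans ?_
      rw [norm_one, norm_mul, norm_div, norm_mul, hCG]
      gcongr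
    have hmaps : MapsTo G (ball z (3 * δ / 2)) (closedBall (G z) CG) := by
      intro w hw
      rw [mem_closedBall, dist_eq_norm, hGz, sub_zero]
      exact hGb w hw
    have hex : e x ∈ ball z (3 * δ / 2) := by
      rw [mem_ball, dist_eq_norm] at hj ⊢
      calc ‖e x - z‖ = ‖(e x - B.g j q) - (z - B.g j q)‖ := by congr 1; ring
        _ ≤ ‖e x - B.g j q‖ + ‖z - B.g j q‖ := norm_sub_le _ _
        _ < 3 * δ / 2 := by linarith
    have h6 := Complex.dist_le_div_mul_dist_of_mapsTo_ball hGd hmaps hex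
    rw [dist_eq_norm, dist_eq_norm, hGz, sub_zero] at h6
    have hxz : e x - z ≠ 0 := sub_ne_zero.2 (hx j)
    have hinv : phi z = l := B.inv j l (ball_subset_ball hsR hl)
    have hds : dslope phi z (e x) = (phi (e x) - l) / (e x - z) := by
      rw [dslope_of_ne _ (hx j), slope_def_field, hinv]
    have hsplit : ∏ i, (e x - B.g i l) =
        (e x - z) * ∏ i ∈ Finset.univ.erase j, (e x - B.g i l) := by
      rw [← Finset.mul_prod_erase Finset.univ _ (Finset.mem_univ j)]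
    have hps2 : B.ps l x = dslope phi z (e x) / ∏ i ∈ Finset.univ.erase j, (e x - B.g i l) := by
      unfold Br.ps
      rw [hsplit, hds, div_div]
    have hGe : (e x) ^ n * B.ps l x * Q (e x) - 1 = G (e x) := by
      rw [hps2]
      change _ = (e x) ^ n * dslope phi z (e x) /
        (∏ i ∈ Finset.univ.erase j, (e x - B.g i l)) * Q (e x) - 1
      rw [mul_div_assoc]
    rw [hGe, hsplit, norm_div, norm_mul]
    have h7 : δ ^ B.k ≤ ‖∏ i ∈ Finset.univ.erase j, (e x - B.g i l)‖ :=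
      prod_ge _ _ hδ (by linarith) (hcard _) fun i hi =>
        hsepw j _ (hsub hex) i (Finset.ne_of_mem_erase hi)
    have h8 : 0 < ‖e x - z‖ := norm_pos_iff.2 hxz
    have h9 : 0 < δ ^ B.k := by positivity
    rw [← div_div]
    have h10 : ‖G (e x)‖ / ‖e x - z‖ ≤ CG / (3 * δ / 2) := by
      rw [div_le_iff₀ h8]
      exact h6
    gcongr
  · push Not at hcase
    refine le_trans ?_ (le_max_left _ _)
    have h1 : (δ / 2) ^ B.k ≤ ‖∏ i, (e x - B.g i l)‖ := by
      refine prod_ge _ _ (by positivity) (by linarith) (hcard _) fun i _ => ?_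
      have h2 := hcase i
      rw [mem_ball, not_lt, dist_eq_norm] at h2
      have h3 := hnear i l hl
      have h4 : ‖e x - B.g i q‖ ≤ ‖e x - B.g i l‖ + ‖B.g i l - B.g i q‖ := by
        calc ‖e x - B.g i q‖ = ‖(e x - B.g i l) + (B.g i l - B.g i q)‖ := by congr 1; ring
          _ ≤ _ := norm_add_le _ _
      linarith
    have h5 : 0 < (δ / 2) ^ B.k := by positivity
    have h6 : ‖(e x) ^ n * B.ps l x * Q (e x) - 1‖ ≤ C0 * CQ + 1 := by
      refine (norm_sub_le _ _).trans ?_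
      rw [norm_one, norm_mul, norm_mul, norm_zpow, PsiAux.norm_e', one_zpow, one_mul]
      have h7 := (hQ (e x) (by rw [PsiAux.norm_e']; norm_num)
        (by rw [PsiAux.norm_e']; norm_num)).1
      gcongr
    rw [norm_div]
    gcongr

theorem pl_apply (k : ℕ) (a : ℕ → ℂ) (x : UnitAddCircle) :
    (pl k a : CT) x = ∑ i ∈ Finset.range k, a i * e x ^ i := by
  unfold pl
  rw [ContinuousMap.sum_apply]
  refine Finset.sum_congr rfl fun i _ => ?_
  rw [ContinuousMap.smul_apply, smul_eq_mul, PsiAux.four_e, zpow_natCast]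

theorem mi_apply (k : ℕ) (a : ℕ → ℂ) (x : UnitAddCircle) :
    (mi k a : CT) x = ∑ i ∈ Finset.range k, a i * (e x)⁻¹ ^ i := by
  unfold mi
  rw [ContinuousMap.sum_apply]
  refine Finset.sum_congr rfl fun i _ => ?_
  rw [ContinuousMap.smul_apply, smul_eq_mul, PsiAux.four_e, zpow_neg, zpow_natCast, inv_pow]

theorem pz_apply {phi : ℂ → ℂ} {q : ℂ} (B : Br phi q) (l : ℂ) (x : UnitAddCircle) :
    (B.pz l : CT) x = ∏ j, (e x - B.g j l) := by
  unfold Br.pz
  rw [ContinuousMap.prod_apply]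
  refine Finset.prod_congr rfl fun j _ => ?_
  rw [ContinuousMap.sub_apply, PsiAux.four_e, zpow_one]
  rfl

end ItpAux

open ItpAux

theorem exists_itp {phi : ℂ → ℂ} (hb : MemLp (fun x : UnitAddCircle => phi (e x)) ∞ mu0) {q : ℂ}
    (B : Br phi q) (n : ℤ) (C0 : ℝ) : ∃ C s : ℝ, 0 < C ∧ 0 < s ∧ s ≤ B.R ∧ ∀ l ∈ ball q s,
      (∀ᵐ x ∂mu0, ‖B.ps l x‖ ≤ C0) → ∃ a1 a2 : ℕ → ℂ, (∀ i, ‖a1 i‖ ≤ C ∧ ‖a2 i‖ ≤ C) ∧
      ∀ᵐ x ∂mu0,
        ‖((e x) ^ n * B.ps l x * pl B.k a1 x - 1) / ∏ j, (e x - B.g j l)‖ ≤ C ∧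
        ‖((e x) ^ n * B.ps l x * mi B.k a2 x - 1) / ∏ j, (e x - B.g j l)‖ ≤ C := by
  classical
  obtain ⟨δ, c, C, s, hδ, hδ4, hc, hC, hs, hsR, hsep, hnear, -, hdd, -⟩ := dd_loc B
  set U : ℝ := 2 ^ n.natAbs * 3 ^ B.k / c with hU
  have hU0 : 0 ≤ U := by positivity
  obtain ⟨C1, hC1, hlag⟩ := lag B.k hδ (by linarith) hU0
  obtain ⟨C2, hC2, hloc⟩ := local_bd B n (max C0 0) C1 hδ hδ4 hC hsR hsep hnear hdd
    (le_max_right _ _) hC1
  refine ⟨C1 + C2 + 1, s, by positivity, hs, hsR, fun l hl hps => ?_⟩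
  have hcard : ∀ t : Finset (Fin B.k), t.card ≤ B.k := fun t =>
    (Finset.card_le_univ t).trans (by rw [Fintype.card_fin])
  -- the points
  have hz : ∀ j, ‖B.g j l‖ ≤ 9 / 8 ∧ 7 / 8 ≤ ‖B.g j l‖ := by
    intro j
    have h1 := hnear j l hl
    have h2 := B.norm_q j
    have h3 : ‖B.g j l‖ ≤ ‖B.g j q‖ + ‖B.g j l - B.g j q‖ := by
      calc ‖B.g j l‖ = ‖B.g j q + (B.g j l - B.g j q)‖ := by congr 1; ring
        _ ≤ _ := norm_add_le _ _
    have h4 : ‖B.g j q‖ ≤ ‖B.g j l‖ + ‖B.g j l - B.g j q‖ := by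
      calc ‖B.g j q‖ = ‖B.g j l - (B.g j l - B.g j q)‖ := by congr 1; ring
        _ ≤ _ := norm_sub_le _ _
    exact ⟨by linarith, by linarith⟩
  have hz0 : ∀ j, B.g j l ≠ 0 := by
    intro j h
    have := (hz j).2
    rw [h, norm_zero] at this
    linarith
  have hzz : ∀ i j, i ≠ j → 3 * δ ≤ ‖B.g i l - B.g j l‖ := by
    intro i j hij
    have h1 := hsep i j hij
    have h2 := hnear i l hl
    have h3 := hnear j l hl
    have h4 : ‖B.g i q - B.g j q‖ ≤ ‖B.g i l - B.g j l‖ + ‖B.g i l - B.g i q‖ +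
        ‖B.g j l - B.g j q‖ := by
      calc ‖B.g i q - B.g j q‖ = ‖(B.g i l - B.g j l) - (B.g i l - B.g i q) +
            (B.g j l - B.g j q)‖ := by congr 1; ring
        _ ≤ ‖B.g i l - B.g j l‖ + ‖B.g i l - B.g i q‖ + ‖B.g j l - B.g j q‖ :=
            (norm_add_le _ _).trans (add_le_add_left (norm_sub_le _ _) _)
    linarith
  have hzb : ∀ j, B.g j l ∈ ball (B.g j q) (2 * δ) := by
    intro j
    rw [mem_ball, dist_eq_norm]
    have := hnear j l hl
    linarith
  -- the values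
  set th : Fin B.k → ℂ := fun j => (B.g j l) ^ n * dslope phi (B.g j l) (B.g j l) /
        (∏ i ∈ Finset.univ.erase j, (B.g j l - B.g i l)) with hth
  have hd0 : ∀ j, c ≤ ‖dslope phi (B.g j l) (B.g j l)‖ := fun j =>
    ((hdd j l hl).2 _ (hzb j)).1
  have hpr0 : ∀ j, (∏ i ∈ Finset.univ.erase j, (B.g j l - B.g i l)) ≠ 0 := by
    intro j
    rw [Finset.prod_ne_zero_iff]
    intro i hi
    exact norm_pos_iff.1 ((by positivity : 0 < 3 * δ).trans_le
      (hzz j i (Finset.ne_of_mem_erase hi).symm))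
  have hth0 : ∀ j, th j ≠ 0 := by
    intro j
    refine div_ne_zero (mul_ne_zero (zpow_ne_zero n (hz0 j)) ?_) (hpr0 j)
    exact norm_pos_iff.1 (hc.trans_le (hd0 j))
  have hthn : ∀ j, ‖(th j)⁻¹‖ ≤ U := by
    intro j
    have e1 : (th j)⁻¹ = (B.g j l) ^ (-n) * (∏ i ∈ Finset.univ.erase j, (B.g j l - B.g i l)) /
        dslope phi (B.g j l) (B.g j l) := by
      rw [hth, zpow_neg]
      change ((B.g j l) ^ n * dslope phi (B.g j l) (B.g j l) /
        (∏ i ∈ Finset.univ.erase j, (B.g j l - B.g i l)))⁻¹ = _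
      rw [inv_div]
      rw [div_eq_mul_inv, mul_inv, div_eq_mul_inv]
      ring
    rw [e1, norm_div, norm_mul, hU]
    have h1 := zpow_bd (w := B.g j l) (by linarith [(hz j).2]) (by linarith [(hz j).1]) (-n)
    rw [Int.natAbs_neg] at h1
    have h2 : ‖∏ i ∈ Finset.univ.erase j, (B.g j l - B.g i l)‖ ≤ 3 ^ B.k := by
      refine prod_le _ _ (by norm_num) (hcard _) fun i _ => ?_
      have h3 := norm_sub_le (B.g j l) (B.g i l)
      linarith [(hz j).1, (hz i).1]
    have h3 := hd0 j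
    gcongr
  -- the two polynomials
  obtain ⟨a1, ha1, hv1, hb1⟩ := hlag (fun j => B.g j l) (fun j => (th j)⁻¹)
    (fun i => by linarith [(hz i).1]) (fun i j hij => by linarith [hzz i j hij]) hthn
  obtain ⟨a2, ha2, hv2, hb2⟩ := hlag (fun j => (B.g j l)⁻¹) (fun j => (th j)⁻¹)
    (fun i => by
      rw [norm_inv, inv_le_comm₀ (norm_pos_iff.2 (hz0 i)) (by norm_num)]
      linarith [(hz i).2])
    (fun i j hij => by
      have e1 : (B.g i l)⁻¹ - (B.g j l)⁻¹ = -(B.g i l - B.g j l) / (B.g i l * B.g j l) := by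
        have := hz0 i
        have := hz0 j
        field_simp
        ring
      rw [e1, norm_div, norm_neg, norm_mul, le_div_iff₀ (mul_pos (norm_pos_iff.2 (hz0 i))
        (norm_pos_iff.2 (hz0 j)))]
      have h1 : ‖B.g i l‖ * ‖B.g j l‖ ≤ 2 := by
        have := mul_le_mul (hz i).1 (hz j).1 (norm_nonneg _) (by norm_num)
        linarith
      have h2 := hzz i j hij
      nlinarith) hthn
  refine ⟨a1, a2, fun i => ⟨(ha1 i).trans (by linarith), (ha2 i).trans (by linarith)⟩, ?_⟩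
  have r1 := hloc l hl (fun w => ∑ i ∈ Finset.range B.k, a1 i * w ^ i)
    (fun w _ hw2 => ⟨hb1 w hw2, by fun_prop⟩) (fun j => by
      change th j * (∑ i ∈ Finset.range B.k, a1 i * (B.g j l) ^ i) = 1
      rw [hv1 j]
      exact mul_inv_cancel₀ (hth0 j))
  have r2 := hloc l hl (fun w => ∑ i ∈ Finset.range B.k, a2 i * w⁻¹ ^ i)
    (fun w hw1 _ => by
      have hw0 : w ≠ 0 := by
        rintro rfl
        rw [norm_zero] at hw1
        linarith
      refine ⟨hb2 w⁻¹ (by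
        rw [norm_inv, inv_le_comm₀ (norm_pos_iff.2 hw0) (by norm_num)]
        linarith), ?_⟩
      have d1 : DifferentiableAt ℂ (fun w : ℂ => w⁻¹) w := differentiableAt_inv hw0
      fun_prop) (fun j => by
      change th j * (∑ i ∈ Finset.range B.k, a2 i * (B.g j l)⁻¹ ^ i) = 1
      rw [hv2 j]
      exact mul_inv_cancel₀ (hth0 j))
  filter_upwards [hps, ae_ne B l] with x hx hx'
  have h1 := r1 x hx' (hx.trans (le_max_left _ _))
  have h2 := r2 x hx' (hx.trans (le_max_left _ _))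
  rw [pl_apply, mi_apply]
  exact ⟨h1.trans (by linarith), h2.trans (by linarith)⟩

theorem facL {phi : ℂ → ℂ} (hb : MemLp (fun x : UnitAddCircle => phi (e x)) ∞ mu0) {q : ℂ}
    (B : Br phi q) {n : ℤ} (hu : IsUnit (TM (B.Th n q))) :
    FacL (mf fun x => phi (e x)) B (-n) := by
  obtain ⟨C0, s0, hC0, hs0, hs0R, H⟩ := exists_Th hb B hu
  obtain ⟨C1, s1, hC1, hs1, hs1R, H1⟩ := exists_itp hb B n C0
  refine ⟨max C0 C1, min s0 s1, lt_max_of_lt_left hC0, lt_min hs0 hs1, fun l hl => ?_⟩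
  obtain ⟨m1, m2, hps, n1, u1, n2, u2, n3, hfac⟩ :=
    H l (ball_subset_ball (min_le_left _ _) hl)
  obtain ⟨a1, a2, ha, hk⟩ := H1 l (ball_subset_ball (min_le_right _ _) hl) hps
  have hgen : ∀ p : CT, (∀ᵐ x ∂mu0,
      ‖((e x) ^ n * B.ps l x * p x - 1) / ∏ j, (e x - B.g j l)‖ ≤ C1) →
      ‖mf (fun x => ((e x) ^ n * B.ps l x * p x - 1) / ∏ j, (e x - B.g j l))‖ ≤ C1 ∧
      B.Th n l * mul p - 1 =
        mf (fun x => ((e x) ^ n * B.ps l x * p x - 1) / ∏ j, (e x - B.g j l)) * mul (B.pz l) := by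
    intro p hp
    refine ⟨norm_mf_le hC1.le hp, ?_⟩
    have hpm : MemLp (fun x => p x) ∞ mu0 := memLp_ct p
    have m3 : MemLp (fun x => (e x) ^ n * B.ps l x * p x) ∞ mu0 := memLp_mul m2 hpm
    have m4 : MemLp (fun _ : UnitAddCircle => (1 : ℂ)) ∞ mu0 := memLp_const 1
    have m5 : MemLp (fun x => (e x) ^ n * B.ps l x * p x - 1) ∞ mu0 := m3.sub m4
    have hcont : Continuous fun x : UnitAddCircle => ∏ j, (e x - B.g j l) := by
      have := PsiAux.cont_e
      fun_prop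
    have m6 : MemLp (fun x => ((e x) ^ n * B.ps l x * p x - 1) / ∏ j, (e x - B.g j l)) ∞ mu0 :=
      memLp_top_of_bound ((m5.1.aemeasurable.div
        hcont.measurable.aemeasurable).aestronglyMeasurable) C1 hp
    have m7 : MemLp (fun x => (B.pz l : CT) x) ∞ mu0 := memLp_ct _
    have e1 : (1 : Op2) = mf (fun _ => (1 : ℂ)) := by
      rw [mf_const, map_one]
    unfold Br.Th
    rw [← mf_ct p, ← mf_ct (B.pz l), ← mf_mul m2 hpm, ← mf_mul m6 m7, e1, ← mf_sub m3 m4]
    refine mf_congr ?_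
    filter_upwards [ae_ne B l] with x hx
    have hprod : ∏ j, (e x - B.g j l) ≠ 0 := by
      rw [Finset.prod_ne_zero_iff]
      exact fun j _ => sub_ne_zero.2 (hx j)
    rw [pz_apply, div_mul_cancel₀ _ hprod]
  obtain ⟨k1, k2⟩ := hgen (pl B.k a1) (hk.mono fun x hx => hx.1)
  obtain ⟨k3, k4⟩ := hgen (mi B.k a2) (hk.mono fun x hx => hx.2)
  exact ⟨B.Th n l, _, _, a1, a2, Cm.mf _, Cm.mf _, Cm.mf _, n1.trans (le_max_left _ _),
    k1.trans (le_max_right _ _), k3.trans (le_max_right _ _),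
    fun i => ⟨(ha i).1.trans (le_max_right _ _), (ha i).2.trans (le_max_right _ _)⟩, u1,
    n2.trans (le_max_left _ _), u2, n3.trans (le_max_left _ _), hfac, k2, k4⟩

end Pool.Agent.TBirC
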