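import Pool.Agent.TBirC.Lin

/-!
# The statements in terms of operators on the Hardy space

Paper proofs. As TBir/Stmt.lean (`isToeplitz_incl`, `isToeplitz_unique`, `exists_incl`, `bir_iff_rel`) with `TM (mf a)` in
place of `T Phi`: the Fourier coefficients of index `≥ 0` of `a * f` are those of `TM (mf a) f = proj (mf a f)`, by `mf_coe`.
`bij_iff`: a bijective bounded operator is invertible (`ContinuousLinearEquiv.ofBijective`).
`spec_eq`: `Spec phi` with `bij_iff` for the symbol `phi - l`, `mf (phi - l) = mf phi - algebraMap l`,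
`TM_sub`, `TM_algebraMap`, and the spectrum is defined with `algebraMap l - A` (`IsUnit.neg`).
-/

set_option autoImplicit false

open MeasureTheory Complex Set Filter Topology Metric AddCircle
open scoped ComplexConjugate InnerProductSpace ENNReal

namespace Pool.Agent.TBirC

open Pool.Agent.TBir

theorem isToeplitz_TM {phi : ℂ → ℂ} (hb : MemLp (fun x : UnitAddCircle => phi (e x)) ∞ mu0)
    (f : Hardy) : IsToeplitz phi (incl f) (incl (TM (mf fun x => phi (e x)) f)) := by
  refine ⟨incl_mem f, incl_mem _, fun n hn => ?_⟩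
  obtain ⟨k, rfl⟩ := Int.eq_ofNat_of_zero_le hn
  have h1 : TM (mf fun x => phi (e x)) f = proj (mf (fun x => phi (e x)) (incl f)) := rfl
  rw [h1, TpB_coeff_proj]
  exact congrFun (fourierCoeff_congr_ae (mf_coe hb (incl f))) k

theorem exists_unique_TM {phi : ℂ → ℂ}
    (hb : MemLp (fun x : UnitAddCircle => phi (e x)) ∞ mu0) :
    ∀ f ∈ H2, ∃! g, IsToeplitz phi f g := by
  intro f hf
  obtain ⟨f', rfl⟩ := exists_incl hf
  exact ⟨_, isToeplitz_TM hb f', fun g hg => isToeplitz_unique hg (isToeplitz_TM hb f')⟩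

theorem bij_iff {phi : ℂ → ℂ} (hb : MemLp (fun x : UnitAddCircle => phi (e x)) ∞ mu0) :
    (∀ g ∈ H2, ∃! f, IsToeplitz phi f g) ↔ IsUnit (TM (mf fun x => phi (e x))) := by
  rw [ContinuousLinearMap.isUnit_iff_bijective]
  constructor
  · intro h
    refine ⟨fun f f' hff => ?_, fun g => ?_⟩
    · obtain ⟨u, _, hu⟩ := h _ (incl_mem (TM (mf fun x => phi (e x)) f))
      have h1 := hu _ (isToeplitz_TM hb f)
      have h2 := hu (incl f') (by rw [hff]; exact isToeplitz_TM hb f')
      exact incl_inj (h1.trans h2.symm)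
    · obtain ⟨u, hu, _⟩ := h _ (incl_mem g)
      obtain ⟨f, rfl⟩ := exists_incl hu.1
      exact ⟨f, incl_inj (isToeplitz_unique (isToeplitz_TM hb f) hu)⟩
  · rintro ⟨hinj, hsurj⟩ g hg
    obtain ⟨g', rfl⟩ := exists_incl hg
    obtain ⟨f, rfl⟩ := hsurj g'
    refine ⟨incl f, isToeplitz_TM hb f, fun u hu => ?_⟩
    obtain ⟨f', rfl⟩ := exists_incl hu.1
    rw [hinj (incl_inj (isToeplitz_unique (isToeplitz_TM hb f') hu))]

theorem spec_eq {phi : ℂ → ℂ} (hb : MemLp (fun x : UnitAddCircle => phi (e x)) ∞ mu0) :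
    Spec phi = spectrum ℂ (TM (mf fun x => phi (e x))) := by
  ext l
  have hc : MemLp (fun _ : UnitAddCircle => l) ∞ mu0 := memLp_const l
  have h1 : MemLp (fun x : UnitAddCircle => phi (e x) - l) ∞ mu0 := hb.sub hc
  have h2 := bij_iff (phi := fun w => phi w - l) h1
  have h3 : TM (mf fun x => phi (e x) - l) =
      -(algebraMap ℂ Op l - TM (mf fun x => phi (e x))) := by
    rw [mf_sub hb hc, mf_const, TM_sub, TM_algebraMap, neg_sub]
  rw [spectrum.mem_iff]
  change ¬ (∀ g ∈ H2, ∃! f, IsToeplitz (fun w => phi w - l) f g) ↔ _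
  rw [h2, h3, IsUnit.neg_iff]

theorem bir_iff_TM {phi : ℂ → ℂ} (hb : MemLp (fun x : UnitAddCircle => phi (e x)) ∞ mu0) :
    BIR H2 (IsToeplitz phi) ↔ CompletelyIrreducible (TM (mf fun x => phi (e x))) := by
  have hA : ∀ f : Hardy, IsToeplitz phi (incl f) (incl (TM (mf fun x => phi (e x)) f)) :=
    isToeplitz_TM hb
  have hker : LinearMap.ker (incl : Hardy →ₗ[ℂ] L2) = ⊥ :=
    LinearMap.ker_eq_bot.2 fun _ _ h => incl_inj h
  constructor
  · intro h M N hM hN hTM hTN h1 h2
    have key := h (M.map (incl : Hardy →ₗ[ℂ] L2)) (N.map (incl : Hardy →ₗ[ℂ] L2)) ?_ ?_ ?_ ?_ ?_ ?_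
      ?_ ?_
    · rcases key with key | key
      · left
        rw [eq_bot_iff]
        intro f hf
        have h3 : incl f ∈ M.map (incl : Hardy →ₗ[ℂ] L2) := ⟨f, hf, rfl⟩
        rw [key, Submodule.mem_bot] at h3
        exact incl_inj (h3.trans (map_zero incl).symm)
      · right
        rw [eq_bot_iff]
        intro f hf
        have h3 : incl f ∈ N.map (incl : Hardy →ₗ[ℂ] L2) := ⟨f, hf, rfl⟩
        rw [key, Submodule.mem_bot] at h3
        exact incl_inj (h3.trans (map_zero incl).symm)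
    · rintro _ ⟨f, _, rfl⟩; exact incl_mem f
    · rintro _ ⟨f, _, rfl⟩; exact incl_mem f
    · rw [Submodule.map_coe]
      exact isClosedEmbedding_incl.isClosedMap _ hM
    · rw [Submodule.map_coe]
      exact isClosedEmbedding_incl.isClosedMap _ hN
    · rintro _ g ⟨f, hf, rfl⟩ hg
      exact ⟨_, hTM f hf, (isToeplitz_unique hg (hA f)).symm⟩
    · rintro _ g ⟨f, hf, rfl⟩ hg
      exact ⟨_, hTN f hf, (isToeplitz_unique hg (hA f)).symm⟩
    · rw [eq_bot_iff]
      rintro _ ⟨⟨f, hf, rfl⟩, ⟨g, hg, hgf⟩⟩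
      have hfg : g = f := incl_inj hgf
      subst hfg
      have : g ∈ M ⊓ N := ⟨hf, hg⟩
      rw [h1, Submodule.mem_bot] at this
      rw [this, map_zero]
      exact Submodule.zero_mem _
    · rw [← Submodule.map_sup, h2]
      ext f
      constructor
      · rintro ⟨g, _, rfl⟩; exact incl_mem g
      · intro hf
        obtain ⟨f', rfl⟩ := exists_incl hf
        exact ⟨f', trivial, rfl⟩
  · intro h M N hMH hNH hM hN hTM hTN h1 h2
    have key := h (M.comap (incl : Hardy →ₗ[ℂ] L2)) (N.comap (incl : Hardy →ₗ[ℂ] L2)) ?_ ?_ ?_ ?_ ?_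
      ?_
    · rcases key with key | key
      · left
        rw [eq_bot_iff]
        intro f hf
        obtain ⟨f', rfl⟩ := exists_incl (hMH hf)
        have h3 : f' ∈ M.comap (incl : Hardy →ₗ[ℂ] L2) := hf
        rw [key, Submodule.mem_bot] at h3
        rw [h3, map_zero]
        exact Submodule.zero_mem _
      · right
        rw [eq_bot_iff]
        intro f hf
        obtain ⟨f', rfl⟩ := exists_incl (hNH hf)
        have h3 : f' ∈ N.comap (incl : Hardy →ₗ[ℂ] L2) := hf
        rw [key, Submodule.mem_bot] at h3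
        rw [h3, map_zero]
        exact Submodule.zero_mem _
    · exact hM.preimage incl.continuous
    · exact hN.preimage incl.continuous
    · intro f hf
      exact hTM _ _ hf (hA f)
    · intro f hf
      exact hTN _ _ hf (hA f)
    · rw [← Submodule.comap_inf, h1]
      exact hker
    · rw [eq_top_iff]
      intro x _
      have hx : incl x ∈ M ⊔ N := by rw [h2]; exact incl_mem x
      obtain ⟨m, hm, n, hn, hmn⟩ := Submodule.mem_sup.1 hx
      obtain ⟨m', rfl⟩ := exists_incl (hMH hm)
      obtain ⟨n', rfl⟩ := exists_incl (hNH hn)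
      have hx' : x = m' + n' := incl_inj (by rw [map_add, hmn])
      rw [hx']
      exact Submodule.add_mem_sup hm hn

end Pool.Agent.TBirC
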