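import Pool.Agent.TBirC.Stm
import Pool.Agent.TBir.WHm
import Pool.Agent.TBir.Idx
import Pool.Agent.TBir.Lau

/-!
# Continuous symbols

Paper proof. (1) Let `psi : CT` have no zero. There is an integer `n` with `T (fourier n * psi)` invertible: `c = min ‖psi‖ > 0`;
by Fejer or Stone-Weierstrass (`span_fourier_closure_eq_top`) there is a trigonometric polynomial `p` with `‖psi - p‖ < c / 3`; `p` is the
restriction of a function analytic and without zeros on an annulus around the circle, so it has a Wiener-Hopf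
factorisation (`exists_hasWH` or `hasWH`, TBir/WHm): `p = fourier m * (vm * vp)` with `vm`, `vp` invertible in `Minus`, `Plus`.
`psi = p * (1 + ep)`, `‖ep‖ ≤ 1 / 2` (`‖p‖ ≥ 2 c / 3`), `fourier (-m) * psi = vm * (1 + ep) * vp`,
`T` of it is `T vm * T (1 + ep) * T vp` (`T_mul_left`, `T_mul_right`), all three invertible.
(2) Let `phi` be continuous on the circle and analytic with nonzero derivative at the points of `Z = {z | ‖z‖ = 1, phi z = q}`. The points of
`Z` are isolated (nonzero derivative), `Z` is closed in the compact circle, so `Z` is finite: `t : Fin k → ℂ` injective with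
range `Z`. The function `(phi z - q) / prod (z - t j)` on the circle without `Z` extends continuously to `Z` with the nonzero values
`deriv phi (t j) / prod (i ≠ j) (t j - t i)`. Let `psi : CT` be the extension, it has no zero. Apply (1). The symbol in `Reg1` and
`fourier n * psi` agree off a finite set, so `mf` of it is `mul (fourier n * psi)` (`mf_congr`, `mf_ct`), use `bij_iff` (the symbol is
essentially bounded because it is almost everywhere equal to a continuous function).
-/

set_option autoImplicit false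

open MeasureTheory Complex Set Filter Topology Metric AddCircle
open scoped ComplexConjugate InnerProductSpace ENNReal

namespace Pool.Agent.TBirC

open Pool.Agent.TBir

theorem wi_fourier_e (n : ℤ) (x : UnitAddCircle) : (fourier n : CT) x = e x ^ n := by
  rw [fourier_apply, toCircle_zsmul]
  push_cast
  rfl

theorem wi_e_ne (x : UnitAddCircle) : e x ≠ 0 := by
  intro h
  have := norm_e x
  rw [h, norm_zero] at this
  exact zero_ne_one this

theorem wi_exists_e {z : ℂ} (hz : z ∈ sphere (0 : ℂ) 1) : ∃ x : UnitAddCircle, e x = z := by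
  obtain ⟨x, hx⟩ := (homeomorphCircle (T := (1 : ℝ)) one_ne_zero).surjective
    ⟨z, by simpa [Submonoid.unitSphere] using hz⟩
  refine ⟨x, ?_⟩
  rw [homeomorphCircle_apply] at hx
  unfold e
  rw [hx]

theorem wi_e_inj {x y : UnitAddCircle} (h : e x = e y) : x = y :=
  injective_toCircle one_ne_zero (Subtype.ext h)

theorem wi_e_cont : Continuous e := by
  unfold e
  exact continuous_subtype_val.comp continuous_toCircle

/-- A trigonometric polynomial is the restriction of a function analytic near the circle. -/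
theorem wi_span {p : CT} (hp : p ∈ Submodule.span ℂ (range fun n : ℤ => (fourier n : CT))) :
    ∃ P : ℂ → ℂ, AnalyticOnNhd ℂ P (sphere 0 1) ∧ ∀ x, p x = P (e x) := by
  induction hp using Submodule.span_induction with
  | mem p hp =>
    obtain ⟨n, rfl⟩ := hp
    refine ⟨fun z => z ^ n, fun z hz => ?_, fun x => wi_fourier_e n x⟩
    have hz0 : z ≠ 0 := by
      rintro rfl
      simp at hz
    exact analyticAt_id.zpow hz0
  | zero => exact ⟨fun _ => 0, fun z _ => analyticAt_const, fun x => rfl⟩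
  | add p q _ _ hp hq =>
    obtain ⟨P, h1, h2⟩ := hp
    obtain ⟨Q, h3, h4⟩ := hq
    exact ⟨fun z => P z + Q z, fun z hz => (h1 z hz).add (h3 z hz), fun x => by
      rw [ContinuousMap.add_apply, h2, h4]⟩
  | smul c p _ hp =>
    obtain ⟨P, h1, h2⟩ := hp
    exact ⟨fun z => c * P z, fun z hz => analyticAt_const.mul (h1 z hz), fun x => by
      rw [ContinuousMap.smul_apply, h2, smul_eq_mul]⟩

theorem exists_isUnit_T {psi : CT} (h : ∀ x, psi x ≠ 0) : ∃ n : ℤ, IsUnit (T (fourier n * psi)) := by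
  obtain ⟨x0, -, hx0⟩ := isCompact_univ.exists_isMinOn (univ_nonempty (α := UnitAddCircle))
    (f := fun x => ‖psi x‖) (by fun_prop)
  set c : ℝ := ‖psi x0‖ with hc
  have hc0 : 0 < c := norm_pos_iff.2 (h x0)
  have hcx : ∀ x, c ≤ ‖psi x‖ := fun x => hx0 (mem_univ x)
  have hcl : psi ∈ closure ((Submodule.span ℂ (range fun n : ℤ => (fourier n : CT)) :
      Submodule ℂ CT) : Set CT) := by
    rw [← Submodule.topologicalClosure_coe, span_fourier_closure_eq_top]
    exact mem_univ psi
  obtain ⟨p, hp, hdist⟩ := Metric.mem_closure_iff.1 hcl (c / 3) (by positivity)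
  rw [dist_eq_norm] at hdist
  have hpx : ∀ x, ‖psi x - p x‖ ≤ c / 3 := fun x =>
    ((psi - p).norm_coe_le_norm x).trans hdist.le
  have hplb : ∀ x, 2 * c / 3 ≤ ‖p x‖ := fun x => by
    have h1 := hpx x
    have h2 := hcx x
    have h3 : ‖psi x‖ ≤ ‖psi x - p x‖ + ‖p x‖ := by
      simpa using norm_add_le (psi x - p x) (p x)
    linarith
  have hp0 : ∀ x, p x ≠ 0 := fun x => norm_pos_iff.1 (lt_of_lt_of_le (by positivity) (hplb x))
  obtain ⟨P, hP, hPe⟩ := wi_span hp
  have hP0 : ∀ z ∈ sphere (0 : ℂ) 1, P z ≠ 0 := by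
    intro z hz
    obtain ⟨x, rfl⟩ := wi_exists_e hz
    rw [← hPe]
    exact hp0 x
  obtain ⟨n, hn⟩ := wind_int hP hP0
  obtain ⟨C, eta, hC, heta, bp, bm, cp, cm, hbp, hbm, hcp, hcm, h1, h2, h3⟩ :=
    exists_hasWH hP hP0 hPe hn
  have sbp := summable_of_dec heta hbp
  have sbm := summable_of_dec heta hbm
  have scp := summable_of_dec heta hcp
  have scm := summable_of_dec heta hcm
  have e1 : T (plusS bp) * T (plusS cp) = 1 := by
    rw [← T_mul_right _ (plus_plusS scp), h1, T_one]
  have e1' : T (plusS cp) * T (plusS bp) = 1 := by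
    rw [← T_mul_right _ (plus_plusS sbp), mul_comm, h1, T_one]
  have e2 : T (minusS bm) * T (minusS cm) = 1 := by
    rw [← T_mul_left (minus_minusS sbm), h2, T_one]
  have e2' : T (minusS cm) * T (minusS bm) = 1 := by
    rw [← T_mul_left (minus_minusS scm), mul_comm, h2, T_one]
  let ep : CT := ⟨fun x => (psi x - p x) / p x, by
    exact (psi.continuous.sub p.continuous).div p.continuous hp0⟩
  have hepx : ∀ x, ep x = (psi x - p x) / p x := fun x => rfl
  have hep : ‖ep‖ ≤ 1 / 2 := by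
    rw [ContinuousMap.norm_le _ (by norm_num)]
    intro x
    rw [hepx, norm_div, div_le_iff₀ (norm_pos_iff.2 (hp0 x))]
    have h4 := hpx x
    have h5 := hplb x
    linarith
  have hpsi : psi = p * (1 + ep) := by
    ext x
    rw [ContinuousMap.mul_apply, ContinuousMap.add_apply, ContinuousMap.one_apply, hepx]
    field_simp [hp0 x]
    ring
  have u3 : IsUnit (T (1 + ep)) := by
    have h4 : T (1 + ep) = 1 - (-T ep) := by rw [T_add, T_one, sub_neg_eq_add]
    rw [h4]
    apply isUnit_one_sub_of_norm_lt_one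
    rw [norm_neg]
    exact ((norm_T_le ep).trans hep).trans_lt (by norm_num)
  have u1 : IsUnit (T (plusS cp)) := ⟨⟨T (plusS cp), T (plusS bp), e1', e1⟩, rfl⟩
  have u2 : IsUnit (T (minusS cm)) := ⟨⟨T (minusS cm), T (minusS bm), e2', e2⟩, rfl⟩
  refine ⟨-n, ?_⟩
  have h5 : fourier (-n) * psi = minusS cm * ((1 + ep) * plusS cp) := by
    have h6 : (fourier (-n) : CT) * fourier n = 1 := by
      rw [idx_fourier_mul, neg_add_cancel, idx_fourier_zero]
    rw [hpsi, h3]
    calc (fourier (-n) : CT) * (fourier n * (minusS cm * plusS cp) * (1 + ep))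
        = (fourier (-n) * fourier n) * (minusS cm * ((1 + ep) * plusS cp)) := by ring
      _ = _ := by rw [h6, one_mul]
  rw [h5, T_mul_left (minus_minusS scm), T_mul_right _ (plus_plusS scp)]
  exact u2.mul (u3.mul u1)

/-- Finite sets are null sets. -/
theorem wi_null {s : Set UnitAddCircle} (hs : s.Finite) : mu0 s = 0 := by
  have h1 : Nontrivial UnitAddCircle := by
    obtain ⟨x, hx⟩ := wi_exists_e (z := 1) (by simp)
    obtain ⟨y, hy⟩ := wi_exists_e (z := -1) (by simp)
    refine ⟨⟨x, y, fun h => ?_⟩⟩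
    rw [h, hy] at hx
    norm_num at hx
  have h2 : NullSingletonClass mu0 := inferInstance
  exact hs.measure_zero _

theorem wi_finite {phi : ℂ → ℂ} {q : ℂ} (h : Reg2 phi q) :
    {z : ℂ | z ∈ sphere (0 : ℂ) 1 ∧ phi z = q}.Finite := by
  by_contra hinf
  have hcl : IsClosed {z : ℂ | z ∈ sphere (0 : ℂ) 1 ∧ phi z = q} :=
    h.1.preimage_isClosed_of_isClosed isClosed_sphere isClosed_singleton
  have hcp : IsCompact {z : ℂ | z ∈ sphere (0 : ℂ) 1 ∧ phi z = q} :=
    (isCompact_sphere (0 : ℂ) 1).of_isClosed_subset hcl fun z hz => hz.1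
  obtain ⟨x, hx, hacc⟩ := Set.Infinite.exists_accPt_of_subset_isCompact hinf hcp subset_rfl
  obtain ⟨ha, hd⟩ := h.2 x hx.1 hx.2
  rw [accPt_iff_frequently_nhdsNE] at hacc
  have hev := (ha.differentiableAt.hasDerivAt).eventually_ne (c := q) hd
  obtain ⟨y, hy1, hy2⟩ := (hacc.and_eventually hev).exists
  exact hy2 hy1.2

open Classical in
/-- The quotient, extended to the zeros. -/
noncomputable def wiU (phi : ℂ → ℂ) (q : ℂ) (Z : Finset ℂ) (z : ℂ) : ℂ :=
  if z ∈ Z then deriv phi z / ∏ i ∈ Z.erase z, (z - i) else (phi z - q) / ∏ i ∈ Z, (z - i)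

theorem wi_prod_ne {Z : Finset ℂ} {z : ℂ} (h : z ∉ Z) : ∏ i ∈ Z, (z - i) ≠ 0 := by
  rw [Finset.prod_ne_zero_iff]
  intro i hi h0
  rw [sub_eq_zero] at h0
  exact h (h0 ▸ hi)

theorem wi_ne {phi : ℂ → ℂ} {q : ℂ} {Z : Finset ℂ} (hZ : ∀ z ∈ Z, deriv phi z ≠ 0) {z : ℂ}
    (hz : z ∉ Z → phi z ≠ q) : wiU phi q Z z ≠ 0 := by
  classical
  unfold wiU
  split_ifs with h
  · refine div_ne_zero (hZ z h) (wi_prod_ne fun h1 => ?_)
    exact (Finset.mem_erase.1 h1).1 rfl
  · exact div_ne_zero (sub_ne_zero.2 (hz h)) (wi_prod_ne h)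

theorem wi_cont {phi : ℂ → ℂ} {q : ℂ} {Z : Finset ℂ} (hc : ContinuousOn phi (sphere 0 1))
    (hZ : ∀ z ∈ Z, DifferentiableAt ℂ phi z ∧ phi z = q) :
    ContinuousOn (wiU phi q Z) (sphere 0 1) := by
  classical
  intro z hz
  by_cases h : z ∈ Z
  · have h1 : wiU phi q Z =ᶠ[𝓝 z] fun w => dslope phi z w / ∏ i ∈ Z.erase z, (w - i) := by
      have h2 : ((Z.erase z : Finset ℂ) : Set ℂ)ᶜ ∈ 𝓝 z :=
        (Z.erase z).finite_toSet.isClosed.isOpen_compl.mem_nhds fun h1 =>
          (Finset.mem_erase.1 (Finset.mem_coe.1 h1)).1 rfl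
      filter_upwards [h2] with w hw
      have hw' : w ∉ Z.erase z := fun h3 => hw (Finset.mem_coe.2 h3)
      by_cases hwz : w = z
      · rw [hwz, dslope_same]
        unfold wiU
        rw [if_pos h]
      · have h3 : w ∉ Z := fun h3 => hw' (Finset.mem_erase.2 ⟨hwz, h3⟩)
        unfold wiU
        rw [if_neg h3, dslope_of_ne _ hwz, slope_def_field, (hZ z h).2,
          ← Finset.mul_prod_erase Z _ h, div_div]
    refine (ContinuousAt.congr ?_ h1.symm).continuousWithinAt
    refine (continuousAt_dslope_same.2 (hZ z h).1).div ?_ (wi_prod_ne fun h1 => ?_)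
    · fun_prop
    · exact (Finset.mem_erase.1 h1).1 rfl
  · have h1 : wiU phi q Z =ᶠ[𝓝 z] fun w => (phi w - q) / ∏ i ∈ Z, (w - i) := by
      have h2 : ((Z : Finset ℂ) : Set ℂ)ᶜ ∈ 𝓝 z :=
        Z.finite_toSet.isClosed.isOpen_compl.mem_nhds h
      filter_upwards [h2] with w hw
      unfold wiU
      rw [if_neg fun h3 => hw (Finset.mem_coe.2 h3)]
    have h3 : ContinuousWithinAt (fun w => (phi w - q) / ∏ i ∈ Z, (w - i)) (sphere 0 1) z := by
      refine ((hc z hz).sub continuousWithinAt_const).div ?_ (wi_prod_ne h)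
      fun_prop
    exact h3.congr_of_eventuallyEq (h1.filter_mono nhdsWithin_le_nhds) h1.eq_of_nhds

theorem reg1_of_reg2 {phi : ℂ → ℂ} {q : ℂ} (h : Reg2 phi q) : Reg1 phi q := by
  classical
  have hfin := wi_finite h
  set Z : Finset ℂ := hfin.toFinset with hZdef
  have hZ : ∀ z, z ∈ Z ↔ z ∈ sphere (0 : ℂ) 1 ∧ phi z = q := fun z => by
    rw [hZdef, Set.Finite.mem_toFinset]
    rfl
  have hreg : ∀ z ∈ Z, AnalyticAt ℂ phi z ∧ deriv phi z ≠ 0 := fun z hz =>
    h.2 z ((hZ z).1 hz).1 ((hZ z).1 hz).2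
  have hcont : ContinuousOn (wiU phi q Z) (sphere 0 1) :=
    wi_cont h.1 fun z hz => ⟨(hreg z hz).1.differentiableAt, ((hZ z).1 hz).2⟩
  have he : ∀ x : UnitAddCircle, e x ∈ sphere (0 : ℂ) 1 := fun x => by
    rw [mem_sphere_zero_iff_norm]
    exact norm_e x
  let psi : CT := ⟨fun x => wiU phi q Z (e x), hcont.comp_continuous wi_e_cont he⟩
  have hpsi : ∀ x, psi x = wiU phi q Z (e x) := fun x => rfl
  have hpsi0 : ∀ x, psi x ≠ 0 := fun x => by
    rw [hpsi]
    exact wi_ne (fun z hz => (hreg z hz).2) fun h1 h2 => h1 ((hZ _).2 ⟨he x, h2⟩)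
  obtain ⟨n, hn⟩ := exists_isUnit_T hpsi0
  set t : Fin Z.card → ℂ := fun j => (Z.equivFin.symm j : ℂ) with ht
  have hinj : Function.Injective t := fun i j hij =>
    Z.equivFin.symm.injective (Subtype.ext hij)
  have htm : ∀ j, t j ∈ Z := fun j => (Z.equivFin.symm j).2
  have hprod : ∀ w : ℂ, ∏ j, (w - t j) = ∏ i ∈ Z, (w - i) := fun w => by
    rw [← Finset.prod_coe_sort Z fun i => w - i]
    exact Equiv.prod_comp Z.equivFin.symm fun i => w - (i : ℂ)
  refine ⟨Z.card, t, n, hinj, fun j => ⟨?_, (hreg _ (htm j)).1, ((hZ _).1 (htm j)).2,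
    (hreg _ (htm j)).2⟩, ?_⟩
  · rw [← mem_sphere_zero_iff_norm]
    exact ((hZ _).1 (htm j)).1
  set s : ℂ → ℂ := fun w => w ^ n * ((phi w - q) / ∏ j, (w - t j)) with hs
  have hae : (fun x : UnitAddCircle => s (e x)) =ᵐ[mu0]
      fun x => (fourier n * psi : CT) x := by
    have hnull : mu0 {x : UnitAddCircle | e x ∈ Z} = 0 := by
      apply wi_null
      exact Z.finite_toSet.preimage fun x _ y _ hxy => wi_e_inj hxy
    have h1 : ∀ᵐ x ∂mu0, e x ∉ Z := by
      rw [ae_iff]
      simpa using hnull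
    filter_upwards [h1] with x hx
    rw [ContinuousMap.mul_apply, hpsi, wi_fourier_e]
    unfold wiU
    rw [if_neg hx, hs]
    simp only
    rw [hprod]
  have hb : MemLp (fun x : UnitAddCircle => s (e x)) ∞ mu0 :=
    (memLp_congr_ae hae).2 (memLp_ct _)
  rw [bij_iff hb, mf_congr hae, mf_ct, TM_mul]
  exact hn

end Pool.Agent.TBirC
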