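import Pool.Agent.TBirC.Lin
import Pool.Agent.TBirM.Fac

/-!
# The projections of `f / prod (1 - z i / zeta)` and of the adjoint situation

Paper proof of `frm_u`. Put `dl = prod (i ∈ I) Gk (z i)` (`= 1 / prod (1 - z i / zeta)`), `u = T dl f`. If `I` is empty, `dl = 1`,
`u = f`. Otherwise `dl = sum_i c i • Gk (z i)`, `c i` bounded by `(s0 ^ k)⁻¹` (`prodG`, `prod_bound` of TBirM). For one `z`:
`mul (Gk z) (incl f) - incl (T (Gk z) f) = ev z f • (z / (zeta - z))`: the part of negative frequencies of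
`f / (1 - z / zeta)` is `z f(z) / (zeta - z)`, `z / (zeta - z) = sum (n ≥ 1) z ^ n zeta ^ (-n)` `= Gk z - 1` (proof: both sides are
continuous in `f` in `L2`, check for `f = mono n`; or see the library: `T (Gk z)` and `ev`). So
`incl u = mul dl (incl f) - sum_i c i ev (z i) f • (Gk (z i) - 1)`, and `prod (i ∈ I) (zeta - z i) * dl = zeta ^ card I`
(norm one), `prod (i ∈ I) (zeta - z i) * (Gk (z j) - 1) = z j * prod (i ∈ I, i ≠ j) (zeta - z i)` is bounded
(`Gk z - 1 = z / (zeta - z)`).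
`frm_p` is the identity in between (also used in FrB).
Paper proof of `frm_v`: `star (Ak w) = c * Gk ((conj w)⁻¹)` with `c = -(conj w)⁻¹`, `1 < ‖w‖` (`Ak w = 1 / (zeta - w)`, so
`star (Ak w) = 1 / (1 / zeta - conj w)`), the adjoint of `T al` is `T (star al)` (`adjoint_T`), and
`‖zeta - w‖ = ‖w‖ ‖zeta - (conj w)⁻¹‖` on the circle. So `frm_v` follows from `frm_u` for the points `(conj (z i))⁻¹`, `i ∈ O`
(their distances are at least `s0 / 4`: `‖z i‖ ≤ 2`).
-/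

set_option autoImplicit false

open MeasureTheory Complex Set Filter Topology Metric AddCircle
open scoped ComplexConjugate InnerProductSpace ENNReal

namespace Pool.Agent.TBirC

open Pool.Agent.TBir
open Pool.Agent.TBirM

/-- `psi ↦ mul psi` as a linear map. -/
private noncomputable def mulLin : CT →ₗ[ℂ] (L2 →L[ℂ] L2) where
  toFun := mul
  map_add' := mul_add_symbol
  map_smul' := mul_smul_symbol

private theorem mulLin_apply (a : CT) : mulLin a = mul a := rfl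

private theorem fra_mul_apply (a b : CT) (f : L2) : mul (a * b) f = mul a (mul b f) := by
  rw [mul_mul_symbol, ContinuousLinearMap.comp_apply]

private theorem fra_norm_mul (a : CT) (f : L2) : ‖mul a f‖ ≤ ‖a‖ * ‖f‖ :=
  (ContinuousLinearMap.le_opNorm _ _).trans
    (mul_le_mul_of_nonneg_right (norm_mul_symbol_le a) (norm_nonneg _))

private theorem fra_Gk {z : ℂ} (hz : ‖z‖ < 1) :
    Gk z * (fourier 1 - algebraMap ℂ CT z) = fourier 1 := by
  ext x
  have h1 : (e x - z) ≠ 0 := by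
    intro h
    rw [← sub_eq_zero.1 h, norm_e] at hz
    exact lt_irrefl _ hz
  have h2 := TBirM.e_ne_zero x
  simp only [ContinuousMap.mul_apply, ContinuousMap.sub_apply, Gk_apply hz, four1_apply, alg_apply]
  have h3 : 1 - z * (e x)⁻¹ = (e x - z) * (e x)⁻¹ := by
    field_simp
  rw [h3]
  field_simp

private theorem fra_Gk_one {z : ℂ} (hz : ‖z‖ < 1) :
    (fourier 1 - algebraMap ℂ CT z) * (Gk z - 1) = algebraMap ℂ CT z := by
  have h := fra_Gk hz
  calc (fourier 1 - algebraMap ℂ CT z) * (Gk z - 1)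
      = Gk z * (fourier 1 - algebraMap ℂ CT z) - (fourier 1 - algebraMap ℂ CT z) := by ring
    _ = algebraMap ℂ CT z := by rw [h]; ring

private theorem fra_summable {z : ℂ} (hz : ‖z‖ < 1) : Summable fun j : ℕ => ‖z ^ j‖ := by
  simp_rw [norm_pow]
  exact summable_geometric_of_lt_one (norm_nonneg z) hz

private theorem fra_T_Gk {z : ℂ} (hz : ‖z‖ < 1) : T (Gk z) (mono 0) = mono 0 := by
  refine ext_co fun m => ?_
  have h := hasSum_co_T (Gk z) (mono 0) m
  have h2 : HasSum (fun n : ℕ => fourierCoeff (Gk z) ((m : ℤ) - n) * co (mono 0) n)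
      (fourierCoeff (Gk z) ((m : ℤ) - (0 : ℕ)) * co (mono 0) 0) := by
    refine hasSum_single 0 fun n hn => ?_
    rw [co_mono, if_neg hn, mul_zero]
  rw [h.unique h2, co_mono, co_mono, if_pos rfl, mul_one, Nat.cast_zero, sub_zero]
  rcases Nat.eq_zero_or_pos m with hm | hm
  · subst hm
    have h3 := fourierCoeff_minusS (fra_summable hz) 0
    simpa [Gk] using h3
  · rw [if_neg (by omega)]
    exact minus_minusS (fra_summable hz) m (by exact_mod_cast hm)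

theorem frm_one {z : ℂ} (hz : ‖z‖ < 1) (f : Hardy) :
    mul (Gk z) (incl f) - incl (T (Gk z) f) =
      ev z f • mul (Gk z - 1) (incl (mono 0)) := by
  obtain ⟨c, hc⟩ : ∃ c : ℂ, c = ev z f := ⟨_, rfl⟩
  have h0 : ev z (f - c • mono 0) = 0 := by
    rw [map_sub, map_smul, ev_mono hz, pow_zero, smul_eq_mul, mul_one, hc, sub_self]
  obtain ⟨g, hg⟩ := div_of_ev hz h0
  have hg' : f = c • mono 0 + (S g - z • g) := by
    have h1 : (S - z • (1 : Hardy →L[ℂ] Hardy)) g = S g - z • g := rfl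
    rw [← h1, hg]
    abel
  have hplus : Plus (fourier 1 - algebraMap ℂ CT z) :=
    (plus_fourier (by norm_num)).sub (plus_algebraMap z)
  have hSg : S g - z • g = T (fourier 1 - algebraMap ℂ CT z) g := by
    rw [T_sub, T_algebraMap]
    rfl
  have h1 : mul (Gk z) (incl (S g - z • g)) = incl (S g) := by
    rw [hSg, incl_T hplus, ← fra_mul_apply, fra_Gk hz, S, incl_T (plus_fourier (by norm_num))]
  have h2 : mul (Gk z) (incl f) = c • mul (Gk z) (incl (mono 0)) + incl (S g) := by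
    conv_lhs => rw [hg']
    rw [map_add, map_add, map_smul, map_smul, h1]
  have h3 : mul (Gk z - 1) (incl (mono 0)) = mul (Gk z) (incl (mono 0)) - incl (mono 0) := by
    have h4 : mul (Gk z - 1) = mul (Gk z) - mul 1 := by
      rw [← mulLin_apply, ← mulLin_apply, ← mulLin_apply, map_sub]
    rw [h4, sub_apply, mul_one_symbol, ContinuousLinearMap.id_apply]
  have h5 : T (Gk z) f = c • mono 0 + S g := by
    have h6 : T (Gk z) f = proj (mul (Gk z) (incl f)) := rfl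
    rw [h6, h2, map_add, map_smul, TpB_proj_incl]
    have h7 : proj (mul (Gk z) (incl (mono 0))) = T (Gk z) (mono 0) := rfl
    rw [h7, fra_T_Gk hz]
  rw [h5, h2, h3, ← hc, map_add, map_smul, smul_sub]
  abel

private theorem fra_prod_bound {ι : Type*} [DecidableEq ι] (s : Finset ι) {u : ι → ι → ℂ} {s0 : ℝ}
    (hs0 : 0 < s0) (hs1 : s0 ≤ 1) {n : ℕ} (hn : s.card ≤ n)
    (hu : ∀ i ∈ s, ∀ j ∈ s, i ≠ j → s0 ≤ ‖u i j‖) {j : ι} (hj : j ∈ s) :
    ‖(∏ k ∈ s.erase j, u j k)⁻¹‖ ≤ (s0 ^ n)⁻¹ := by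
  rw [norm_inv, norm_prod]
  refine inv_anti₀ (pow_pos hs0 n) ?_
  have h1 : (s.erase j).card ≤ n := (Finset.card_le_card (Finset.erase_subset j s)).trans hn
  calc s0 ^ n ≤ s0 ^ (s.erase j).card := pow_le_pow_of_le_one hs0.le hs1 h1
    _ = ∏ _k ∈ s.erase j, s0 := by rw [Finset.prod_const]
    _ ≤ ∏ k ∈ s.erase j, ‖u j k‖ := Finset.prod_le_prod (fun _ _ => hs0.le) fun k hk =>
      hu j hj k (Finset.mem_of_mem_erase hk) (Finset.ne_of_mem_erase hk).symm

theorem frm_p {s0 : ℝ} (hs0 : 0 < s0) (hs1 : s0 ≤ 1) (k : ℕ) : ∃ K : ℝ, 0 < K ∧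
    ∀ (z : Fin k → ℂ) (I : Finset (Fin k)), (∀ i ∈ I, ‖z i‖ < 1 ∧ s0 ≤ ‖z i‖) →
      (∀ i ∈ I, ∀ j ∈ I, i ≠ j → s0 ≤ ‖z i - z j‖) → ∃ c : Fin k → ℂ, (∀ i, ‖c i‖ ≤ K) ∧
      ∀ f : Hardy, mul (∏ i ∈ I, Gk (z i)) (incl f) - incl (T (∏ i ∈ I, Gk (z i)) f) =
        ∑ i ∈ I, (c i * ev (z i) f) • mul (Gk (z i) - 1) (incl (mono 0)) := by
  classical
  refine ⟨(s0 ^ k)⁻¹, by positivity, ?_⟩
  intro z I hI hsep
  have hK : 0 ≤ (s0 ^ k)⁻¹ := by positivity
  rcases I.eq_empty_or_nonempty with h0 | hne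
  · refine ⟨fun _ => 0, fun i => by rw [norm_zero]; exact hK, fun f => ?_⟩
    rw [h0, Finset.prod_empty, Finset.sum_empty, mul_one_symbol, T_one,
      ContinuousLinearMap.id_apply]
    exact sub_self _
  have hz0 : ∀ j ∈ I, z j ≠ 0 := by
    intro j hj h
    have := (hI j hj).2
    rw [h, norm_zero] at this
    linarith
  have hinj : Set.InjOn z I := by
    intro i hi j hj hij
    by_contra hne
    have := hsep i hi j hj hne
    rw [hij, sub_self, norm_zero] at this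
    linarith
  obtain ⟨c, hc⟩ : ∃ c : Fin k → ℂ, c = fun i =>
      if i ∈ I then (∏ j ∈ I.erase i, (1 - z j * (z i)⁻¹))⁻¹ else 0 := ⟨_, rfl⟩
  have hcb : ∀ i, ‖c i‖ ≤ (s0 ^ k)⁻¹ := by
    intro i
    rw [hc]
    beta_reduce
    by_cases hi : i ∈ I
    · rw [if_pos hi]
      refine fra_prod_bound I (u := fun i j => 1 - z j * (z i)⁻¹) hs0 hs1
        ((Finset.card_le_univ I).trans_eq (Fintype.card_fin k)) ?_ hi
      intro i hi j hj hij
      have h1 : 1 - z j * (z i)⁻¹ = (z i - z j) * (z i)⁻¹ := by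
        rw [sub_mul, mul_inv_cancel₀ (hz0 i hi)]
      have h2 : 1 ≤ ‖(z i)⁻¹‖ := by
        rw [norm_inv]
        exact (one_le_inv₀ (norm_pos_iff.2 (hz0 i hi))).2 (hI i hi).1.le
      rw [h1, norm_mul]
      calc s0 ≤ ‖z i - z j‖ * 1 := by rw [mul_one]; exact hsep i hi j hj hij
        _ ≤ ‖z i - z j‖ * ‖(z i)⁻¹‖ := mul_le_mul_of_nonneg_left h2 (norm_nonneg _)
    · rw [if_neg hi, norm_zero]
      exact hK
  refine ⟨c, hcb, fun f => ?_⟩
  have hprod : ∏ i ∈ I, Gk (z i) = ∑ i ∈ I, c i • Gk (z i) := by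
    rw [prodG I hne hinj hz0 fun j hj => (hI j hj).1]
    refine Finset.sum_congr rfl fun j hj => ?_
    rw [hc]
    simp only [if_pos hj]
  obtain ⟨TL, hTL⟩ := exists_TL
  have h1 : mul (∏ i ∈ I, Gk (z i)) (incl f) = ∑ i ∈ I, c i • mul (Gk (z i)) (incl f) := by
    rw [hprod, ← mulLin_apply, map_sum, sum_apply]
    refine Finset.sum_congr rfl fun j _ => ?_
    rw [map_smul, smul_apply, mulLin_apply]
  have h2 : incl (T (∏ i ∈ I, Gk (z i)) f) = ∑ i ∈ I, c i • incl (T (Gk (z i)) f) := by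
    rw [hprod, ← hTL, map_sum, sum_apply, map_sum]
    refine Finset.sum_congr rfl fun j _ => ?_
    rw [map_smul, smul_apply, hTL, map_smul]
  rw [h1, h2, ← Finset.sum_sub_distrib]
  refine Finset.sum_congr rfl fun j hj => ?_
  rw [← smul_sub, frm_one (hI j hj).1, smul_smul]

theorem frm_u {s0 : ℝ} (hs0 : 0 < s0) (hs1 : s0 ≤ 1) (k : ℕ) : ∃ K : ℝ, 0 < K ∧
    ∀ (z : Fin k → ℂ) (I : Finset (Fin k)), (∀ i ∈ I, ‖z i‖ < 1 ∧ s0 ≤ ‖z i‖) →
      (∀ i ∈ I, ∀ j ∈ I, i ≠ j → s0 ≤ ‖z i - z j‖) → ∀ f : Hardy,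
      ‖mul (∏ i ∈ I, (fourier 1 - algebraMap ℂ CT (z i))) (incl (T (∏ i ∈ I, Gk (z i)) f))‖ ≤
        K * (‖f‖ + ∑ i ∈ I, ‖ev (z i) f‖) := by
  classical
  obtain ⟨K, hK, hp⟩ := frm_p hs0 hs1 k
  refine ⟨1 + K * 2 ^ k, by positivity, ?_⟩
  intro z I hI hsep f
  obtain ⟨c, hc, hcf⟩ := hp z I hI hsep
  have h1 := hcf f
  obtain ⟨P, hP⟩ : ∃ P : CT, P = ∏ i ∈ I, (fourier 1 - algebraMap ℂ CT (z i)) := ⟨_, rfl⟩
  obtain ⟨dl, hdl⟩ : ∃ dl : CT, dl = ∏ i ∈ I, Gk (z i) := ⟨_, rfl⟩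
  rw [← hdl] at h1
  rw [← hP, ← hdl]
  have h2 : incl (T dl f) = mul dl (incl f) -
      ∑ i ∈ I, (c i * ev (z i) f) • mul (Gk (z i) - 1) (incl (mono 0)) := by
    rw [← h1]
    abel
  have hone : ‖(1 : CT)‖ ≤ 1 := by
    rw [ContinuousMap.norm_le _ zero_le_one]
    intro x
    simp
  have hPdl : ‖P * dl‖ ≤ 1 := by
    rw [hP, hdl, ← Finset.prod_mul_distrib]
    have e1 : ∏ i ∈ I, (fourier 1 - algebraMap ℂ CT (z i)) * Gk (z i) =
        ∏ i ∈ I, (fourier 1 : CT) :=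
      Finset.prod_congr rfl fun i hi => by rw [mul_comm, fra_Gk (hI i hi).1]
    rw [e1]
    rw [ContinuousMap.norm_le _ zero_le_one]
    intro x
    rw [prod_ct_apply, norm_prod]
    refine (Finset.prod_le_one (fun _ _ => norm_nonneg _) fun i _ => ?_)
    rw [four1_apply, norm_e]
  have hlin : ∀ w : ℂ, ‖w‖ ≤ 1 → ∀ x, ‖(fourier 1 - algebraMap ℂ CT w : CT) x‖ ≤ 2 := by
    intro w hw x
    rw [ContinuousMap.sub_apply, four1_apply, alg_apply]
    refine (norm_sub_le _ _).trans ?_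
    rw [norm_e]
    linarith
  have hPG : ∀ j ∈ I, ‖P * (Gk (z j) - 1)‖ ≤ 2 ^ k := by
    intro j hj
    have e1 : P * (Gk (z j) - 1) =
        (∏ i ∈ I.erase j, (fourier 1 - algebraMap ℂ CT (z i))) * algebraMap ℂ CT (z j) := by
      rw [hP, ← Finset.mul_prod_erase I _ hj, mul_comm (fourier 1 - algebraMap ℂ CT (z j)),
        mul_assoc, fra_Gk_one (hI j hj).1]
    rw [e1]
    rw [ContinuousMap.norm_le _ (by positivity)]
    intro x
    rw [ContinuousMap.mul_apply, prod_ct_apply, norm_mul, norm_prod, alg_apply]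
    have e2 : ∏ i ∈ I.erase j, ‖(fourier 1 - algebraMap ℂ CT (z i) : CT) x‖ ≤
        ∏ _i ∈ I.erase j, (2 : ℝ) :=
      Finset.prod_le_prod (fun _ _ => norm_nonneg _) fun i hi =>
        hlin _ (hI i (Finset.mem_of_mem_erase hi)).1.le x
    have e3 : ∏ _i ∈ I.erase j, (2 : ℝ) ≤ 2 ^ k := by
      rw [Finset.prod_const]
      refine pow_le_pow_right₀ (by norm_num) ?_
      exact (Finset.card_le_card (Finset.erase_subset _ _)).trans
        ((Finset.card_le_univ I).trans_eq (Fintype.card_fin k))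
    calc _ ≤ (2 : ℝ) ^ k * 1 := by
          refine mul_le_mul (e2.trans e3) (hI j hj).1.le (norm_nonneg _) (by positivity)
      _ = 2 ^ k := mul_one _
  rw [h2, map_sub, ← fra_mul_apply, map_sum]
  have hm0 : ‖incl (mono 0)‖ = 1 := norm_mono 0
  have hf0 : ‖incl f‖ = ‖f‖ := rfl
  have h3 : ‖∑ i ∈ I, mul P ((c i * ev (z i) f) • mul (Gk (z i) - 1) (incl (mono 0)))‖ ≤
      ∑ i ∈ I, K * 2 ^ k * ‖ev (z i) f‖ := by
    refine (norm_sum_le _ _).trans (Finset.sum_le_sum fun i hi => ?_)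
    rw [map_smul, ← fra_mul_apply, norm_smul, norm_mul]
    have e1 := fra_norm_mul (P * (Gk (z i) - 1)) (incl (mono 0))
    rw [hm0, mul_one] at e1
    have e2 := e1.trans (hPG i hi)
    calc ‖c i‖ * ‖ev (z i) f‖ * ‖mul (P * (Gk (z i) - 1)) (incl (mono 0))‖
        ≤ K * ‖ev (z i) f‖ * 2 ^ k := by
          refine mul_le_mul ?_ e2 (norm_nonneg _) (by positivity)
          exact mul_le_mul_of_nonneg_right (hc i) (norm_nonneg _)
      _ = K * 2 ^ k * ‖ev (z i) f‖ := by ring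
  have h4 : ‖mul (P * dl) (incl f)‖ ≤ ‖f‖ := by
    refine (fra_norm_mul _ _).trans ?_
    rw [hf0]
    exact mul_le_of_le_one_left (norm_nonneg _) hPdl
  refine (norm_sub_le _ _).trans ?_
  rw [← Finset.mul_sum] at h3
  have h5 : 0 ≤ ∑ i ∈ I, ‖ev (z i) f‖ := Finset.sum_nonneg fun _ _ => norm_nonneg _
  have h6 : 0 ≤ K * 2 ^ k * ‖f‖ := by positivity
  calc ‖mul (P * dl) (incl f)‖ +
        ‖∑ i ∈ I, mul P ((c i * ev (z i) f) • mul (Gk (z i) - 1) (incl (mono 0)))‖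
      ≤ ‖f‖ + K * 2 ^ k * ∑ i ∈ I, ‖ev (z i) f‖ := add_le_add h4 h3
    _ ≤ (1 + K * 2 ^ k) * (‖f‖ + ∑ i ∈ I, ‖ev (z i) f‖) := by
        rw [add_mul, one_mul, mul_add]
        linarith

private theorem fra_star_Ak {w : ℂ} (hw : 1 < ‖w‖) :
    star (Ak w) = (-(conj w)⁻¹) • Gk (conj w)⁻¹ := by
  have hw0 : w ≠ 0 := by
    intro h
    rw [h, norm_zero] at hw
    linarith
  have hc0 : conj w ≠ 0 := (map_ne_zero _).2 hw0
  have hn : ‖(conj w)⁻¹‖ < 1 := by
    rw [norm_inv, Complex.norm_conj]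
    exact inv_lt_one_of_one_lt₀ hw
  ext x
  rw [ContinuousMap.star_apply, ContinuousMap.smul_apply, Ak_apply hw, Gk_apply hn, smul_eq_mul]
  have h1 : star ((e x - w)⁻¹) = ((e x)⁻¹ - conj w)⁻¹ := by
    have h2 : conj (e x) = (e x)⁻¹ := by
      have h3 : conj (e x) * e x = 1 := by
        rw [← Complex.normSq_eq_conj_mul_self, Complex.normSq_eq_norm_sq, norm_e]
        simp
      exact eq_inv_of_mul_eq_one_left h3
    rw [← h2]
    simp
  rw [h1]
  have h2 := TBirM.e_ne_zero x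
  have h3 : (e x)⁻¹ - conj w = (-conj w) * (1 - (conj w)⁻¹ * (e x)⁻¹) := by
    field_simp
    ring
  rw [h3, mul_inv, neg_inv]

private theorem fra_star_lin {w : ℂ} (hw : 1 < ‖w‖) :
    star (fourier 1 - algebraMap ℂ CT w : CT) =
      (-(conj w)) • (fourier (-1) * (fourier 1 - algebraMap ℂ CT (conj w)⁻¹)) := by
  have hw0 : w ≠ 0 := by
    intro h
    rw [h, norm_zero] at hw
    linarith
  have hc0 : conj w ≠ 0 := (map_ne_zero _).2 hw0
  ext x
  rw [ContinuousMap.star_apply, ContinuousMap.smul_apply, ContinuousMap.mul_apply,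
    ContinuousMap.sub_apply, ContinuousMap.sub_apply, four1_apply, fourn_apply, alg_apply,
    alg_apply, smul_eq_mul]
  have h2 : conj (e x) = (e x)⁻¹ := by
    have h3 : conj (e x) * e x = 1 := by
      rw [← Complex.normSq_eq_conj_mul_self, Complex.normSq_eq_norm_sq, norm_e]
      simp
    exact eq_inv_of_mul_eq_one_left h3
  have h3 := TBirM.e_ne_zero x
  have h4 : star (e x - w) = (e x)⁻¹ - conj w := by
    rw [← h2]
    simp
  rw [h4]
  field_simp
  ring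

theorem frm_v {s0 : ℝ} (hs0 : 0 < s0) (hs1 : s0 ≤ 1) (k : ℕ) : ∃ K : ℝ, 0 < K ∧
    ∀ (z : Fin k → ℂ) (O : Finset (Fin k)), (∀ i ∈ O, 1 < ‖z i‖ ∧ ‖z i‖ ≤ 2) →
      (∀ i ∈ O, ∀ j ∈ O, i ≠ j → s0 ≤ ‖z i - z j‖) → ∀ g : Hardy,
      ‖mul (star (∏ i ∈ O, (fourier 1 - algebraMap ℂ CT (z i))))
        (incl (ContinuousLinearMap.adjoint (T (∏ i ∈ O, Ak (z i))) g))‖ ≤
        K * (‖g‖ + ∑ i ∈ O, ‖ev (conj (z i))⁻¹ g‖) := by
  classical
  obtain ⟨K, hK, hu⟩ := frm_u (s0 := s0 / 4) (by positivity) (by linarith) k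
  refine ⟨K, hK, ?_⟩
  intro z O hO hsep g
  have hz0 : ∀ i ∈ O, z i ≠ 0 := by
    intro i hi h
    have := (hO i hi).1
    rw [h, norm_zero] at this
    linarith
  have h1 := hu (fun i => (conj (z i))⁻¹) O ?_ ?_ g
  · have e1 : star (∏ i ∈ O, Ak (z i)) =
        (∏ i ∈ O, (-(conj (z i))⁻¹)) • ∏ i ∈ O, Gk (conj (z i))⁻¹ := by
      rw [← Finset.prod_smul]
      rw [star_prod]
      exact Finset.prod_congr rfl fun i hi => fra_star_Ak (hO i hi).1
    have e2 : star (∏ i ∈ O, (fourier 1 - algebraMap ℂ CT (z i))) =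
        (∏ i ∈ O, (-(conj (z i)))) • ((∏ _i ∈ O, (fourier (-1) : CT)) *
          ∏ i ∈ O, (fourier 1 - algebraMap ℂ CT (conj (z i))⁻¹)) := by
      rw [← Finset.prod_mul_distrib, ← Finset.prod_smul, star_prod]
      exact Finset.prod_congr rfl fun i hi => fra_star_lin (hO i hi).1
    have e3 : (∏ i ∈ O, (-(conj (z i)))) * (∏ i ∈ O, (-(conj (z i))⁻¹)) = 1 := by
      rw [← Finset.prod_mul_distrib]
      refine Finset.prod_eq_one fun i hi => ?_
      have : conj (z i) ≠ 0 := (map_ne_zero _).2 (hz0 i hi)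
      field_simp
    rw [adjoint_T, e1, e2, T_smul, smul_apply, map_smul, mul_smul_symbol,
      smul_apply, map_smul, smul_smul, e3, one_smul, fra_mul_apply]
    refine (fra_norm_mul _ _).trans ?_
    have e4 : ‖∏ _i ∈ O, (fourier (-1) : CT)‖ ≤ 1 := by
      rw [ContinuousMap.norm_le _ zero_le_one]
      intro x
      rw [prod_ct_apply, norm_prod]
      refine Finset.prod_le_one (fun _ _ => norm_nonneg _) fun i _ => ?_
      rw [fourn_apply, norm_inv, norm_e, inv_one]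
    exact (mul_le_of_le_one_left (norm_nonneg _) e4).trans h1
  · intro i hi
    have h2 := (hO i hi).1
    have h3 := (hO i hi).2
    rw [norm_inv, Complex.norm_conj]
    refine ⟨inv_lt_one_of_one_lt₀ h2, ?_⟩
    have h4 : (2 : ℝ)⁻¹ ≤ ‖z i‖⁻¹ := inv_anti₀ (by linarith) h3
    have h5 : s0 / 4 ≤ (2 : ℝ)⁻¹ := by
      norm_num
      linarith
    exact h5.trans h4
  · intro i hi j hj hij
    have hi0 : conj (z i) ≠ 0 := (map_ne_zero _).2 (hz0 i hi)
    have hj0 : conj (z j) ≠ 0 := (map_ne_zero _).2 (hz0 j hj)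
    have h2 : (conj (z i))⁻¹ - (conj (z j))⁻¹ = -(conj (z i - z j)) *
        ((conj (z i))⁻¹ * (conj (z j))⁻¹) := by
      rw [map_sub]
      field_simp
      ring
    rw [h2, norm_mul, norm_neg, Complex.norm_conj, norm_mul, norm_inv, norm_inv,
      Complex.norm_conj, Complex.norm_conj]
    have h3 : (2 : ℝ)⁻¹ ≤ ‖z i‖⁻¹ := inv_anti₀ (by linarith [(hO i hi).1]) (hO i hi).2
    have h4 : (2 : ℝ)⁻¹ ≤ ‖z j‖⁻¹ := inv_anti₀ (by linarith [(hO j hj).1]) (hO j hj).2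
    have h5 := hsep i hi j hj hij
    calc s0 / 4 = s0 * ((2 : ℝ)⁻¹ * (2 : ℝ)⁻¹) := by ring
      _ ≤ ‖z i - z j‖ * (‖z i‖⁻¹ * ‖z j‖⁻¹) := by gcongr

end Pool.Agent.TBirC
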