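import Pool.Agent.TBirC.FrA

/-!
# The pairing with the polynomial

Paper proof. `al = prod (O) Ak (z i) = 1 / prod (zeta - z i)`, `dl = prod (I) Gk (z i)`. By `frm_p` the vector
`p = mul dl (incl f) - incl (T dl f)` is `sum_i c i ev (z i) f • (Gk (z i) - 1)`, `Gk z - 1 = z / (zeta - z)`. If `O` is nonempty
`al = sum_j d j • Ak (z j)`, `d j` bounded (`prodA`, `prod_bound` of TBirM); if `O` is empty `al = 1`. So it is enough to bound, for
`i ∈ I`, `j ∈ O`, the number `inner (incl g) (pl * Ak (z j) * (Gk (z i) - 1))`, that is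
`∫ conj g * P(w) z i / ((w - z j) (w - z i))` with `P = pl k a`, by `K (‖g‖ + ‖ev (conj (z j))⁻¹ g‖)`.
`1 / ((w - z j) (w - z i)) = (z j - z i)⁻¹ (1 / (w - z j) - 1 / (w - z i))`. By linearity take `P(w) = w ^ m`, `m < k`.
`w ^ m / (w - z) = sum (r < m) z ^ (m - 1 - r) w ^ r + z ^ m / (w - z)`: the polynomial part has bounded norm. For `z = z i` the rest
`z ^ m / (w - z) = z ^ (m - 1) (Gk z - 1)` has only negative frequencies, its inner product with `incl g` is `0`. For `z = z j`: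
`inner (incl g) (Ak (z j)) = - (z j)⁻¹ sum_n conj (g_n) (z j) ^ (-n) = - (z j)⁻¹ conj (ev (conj (z j))⁻¹ g)`.
If `O` is empty the same with `w ^ m / (w - z i)` only.
-/

set_option autoImplicit false

open MeasureTheory Complex Set Filter Topology Metric AddCircle
open scoped ComplexConjugate InnerProductSpace ENNReal

namespace Pool.Agent.TBirC

open Pool.Agent.TBir
open Pool.Agent.TBirM

/-- The functional `u ↦ inner (incl g) (u * 1)`. -/
private noncomputable def Ph (g : Hardy) (u : CT) : ℂ := inner ℂ (incl g) (mul u (incl (mono 0)))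

private theorem Ph_add (g : Hardy) (u v : CT) : Ph g (u + v) = Ph g u + Ph g v := by
  unfold Ph
  rw [mul_add_symbol, add_apply, inner_add_right]

private theorem Ph_smul (g : Hardy) (c : ℂ) (u : CT) : Ph g (c • u) = c * Ph g u := by
  unfold Ph
  rw [mul_smul_symbol, smul_apply, inner_smul_right]

private theorem Ph_zero (g : Hardy) : Ph g 0 = 0 := by
  have h := Ph_smul g (0 : ℂ) (0 : CT)
  rw [zero_mul] at h
  have h0 : (0 : ℂ) • (0 : CT) = 0 := by
    ext x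
    simp
  rwa [h0] at h

private theorem Ph_sum {ι : Type*} (g : Hardy) (s : Finset ι) (u : ι → CT) :
    Ph g (∑ i ∈ s, u i) = ∑ i ∈ s, Ph g (u i) := by
  classical
  induction s using Finset.induction_on with
  | empty => simpa using Ph_zero g
  | insert a s ha ih => rw [Finset.sum_insert ha, Finset.sum_insert ha, Ph_add, ih]

private theorem Ph_eq (g : Hardy) (u : CT) : Ph g u = inner ℂ g (T u (mono 0)) := by
  unfold Ph
  rw [TpB_apply, TpB_inner_proj]

private theorem Ph_four (g : Hardy) (m : ℤ) : ‖Ph g (fourier m)‖ ≤ ‖g‖ := by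
  unfold Ph
  refine (norm_inner_le_norm (𝕜 := ℂ) _ _).trans ?_
  have h1 : ‖mul (fourier m) (incl (mono 0))‖ ≤ 1 := by
    refine (ContinuousLinearMap.le_opNorm _ _).trans ?_
    have h2 : ‖(fourier m : CT)‖ ≤ 1 := fourier_norm m |>.le
    have h3 := (norm_mul_symbol_le (fourier m)).trans h2
    rw [TpB_norm_incl, norm_mono, mul_one]
    exact h3
  rw [TpB_norm_incl]
  calc ‖g‖ * ‖mul (fourier m) (incl (mono 0))‖ ≤ ‖g‖ * 1 :=
        mul_le_mul_of_nonneg_left h1 (norm_nonneg _)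
    _ = ‖g‖ := mul_one _

private theorem four_mul (m : ℕ) :
    (fourier ((m + 1 : ℕ) : ℤ) : CT) = fourier (m : ℤ) * fourier 1 := by
  ext x
  rw [ContinuousMap.mul_apply, ← fourier_add]
  push_cast
  rfl

/-- Reduction of the powers of `zeta`. -/
private theorem Ph_rec (g : Hardy) {z c : ℂ} {v : CT} (hv : fourier 1 * v = z • v + c • 1)
    (hz : ‖z‖ ≤ 2) (m : ℕ) :
    ‖Ph g (fourier (m : ℤ) * v)‖ ≤ 2 ^ m * (‖Ph g v‖ + ‖c‖ * ‖g‖) := by
  have hg : 0 ≤ ‖c‖ * ‖g‖ := by positivity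
  have key : ‖Ph g (fourier (m : ℤ) * v)‖ + ‖c‖ * ‖g‖ ≤ 2 ^ m * (‖Ph g v‖ + ‖c‖ * ‖g‖) := by
    induction m with
    | zero =>
      have h0 : (fourier ((0 : ℕ) : ℤ) : CT) * v = v := by
        ext x
        rw [ContinuousMap.mul_apply, Nat.cast_zero, fourier_zero, one_mul]
      rw [h0, pow_zero, one_mul]
    | succ m ih =>
      have h1 : (fourier ((m + 1 : ℕ) : ℤ) : CT) * v =
          z • (fourier (m : ℤ) * v) + c • fourier (m : ℤ) := by
        rw [four_mul, mul_assoc, hv, mul_add, mul_smul_comm, mul_smul_comm, mul_one]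
      rw [h1, Ph_add, Ph_smul, Ph_smul]
      have h2 := Ph_four g (m : ℤ)
      calc ‖z * Ph g (fourier (m : ℤ) * v) + c * Ph g (fourier (m : ℤ))‖ + ‖c‖ * ‖g‖
          ≤ (‖z‖ * ‖Ph g (fourier (m : ℤ) * v)‖ + ‖c‖ * ‖Ph g (fourier (m : ℤ))‖) + ‖c‖ * ‖g‖ := by
            have h3 := norm_add_le (z * Ph g (fourier (m : ℤ) * v)) (c * Ph g (fourier (m : ℤ)))
            rw [norm_mul, norm_mul] at h3
            linarith
        _ ≤ (2 * ‖Ph g (fourier (m : ℤ) * v)‖ + ‖c‖ * ‖g‖) + ‖c‖ * ‖g‖ := by gcongr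
        _ = 2 * (‖Ph g (fourier (m : ℤ) * v)‖ + ‖c‖ * ‖g‖) := by ring
        _ ≤ 2 * (2 ^ m * (‖Ph g v‖ + ‖c‖ * ‖g‖)) := by gcongr
        _ = 2 ^ (m + 1) * (‖Ph g v‖ + ‖c‖ * ‖g‖) := by ring
  linarith

private theorem Ph_pl (g : Hardy) {k : ℕ} {a : ℕ → ℂ} {C M : ℝ}
    (ha : ∀ i, ‖a i‖ ≤ C) (v : CT) (hM : ∀ m < k, ‖Ph g (fourier (m : ℤ) * v)‖ ≤ M) :
    ‖Ph g (pl k a * v)‖ ≤ k * (C * M) := by
  have h1 : pl k a * v = ∑ m ∈ Finset.range k, a m • (fourier (m : ℤ) * v) := by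
    unfold pl
    rw [Finset.sum_mul]
    exact Finset.sum_congr rfl fun m _ => by rw [smul_mul_assoc]
  rw [h1, Ph_sum]
  refine (norm_sum_le _ _).trans ?_
  have h2 : ∀ m ∈ Finset.range k, ‖Ph g (a m • (fourier (m : ℤ) * v))‖ ≤ C * M := by
    intro m hm
    rw [Ph_smul, norm_mul]
    exact mul_le_mul (ha m) (hM m (Finset.mem_range.1 hm)) (norm_nonneg _)
      ((norm_nonneg _).trans (ha 0))
  refine (Finset.sum_le_sum h2).trans ?_
  rw [Finset.sum_const, Finset.card_range, nsmul_eq_mul]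

/-- The recursion for `Ak`. -/
private theorem rec_Ak {w : ℂ} (hw : 1 < ‖w‖) :
    (fourier 1 : CT) * Ak w = w • Ak w + (1 : ℂ) • 1 := by
  have h := Ak_mul hw
  rw [mul_sub] at h
  have h1 : Ak w * algebraMap ℂ CT w = w • Ak w := by
    ext x
    rw [ContinuousMap.mul_apply, alg_apply, ContinuousMap.smul_apply, smul_eq_mul, mul_comm]
  rw [h1, mul_comm] at h
  rw [one_smul, ← h]
  ring

private theorem rec_Gk {z : ℂ} (hz : ‖z‖ < 1) :
    (fourier 1 : CT) * (Gk z - 1) = z • (Gk z - 1) + z • 1 := by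
  have h := Gk_mul hz
  have h2 : (fourier 1 : CT) * fourier (-1) = 1 := by
    ext x
    rw [ContinuousMap.mul_apply, ← fourier_add]
    simp
  have h3 : (fourier 1 : CT) * (Gk z - z • (Gk z * fourier (-1))) = fourier 1 := by
    have h4 : Gk z - z • (Gk z * fourier (-1)) = 1 := by
      rw [← h, mul_sub, mul_one, mul_smul_comm]
    rw [h4, mul_one]
  have h5 : (fourier 1 : CT) * (z • (Gk z * fourier (-1))) = z • Gk z := by
    rw [mul_smul_comm]
    congr 1
    calc (fourier 1 : CT) * (Gk z * fourier (-1)) = Gk z * (fourier 1 * fourier (-1)) := by ring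
      _ = Gk z := by rw [h2, mul_one]
  rw [mul_sub, h5] at h3
  rw [mul_sub, mul_one, smul_sub, sub_add_cancel, sub_eq_iff_eq_add]
  rw [sub_eq_iff_eq_add] at h3
  rw [h3]
  ring

/-- Partial fractions. -/
private theorem frac {w z : ℂ} (hw : 1 < ‖w‖) (hz : ‖z‖ < 1) :
    Ak w * (Gk z - 1) = (w - z)⁻¹ • (z • Ak w + (-1 : ℂ) • (Gk z - 1)) := by
  ext x
  have hE : e x ≠ 0 := Pool.Agent.TBirM.e_ne_zero x
  have hn := norm_e x
  have h1 : e x - w ≠ 0 := by
    intro h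
    rw [sub_eq_zero.1 h] at hn
    linarith
  have h2 : e x - z ≠ 0 := by
    intro h
    rw [sub_eq_zero.1 h] at hn
    linarith
  have h3 : w - z ≠ 0 := by
    intro h
    rw [sub_eq_zero.1 h] at hw
    linarith
  have h4 : 1 - z * (e x)⁻¹ ≠ 0 := by
    intro h
    apply h2
    have h5 : e x * (1 - z * (e x)⁻¹) = 0 := by rw [h, mul_zero]
    rw [mul_sub, mul_one, mul_comm z, mul_inv_cancel_left₀ hE] at h5
    exact h5
  have h6 : (1 - z * (e x)⁻¹)⁻¹ - 1 = z / (e x - z) := by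
    rw [eq_div_iff h2, sub_mul, one_mul]
    have h7 : e x - z = e x * (1 - z * (e x)⁻¹) := by
      rw [mul_sub, mul_one, mul_comm z, mul_inv_cancel_left₀ hE]
    rw [h7]
    field_simp
    ring
  simp only [ContinuousMap.mul_apply, ContinuousMap.sub_apply, ContinuousMap.one_apply,
    ContinuousMap.smul_apply, ContinuousMap.add_apply, smul_eq_mul]
  rw [Ak_apply hw, Gk_apply hz, h6]
  field_simp
  ring

/-- The negative part is orthogonal to the Hardy space. -/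
private theorem Ph_Gk (g : Hardy) {z : ℂ} (hz : ‖z‖ < 1) : Ph g (Gk z - 1) = 0 := by
  have h := frm_one hz (mono 0)
  rw [ev_mono hz, pow_zero, one_smul] at h
  have h1 : mul (Gk z - 1) (incl (mono 0)) = mul (Gk z) (incl (mono 0)) - incl (mono 0) := by
    rw [mul_sub_ct, mul_one_ct]
    rfl
  have h2 : incl (T (Gk z) (mono 0)) = incl (mono 0) := by
    rw [h1] at h
    exact sub_right_injective h
  have h3 : T (Gk z) (mono 0) = mono 0 := incl_inj h2
  unfold Ph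
  rw [h1, inner_sub_right, ← TpB_inner_proj, ← TpB_apply, h3]
  have h4 : inner ℂ (incl g) (incl (mono 0)) = inner ℂ g (mono 0) := rfl
  rw [h4, sub_self]

private theorem Ph_Ak (g : Hardy) {w : ℂ} (hw : 1 < ‖w‖) :
    ‖Ph g (Ak w)‖ ≤ ‖ev (conj w)⁻¹ g‖ := by
  have hw0 : w ≠ 0 := by
    rintro rfl
    rw [norm_zero] at hw
    linarith
  have hwi : ‖w⁻¹‖ < 1 := by
    rw [norm_inv]
    exact inv_lt_one_of_one_lt₀ hw
  have hz : ‖(conj w)⁻¹‖ < 1 := by
    rw [norm_inv, RCLike.norm_conj]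
    exact inv_lt_one_of_one_lt₀ hw
  set h : Hardy := T (Ak w) (mono 0) with hh
  have hco : ∀ n : ℕ, co h n = -(w⁻¹) ^ (n + 1) := by
    intro n
    have h1 := hasSum_co_T (Ak w) (mono 0) n
    have h2 : HasSum (fun j : ℕ => fourierCoeff (Ak w) ((n : ℤ) - j) * co (mono 0) j)
        (fourierCoeff (Ak w) ((n : ℤ) - (0 : ℕ)) * co (mono 0) 0) := by
      refine hasSum_single 0 fun j hj => ?_
      rw [co_mono, if_neg hj, mul_zero]
    have h3 := h1.unique h2
    rw [hh, h3, co_mono, if_pos rfl, mul_one, Nat.cast_zero, sub_zero]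
    exact fourierCoeff_plusS (summable_pow_succ hwi) n
  have h1 : HasSum (fun n : ℕ => inner ℂ g (co h n • mono n)) (inner ℂ g h) := by
    have h2 := (hasSum_mono h).mapL (innerSL ℂ g)
    simpa using h2
  have h2 : HasSum (fun n : ℕ => inner ℂ g (co h n • mono n)) (-w⁻¹ * conj (ev (conj w)⁻¹ g)) := by
    have h3 := (Complex.hasSum_conj'.2 (hasSum_ev hz g)).mul_left (-w⁻¹)
    refine hasSum_of_eq h3 fun n => ?_
    rw [inner_smul_right, hco, map_mul, map_pow, map_inv₀, Complex.conj_conj]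
    have h4 : inner ℂ g (mono n) = conj (co g n) := by
      rw [← coL_apply]
      exact (inner_conj_symm g (mono n)).symm
    rw [h4]
    ring
  have h3 := h1.unique h2
  rw [Ph_eq, ← hh, h3, norm_mul, norm_neg, RCLike.norm_conj]
  exact mul_le_of_le_one_left (norm_nonneg _) hwi.le

private theorem pr_bound {k : ℕ} (s : Finset (Fin k)) {u : Fin k → Fin k → ℂ} {s0 : ℝ}
    (hs0 : 0 < s0) (hs1 : s0 ≤ 1) (hu : ∀ i j, i ≠ j → s0 ≤ ‖u i j‖) (j : Fin k) :
    ‖(∏ l ∈ s.erase j, u j l)⁻¹‖ ≤ (s0 ^ k)⁻¹ := by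
  rw [norm_inv, norm_prod]
  refine inv_anti₀ (pow_pos hs0 k) ?_
  have h1 : (s.erase j).card ≤ k := by
    have := Finset.card_le_univ (s.erase j)
    rwa [Fintype.card_fin] at this
  calc s0 ^ k ≤ s0 ^ (s.erase j).card := pow_le_pow_of_le_one hs0.le hs1 h1
    _ = ∏ _l ∈ s.erase j, s0 := by rw [Finset.prod_const]
    _ ≤ ∏ l ∈ s.erase j, ‖u j l‖ := Finset.prod_le_prod (fun _ _ => hs0.le) fun l hl =>
        hu j l (Finset.ne_of_mem_erase hl).symm

theorem frm_pair {s0 C : ℝ} (hs0 : 0 < s0) (hs1 : s0 ≤ 1) (hC : 0 < C) (k : ℕ) :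
    ∃ K : ℝ, 0 < K ∧ ∀ (z : Fin k → ℂ) (I O : Finset (Fin k)) (a : ℕ → ℂ),
      (∀ i, ‖a i‖ ≤ C) → (∀ i ∈ I, ‖z i‖ < 1 ∧ s0 ≤ ‖z i‖) → (∀ i ∈ O, 1 < ‖z i‖ ∧ ‖z i‖ ≤ 2) →
      (∀ i j, i ≠ j → s0 ≤ ‖z i - z j‖) → ∀ f g : Hardy,
      ‖inner ℂ (incl g) (mul (pl k a * ∏ i ∈ O, Ak (z i))
        (mul (∏ i ∈ I, Gk (z i)) (incl f) - incl (T (∏ i ∈ I, Gk (z i)) f)))‖ ≤
        K * ((∑ i ∈ I, ‖ev (z i) f‖) * (‖g‖ + ∑ i ∈ O, ‖ev (conj (z i))⁻¹ g‖)) := by
  classical
  obtain ⟨K1, hK1, hp⟩ := frm_p hs0 hs1 k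
  set D : ℝ := (s0 ^ k)⁻¹ with hD
  have hD1 : 1 ≤ D := (one_le_inv₀ (pow_pos hs0 k)).2 (pow_le_one₀ hs0.le hs1)
  have hD0 : 0 < D := by linarith
  have hs0i : 1 ≤ s0⁻¹ := (one_le_inv₀ hs0).2 hs1
  set B : ℝ := (k + 1) * (D * (k * (C * (s0⁻¹ * (3 * 2 ^ k))))) with hB
  have hB0 : 0 ≤ B := by positivity
  refine ⟨K1 * (B + 1), by positivity, ?_⟩
  intro z I O a ha hI hO hsep f g
  obtain ⟨c, hc, hid⟩ := hp z I hI (fun i _ j _ hij => hsep i j hij)
  set E : ℝ := ∑ i ∈ O, ‖ev (conj (z i))⁻¹ g‖ with hE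
  have hE0 : 0 ≤ E := Finset.sum_nonneg fun i _ => norm_nonneg _
  have hg0 : 0 ≤ ‖g‖ := norm_nonneg g
  -- the bound for one inner point
  have hcore : ∀ i ∈ I, ‖Ph g (pl k a * (∏ j ∈ O, Ak (z j)) * (Gk (z i) - 1))‖ ≤ B * (‖g‖ + E) := by
    intro i hi
    obtain ⟨hzi, hzs⟩ := hI i hi
    have hG : ∀ m : ℕ, ‖Ph g (fourier (m : ℤ) * (Gk (z i) - 1))‖ ≤ 2 ^ m * ‖g‖ := by
      intro m
      have h1 := Ph_rec g (rec_Gk hzi) (by linarith) m
      rw [Ph_Gk g hzi, norm_zero, zero_add] at h1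
      refine h1.trans ?_
      have h2 : ‖z i‖ * ‖g‖ ≤ ‖g‖ := mul_le_of_le_one_left hg0 hzi.le
      gcongr
    have hpow : ∀ m < k, (2 : ℝ) ^ m ≤ 2 ^ k := fun m hm =>
      pow_le_pow_right₀ (by norm_num) hm.le
    rcases O.eq_empty_or_nonempty with hOe | hOn
    · rw [hOe, Finset.prod_empty, mul_one]
      have h1 := Ph_pl g (M := 2 ^ k * ‖g‖) ha (Gk (z i) - 1) fun m hm =>
        (hG m).trans (mul_le_mul_of_nonneg_right (hpow m hm) hg0)
      refine h1.trans ?_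
      have h2 : (k : ℝ) * (C * (2 ^ k * ‖g‖)) ≤ B * ‖g‖ := by
        have h3 : (2 : ℝ) ^ k ≤ s0⁻¹ * (3 * 2 ^ k) := by
          have h4 : (0 : ℝ) < 2 ^ k := by positivity
          nlinarith
        have h5 : (k : ℝ) * (C * 2 ^ k) ≤ k * (C * (s0⁻¹ * (3 * 2 ^ k))) := by gcongr
        have h6 : 0 ≤ (k : ℝ) * (C * (s0⁻¹ * (3 * 2 ^ k))) := by positivity
        have h7 : (k : ℝ) * (C * (s0⁻¹ * (3 * 2 ^ k))) ≤ D * (k * (C * (s0⁻¹ * (3 * 2 ^ k)))) :=
          le_mul_of_one_le_left h6 hD1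
        have h8 : D * (k * (C * (s0⁻¹ * (3 * 2 ^ k)))) ≤ B := by
          rw [hB]
          refine le_mul_of_one_le_left (by positivity) ?_
          have : (0 : ℝ) ≤ k := Nat.cast_nonneg k
          linarith
        calc (k : ℝ) * (C * (2 ^ k * ‖g‖)) = (k * (C * 2 ^ k)) * ‖g‖ := by ring
          _ ≤ B * ‖g‖ := mul_le_mul_of_nonneg_right (h5.trans (h7.trans h8)) hg0
      refine h2.trans ?_
      rw [mul_add]
      have := mul_nonneg hB0 hE0
      linarith
    · have hinj : Set.InjOn z O := by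
        intro x _ y _ hxy
        by_contra hne
        have h1 := hsep x y hne
        rw [hxy, sub_self, norm_zero] at h1
        linarith
      have hprod := prodA O hOn hinj fun j hj => (hO j hj).1
      set d : Fin k → ℂ := fun j => (∏ l ∈ O.erase j, (z j - z l))⁻¹ with hd
      have hdb : ∀ j ∈ O, ‖d j‖ ≤ D := by
        intro j _
        exact pr_bound O (u := fun i j => z i - z j) hs0 hs1 hsep j
      have h1 : pl k a * (∏ j ∈ O, Ak (z j)) * (Gk (z i) - 1) =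
          ∑ j ∈ O, d j • (pl k a * (Ak (z j) * (Gk (z i) - 1))) := by
        rw [hprod, Finset.mul_sum, Finset.sum_mul]
        refine Finset.sum_congr rfl fun j _ => ?_
        rw [mul_smul_comm, smul_mul_assoc, mul_assoc]
      rw [h1, Ph_sum]
      have h2 : ∀ j ∈ O, ‖Ph g (d j • (pl k a * (Ak (z j) * (Gk (z i) - 1))))‖ ≤
          D * (k * (C * (s0⁻¹ * (3 * 2 ^ k)))) * (‖g‖ + ‖ev (conj (z j))⁻¹ g‖) := by
        intro j hj
        obtain ⟨hw, hw2⟩ := hO j hj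
        have hij : j ≠ i := by
          rintro rfl
          linarith
        set x : ℝ := ‖ev (conj (z j))⁻¹ g‖ with hx
        have hx0 : 0 ≤ x := norm_nonneg _
        have hm : ∀ m < k, ‖Ph g (fourier (m : ℤ) * (Ak (z j) * (Gk (z i) - 1)))‖ ≤
            s0⁻¹ * (3 * 2 ^ k) * (‖g‖ + x) := by
          intro m hm
          have h3 : (fourier (m : ℤ) : CT) * (Ak (z j) * (Gk (z i) - 1)) =
              (z j - z i)⁻¹ • (z i • (fourier (m : ℤ) * Ak (z j)) +
                (-1 : ℂ) • (fourier (m : ℤ) * (Gk (z i) - 1))) := by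
            rw [frac hw hzi, mul_smul_comm, mul_add, mul_smul_comm, mul_smul_comm]
          rw [h3, Ph_smul, Ph_add, Ph_smul, Ph_smul, norm_mul, norm_inv]
          have h4 : ‖z j - z i‖⁻¹ ≤ s0⁻¹ := inv_anti₀ hs0 (hsep j i hij)
          have h5 := Ph_rec g (rec_Ak hw) hw2 m
          rw [norm_one, one_mul] at h5
          have h6 := Ph_Ak g hw
          have h7 := hG m
          have h8 := hpow m hm
          have h9 : ‖Ph g (fourier (m : ℤ) * Ak (z j))‖ ≤ 2 ^ k * (x + ‖g‖) := by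
            refine h5.trans ?_
            gcongr
          have h10 : ‖Ph g (fourier (m : ℤ) * (Gk (z i) - 1))‖ ≤ 2 ^ k * ‖g‖ :=
            h7.trans (mul_le_mul_of_nonneg_right h8 hg0)
          have h11 : ‖z i * Ph g (fourier (m : ℤ) * Ak (z j)) +
              -1 * Ph g (fourier (m : ℤ) * (Gk (z i) - 1))‖ ≤ 3 * 2 ^ k * (‖g‖ + x) := by
            refine (norm_add_le _ _).trans ?_
            rw [norm_mul, norm_mul, norm_neg, norm_one, one_mul]
            have h12 : ‖z i‖ * ‖Ph g (fourier (m : ℤ) * Ak (z j))‖ ≤ 2 ^ k * (x + ‖g‖) :=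
              (mul_le_of_le_one_left (norm_nonneg _) hzi.le).trans h9
            have h13 : (0 : ℝ) < 2 ^ k := by positivity
            have h14 : 0 ≤ (2 : ℝ) ^ k * x := by positivity
            have h15 : 0 ≤ (2 : ℝ) ^ k * ‖g‖ := by positivity
            nlinarith
          calc ‖z j - z i‖⁻¹ * ‖z i * Ph g (fourier (m : ℤ) * Ak (z j)) +
              -1 * Ph g (fourier (m : ℤ) * (Gk (z i) - 1))‖
              ≤ s0⁻¹ * (3 * 2 ^ k * (‖g‖ + x)) :=
                mul_le_mul h4 h11 (norm_nonneg _) (inv_nonneg.2 hs0.le)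
            _ = s0⁻¹ * (3 * 2 ^ k) * (‖g‖ + x) := by ring
        rw [Ph_smul, norm_mul]
        have h3 := Ph_pl g (M := s0⁻¹ * (3 * 2 ^ k) * (‖g‖ + x)) ha
          (Ak (z j) * (Gk (z i) - 1)) hm
        calc ‖d j‖ * ‖Ph g (pl k a * (Ak (z j) * (Gk (z i) - 1)))‖
            ≤ D * (k * (C * (s0⁻¹ * (3 * 2 ^ k) * (‖g‖ + x)))) :=
              mul_le_mul (hdb j hj) h3 (norm_nonneg _) hD0.le
          _ = _ := by ring
      refine (norm_sum_le _ _).trans ((Finset.sum_le_sum h2).trans ?_)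
      rw [← Finset.mul_sum, Finset.sum_add_distrib, Finset.sum_const, nsmul_eq_mul, ← hE]
      have h3 : (O.card : ℝ) ≤ k := by
        have := Finset.card_le_univ O
        rw [Fintype.card_fin] at this
        exact_mod_cast this
      have h4 : (O.card : ℝ) * ‖g‖ + E ≤ (k + 1) * (‖g‖ + E) := by
        have h5 : (O.card : ℝ) * ‖g‖ ≤ k * ‖g‖ := mul_le_mul_of_nonneg_right h3 hg0
        have h6 : 0 ≤ (k : ℝ) * E := by positivity
        nlinarith
      calc D * (k * (C * (s0⁻¹ * (3 * 2 ^ k)))) * ((O.card : ℝ) * ‖g‖ + E)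
          ≤ D * (k * (C * (s0⁻¹ * (3 * 2 ^ k)))) * ((k + 1) * (‖g‖ + E)) :=
            mul_le_mul_of_nonneg_left h4 (by positivity)
        _ = B * (‖g‖ + E) := by rw [hB]; ring
  -- the sum over the inner points
  rw [hid f, map_sum, inner_sum]
  have h1 : ∀ i ∈ I, ‖inner ℂ (incl g) (mul (pl k a * ∏ j ∈ O, Ak (z j))
      ((c i * ev (z i) f) • mul (Gk (z i) - 1) (incl (mono 0))))‖ ≤
      K1 * (B + 1) * (‖g‖ + E) * ‖ev (z i) f‖ := by
    intro i hi
    have h2 : inner ℂ (incl g) (mul (pl k a * ∏ j ∈ O, Ak (z j))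
        ((c i * ev (z i) f) • mul (Gk (z i) - 1) (incl (mono 0)))) =
        (c i * ev (z i) f) * Ph g (pl k a * (∏ j ∈ O, Ak (z j)) * (Gk (z i) - 1)) := by
      unfold Ph
      rw [map_smul, inner_smul_right, mul_mul_symbol (pl k a * ∏ j ∈ O, Ak (z j)) (Gk (z i) - 1)]
      rfl
    rw [h2, norm_mul, norm_mul]
    have h3 := hcore i hi
    have h4 : B * (‖g‖ + E) ≤ (B + 1) * (‖g‖ + E) := by
      have : 0 ≤ ‖g‖ + E := by positivity
      nlinarith
    calc ‖c i‖ * ‖ev (z i) f‖ * ‖Ph g (pl k a * (∏ j ∈ O, Ak (z j)) * (Gk (z i) - 1))‖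
        ≤ K1 * ‖ev (z i) f‖ * ((B + 1) * (‖g‖ + E)) := by
          refine mul_le_mul (mul_le_mul_of_nonneg_right (hc i) (norm_nonneg _)) (h3.trans h4)
            (norm_nonneg _) (by positivity)
      _ = _ := by ring
  refine (norm_sum_le _ _).trans ((Finset.sum_le_sum h1).trans (le_of_eq ?_))
  rw [← Finset.mul_sum]
  ring

end Pool.Agent.TBirC
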