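import Pool.Agent.TBirC.Def
import Pool.Agent.TBir.TpB
import Pool.Agent.TBir.Stmt
import Pool.Agent.TBirM.Fac

/-!
# Multiplication operators by bounded functions and their compressions

Paper proofs. `mf_coe`: `ContinuousLinearMap.coeFn_holder` and `MemLp.coeFn_toLp`. The others follow with `Lp.ext`.
`TM_plus`: `mul u (incl f) = incl (T u f)` for `Plus u` (`incl_T` in TBir/TpB). `TM_minus`: adjoint of `TM_plus`, or
`proj (mul u g) = T u (proj g)` for `Minus u` (as `T_mul_left` in TBir/TpB). `Cm.inverse`: `M * a = a * M` implies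
`a * M⁻¹ = M⁻¹ * a`. `adjoint` of `mul a` is `mul (star a)` (see TpA/TpB, `inner_mul_symbol`).
-/

set_option autoImplicit false

open MeasureTheory Complex Set Filter Topology Metric AddCircle
open scoped ComplexConjugate InnerProductSpace ENNReal

namespace Pool.Agent.TBirC

open Pool.Agent.TBir

/-- The normalised Haar measure. -/
noncomputable abbrev mu0 : Measure UnitAddCircle := haarAddCircle (T := (1 : ℝ))

theorem mf_coe {a : UnitAddCircle → ℂ} (ha : MemLp a ∞ mu0) (f : L2) :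
    (mf a f : UnitAddCircle → ℂ) =ᵐ[mu0] fun x => a x * (f : UnitAddCircle → ℂ) x := by
  have h1 := (ContinuousLinearMap.mul ℂ ℂ).coeFn_holder (r := 2) (ha.toLp a) f
  have h2 := ha.coeFn_toLp
  have h3 : mf a f = (ContinuousLinearMap.mul ℂ ℂ).holder 2 (ha.toLp a) f := by
    unfold mf
    rw [dif_pos ha]
    rfl
  rw [h3]
  filter_upwards [h1, h2] with x hx hy
  rw [hx, ContinuousLinearMap.mul_apply', hy]

theorem memLp_ct (a : CT) : MemLp (fun x => a x) ∞ mu0 := by
  refine memLp_top_of_bound a.continuous.aestronglyMeasurable ‖a‖ ?_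
  exact Filter.Eventually.of_forall fun x => a.norm_coe_le_norm x

theorem memLp_mul {a b : UnitAddCircle → ℂ} (ha : MemLp a ∞ mu0) (hb : MemLp b ∞ mu0) :
    MemLp (fun x => a x * b x) ∞ mu0 := by
  have h : MemLp (fun x => a x * b x) ∞ mu0 :=
    MemLp.mul' (p := ∞) (q := ∞) (r := ∞) hb ha
  exact h

theorem mf_congr {a b : UnitAddCircle → ℂ} (h : a =ᵐ[mu0] b) : mf a = mf b := by
  by_cases ha : MemLp a ∞ mu0
  · have hb : MemLp b ∞ mu0 := (memLp_congr_ae h).1 ha
    refine ContinuousLinearMap.ext fun f => Lp.ext ?_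
    filter_upwards [mf_coe ha f, mf_coe hb f, h] with x h1 h2 h3
    rw [h1, h2, h3]
  · have hb : ¬ MemLp b ∞ mu0 := fun hb => ha ((memLp_congr_ae h).2 hb)
    unfold mf
    rw [dif_neg ha, dif_neg hb]

theorem mf_ct (a : CT) : mf (fun x => a x) = mul a := by
  refine ContinuousLinearMap.ext fun f => Lp.ext ?_
  filter_upwards [mf_coe (memLp_ct a) f, mul_ae a f] with x h1 h2
  rw [h1, h2]

theorem mf_mul {a b : UnitAddCircle → ℂ} (ha : MemLp a ∞ mu0) (hb : MemLp b ∞ mu0) :
    mf (fun x => a x * b x) = mf a * mf b := by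
  refine ContinuousLinearMap.ext fun f => Lp.ext ?_
  rw [mul_apply_eq_comp]
  filter_upwards [mf_coe (memLp_mul ha hb) f, mf_coe ha (mf b f), mf_coe hb f] with x h1 h2 h3
  rw [h1, h2, h3, mul_assoc]

theorem mf_sub {a b : UnitAddCircle → ℂ} (ha : MemLp a ∞ mu0) (hb : MemLp b ∞ mu0) :
    mf (fun x => a x - b x) = mf a - mf b := by
  refine ContinuousLinearMap.ext fun f => Lp.ext ?_
  rw [_root_.sub_apply]
  filter_upwards [mf_coe (ha.sub hb) f, mf_coe ha f, mf_coe hb f,
    Lp.coeFn_sub (mf a f) (mf b f)] with x h1 h2 h3 h4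
  rw [h4, Pi.sub_apply, h2, h3, ← sub_mul]
  exact h1

theorem mf_const (c : ℂ) : mf (fun _ => c) = algebraMap ℂ Op2 c := by
  refine ContinuousLinearMap.ext fun f => Lp.ext ?_
  rw [Algebra.algebraMap_eq_smul_one, _root_.smul_apply, one_apply_eq_self]
  filter_upwards [mf_coe (memLp_const c) f, Lp.coeFn_smul c f] with x h1 h2
  rw [h1, h2, Pi.smul_apply, smul_eq_mul]

theorem norm_mf_le {a : UnitAddCircle → ℂ} {C : ℝ} (hC : 0 ≤ C) (h : ∀ᵐ x ∂mu0, ‖a x‖ ≤ C) :
    ‖mf a‖ ≤ C := by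
  by_cases ha : MemLp a ∞ mu0
  · refine ContinuousLinearMap.opNorm_le_bound _ hC fun f => ?_
    refine Lp.norm_le_mul_norm_of_ae_le_mul ?_
    filter_upwards [mf_coe ha f, h] with x h1 h2
    rw [h1, norm_mul]
    exact mul_le_mul_of_nonneg_right h2 (norm_nonneg _)
  · unfold mf
    rw [dif_neg ha, norm_zero]
    exact hC

/-- An essentially bounded function with invertible multiplication operator is bounded below. -/
theorem ae_ge_of_isUnit {a : UnitAddCircle → ℂ} (ha : MemLp a ∞ mu0) (h : IsUnit (mf a)) :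
    ∃ c : ℝ, 0 < c ∧ ∀ᵐ x ∂mu0, c ≤ ‖a x‖ := by
  obtain ⟨N, hN⟩ := h.exists_left_inv
  set c : ℝ := (2 * (‖N‖ + 1))⁻¹ with hc
  have hc0 : 0 < c := by positivity
  refine ⟨c, hc0, ?_⟩
  set a' := ha.1.mk a with ha'
  have haa : a =ᵐ[mu0] a' := ha.1.ae_eq_mk
  have hE : MeasurableSet {x | ‖a' x‖ < c} :=
    measurableSet_lt ha.1.stronglyMeasurable_mk.norm.measurable measurable_const
  set E := {x | ‖a' x‖ < c} with hEdef
  set f : L2 := indicatorConstLp 2 hE (measure_ne_top mu0 E) (1 : ℂ) with hf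
  have hfE : (f : UnitAddCircle → ℂ) =ᵐ[mu0] E.indicator fun _ => (1 : ℂ) :=
    indicatorConstLp_coeFn
  have h1 : ‖mf a f‖ ≤ c * ‖f‖ := by
    refine Lp.norm_le_mul_norm_of_ae_le_mul ?_
    filter_upwards [mf_coe ha f, haa, hfE] with x h1 h2 h3
    rw [h1, norm_mul, h3, h2]
    by_cases hx : x ∈ E
    · exact mul_le_mul_of_nonneg_right (le_of_lt hx) (norm_nonneg _)
    · rw [indicator_of_notMem hx, norm_zero, mul_zero, mul_zero]
  have h2 : ‖f‖ ≤ ‖N‖ * (c * ‖f‖) := by
    have h3 : N (mf a f) = f := by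
      rw [← mul_apply_eq_comp, hN, one_apply_eq_self]
    calc ‖f‖ = ‖N (mf a f)‖ := by rw [h3]
      _ ≤ ‖N‖ * ‖mf a f‖ := N.le_opNorm _
      _ ≤ ‖N‖ * (c * ‖f‖) := mul_le_mul_of_nonneg_left h1 (norm_nonneg _)
  have h3 : ‖N‖ * c ≤ 1 / 2 := by
    have h4 : ‖N‖ ≤ ‖N‖ + 1 := by linarith
    have h5 : (‖N‖ + 1) * c = 1 / 2 := by
      have : ‖N‖ + 1 ≠ 0 := by positivity
      rw [hc]
      field_simp
    calc ‖N‖ * c ≤ (‖N‖ + 1) * c := mul_le_mul_of_nonneg_right h4 hc0.le
      _ = 1 / 2 := h5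
  have h4 : ‖f‖ = 0 := by
    have h5 : ‖f‖ ≤ 1 / 2 * ‖f‖ := by
      calc ‖f‖ ≤ ‖N‖ * (c * ‖f‖) := h2
        _ = ‖N‖ * c * ‖f‖ := by ring
        _ ≤ 1 / 2 * ‖f‖ := mul_le_mul_of_nonneg_right h3 (norm_nonneg _)
    have h6 := norm_nonneg f
    linarith
  have h5 : f = 0 := norm_eq_zero.1 h4
  have h6 : (f : UnitAddCircle → ℂ) =ᵐ[mu0] 0 := by
    rw [h5]
    exact Lp.coeFn_zero _ _ _
  filter_upwards [haa, hfE, h6] with x h7 h8 h9
  by_contra hcon
  have hx : x ∈ E := by
    show ‖a' x‖ < c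
    rw [← h7]
    exact not_le.1 hcon
  rw [h8, indicator_of_mem hx] at h9
  exact one_ne_zero h9

theorem isUnit_mf {a : UnitAddCircle → ℂ} (ha : MemLp a ∞ mu0) {c : ℝ} (hc : 0 < c)
    (h : ∀ᵐ x ∂mu0, c ≤ ‖a x‖) : IsUnit (mf a) ∧ Ring.inverse (mf a) = mf (fun x => (a x)⁻¹) ∧
      ‖Ring.inverse (mf a)‖ ≤ c⁻¹ := by
  have hb : MemLp (fun x => (a x)⁻¹) ∞ mu0 := by
    refine memLp_top_of_bound (ha.1.aemeasurable.inv.aestronglyMeasurable) c⁻¹ ?_
    filter_upwards [h] with x hx
    rw [norm_inv]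
    exact inv_anti₀ hc hx
  have h1 : mf a * mf (fun x => (a x)⁻¹) = 1 := by
    rw [← mf_mul ha hb, ← map_one (algebraMap ℂ Op2), ← mf_const]
    refine mf_congr ?_
    filter_upwards [h] with x hx
    refine mul_inv_cancel₀ ?_
    rw [← norm_pos_iff]
    exact hc.trans_le hx
  have h2 : mf (fun x => (a x)⁻¹) * mf a = 1 := by
    rw [← mf_mul hb ha, ← map_one (algebraMap ℂ Op2), ← mf_const]
    refine mf_congr ?_
    filter_upwards [h] with x hx
    refine inv_mul_cancel₀ ?_
    rw [← norm_pos_iff]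
    exact hc.trans_le hx
  let u : Op2ˣ := ⟨mf a, mf (fun x => (a x)⁻¹), h1, h2⟩
  have h3 : Ring.inverse (mf a) = mf (fun x => (a x)⁻¹) := Ring.inverse_unit u
  refine ⟨u.isUnit, h3, ?_⟩
  rw [h3]
  refine norm_mf_le (inv_nonneg.2 hc.le) ?_
  filter_upwards [h] with x hx
  rw [norm_inv]
  exact inv_anti₀ hc hx

theorem mul_ct (a b : CT) : mul (a * b) = mul a * mul b := by
  exact mul_mul_symbol a b

theorem mul_add_ct (a b : CT) : mul (a + b) = mul a + mul b := by
  exact mul_add_symbol a b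

theorem mul_sub_ct (a b : CT) : mul (a - b) = mul a - mul b := by
  rw [sub_eq_add_neg, ← neg_one_smul ℂ b, mul_add_symbol, mul_smul_symbol, neg_one_smul,
    ← sub_eq_add_neg]

theorem mul_smul_ct (c : ℂ) (a : CT) : mul (c • a) = c • mul a := by
  exact mul_smul_symbol c a

theorem mul_one_ct : mul (1 : CT) = 1 := by
  exact mul_one_symbol

theorem norm_mul_ct_le (a : CT) : ‖mul a‖ ≤ ‖a‖ := by
  exact norm_mul_symbol_le a

theorem adjoint_mul_ct (a : CT) : ContinuousLinearMap.adjoint (mul a) = mul (star a) := by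
  symm
  rw [ContinuousLinearMap.eq_adjoint_iff]
  intro x y
  exact (inner_mul_symbol a y x).symm

theorem Cm.mul_ct (a : CT) : Cm (mul a) := by
  intro b
  rw [← TBirC.mul_ct, ← TBirC.mul_ct, mul_comm]

theorem Cm.mf (a : UnitAddCircle → ℂ) : Cm (mf a) := by
  intro b
  by_cases ha : MemLp a ∞ mu0
  · rw [← mf_ct, ← mf_mul ha (memLp_ct b), ← mf_mul (memLp_ct b) ha]
    refine mf_congr (Filter.Eventually.of_forall fun x => ?_)
    exact mul_comm _ _
  · unfold TBirC.mf
    rw [dif_neg ha, zero_mul, mul_zero]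

theorem Cm.one : Cm 1 := by
  intro b
  rw [one_mul, mul_one]

theorem Cm.comp {M N : Op2} (hM : Cm M) (hN : Cm N) : Cm (M * N) := by
  intro b
  rw [mul_assoc, hN b, ← mul_assoc, hM b, mul_assoc]

theorem Cm.sub {M N : Op2} (hM : Cm M) (hN : Cm N) : Cm (M - N) := by
  intro b
  rw [sub_mul, mul_sub, hM b, hN b]

theorem Cm.smul {M : Op2} (hM : Cm M) (c : ℂ) : Cm (c • M) := by
  intro b
  rw [smul_mul_assoc, mul_smul_comm, hM b]

theorem Cm.algebraMap (c : ℂ) : Cm (algebraMap ℂ Op2 c) := by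
  intro b
  exact Algebra.commutes c (mul b)

theorem Cm.inverse {M : Op2} (hM : Cm M) : Cm (Ring.inverse M) := by
  intro b
  by_cases h : IsUnit M
  · calc Ring.inverse M * mul b = Ring.inverse M * mul b * (M * Ring.inverse M) := by
          rw [Ring.mul_inverse_cancel M h, mul_one]
      _ = Ring.inverse M * (mul b * M) * Ring.inverse M := by simp only [mul_assoc]
      _ = Ring.inverse M * (M * mul b) * Ring.inverse M := by rw [hM b]
      _ = Ring.inverse M * M * mul b * Ring.inverse M := by simp only [mul_assoc]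
      _ = mul b * Ring.inverse M := by rw [Ring.inverse_mul_cancel M h, one_mul]
  · rw [Ring.inverse_non_unit M h, zero_mul, mul_zero]

theorem Cm.resolvent {M : Op2} (hM : Cm M) (l : ℂ) : Cm (resolvent M l) := by
  exact ((Cm.algebraMap l).sub hM).inverse

theorem Cm.adjoint {M : Op2} (hM : Cm M) : Cm (ContinuousLinearMap.adjoint M) := by
  intro b
  have h := congrArg ContinuousLinearMap.adjoint (hM (star b))
  have e : ∀ X Y : Op2, ContinuousLinearMap.adjoint (X * Y) =
      ContinuousLinearMap.adjoint Y * ContinuousLinearMap.adjoint X := fun X Y =>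
    ContinuousLinearMap.adjoint_comp X Y
  rw [e, e, adjoint_mul_ct, star_star] at h
  exact h.symm

theorem TM_mul (a : CT) : TM (mul a) = T a := rfl

theorem TM_one : TM 1 = 1 := by
  ext f
  exact TpB_proj_incl f

theorem TM_sub (M N : Op2) : TM (M - N) = TM M - TM N := by
  ext f
  exact map_sub proj (M (incl f)) (N (incl f))

theorem TM_add (M N : Op2) : TM (M + N) = TM M + TM N := by
  ext f
  exact map_add proj (M (incl f)) (N (incl f))

theorem TM_smul (c : ℂ) (M : Op2) : TM (c • M) = c • TM M := by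
  ext f
  exact map_smul proj c (M (incl f))

theorem TM_algebraMap (c : ℂ) : TM (algebraMap ℂ Op2 c) = algebraMap ℂ Op c := by
  rw [Algebra.algebraMap_eq_smul_one, TM_smul, TM_one, Algebra.algebraMap_eq_smul_one]

theorem norm_TM_le (M : Op2) : ‖TM M‖ ≤ ‖M‖ := by
  refine ContinuousLinearMap.opNorm_le_bound _ (norm_nonneg _) fun f => ?_
  have h1 : TM M f = proj (M (incl f)) := rfl
  rw [h1, ← TpB_norm_incl f]
  exact (TpB_norm_proj _).trans (M.le_opNorm _)

theorem exists_TML : ∃ L : Op2 →L[ℂ] Op, ∀ M, L M = TM M := by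
  let l : Op2 →ₗ[ℂ] Op :=
    { toFun := TM
      map_add' := TM_add
      map_smul' := TM_smul }
  refine ⟨l.mkContinuous 1 fun M => ?_, fun M => rfl⟩
  rw [one_mul]
  exact norm_TM_le M

theorem adjoint_TM (M : Op2) :
    ContinuousLinearMap.adjoint (TM M) = TM (ContinuousLinearMap.adjoint M) := by
  symm
  rw [ContinuousLinearMap.eq_adjoint_iff]
  intro x y
  have h1 : TM (ContinuousLinearMap.adjoint M) x =
    proj (ContinuousLinearMap.adjoint M (incl x)) := rfl
  have h2 : TM M y = proj (M (incl y)) := rfl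
  rw [h1, h2, TpB_inner_proj', TpB_inner_proj, ContinuousLinearMap.adjoint_inner_left]

theorem TM_plus (M : Op2) {u : CT} (hu : Plus u) : TM (M * mul u) = TM M * T u := by
  ext f
  have h1 : (TM M * T u) f = proj (M (incl (T u f))) := rfl
  have h2 : TM (M * mul u) f = proj (M (mul u (incl f))) := rfl
  rw [h1, h2, incl_T hu]

theorem TM_minus (M : Op2) {u : CT} (hu : Minus u) : TM (mul u * M) = T u * TM M := by
  have hs : Plus (star u) := by
    intro n hn
    rw [fourierCoeff_star, hu (-n) (by omega), map_zero]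
  have e2 : ∀ X Y : Op2, ContinuousLinearMap.adjoint (X * Y) =
      ContinuousLinearMap.adjoint Y * ContinuousLinearMap.adjoint X := fun X Y =>
    ContinuousLinearMap.adjoint_comp X Y
  have e1 : ∀ X Y : Op, ContinuousLinearMap.adjoint (X * Y) =
      ContinuousLinearMap.adjoint Y * ContinuousLinearMap.adjoint X := fun X Y =>
    ContinuousLinearMap.adjoint_comp X Y
  have h1 : ContinuousLinearMap.adjoint (TM (mul u * M)) =
      ContinuousLinearMap.adjoint (T u * TM M) := by
    rw [adjoint_TM, e2, adjoint_mul_ct, TM_plus _ hs, e1, adjoint_T, adjoint_TM]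
  exact ContinuousLinearMap.adjoint.injective h1

theorem inner_TM (M : Op2) (f g : Hardy) : inner ℂ g (TM M f) = inner ℂ (incl g) (M (incl f)) := by
  exact TpB_inner_proj g (M (incl f))

end Pool.Agent.TBirC
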