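import Pool.Agent.TBirC.Loc

/-!
# The branches in a thin triangle

Paper proof. `r, K` from `Br.bas`. On `Tri q u eta rho` with `eta ≤ 1`, `t = ((l - q) * conj u).re`,
`s = ((l - q) * conj u).im`: `l - q = (t + s I) u`, `|s| < eta t`, `t ≤ ‖l - q‖ ≤ 2 t < 2 rho`.
`(a j (l - q)).re = t (a j u).re - s (a j u).im`, `(a j (l - q)).im = t (a j u).im + s (a j u).re`.
If `(a j u).re ≠ 0`: choose `eta` with `eta |(a j u).im| ≤ |(a j u).re| / 4` for all such `j`; then `(L j l).re` has the
sign of `(a j u).re` and absolute value at least `kap ‖l - q‖` for small `rho`.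
If `(a j u).re = 0` then `|(a j u).im| = ‖a j‖`; the derivative of `E u j` in the direction `I u` is
`± (deriv (L j) l * (I u)).re`, near `± (a j I u).re = ∓ (a j u).im`, positive by the choice of the sign; and
`(a j (l - q)).im = t (a j u).im`, so `|(L j l).im|` is between `kap ‖l - q‖` and `K' ‖l - q‖`, `(L j l).im` has the sign of
`(a j u).im`; and `E u j l` is near `s ‖a j‖`, positive if `s ≥ eta t / 2`, negative if `s ≤ - eta t / 2`
(after `eta`, choose `rho` small). All constants are for finitely many `j`.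
-/

set_option autoImplicit false

open MeasureTheory Complex Set Filter Topology Metric AddCircle
open scoped ComplexConjugate InnerProductSpace ENNReal

namespace Pool.Agent.TBirC

open Pool.Agent.TBirE

open Pool.Agent.TBir Pool.Agent.TBirG
open Pool.Agent.TBirM (Tri)

private theorem mul_coord {q u l a : ℂ} (hu : ‖u‖ = 1) :
    (a * (l - q)).re = ((l - q) * conj u).re * (a * u).re - ((l - q) * conj u).im * (a * u).im ∧
    (a * (l - q)).im = ((l - q) * conj u).re * (a * u).im +
      ((l - q) * conj u).im * (a * u).re := by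
  have h1 : conj u * u = 1 := by
    rw [mul_comm, Complex.mul_conj, Complex.normSq_eq_norm_sq, hu]
    simp
  have h2 : a * (l - q) = ((l - q) * conj u) * (a * u) := by
    linear_combination (-(a * (l - q))) * h1
  rw [h2, Complex.mul_re, Complex.mul_im]
  exact ⟨rfl, rfl⟩

private theorem tri_norm {q u l : ℂ} {eta rho : ℝ} (hu : ‖u‖ = 1) (he0 : 0 < eta) (he : eta ≤ 1)
    (hl : l ∈ Tri q u eta rho) :
    0 < ((l - q) * conj u).re ∧ ((l - q) * conj u).re ≤ ‖l - q‖ ∧
      ‖l - q‖ ≤ 2 * ((l - q) * conj u).re := by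
  have h1 := hl.1
  set t := ((l - q) * conj u).re with ht
  set s := ((l - q) * conj u).im with hs
  have h2 : 0 ≤ |s| := abs_nonneg s
  have h3 : 0 < t := by
    by_contra h
    push Not at h
    nlinarith
  have h4 : ‖l - q‖ = ‖(l - q) * conj u‖ := by
    rw [norm_mul, RCLike.norm_conj, hu, mul_one]
  refine ⟨h3, ?_, ?_⟩
  · rw [h4]
    exact (le_abs_self _).trans (Complex.abs_re_le_norm _)
  · rw [h4]
    refine (Complex.norm_le_abs_re_add_abs_im _).trans ?_
    have h5 : |((l - q) * conj u).re| = t := abs_of_pos h3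
    rw [h5]
    change t + |s| ≤ 2 * t
    nlinarith

private theorem scal {t n s m x y c M del eta : ℝ} (ht : 0 < t) (h1 : t ≤ n) (h2 : n ≤ 2 * t)
    (hm : del ≤ m) (hM : m ≤ M) (hdel : 0 < del) (he0 : 0 < eta) (hc1 : c ≤ eta * del / 4)
    (hc2 : c ≤ del / 4) (k1 : |x + s * m| ≤ c * t) (k2 : |y - t * m| ≤ c * t) :
    del / 4 * n ≤ y ∧ y ≤ 2 * M * n ∧ (eta / 2 * t ≤ s → x < 0) ∧
      (s ≤ -(eta / 2 * t) → 0 < x) := by
  have b1 := abs_le.1 k1
  have b2 := abs_le.1 k2
  have hm0 : 0 < m := hdel.trans_le hm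
  have hM0 : 0 < M := hm0.trans_le hM
  have a1 : t * del ≤ t * m := mul_le_mul_of_nonneg_left hm ht.le
  have a2 : t * m ≤ t * M := mul_le_mul_of_nonneg_left hM ht.le
  have a3 : c * t ≤ del / 4 * t := mul_le_mul_of_nonneg_right hc2 ht.le
  have a4 : c * t ≤ eta * del / 4 * t := mul_le_mul_of_nonneg_right hc1 ht.le
  have a5 : del * n ≤ del * (2 * t) := mul_le_mul_of_nonneg_left h2 hdel.le
  have a6 : M * t ≤ M * n := mul_le_mul_of_nonneg_left h1 hM0.le
  have a7 : 0 < t * del := mul_pos ht hdel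
  have a8 : 0 < eta * (t * del) := mul_pos he0 a7
  have a9 : eta / 2 * t * del ≤ eta / 2 * t * m :=
    mul_le_mul_of_nonneg_left hm (by positivity)
  refine ⟨by linarith, by linarith, fun h => ?_, fun h => ?_⟩
  · have a10 : eta / 2 * t * m ≤ s * m := mul_le_mul_of_nonneg_right h hm0.le
    linarith
  · have a10 : s * m ≤ -(eta / 2 * t) * m := mul_le_mul_of_nonneg_right h hm0.le
    linarith

private theorem exists_lb {k : ℕ} (d : Fin k → ℝ) (hd : ∀ j, 0 < d j) :
    ∃ del > 0, ∀ j, del ≤ d j := by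
  have h1 : ∀ᶠ x : ℝ in 𝓝[>] 0, ∀ j, x ≤ d j := by
    rw [Filter.eventually_all]
    intro j
    filter_upwards [Ioc_mem_nhdsGT (hd j)] with x hx
    exact hx.2
  obtain ⟨x, h2, h3⟩ := (h1.and (Ioc_mem_nhdsGT (show (0 : ℝ) < 1 from one_pos))).exists
  exact ⟨x, h3.1, h2⟩

/-- the real part of the multiplication by `d` -/
private noncomputable def Dre (d : ℂ) : ℂ →L[ℝ] ℝ :=
  Complex.reCLM.comp ((ContinuousLinearMap.toSpanSingleton ℂ d).restrictScalars ℝ)

private theorem Dre_apply (d v : ℂ) : Dre d v = (d * v).re := by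
  simp [Dre, mul_comm]

private theorem Dre_norm (d : ℂ) : ‖Dre d‖ ≤ ‖d‖ := by
  refine ContinuousLinearMap.opNorm_le_bound _ (norm_nonneg _) fun v => ?_
  rw [Dre_apply, Real.norm_eq_abs, ← norm_mul]
  exact Complex.abs_re_le_norm _

private theorem hasFDerivAt_re {L : ℂ → ℂ} {d l : ℂ} (h : HasDerivAt L d l) :
    HasFDerivAt (fun l => (L l).re) (Dre d) l :=
  Complex.reCLM.hasFDerivAt.comp l (h.hasFDerivAt.restrictScalars ℝ)

private theorem fderiv_E {phi : ℂ → ℂ} {q : ℂ} (B : Br phi q) (u : ℂ) (j : Fin B.k) {d l : ℂ}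
    (h : HasDerivAt (B.L j) d l) :
    fderiv ℝ (B.E u j) l = if (B.a j * u).im < 0 then Dre d else - Dre d := by
  by_cases hc : (B.a j * u).im < 0
  · have h1 : B.E u j = fun l => (B.L j l).re := by
      funext l
      simp only [Br.E, hc, if_true]
    rw [h1, if_pos hc]
    exact (hasFDerivAt_re h).fderiv
  · have h1 : B.E u j = fun l => -(B.L j l).re := by
      funext l
      simp only [Br.E, hc, if_false]
    rw [h1, if_neg hc]
    exact (hasFDerivAt_re h).neg.fderiv

theorem Br.tg {phi : ℂ → ℂ} {q : ℂ} (B : Br phi q)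
    {u : ℂ} (hu : ‖u‖ = 1) {r : ℝ} (hr : 0 < r) :
    ∃ (eta rho kap K : ℝ), 0 < eta ∧ eta ≤ 1 ∧ 0 < rho ∧ 2 * rho ≤ r ∧ 0 < kap ∧ 0 < K ∧
      (∀ j, (B.a j * u).re ≠ 0 → (∀ l ∈ Tri q u eta rho, kap * ‖l - q‖ ≤ (B.L j l).re) ∨
        ∀ l ∈ Tri q u eta rho, (B.L j l).re ≤ -(kap * ‖l - q‖)) ∧
      ∀ j, (B.a j * u).re = 0 → ∀ l ∈ Tri q u eta rho,
        kap ≤ fderiv ℝ (B.E u j) l (I * u) ∧ ‖fderiv ℝ (B.E u j) l‖ ≤ K ∧
        kap * ‖l - q‖ ≤ |(B.L j l).im| ∧ |(B.L j l).im| ≤ K * ‖l - q‖ ∧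
        0 < (B.L j l).im * (B.a j * u).im ∧
        (eta / 2 * ((l - q) * conj u).re ≤ ((l - q) * conj u).im → 0 < B.E u j l) ∧
        (((l - q) * conj u).im ≤ -(eta / 2 * ((l - q) * conj u).re) → B.E u j l < 0) := by
  classical
  obtain ⟨hane, r1, K1, hr1, hr1R, hr1one, hK1, hbas⟩ := B.bas
  have hu0 : u ≠ 0 := by
    rintro rfl
    simp at hu
  have hau : ∀ j, ‖B.a j * u‖ = ‖B.a j‖ := fun j => by rw [norm_mul, hu, mul_one]
  have haupos : ∀ j, B.a j * u ≠ 0 := fun j => mul_ne_zero (hane j) hu0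
  obtain ⟨del, hdel, hdelj⟩ := exists_lb
    (fun j => if (B.a j * u).re = 0 then |(B.a j * u).im| else |(B.a j * u).re|) (fun j => by
      by_cases h : (B.a j * u).re = 0
      · rw [if_pos h]
        exact abs_pos.2 fun h1 => haupos j (Complex.ext h h1)
      · rw [if_neg h]
        exact abs_pos.2 h)
  set M : ℝ := 1 + ∑ j, ‖B.a j‖ with hM
  have hMj : ∀ j, ‖B.a j‖ ≤ M := fun j => by
    have h1 : ‖B.a j‖ ≤ ∑ j, ‖B.a j‖ :=
      Finset.single_le_sum (f := fun j => ‖B.a j‖) (fun i _ => norm_nonneg _) (Finset.mem_univ j)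
    linarith
  have hM1 : 1 ≤ M := by
    have h1 : 0 ≤ ∑ j, ‖B.a j‖ := Finset.sum_nonneg fun i _ => norm_nonneg _
    linarith
  have hM0 : 0 < M := by linarith
  set eta : ℝ := min 1 (del / (4 * M)) with heta
  have he0 : 0 < eta := lt_min one_pos (by positivity)
  have he1 : eta ≤ 1 := min_le_left _ _
  have he2 : eta * M ≤ del / 4 := by
    have h1 : eta ≤ del / (4 * M) := min_le_right _ _
    rw [le_div_iff₀ (by positivity)] at h1
    linarith
  set rho : ℝ := min (min (r / 2) (r1 / 4)) (eta * del / (16 * K1)) with hrho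
  have hrho0 : 0 < rho := lt_min (lt_min (by linarith) (by linarith)) (by positivity)
  have hrho1 : 2 * rho ≤ r := by
    have h1 : rho ≤ r / 2 := (min_le_left _ _).trans (min_le_left _ _)
    linarith
  have hrho2 : 2 * rho < r1 := by
    have h1 : rho ≤ r1 / 4 := (min_le_left _ _).trans (min_le_right _ _)
    linarith
  have hrho3 : 16 * (K1 * rho) ≤ eta * del := by
    have h1 : rho ≤ eta * del / (16 * K1) := min_le_right _ _
    rw [le_div_iff₀ (by positivity)] at h1
    linarith
  have hrho4 : 16 * (K1 * rho) ≤ del := hrho3.trans (by nlinarith)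
  -- the basic estimate
  have key : ∀ j, ∀ l ∈ Tri q u eta rho,
      |(B.L j l).re - (B.a j * (l - q)).re| ≤ 4 * (K1 * rho) * ((l - q) * conj u).re ∧
      |(B.L j l).im - (B.a j * (l - q)).im| ≤ 4 * (K1 * rho) * ((l - q) * conj u).re ∧
      l ∈ ball q r1 := by
    intro j l hl
    obtain ⟨h1, h2, h3⟩ := tri_norm hu he0 he1 hl
    have h4 := hl.2
    have hb : l ∈ ball q r1 := by
      rw [mem_ball, dist_eq_norm]
      linarith
    obtain ⟨-, -, -, h5⟩ := hbas j
    obtain ⟨-, -, -, -, -, -, h6⟩ := h5 l hb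
    have h7 : K1 * ‖l - q‖ ^ 2 ≤ 4 * (K1 * rho) * ((l - q) * conj u).re := by
      have h8 : ‖l - q‖ ^ 2 ≤ 4 * rho * ((l - q) * conj u).re := by nlinarith [norm_nonneg (l - q)]
      calc K1 * ‖l - q‖ ^ 2 ≤ K1 * (4 * rho * ((l - q) * conj u).re) :=
            mul_le_mul_of_nonneg_left h8 hK1.le
        _ = _ := by ring
    refine ⟨?_, ?_, hb⟩
    · rw [← Complex.sub_re]
      exact ((Complex.abs_re_le_norm _).trans h6).trans h7
    · rw [← Complex.sub_im]
      exact ((Complex.abs_im_le_norm _).trans h6).trans h7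
  refine ⟨eta, rho, del / 4, 2 * M, he0, he1, hrho0, hrho1, by positivity, by positivity, ?_, ?_⟩
  · intro j hj
    have hd : del ≤ |(B.a j * u).re| := by
      have h1 := hdelj j
      rwa [if_neg hj] at h1
    have hm : |(B.a j * u).im| ≤ M := ((Complex.abs_im_le_norm _).trans (hau j).le).trans (hMj j)
    have h9 : ∀ l ∈ Tri q u eta rho, |(B.L j l).re - ((l - q) * conj u).re * (B.a j * u).re| ≤
        ((l - q) * conj u).re * (del / 2) := by
      intro l hl
      obtain ⟨h1, -, -⟩ := key j l hl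
      obtain ⟨h2, h3, h4⟩ := tri_norm hu he0 he1 hl
      rw [(mul_coord hu).1] at h1
      have h5 := hl.1
      set t := ((l - q) * conj u).re
      set s := ((l - q) * conj u).im
      have h6 : |s * (B.a j * u).im| ≤ t * (del / 4) := by
        rw [abs_mul]
        calc |s| * |(B.a j * u).im| ≤ (eta * t) * M :=
              mul_le_mul h5.le hm (abs_nonneg _) (by positivity)
          _ = t * (eta * M) := by ring
          _ ≤ t * (del / 4) := mul_le_mul_of_nonneg_left he2 h2.le
      have h7 : 4 * (K1 * rho) * t ≤ t * (del / 4) := by nlinarith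
      have h8 := abs_le.1 h1
      have h10 := abs_le.1 h6
      exact abs_le.2 ⟨by linarith, by linarith⟩
    rcases lt_or_gt_of_ne hj with h | h
    · right
      intro l hl
      obtain ⟨h2, h3, h4⟩ := tri_norm hu he0 he1 hl
      have h5 := (abs_le.1 (h9 l hl)).2
      rw [abs_of_neg h] at hd
      nlinarith
    · left
      intro l hl
      obtain ⟨h2, h3, h4⟩ := tri_norm hu he0 he1 hl
      have h5 := (abs_le.1 (h9 l hl)).1
      rw [abs_of_pos h] at hd
      nlinarith
  · intro j hj l hl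
    have hd : del ≤ |(B.a j * u).im| := by
      have h1 := hdelj j
      rwa [if_pos hj] at h1
    have hm : |(B.a j * u).im| ≤ M := ((Complex.abs_im_le_norm _).trans (hau j).le).trans (hMj j)
    obtain ⟨k1, k2, hb⟩ := key j l hl
    obtain ⟨h2, h3, h4⟩ := tri_norm hu he0 he1 hl
    obtain ⟨hanL, -, -, h5⟩ := hbas j
    obtain ⟨-, -, -, -, -, h6, -⟩ := h5 l hb
    have hder : HasDerivAt (B.L j) (deriv (B.L j) l) l :=
      (hanL l hb).differentiableAt.hasDerivAt
    have hrho5 := hl.2
    rw [(mul_coord hu).1, hj, mul_zero, zero_sub] at k1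
    rw [(mul_coord hu).2, hj, mul_zero, add_zero] at k2
    set t := ((l - q) * conj u).re with ht
    set s := ((l - q) * conj u).im with hs
    set m := (B.a j * u).im with hmdef
    set d := deriv (B.L j) l with hddef
    have h7 : ‖d - B.a j‖ ≤ del / 8 := by
      refine h6.trans ?_
      have h8 : K1 * ‖l - q‖ ≤ K1 * (2 * rho) := mul_le_mul_of_nonneg_left (by linarith) hK1.le
      linarith
    have h8 : |(d * u).im - m| ≤ del / 8 := by
      have h9 : (d * u).im - m = ((d - B.a j) * u).im := by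
        rw [sub_mul, Complex.sub_im]
      rw [h9]
      refine (Complex.abs_im_le_norm _).trans ?_
      rw [norm_mul, hu, mul_one]
      exact h7
    have hIu : (d * (I * u)).re = - (d * u).im := by
      have h9 : d * (I * u) = I * (d * u) := by ring
      rw [h9]
      simp
    have hk1 := abs_le.1 k1
    have hk2 := abs_le.1 k2
    have h8' := abs_le.1 h8
    have hc1 : 4 * (K1 * rho) ≤ eta * del / 4 := by linarith
    have hc2 : 4 * (K1 * rho) ≤ del / 4 := by linarith
    have hsum : ‖d‖ ≤ 2 * M := by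
      have h9 : d = (d - B.a j) + B.a j := by ring
      rw [h9]
      refine (norm_add_le _ _).trans ?_
      have h10 := hMj j
      have h11 : del ≤ M := hd.trans hm
      linarith
    rw [fderiv_E B u j hder]
    by_cases hc : m < 0
    · have hmabs : |m| = -m := abs_of_neg hc
      rw [hmabs] at hd hm
      have hE : B.E u j l = (B.L j l).re := by simp only [Br.E, ← hmdef, hc, if_true]
      obtain ⟨g1, g2, g3, g4⟩ := scal (x := -(B.L j l).re) (y := -(B.L j l).im) (s := s) h2 h3 h4
        hd hm hdel he0 hc1 hc2 (by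
          rw [show -(B.L j l).re + s * -m = -((B.L j l).re - -(s * m)) by ring, abs_neg]
          exact k1) (by
          rw [show -(B.L j l).im - t * -m = -((B.L j l).im - t * m) by ring, abs_neg]
          exact k2)
      have g0 : 0 < -(B.L j l).im :=
        lt_of_lt_of_le (mul_pos (by positivity) (h2.trans_le h3)) g1
      rw [if_pos hc, hE, Dre_apply, hIu, abs_of_neg (neg_pos.1 g0)]
      refine ⟨by linarith, (Dre_norm d).trans hsum, g1, g2, mul_pos_of_neg_of_neg (neg_pos.1 g0) hc,
        fun h11 => neg_lt_zero.1 (g3 h11), fun h11 => neg_pos.1 (g4 h11)⟩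
    · have hm0 : 0 ≤ m := not_lt.1 hc
      have hmabs : |m| = m := abs_of_nonneg hm0
      rw [hmabs] at hd hm
      have hE : B.E u j l = -(B.L j l).re := by simp only [Br.E, ← hmdef, hc, if_false]
      rw [if_neg hc, hE]
      have hn : (-Dre d) (I * u) = (d * u).im := by
        change -(Dre d (I * u)) = _
        rw [Dre_apply, hIu, neg_neg]
      obtain ⟨g1, g2, g3, g4⟩ := scal (x := (B.L j l).re) (y := (B.L j l).im) (s := s) h2 h3 h4
        hd hm hdel he0 hc1 hc2 (by
          rw [show (B.L j l).re + s * m = (B.L j l).re - -(s * m) by ring]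
          exact k1) k2
      have g0 : 0 < (B.L j l).im :=
        lt_of_lt_of_le (mul_pos (by positivity) (h2.trans_le h3)) g1
      have hmp : 0 < m := hdel.trans_le hd
      rw [hn, abs_of_pos g0]
      refine ⟨by linarith, (by rw [norm_neg]; exact (Dre_norm d).trans hsum), g1, g2,
        mul_pos g0 hmp, fun h11 => neg_pos.2 (g3 h11), fun h11 => neg_lt_zero.2 (g4 h11)⟩

end Pool.Agent.TBirC
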