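import Pool.Agent.TBirC.Ctc
import Pool.Agent.TBirC.Tg

/-!
# Two branches tangent to the same direction

Paper proof. Let `r, K0` be from `Br.bas`; take `rho' ≤ rho` with `2 rho' ≤ r` and small enough for the `y0` below;
`W = Tri q u eta rho'`, `t = ((l - q) * conj u).re`, `s = ((l - q) * conj u).im`, `l = q + (t + s I) u`; the fibre of `l` is the
set of the `q + (t + s' I) u`, `|s'| < eta t`. By `TG`, `E u i` and `E u j` are strictly increasing in `s'` on the fibre
(slopes between `kap` and `K`), negative for `s' ≤ - eta t / 2`, positive for `s' ≥ eta t / 2`: exactly one zero `l_i`,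
`l_j` on every fibre (intermediate value theorem).
If `E u i l = 0` then `‖g i l‖ = 1`, `l = phi (g i l) = phi (g i q * exp (y I))` with `y = (L i l).im`,
`kap ‖l - q‖ ≤ |y| ≤ K ‖l - q‖`, and the sign of `y` is that of `(a i u).im`. `contact i j` (`a i u` and `a j u` are both
imaginary, so `(a j * conj (a i)).im = 0` and `2 ≤ p`): for small `rho'` either `E u j l = 0` for all such `l ∈ W`, or
`c ‖l - q‖^p ≤ |E u j l| ≤ C ‖l - q‖^p` with a constant sign.
(1) `E u j = 0` on branch `i`: then `l_i = l_j` on every fibre: `Tie`.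
(2) `E u j < 0` on branch `i`: `Below i j`. If `0 ≤ E u j l` and `E u i l ≤ 0` then `l_i` is above or equal to `l` on the fibre,
so `E u j l_i ≥ E u j l ≥ 0`: contradiction. On a fibre `s_i < s_j` and `- E u j l_i`, `E u i l_j` are between
`kap (s_j - s_i)` and `K (s_j - s_i)`, and `‖l_i - q‖`, `‖l_j - q‖` are between `t` and `2 t`: the second estimate of
`Below` follows from the first one with the same `p`.
(3) `E u j > 0` on branch `i`: `Below j i`, in the same way.
-/

set_option autoImplicit false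

open MeasureTheory Complex Set Filter Topology Metric AddCircle
open scoped ComplexConjugate InnerProductSpace ENNReal

namespace Pool.Agent.TBirC

open Pool.Agent.TBirE

open Pool.Agent.TBir Pool.Agent.TBirG
open Pool.Agent.TBirM (Tri)

private theorem pt_coord {u : ℂ} (hu : ‖u‖ = 1) (q : ℂ) (t s : ℝ) :
    (q + ((t : ℂ) + s * I) * u - q) * conj u = t + s * I := by
  have h1 : u * conj u = 1 := by
    rw [Complex.mul_conj, Complex.normSq_eq_norm_sq, hu]
    simp
  linear_combination ((t : ℂ) + s * I) * h1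

private theorem pt_re {u : ℂ} (hu : ‖u‖ = 1) (q : ℂ) (t s : ℝ) :
    ((q + ((t : ℂ) + s * I) * u - q) * conj u).re = t := by
  rw [pt_coord hu]
  simp

private theorem pt_im {u : ℂ} (hu : ‖u‖ = 1) (q : ℂ) (t s : ℝ) :
    ((q + ((t : ℂ) + s * I) * u - q) * conj u).im = s := by
  rw [pt_coord hu]
  simp

private theorem pt_mem {u : ℂ} (hu : ‖u‖ = 1) (q : ℂ) {t s eta rho : ℝ} (h1 : |s| < eta * t)
    (h2 : t < rho) : q + ((t : ℂ) + s * I) * u ∈ Tri q u eta rho := by
  refine ⟨?_, ?_⟩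
  · rw [pt_re hu, pt_im hu]
    exact h1
  · rw [pt_re hu]
    exact h2

private theorem pt_self {u : ℂ} (hu : ‖u‖ = 1) (q l : ℂ) :
    q + ((((l - q) * conj u).re : ℂ) + ((l - q) * conj u).im * I) * u = l := by
  have h1 : u * conj u = 1 := by
    rw [Complex.mul_conj, Complex.normSq_eq_norm_sq, hu]
    simp
  rw [Complex.re_add_im]
  linear_combination (l - q) * h1

private theorem tri_nrm {q u l : ℂ} {eta rho : ℝ} (hu : ‖u‖ = 1) (he0 : 0 < eta) (he : eta ≤ 1)
    (hl : l ∈ Tri q u eta rho) :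
    0 < ((l - q) * conj u).re ∧ ((l - q) * conj u).re ≤ ‖l - q‖ ∧
      ‖l - q‖ ≤ 2 * ((l - q) * conj u).re := by
  have h1 := hl.1
  set t := ((l - q) * conj u).re with ht
  set s := ((l - q) * conj u).im with hs
  have h2 : 0 ≤ |s| := abs_nonneg s
  have h3 : 0 < t := by
    by_contra h
    push Not at h
    nlinarith
  have h4 : ‖l - q‖ = ‖(l - q) * conj u‖ := by
    rw [norm_mul, RCLike.norm_conj, hu, mul_one]
  refine ⟨h3, ?_, ?_⟩
  · rw [h4]
    exact (le_abs_self _).trans (Complex.abs_re_le_norm _)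
  · rw [h4]
    refine (Complex.norm_le_abs_re_add_abs_im _).trans ?_
    have h5 : |((l - q) * conj u).re| = t := abs_of_pos h3
    rw [h5]
    change t + |s| ≤ 2 * t
    nlinarith

/-- A function which is increasing on the fibres of the triangle. -/
private def Fb (q u : ℂ) (eta rho kap K : ℝ) (F : ℂ → ℝ) : Prop :=
  ∀ l ∈ Tri q u eta rho, kap ≤ fderiv ℝ F l (I * u) ∧ ‖fderiv ℝ F l‖ ≤ K ∧
    (eta / 2 * ((l - q) * conj u).re ≤ ((l - q) * conj u).im → 0 < F l) ∧
    (((l - q) * conj u).im ≤ -(eta / 2 * ((l - q) * conj u).re) → F l < 0)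

private theorem fder {F : ℂ → ℝ} {q u : ℂ} (hu : ‖u‖ = 1) {eta rho kap K : ℝ} (hkap : 0 < kap)
    (hF : Fb q u eta rho kap K F) {t : ℝ} (ht : t < rho) {s : ℝ} (hs : |s| < eta * t) :
    HasDerivAt (fun s : ℝ => F (q + ((t : ℂ) + s * I) * u))
      (fderiv ℝ F (q + ((t : ℂ) + s * I) * u) (I * u)) s := by
  have hd : DifferentiableAt ℝ F (q + ((t : ℂ) + s * I) * u) := by
    by_contra hn
    have h1 := (hF _ (pt_mem hu q hs ht)).1
    rw [fderiv_zero_of_not_differentiableAt hn] at h1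
    rw [show (0 : ℂ →L[ℝ] ℝ) (I * u) = 0 from rfl] at h1
    linarith
  have hc : HasDerivAt (fun s : ℝ => q + ((t : ℂ) + s * I) * u) (I * u) s := by
    have h1 : HasDerivAt (fun s : ℝ => (s : ℂ)) 1 s := by
      simpa using (hasDerivAt_id s).ofReal_comp
    have h2 := (((h1.mul_const I).const_add (t : ℂ)).mul_const u).const_add q
    rwa [one_mul] at h2
  exact hd.hasFDerivAt.comp_hasDerivAt s hc

private theorem fib {F : ℂ → ℝ} {q u : ℂ} (hu : ‖u‖ = 1) {eta rho kap K : ℝ} (hkap : 0 < kap)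
    (hF : Fb q u eta rho kap K F) {t : ℝ} (ht : t < rho) {s1 s2 : ℝ} (h1 : |s1| < eta * t)
    (h2 : |s2| < eta * t) (h12 : s1 ≤ s2) :
    kap * (s2 - s1) ≤ F (q + ((t : ℂ) + s2 * I) * u) - F (q + ((t : ℂ) + s1 * I) * u) ∧
      F (q + ((t : ℂ) + s2 * I) * u) - F (q + ((t : ℂ) + s1 * I) * u) ≤ K * (s2 - s1) := by
  rcases h12.eq_or_lt with rfl | hlt
  · simp
  have habs : ∀ s ∈ Icc s1 s2, |s| < eta * t := by
    intro s hs
    rw [abs_lt] at h1 h2 ⊢
    exact ⟨h1.1.trans_le hs.1, hs.2.trans_lt h2.2⟩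
  have hder := fun s (hs : s ∈ Icc s1 s2) => fder hu hkap hF ht (habs s hs)
  obtain ⟨c, hc, hc'⟩ := exists_hasDerivAt_eq_slope
    (fun s : ℝ => F (q + ((t : ℂ) + s * I) * u))
    (fun s : ℝ => fderiv ℝ F (q + ((t : ℂ) + s * I) * u) (I * u)) hlt
    (fun s hs => (hder s hs).continuousAt.continuousWithinAt)
    (fun s hs => hder s (Ioo_subset_Icc_self hs))
  have hpos : 0 < s2 - s1 := sub_pos.2 hlt
  rw [eq_div_iff hpos.ne'] at hc'
  obtain ⟨b1, b2, -, -⟩ := hF _ (pt_mem hu q (habs c (Ioo_subset_Icc_self hc)) ht)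
  have b3 : fderiv ℝ F (q + ((t : ℂ) + c * I) * u) (I * u) ≤ K := by
    refine (le_abs_self _).trans ?_
    rw [← Real.norm_eq_abs]
    refine (ContinuousLinearMap.le_opNorm _ _).trans ?_
    rw [norm_mul, Complex.norm_I, one_mul, hu, mul_one]
    exact b2
  rw [← hc']
  exact ⟨mul_le_mul_of_nonneg_right b1 hpos.le, mul_le_mul_of_nonneg_right b3 hpos.le⟩

private theorem fzero {F : ℂ → ℝ} {q u : ℂ} (hu : ‖u‖ = 1) {eta rho kap K : ℝ} (he : 0 < eta)
    (hkap : 0 < kap) (hF : Fb q u eta rho kap K F) {t : ℝ} (ht0 : 0 < t) (ht : t < rho) :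
    ∃ s : ℝ, |s| < eta * t ∧ F (q + ((t : ℂ) + s * I) * u) = 0 := by
  have hp : 0 < eta * t := mul_pos he ht0
  have habs : ∀ s ∈ Icc (-(eta * t / 2)) (eta * t / 2), |s| < eta * t := by
    intro s hs
    rw [abs_lt]
    constructor
    · linarith [hs.1]
    · linarith [hs.2]
  have hcont : ContinuousOn (fun s : ℝ => F (q + ((t : ℂ) + s * I) * u))
      (Icc (-(eta * t / 2)) (eta * t / 2)) := fun s hs =>
    (fder hu hkap hF ht (habs s hs)).continuousAt.continuousWithinAt
  have hle : -(eta * t / 2) ≤ eta * t / 2 := by linarith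
  have h1 := intermediate_value_Icc hle hcont
  have h2 : (0 : ℝ) ∈ Icc (F (q + ((t : ℂ) + ((-(eta * t / 2) : ℝ) : ℂ) * I) * u))
      (F (q + ((t : ℂ) + ((eta * t / 2 : ℝ) : ℂ) * I) * u)) := by
    constructor
    · refine le_of_lt ?_
      refine (hF _ (pt_mem hu q (habs _ ⟨le_rfl, hle⟩) ht)).2.2.2 ?_
      rw [pt_re hu, pt_im hu]
      linarith
    · refine le_of_lt ?_
      refine (hF _ (pt_mem hu q (habs _ ⟨hle, le_rfl⟩) ht)).2.2.1 ?_
      rw [pt_re hu, pt_im hu]
      linarith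
  obtain ⟨s, hs, hs'⟩ := h1 h2
  exact ⟨s, habs s hs, hs'⟩

private theorem fsgn {F : ℂ → ℝ} {q u : ℂ} (hu : ‖u‖ = 1) {eta rho kap K : ℝ} (hkap : 0 < kap)
    (hF : Fb q u eta rho kap K F) {t : ℝ} (ht : t < rho) {s s0 : ℝ} (h1 : |s| < eta * t)
    (h2 : |s0| < eta * t) (h0 : F (q + ((t : ℂ) + s0 * I) * u) = 0) :
    (F (q + ((t : ℂ) + s * I) * u) = 0 ↔ s = s0) ∧
      (0 < F (q + ((t : ℂ) + s * I) * u) ↔ s0 < s) := by
  rcases lt_trichotomy s s0 with h | rfl | h
  · have h3 := (fib hu hkap hF ht h1 h2 h.le).1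
    have h4 : 0 < kap * (s0 - s) := mul_pos hkap (sub_pos.2 h)
    rw [h0] at h3
    refine ⟨⟨fun h5 => ?_, fun h5 => absurd h5 h.ne⟩, ⟨fun h5 => ?_, fun h5 => ?_⟩⟩ <;>
      exfalso <;> linarith
  · rw [h0]
    simp
  · have h3 := (fib hu hkap hF ht h2 h1 h.le).1
    have h4 : 0 < kap * (s - s0) := mul_pos hkap (sub_pos.2 h)
    rw [h0] at h3
    refine ⟨⟨fun h5 => ?_, fun h5 => absurd h5 h.ne'⟩, ⟨fun _ => h, fun _ => ?_⟩⟩
    · exfalso
      linarith
    · linarith

private theorem tie_of {Fi Fj : ℂ → ℝ} {q u : ℂ} (hu : ‖u‖ = 1) {eta rho kap K : ℝ}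
    (he : 0 < eta) (he1 : eta ≤ 1) (hkap : 0 < kap) (hi : Fb q u eta rho kap K Fi)
    (hj : Fb q u eta rho kap K Fj) (h0 : ∀ l ∈ Tri q u eta rho, Fi l = 0 → Fj l = 0) :
    ∀ l ∈ Tri q u eta rho, (Fi l = 0 ↔ Fj l = 0) ∧ (0 < Fi l ↔ 0 < Fj l) := by
  intro l hl
  obtain ⟨h1, h2, h3⟩ := tri_nrm hu he he1 hl
  obtain ⟨s0, h4, h5⟩ := fzero hu he hkap hi h1 hl.2
  have h6 := h0 _ (pt_mem hu q h4 hl.2) h5
  have a1 := fsgn hu hkap hi hl.2 hl.1 h4 h5
  have a2 := fsgn hu hkap hj hl.2 hl.1 h4 h6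
  rw [pt_self hu q l] at a1 a2
  exact ⟨a1.1.trans a2.1.symm, a1.2.trans a2.2.symm⟩

private theorem other_of {Fi Fj : ℂ → ℝ} {q u : ℂ} (hu : ‖u‖ = 1) {eta rho kap K : ℝ}
    (he : 0 < eta) (he1 : eta ≤ 1) (hkap : 0 < kap) (hK : 0 < K) (hi : Fb q u eta rho kap K Fi)
    (hj : Fb q u eta rho kap K Fj) {sg c C : ℝ} {p : ℕ} (hsg : sg = 1 ∨ sg = -1) (hc : 0 < c)
    (hC : 0 < C) (h0 : ∀ l ∈ Tri q u eta rho, Fi l = 0 →
      c * ‖l - q‖ ^ p ≤ sg * Fj l ∧ sg * Fj l ≤ C * ‖l - q‖ ^ p) :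
    (∀ l ∈ Tri q u eta rho, 0 ≤ -sg * Fj l → 0 < -sg * Fi l) ∧
    ∀ l ∈ Tri q u eta rho, Fj l = 0 →
      kap / K * c / 2 ^ p * ‖l - q‖ ^ p ≤ -sg * Fi l ∧
        -sg * Fi l ≤ K / kap * C * 2 ^ p * ‖l - q‖ ^ p := by
  have key : ∀ l ∈ Tri q u eta rho, ∃ (s0 : ℝ) (li : ℂ), |s0| < eta * ((l - q) * conj u).re ∧
      li = q + ((((l - q) * conj u).re : ℂ) + s0 * I) * u ∧ Fi li = 0 ∧
      c * ‖li - q‖ ^ p ≤ sg * Fj li ∧ sg * Fj li ≤ C * ‖li - q‖ ^ p ∧
      ‖l - q‖ / 2 ≤ ‖li - q‖ ∧ ‖li - q‖ ≤ 2 * ‖l - q‖ ∧ 0 < ‖li - q‖ := by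
    intro l hl
    obtain ⟨h1, h2, h3⟩ := tri_nrm hu he he1 hl
    obtain ⟨s0, h4, h5⟩ := fzero hu he hkap hi h1 hl.2
    have hm := pt_mem hu q h4 hl.2
    obtain ⟨k1, k2, k3⟩ := tri_nrm hu he he1 hm
    rw [pt_re hu] at k1 k2 k3
    refine ⟨s0, _, h4, rfl, h5, (h0 _ hm h5).1, (h0 _ hm h5).2, by linarith, by linarith,
      by linarith⟩
  constructor
  · intro l hl h5
    obtain ⟨s0, li, a1, a2, a3, a4, -, -, -, a8⟩ := key l hl
    have a9 : 0 < sg * Fj li := lt_of_lt_of_le (mul_pos hc (pow_pos a8 p)) a4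
    by_contra hcon
    push Not at hcon
    have hself := pt_self hu q l
    rcases hsg with rfl | rfl
    · -- `Fj li > 0`, `Fi l ≥ 0`, `Fj l ≤ 0`
      rcases le_total s0 ((l - q) * conj u).im with h | h
      · have b1 := (fib hu hkap hj hl.2 a1 hl.1 h).1
        rw [hself, ← a2] at b1
        have b2 : 0 ≤ kap * (((l - q) * conj u).im - s0) :=
          mul_nonneg hkap.le (sub_nonneg.2 h)
        linarith
      · have b1 := (fib hu hkap hi hl.2 hl.1 a1 h).1
        rw [hself, ← a2, a3] at b1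
        have b2 : 0 ≤ kap * (s0 - ((l - q) * conj u).im) :=
          mul_nonneg hkap.le (sub_nonneg.2 h)
        have b3 : kap * (s0 - ((l - q) * conj u).im) = 0 := by linarith
        have b4 : s0 = ((l - q) * conj u).im := by
          rcases mul_eq_zero.1 b3 with h6 | h6
          · linarith
          · linarith
        rw [b4, hself] at a2
        rw [a2] at a9
        linarith
    · rcases le_total ((l - q) * conj u).im s0 with h | h
      · have b1 := (fib hu hkap hj hl.2 hl.1 a1 h).1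
        rw [hself, ← a2] at b1
        have b2 : 0 ≤ kap * (s0 - ((l - q) * conj u).im) :=
          mul_nonneg hkap.le (sub_nonneg.2 h)
        linarith
      · have b1 := (fib hu hkap hi hl.2 a1 hl.1 h).1
        rw [hself, ← a2, a3] at b1
        have b2 : 0 ≤ kap * (((l - q) * conj u).im - s0) :=
          mul_nonneg hkap.le (sub_nonneg.2 h)
        have b3 : kap * (((l - q) * conj u).im - s0) = 0 := by linarith
        have b4 : s0 = ((l - q) * conj u).im := by
          rcases mul_eq_zero.1 b3 with h6 | h6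
          · linarith
          · linarith
        rw [b4, hself] at a2
        rw [a2] at a9
        linarith
  · intro l hl h5
    obtain ⟨s0, li, a1, a2, a3, a4, a5, a6, a7, a8⟩ := key l hl
    have a9 : 0 < sg * Fj li := lt_of_lt_of_le (mul_pos hc (pow_pos a8 p)) a4
    have hself := pt_self hu q l
    -- a common distance
    obtain ⟨d, d1, d2, d3, d4⟩ : ∃ d : ℝ, kap * d ≤ sg * Fj li ∧ sg * Fj li ≤ K * d ∧
        kap * d ≤ -sg * Fi l ∧ -sg * Fi l ≤ K * d := by
      rcases hsg with rfl | rfl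
      · rcases le_total s0 ((l - q) * conj u).im with h | h
        · exfalso
          have b1 := (fib hu hkap hj hl.2 a1 hl.1 h).1
          rw [hself, ← a2, h5] at b1
          have b2 : 0 ≤ kap * (((l - q) * conj u).im - s0) :=
            mul_nonneg hkap.le (sub_nonneg.2 h)
          linarith
        · have b1 := fib hu hkap hj hl.2 hl.1 a1 h
          have b2 := fib hu hkap hi hl.2 hl.1 a1 h
          rw [hself, ← a2] at b1 b2
          rw [h5] at b1
          rw [a3] at b2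
          exact ⟨s0 - ((l - q) * conj u).im, by linarith, by linarith, by linarith, by linarith⟩
      · rcases le_total ((l - q) * conj u).im s0 with h | h
        · exfalso
          have b1 := (fib hu hkap hj hl.2 hl.1 a1 h).1
          rw [hself, ← a2, h5] at b1
          have b2 : 0 ≤ kap * (s0 - ((l - q) * conj u).im) :=
            mul_nonneg hkap.le (sub_nonneg.2 h)
          linarith
        · have b1 := fib hu hkap hj hl.2 a1 hl.1 h
          have b2 := fib hu hkap hi hl.2 a1 hl.1 h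
          rw [hself, ← a2] at b1 b2
          rw [h5] at b1
          rw [a3] at b2
          exact ⟨((l - q) * conj u).im - s0, by linarith, by linarith, by linarith, by linarith⟩
    have hn : 0 ≤ ‖l - q‖ := norm_nonneg _
    have p1 : (‖l - q‖ / 2) ^ p ≤ ‖li - q‖ ^ p := pow_le_pow_left₀ (by positivity) a6 p
    have p2 : ‖li - q‖ ^ p ≤ (2 * ‖l - q‖) ^ p := pow_le_pow_left₀ a8.le a7 p
    rw [div_pow] at p1
    rw [mul_pow] at p2
    constructor
    · calc kap / K * c / 2 ^ p * ‖l - q‖ ^ p = kap / K * (c * (‖l - q‖ ^ p / 2 ^ p)) := by ring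
        _ ≤ kap / K * (K * d) := by
            refine mul_le_mul_of_nonneg_left ?_ (by positivity)
            exact ((mul_le_mul_of_nonneg_left p1 hc.le).trans a4).trans d2
        _ = kap * d := by
            field_simp
        _ ≤ -sg * Fi l := d3
    · calc -sg * Fi l ≤ K * d := d4
        _ = K / kap * (kap * d) := by
            field_simp
        _ ≤ K / kap * (C * (2 ^ p * ‖l - q‖ ^ p)) := by
            refine mul_le_mul_of_nonneg_left ?_ (by positivity)
            exact (d1.trans a5).trans (mul_le_mul_of_nonneg_left p2 hC.le)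
        _ = K / kap * C * 2 ^ p * ‖l - q‖ ^ p := by ring

private theorem cont3 {phi : ℂ → ℂ} {q : ℂ}
    (B : Br phi q) {u : ℂ} (hu : ‖u‖ = 1) {eta rho kap K : ℝ} (h : B.TG u eta rho kap K)
    (i j : Fin B.k) (hi : (B.a i * u).re = 0) (hj : (B.a j * u).re = 0) :
    ∃ rho1 : ℝ, 0 < rho1 ∧ rho1 ≤ rho ∧
      ((∀ l ∈ Tri q u eta rho1, B.E u i l = 0 → B.E u j l = 0) ∨
      ∃ (sg : ℝ) (p : ℕ) (c C : ℝ), (sg = 1 ∨ sg = -1) ∧ 2 ≤ p ∧ 0 < c ∧ 0 < C ∧
        ∀ l ∈ Tri q u eta rho1, B.E u i l = 0 →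
          c * ‖l - q‖ ^ p ≤ sg * B.E u j l ∧ sg * B.E u j l ≤ C * ‖l - q‖ ^ p) := by
  classical
  obtain ⟨hane, r, K0, hr, hrR, hr1, hK0, hbas⟩ := B.bas
  obtain ⟨he0, he1, hrho, hkap, hK, -, ht⟩ := h
  have hpt : ∀ l ∈ Tri q u eta rho, ‖l - q‖ < r → B.E u i l = 0 →
      phi (B.g i q * Complex.exp (((B.L i l).im : ℝ) * I)) = l := by
    intro l hl hlr h0
    have hb : l ∈ ball q r := by rwa [mem_ball, dist_eq_norm]
    have hb' : l ∈ ball q B.R := ball_subset_ball hrR hb
    have hre : (B.L i l).re = 0 := by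
      unfold Br.E at h0
      split_ifs at h0
      · exact h0
      · linarith
    have hL : B.L i l = ((B.L i l).im : ℝ) * I := by
      apply Complex.ext
      · rw [hre]
        simp
      · simp
    obtain ⟨h1, -⟩ := (hbas i).2.2.2 l hb
    rw [← hL, ← h1]
    exact B.inv i l hb'
  obtain ⟨sj, hsj, hE⟩ : ∃ sj : ℝ, |sj| = 1 ∧ ∀ l, B.E u j l = sj * (B.L j l).re := by
    by_cases hc : (B.a j * u).im < 0
    · refine ⟨1, abs_one, fun l => ?_⟩
      simp only [Br.E, hc, if_true, one_mul]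
    · refine ⟨-1, by rw [abs_neg, abs_one], fun l => ?_⟩
      simp only [Br.E, hc, if_false, neg_mul, one_mul]
  have him : (B.a j * conj (B.a i)).im = 0 := by
    have h1 : conj u * u = 1 := by
      rw [mul_comm, Complex.mul_conj, Complex.normSq_eq_norm_sq, hu]
      simp
    have h2 : B.a j * conj (B.a i) = (B.a j * u) * conj (B.a i * u) := by
      rw [map_mul]
      linear_combination (-(B.a j * conj (B.a i))) * h1
    rw [h2, Complex.mul_im, Complex.conj_re, Complex.conj_im, hi, hj]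
    ring
  rcases contact B i j with hz | ⟨p, b, C, y0, hp1, hb, hy0, hp2, hest⟩
  · obtain ⟨y0, hy0, hball⟩ := Metric.eventually_nhds_iff_ball.1 hz
    refine ⟨min rho (min (r / 2) (y0 / (2 * K))), lt_min hrho (lt_min (by linarith)
      (by positivity)), min_le_left _ _, Or.inl fun l hl h0 => ?_⟩
    have hl' : l ∈ Tri q u eta rho := ⟨hl.1, hl.2.trans_le (min_le_left _ _)⟩
    obtain ⟨h1, h2, h3⟩ := tri_nrm hu he0 he1 hl'
    have h4 : ((l - q) * conj u).re < r / 2 :=
      hl.2.trans_le ((min_le_right _ _).trans (min_le_left _ _))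
    have h5 : ((l - q) * conj u).re < y0 / (2 * K) :=
      hl.2.trans_le ((min_le_right _ _).trans (min_le_right _ _))
    rw [lt_div_iff₀ (by positivity)] at h5
    obtain ⟨-, -, -, h6, -⟩ := ht i hi l hl'
    have h7 : |(B.L i l).im| < y0 := by
      refine h6.trans_lt ?_
      have h8 : K * ‖l - q‖ ≤ K * (2 * ((l - q) * conj u).re) :=
        mul_le_mul_of_nonneg_left h3 hK.le
      linarith
    have h8 := hball (B.L i l).im (by rwa [mem_ball, dist_zero_right, Real.norm_eq_abs])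
    rw [hpt l hl' (by linarith) h0] at h8
    rw [hE, h8, mul_zero]
  · have hM : 0 < |C| + 1 := by positivity
    have hb' : 0 < |b| := abs_pos.2 hb
    obtain ⟨e, he, hye⟩ : ∃ e : ℝ, |e| = 1 ∧ ∀ l ∈ Tri q u eta rho,
        (B.L i l).im = e * |(B.L i l).im| := by
      by_cases hc : (B.a i * u).im < 0
      · refine ⟨-1, by rw [abs_neg, abs_one], fun l hl => ?_⟩
        obtain ⟨-, -, -, -, h6, -⟩ := ht i hi l hl
        have h7 : (B.L i l).im < 0 := by
          by_contra h8
          push Not at h8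
          have h9 := mul_nonpos_of_nonneg_of_nonpos h8 hc.le
          linarith
        rw [abs_of_neg h7]
        ring
      · refine ⟨1, abs_one, fun l hl => ?_⟩
        obtain ⟨-, -, -, -, h6, -⟩ := ht i hi l hl
        push Not at hc
        have h7 : 0 < (B.L i l).im := by
          by_contra h8
          push Not at h8
          have h9 := mul_nonpos_of_nonpos_of_nonneg h8 hc
          linarith
        rw [abs_of_pos h7, one_mul]
    obtain ⟨sg, hsg, hsgb⟩ : ∃ sg : ℝ, (sg = 1 ∨ sg = -1) ∧ sg * (sj * b * e ^ p) = |b| := by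
      have h1 : |sj * b * e ^ p| = |b| := by
        rw [abs_mul, abs_mul, hsj, one_mul, abs_pow, he, one_pow, mul_one]
      rcases le_total 0 (sj * b * e ^ p) with h2 | h2
      · rw [abs_of_nonneg h2] at h1
        exact ⟨1, Or.inl rfl, by rw [one_mul, h1]⟩
      · rw [abs_of_nonpos h2] at h1
        exact ⟨-1, Or.inr rfl, by rw [neg_one_mul, h1]⟩
    have hsgabs : |sg| = 1 := by
      rcases hsg with rfl | rfl
      · exact abs_one
      · rw [abs_neg, abs_one]
    refine ⟨min rho (min (r / 2) (min (y0 / (2 * K)) (|b| / (4 * K * (|C| + 1))))),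
      lt_min hrho (lt_min (by linarith) (lt_min (by positivity) (by positivity))),
      min_le_left _ _, Or.inr ⟨sg, p, |b| / 2 * kap ^ p, 2 * |b| * K ^ p, hsg, hp2 him,
        by positivity, by positivity, fun l hl h0 => ?_⟩⟩
    have hl' : l ∈ Tri q u eta rho := ⟨hl.1, hl.2.trans_le (min_le_left _ _)⟩
    obtain ⟨h1, h2, h3⟩ := tri_nrm hu he0 he1 hl'
    have h4 : ((l - q) * conj u).re < r / 2 :=
      hl.2.trans_le ((min_le_right _ _).trans (min_le_left _ _))
    have h5 : ((l - q) * conj u).re < y0 / (2 * K) :=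
      hl.2.trans_le ((min_le_right _ _).trans ((min_le_right _ _).trans (min_le_left _ _)))
    have h5' : ((l - q) * conj u).re < |b| / (4 * K * (|C| + 1)) :=
      hl.2.trans_le ((min_le_right _ _).trans ((min_le_right _ _).trans (min_le_right _ _)))
    rw [lt_div_iff₀ (by positivity)] at h5 h5'
    obtain ⟨-, -, g1, g2, -⟩ := ht i hi l hl'
    have g3 : |(B.L i l).im| ≤ K * (2 * ((l - q) * conj u).re) :=
      g2.trans (mul_le_mul_of_nonneg_left h3 hK.le)
    have h7 : |(B.L i l).im| < y0 := by linarith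
    have h8 := hest (B.L i l).im h7
    rw [hpt l hl' (by linarith) h0] at h8
    have h9 := hye l hl'
    rw [hE l]
    set y := (B.L i l).im with hydef
    set x := (B.L j l).re with hxdef
    have hyp : y ^ p = e ^ p * |y| ^ p := by
      conv_lhs => rw [h9]
      rw [mul_pow]
    have e1 : sg * (sj * x) - |b| * |y| ^ p = (sg * sj) * (x - b * y ^ p) := by
      rw [hyp, ← hsgb]
      ring
    have e2 : |sg * (sj * x) - |b| * |y| ^ p| ≤ |b| / 2 * |y| ^ p := by
      rw [e1, abs_mul, abs_mul, hsgabs, hsj, one_mul, one_mul]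
      refine h8.trans ?_
      have f1 : C * |y| ^ (p + 1) ≤ (|C| + 1) * |y| ^ (p + 1) := by
        refine mul_le_mul_of_nonneg_right ?_ (by positivity)
        linarith [le_abs_self C]
      refine f1.trans ?_
      have f2 : (|C| + 1) * |y| ≤ |b| / 2 := by
        have f3 : (|C| + 1) * |y| ≤ (|C| + 1) * (K * (2 * ((l - q) * conj u).re)) :=
          mul_le_mul_of_nonneg_left g3 hM.le
        linarith
      calc (|C| + 1) * |y| ^ (p + 1) = (|C| + 1) * |y| * |y| ^ p := by ring
        _ ≤ |b| / 2 * |y| ^ p := mul_le_mul_of_nonneg_right f2 (by positivity)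
    have e3 := abs_le.1 e2
    have hn : 0 ≤ ‖l - q‖ := norm_nonneg _
    have p1 : kap ^ p * ‖l - q‖ ^ p ≤ |y| ^ p := by
      rw [← mul_pow]
      exact pow_le_pow_left₀ (by positivity) g1 p
    have p2 : |y| ^ p ≤ K ^ p * ‖l - q‖ ^ p := by
      rw [← mul_pow]
      exact pow_le_pow_left₀ (abs_nonneg _) g2 p
    have q1 : |b| / 2 * (kap ^ p * ‖l - q‖ ^ p) ≤ |b| / 2 * |y| ^ p :=
      mul_le_mul_of_nonneg_left p1 (by positivity)
    have q2 : 2 * |b| * |y| ^ p ≤ 2 * |b| * (K ^ p * ‖l - q‖ ^ p) :=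
      mul_le_mul_of_nonneg_left p2 (by positivity)
    have q3 : 0 ≤ |b| * |y| ^ p := by positivity
    constructor
    · linarith
    · linarith

theorem Br.ord {phi : ℂ → ℂ} {q : ℂ} (B : Br phi q)
    {u : ℂ} (hu : ‖u‖ = 1) {eta rho kap K : ℝ} (h : B.TG u eta rho kap K) :
    ∃ rho' : ℝ, 0 < rho' ∧ rho' ≤ rho ∧ ∀ i j, (B.a i * u).re = 0 → (B.a j * u).re = 0 →
      B.Tie u (Tri q u eta rho') i j ∨ B.Below u (Tri q u eta rho') i j ∨
        B.Below u (Tri q u eta rho') j i := by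
  have hev : ∀ i j, ∀ᶠ x : ℝ in 𝓝[>] 0, (B.a i * u).re = 0 → (B.a j * u).re = 0 →
      B.Tie u (Tri q u eta x) i j ∨ B.Below u (Tri q u eta x) i j ∨
        B.Below u (Tri q u eta x) j i := by
    intro i j
    by_cases hi : (B.a i * u).re = 0
    swap
    · exact Filter.Eventually.of_forall fun x h1 => absurd h1 hi
    by_cases hj : (B.a j * u).re = 0
    swap
    · exact Filter.Eventually.of_forall fun x _ h1 => absurd h1 hj
    obtain ⟨rho1, hr1, hr2, h3⟩ := cont3 B hu h i j hi hj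
    obtain ⟨he0, he1, hrho, hkap, hK, -, ht⟩ := h
    filter_upwards [Ioc_mem_nhdsGT hr1] with x hx _ _
    have hsub : Tri q u eta x ⊆ Tri q u eta rho1 := fun l hl => ⟨hl.1, hl.2.trans_le hx.2⟩
    have hsub' : Tri q u eta x ⊆ Tri q u eta rho := fun l hl =>
      ⟨hl.1, hl.2.trans_le (hx.2.trans hr2)⟩
    have hfb : ∀ k, (B.a k * u).re = 0 → Fb q u eta x kap K (B.E u k) := by
      intro k hk l hl
      obtain ⟨b1, b2, -, -, -, b3, b4⟩ := ht k hk l (hsub' hl)
      exact ⟨b1, b2, b3, b4⟩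
    rcases h3 with h3 | ⟨sg, p, c, C, hsg, hp, hc, hC, h3⟩
    · exact Or.inl (tie_of hu he0 he1 hkap (hfb i hi) (hfb j hj) fun l hl => h3 l (hsub hl))
    · right
      obtain ⟨g1, g2⟩ := other_of hu he0 he1 hkap hK (hfb i hi) (hfb j hj) hsg hc hC
        fun l hl => h3 l (hsub hl)
      have hc' : 0 < min c (kap / K * c / 2 ^ p) := lt_min hc (by positivity)
      have hC' : 0 < max C (K / kap * C * 2 ^ p) := lt_max_of_lt_left hC
      have m1 : ∀ l : ℂ, min c (kap / K * c / 2 ^ p) * ‖l - q‖ ^ p ≤ c * ‖l - q‖ ^ p := fun l =>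
        mul_le_mul_of_nonneg_right (min_le_left _ _) (by positivity)
      have m2 : ∀ l : ℂ, min c (kap / K * c / 2 ^ p) * ‖l - q‖ ^ p ≤
          kap / K * c / 2 ^ p * ‖l - q‖ ^ p := fun l =>
        mul_le_mul_of_nonneg_right (min_le_right _ _) (by positivity)
      have m3 : ∀ l : ℂ, C * ‖l - q‖ ^ p ≤ max C (K / kap * C * 2 ^ p) * ‖l - q‖ ^ p := fun l =>
        mul_le_mul_of_nonneg_right (le_max_left _ _) (by positivity)
      have m4 : ∀ l : ℂ, K / kap * C * 2 ^ p * ‖l - q‖ ^ p ≤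
          max C (K / kap * C * 2 ^ p) * ‖l - q‖ ^ p := fun l =>
        mul_le_mul_of_nonneg_right (le_max_right _ _) (by positivity)
      rcases hsg with rfl | rfl
      · right
        refine ⟨fun l hl h5 => ?_, p, _, _, hp, hc', hC', fun l hl h5 => ?_, fun l hl h5 => ?_⟩
        · by_contra h6
          push Not at h6
          have h7 := g1 l hl (by linarith)
          linarith
        · obtain ⟨h6, h7⟩ := g2 l hl h5
          constructor
          · linarith [m2 l]
          · linarith [m4 l]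
        · obtain ⟨h6, h7⟩ := h3 l (hsub hl) h5
          constructor
          · linarith [m1 l]
          · linarith [m3 l]
      · left
        refine ⟨fun l hl h5 => ?_, p, _, _, hp, hc', hC', fun l hl h5 => ?_, fun l hl h5 => ?_⟩
        · have h7 := g1 l hl (by linarith)
          linarith
        · obtain ⟨h6, h7⟩ := h3 l (hsub hl) h5
          constructor
          · linarith [m1 l]
          · linarith [m3 l]
        · obtain ⟨h6, h7⟩ := g2 l hl h5
          constructor
          · linarith [m2 l]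
          · linarith [m4 l]
  have hall : ∀ᶠ x : ℝ in 𝓝[>] 0, ∀ i j, (B.a i * u).re = 0 → (B.a j * u).re = 0 →
      B.Tie u (Tri q u eta x) i j ∨ B.Below u (Tri q u eta x) i j ∨
        B.Below u (Tri q u eta x) j i :=
    Filter.eventually_all.2 fun i => Filter.eventually_all.2 fun j => hev i j
  obtain ⟨x, h1, h2⟩ := (hall.and (Ioc_mem_nhdsGT h.2.2.1)).exists
  exact ⟨x, h2.1, h2.2, h1⟩

end Pool.Agent.TBirC
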