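import Pool.Agent.TBirC.Dd
import Pool.Agent.TBirC.HW

/-!
# The quotient by the polynomial with the zeros `g j l`

Paper proof. `δ`, `s` from `dd_loc`. Near `g j q` (`‖e x - g j q‖ < 2 δ`), for `e x ≠ g j l`:
`ps B l x = dslope phi (g j l) (e x) / prod (i ≠ j) (e x - g i l)`, since `phi (g j l) = l`; `‖e x - g i l‖ ≥ δ` for
`i ≠ j`. If `‖e x - g j q‖ ≥ δ` for all `j`: `‖e x - g j l‖ ≥ δ / 2` for all `j`. The set of `x` with `e x = g j l` for some `j` has
measure `0` (finite). So `ps B l` is bounded (a.e.) by one constant for `l` near `q` (a.e. strongly measurable: quotient), and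
`‖ps B l x - ps B q x‖ ≤ ep` a.e. for `l` close to `q` (uniform convergence of all factors). `TM (mf (zeta ^ n * ps B l))` is
at distance at most `ep` from the invertible operator for `l = q`, so it is invertible with
`‖inverse‖ ≤ 2 ‖inverse at q‖` for small `ep` (a small perturbation of a unit, `Units.nearby` or Neumann series:
`A = A0 (1 + A0⁻¹ (A - A0))`). By `isUnit_of_TM` `mf (zeta ^ n * ps B l)` is invertible with the same bound for the inverse.
The last identity: `phi (e x) - l = (e x) ^ n * ps B l x * ((e x) ^ (-n) * prod (e x - g j l))` a.e.,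
`mf_mul`, `mf_ct`, `mf_sub`, `mf_const`.
-/

set_option autoImplicit false

open MeasureTheory Complex Set Filter Topology Metric AddCircle
open scoped ComplexConjugate InnerProductSpace ENNReal

namespace Pool.Agent.TBirC

open Pool.Agent.TBir

/-- The quotient `(phi - l) / prod (zeta - g j l)`. -/
noncomputable def Br.ps {phi : ℂ → ℂ} {q : ℂ} (B : Br phi q) (l : ℂ) (x : UnitAddCircle) : ℂ :=
  (phi (e x) - l) / ∏ j, (e x - B.g j l)

/-- The operator `Th`. -/
noncomputable def Br.Th {phi : ℂ → ℂ} {q : ℂ} (B : Br phi q) (n : ℤ) (l : ℂ) : Op2 :=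
  mf (fun x => (e x) ^ n * B.ps l x)

namespace PsiAux

theorem norm_e' (x : UnitAddCircle) : ‖e x‖ = 1 := by
  unfold e
  exact Circle.norm_coe _

theorem e_ne (x : UnitAddCircle) : e x ≠ 0 := by
  intro h
  have := norm_e' x
  rw [h, norm_zero] at this
  exact zero_ne_one this

theorem cont_e : Continuous e := by
  unfold e
  exact continuous_subtype_val.comp continuous_toCircle

theorem four_e (n : ℤ) (x : UnitAddCircle) : (fourier n : CT) x = e x ^ n := by
  rw [fourier_apply, toCircle_zsmul]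
  push_cast
  rfl

theorem e_inj {x y : UnitAddCircle} (h : e x = e y) : x = y :=
  injective_toCircle one_ne_zero (Subtype.ext h)

theorem exists_e {z : ℂ} (hz : z ∈ sphere (0 : ℂ) 1) : ∃ x : UnitAddCircle, e x = z := by
  obtain ⟨x, hx⟩ := (homeomorphCircle (T := (1 : ℝ)) one_ne_zero).surjective
    ⟨z, by simpa [Submonoid.unitSphere] using hz⟩
  refine ⟨x, ?_⟩
  rw [homeomorphCircle_apply] at hx
  unfold e
  rw [hx]

theorem null {s : Set UnitAddCircle} (hs : s.Finite) : mu0 s = 0 := by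
  have h1 : Nontrivial UnitAddCircle := by
    obtain ⟨x, hx⟩ := exists_e (z := 1) (by simp)
    obtain ⟨y, hy⟩ := exists_e (z := -1) (by simp)
    refine ⟨⟨x, y, fun h => ?_⟩⟩
    rw [h, hy] at hx
    norm_num at hx
  have h2 : NullSingletonClass mu0 := inferInstance
  exact hs.measure_zero _

/-- The compact set of numerators and factors. -/
def KK (k : ℕ) (M δ : ℝ) : Set (ℂ × (Fin k → ℂ)) :=
  {p | ‖p.1‖ ≤ M ∧ ∀ i, δ ≤ ‖p.2 i‖ ∧ ‖p.2 i‖ ≤ 3}

theorem isCompact_KK (k : ℕ) (M δ : ℝ) : IsCompact (KK k M δ) := by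
  refine Metric.isCompact_of_isClosed_isBounded ?_ ?_
  · have h : KK k M δ = {p : ℂ × (Fin k → ℂ) | ‖p.1‖ ≤ M} ∩
        ⋂ i : Fin k, ({p : ℂ × (Fin k → ℂ) | δ ≤ ‖p.2 i‖} ∩ {p | ‖p.2 i‖ ≤ 3}) := by
      ext p
      simp only [KK, mem_inter_iff, mem_iInter]
      rfl
    rw [h]
    refine IsClosed.inter (isClosed_le (by fun_prop) continuous_const)
      (isClosed_iInter fun i => IsClosed.inter (isClosed_le continuous_const (by fun_prop))
        (isClosed_le (by fun_prop) continuous_const))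
  · rw [isBounded_iff_forall_norm_le]
    refine ⟨max M 3, ?_⟩
    rintro p ⟨h1, h2⟩
    rw [Prod.norm_def]
    refine max_le_max h1 ?_
    rw [pi_norm_le_iff_of_nonneg (by norm_num)]
    exact fun i => (h2 i).2

theorem contOn_KK (k : ℕ) (M : ℝ) {δ : ℝ} (hδ : 0 < δ) :
    ContinuousOn (fun p : ℂ × (Fin k → ℂ) => p.1 / ∏ i, p.2 i) (KK k M δ) := by
  refine ContinuousOn.div (by fun_prop) (by fun_prop) ?_
  rintro p ⟨-, h2⟩
  rw [Finset.prod_ne_zero_iff]
  intro i _
  exact norm_pos_iff.1 (hδ.trans_le (h2 i).1)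

theorem key {phi : ℂ → ℂ} {q : ℂ} (B : Br phi q) {M : ℝ} (hM : 0 ≤ M) :
    ∃ C1 s : ℝ, 0 < C1 ∧ 0 < s ∧ s ≤ B.R ∧
      (∀ l ∈ ball q s, ∀ x : UnitAddCircle, ‖phi (e x)‖ ≤ M → (∀ j, e x ≠ B.g j l) →
        ‖B.ps l x‖ ≤ C1) ∧
      ∀ ep : ℝ, 0 < ep → ∃ s' : ℝ, 0 < s' ∧ s' ≤ s ∧ ∀ l ∈ ball q s', ∀ x : UnitAddCircle,
        ‖phi (e x)‖ ≤ M → (∀ j, e x ≠ B.g j l) → (∀ j, e x ≠ B.g j q) →
        ‖B.ps l x - B.ps q x‖ ≤ ep := by
  classical
  obtain ⟨δ, c, C, s, hδ, hδ4, hc, hC, hs, hsR, hsep, hnear, -, hdd, hunif⟩ := dd_loc B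
  set M' : ℝ := C + M + ‖q‖ + s with hM'
  have hq0 : (0 : ℝ) ≤ ‖q‖ := norm_nonneg q
  -- the representation
  have hrep : ∀ x : UnitAddCircle, ‖phi (e x)‖ ≤ M → ∃ (N : ℂ → ℂ) (v : ℂ → Fin B.k → ℂ),
      (∀ l ∈ ball q s, (∀ j, e x ≠ B.g j l) → B.ps l x = N l / ∏ i, v l i) ∧
      (∀ l ∈ ball q s, (N l, v l) ∈ KK B.k M' δ) ∧
      ∀ ep : ℝ, ∀ s' : ℝ, 0 < s' → s' ≤ s → s' ≤ ep → (∀ l ∈ ball q s', ∀ j,
        ‖B.g j l - B.g j q‖ ≤ ep ∧ ∀ w ∈ ball (B.g j q) (2 * δ),
          ‖dslope phi (B.g j l) w - dslope phi (B.g j q) w‖ ≤ ep) →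
        ∀ l ∈ ball q s', ‖N l - N q‖ ≤ ep ∧ ∀ i, ‖v l i - v q i‖ ≤ ep := by
    intro x hx
    have hup : ∀ l ∈ ball q s, ∀ i, ‖e x - B.g i l‖ ≤ 3 := by
      intro l hl i
      have h1 := hnear i l hl
      have h2 := B.norm_q i
      calc ‖e x - B.g i l‖ = ‖e x - B.g i q - (B.g i l - B.g i q)‖ := by congr 1; ring
        _ ≤ ‖e x‖ + ‖B.g i q‖ + ‖B.g i l - B.g i q‖ :=
            (norm_sub_le _ _).trans (add_le_add_left (norm_sub_le _ _) _)
        _ ≤ 3 := by rw [norm_e', h2]; linarith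
    by_cases hcase : ∃ j, e x ∈ ball (B.g j q) (2 * δ)
    · obtain ⟨j, hj⟩ := hcase
      refine ⟨fun l => dslope phi (B.g j l) (e x),
        fun l i => if i = j then 1 else e x - B.g i l, ?_, ?_, ?_⟩
      · intro l hl hne
        have h1 : phi (B.g j l) = l := B.inv j l (ball_subset_ball hsR hl)
        have h2 : (∏ i, if i = j then (1 : ℂ) else e x - B.g i l) =
            ∏ i ∈ Finset.univ.erase j, (e x - B.g i l) := by
          rw [← Finset.mul_prod_erase Finset.univ _ (Finset.mem_univ j), if_pos rfl, one_mul]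
          exact Finset.prod_congr rfl fun i hi => if_neg (Finset.ne_of_mem_erase hi)
        have h3 : dslope phi (B.g j l) (e x) = (phi (e x) - l) / (e x - B.g j l) := by
          rw [dslope_of_ne _ (hne j), slope_def_field, h1]
        change (phi (e x) - l) / ∏ i, (e x - B.g i l) =
          dslope phi (B.g j l) (e x) / ∏ i, (if i = j then (1 : ℂ) else e x - B.g i l)
        rw [h2, h3, ← Finset.mul_prod_erase Finset.univ _ (Finset.mem_univ j), div_div]
      · intro l hl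
        refine ⟨?_, fun i => ?_⟩
        · have := ((hdd j l hl).2 (e x) hj).2
          change ‖dslope phi (B.g j l) (e x)‖ ≤ M'
          rw [hM']
          linarith
        · change δ ≤ ‖if i = j then (1 : ℂ) else e x - B.g i l‖ ∧
            ‖if i = j then (1 : ℂ) else e x - B.g i l‖ ≤ 3
          split_ifs with h
          · rw [norm_one]
            exact ⟨by linarith, by norm_num⟩
          · refine ⟨?_, hup l hl i⟩
            have h1 := hsep i j h
            have h2 := hnear i l hl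
            have h3 : ‖e x - B.g j q‖ < 2 * δ := by
              rw [← dist_eq_norm]
              exact hj
            have h4 : ‖B.g i q - B.g j q‖ ≤ ‖e x - B.g i l‖ + ‖B.g i l - B.g i q‖ +
                ‖e x - B.g j q‖ := by
              calc ‖B.g i q - B.g j q‖ = ‖(e x - B.g j q) - (e x - B.g i l) -
                    (B.g i l - B.g i q)‖ := by congr 1; ring
                _ ≤ ‖e x - B.g j q‖ + ‖e x - B.g i l‖ + ‖B.g i l - B.g i q‖ :=
                    (norm_sub_le _ _).trans (add_le_add_left (norm_sub_le _ _) _)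
                _ = _ := by ring
            linarith
      · intro ep s' hs0 hs' hep hH l hl
        refine ⟨(hH l hl j).2 (e x) hj, fun i => ?_⟩
        change ‖(if i = j then (1 : ℂ) else e x - B.g i l) -
          (if i = j then (1 : ℂ) else e x - B.g i q)‖ ≤ ep
        split_ifs with h
        · rw [sub_self, norm_zero]
          linarith
        · have h1 : e x - B.g i l - (e x - B.g i q) = -(B.g i l - B.g i q) := by ring
          rw [h1, norm_neg]
          exact (hH l hl i).1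
    · push Not at hcase
      refine ⟨fun l => phi (e x) - l, fun l i => e x - B.g i l, fun l _ _ => rfl, ?_, ?_⟩
      · intro l hl
        refine ⟨?_, fun i => ⟨?_, hup l hl i⟩⟩
        · have h1 : ‖l - q‖ < s := by
            rw [← dist_eq_norm]
            exact hl
          have h2 : ‖l‖ ≤ ‖q‖ + ‖l - q‖ := by
            calc ‖l‖ = ‖q + (l - q)‖ := by congr 1; ring
              _ ≤ _ := norm_add_le _ _
          change ‖phi (e x) - l‖ ≤ M'
          have h3 := norm_sub_le (phi (e x)) l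
          rw [hM']
          linarith
        · have h1 := hcase i
          rw [mem_ball, not_lt, dist_eq_norm] at h1
          have h2 := hnear i l hl
          have h3 : ‖e x - B.g i q‖ ≤ ‖e x - B.g i l‖ + ‖B.g i l - B.g i q‖ := by
            calc ‖e x - B.g i q‖ = ‖(e x - B.g i l) + (B.g i l - B.g i q)‖ := by congr 1; ring
              _ ≤ _ := norm_add_le _ _
          change δ ≤ ‖e x - B.g i l‖
          linarith
      · intro ep s' hs0 hs' hep hH l hl
        refine ⟨?_, fun i => ?_⟩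
        · change ‖phi (e x) - l - (phi (e x) - q)‖ ≤ ep
          have h1 : phi (e x) - l - (phi (e x) - q) = -(l - q) := by ring
          rw [h1, norm_neg, ← dist_eq_norm]
          exact (le_of_lt hl).trans hep
        · change ‖e x - B.g i l - (e x - B.g i q)‖ ≤ ep
          have h1 : e x - B.g i l - (e x - B.g i q) = -(B.g i l - B.g i q) := by ring
          rw [h1, norm_neg]
          exact (hH l hl i).1
  -- bound
  have hcp := isCompact_KK B.k M' δ
  have hct := contOn_KK B.k M' hδ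
  obtain ⟨C1, hC1⟩ := hcp.exists_bound_of_continuousOn hct
  refine ⟨max C1 1, s, by positivity, hs, hsR, ?_, ?_⟩
  · intro l hl x hx hne
    obtain ⟨N, v, h1, h2, -⟩ := hrep x hx
    rw [h1 l hl hne]
    exact (hC1 _ (h2 l hl)).trans (le_max_left _ _)
  · intro ep hep
    have hu := hcp.uniformContinuousOn_of_continuous hct
    rw [Metric.uniformContinuousOn_iff] at hu
    obtain ⟨d, hd, hu⟩ := hu ep hep
    obtain ⟨s1, hs1, hs1s, hH⟩ := hunif (d / 2) (by positivity)
    refine ⟨min s1 (d / 2), by positivity, (min_le_left _ _).trans hs1s, ?_⟩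
    intro l hl x hx hne hneq
    obtain ⟨N, v, h1, h2, h3⟩ := hrep x hx
    have hl1 : l ∈ ball q s := ball_subset_ball ((min_le_left _ _).trans hs1s) hl
    have hq1 : q ∈ ball q s := mem_ball_self hs
    obtain ⟨h4, h5⟩ := h3 (d / 2) (min s1 (d / 2)) (by positivity)
      ((min_le_left _ _).trans hs1s) (min_le_right _ _)
      (fun l' hl' => hH l' (ball_subset_ball (min_le_left _ _) hl')) l hl
    rw [h1 l hl1 hne, h1 q hq1 hneq, ← dist_eq_norm]
    refine (hu _ (h2 l hl1) _ (h2 q hq1) ?_).le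
    rw [Prod.dist_eq, max_lt_iff]
    refine ⟨?_, ?_⟩
    · change dist (N l) (N q) < d
      rw [dist_eq_norm]
      linarith
    · change dist (v l) (v q) < d
      refine lt_of_le_of_lt ((dist_pi_le_iff (by positivity)).2 fun i => ?_) (by linarith :
        d / 2 < d)
      rw [dist_eq_norm]
      exact h5 i

end PsiAux

open PsiAux

theorem ae_ne {phi : ℂ → ℂ} {q : ℂ} (B : Br phi q) (l : ℂ) :
    ∀ᵐ x : UnitAddCircle ∂mu0, ∀ j, e x ≠ B.g j l := by
  rw [ae_all_iff]
  intro j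
  rw [ae_iff]
  have h : {x : UnitAddCircle | ¬ e x ≠ B.g j l}.Subsingleton := by
    intro x hx y hy
    have hx' : e x = B.g j l := not_not.1 hx
    have hy' : e y = B.g j l := not_not.1 hy
    exact e_inj (hx'.trans hy'.symm)
  exact null h.finite

namespace PsiAux

theorem aesm {phi : ℂ → ℂ} (hb : MemLp (fun x : UnitAddCircle => phi (e x)) ∞ mu0) {q : ℂ}
    (B : Br phi q) (l : ℂ) : AEStronglyMeasurable (B.ps l) mu0 := by
  have h1 : AEMeasurable (fun x : UnitAddCircle => phi (e x)) mu0 := hb.1.aemeasurable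
  have h2 : AEMeasurable (fun x : UnitAddCircle => phi (e x) - l) mu0 := h1.sub_const l
  have h3 : Continuous fun x : UnitAddCircle => ∏ j, (e x - B.g j l) := by
    have := cont_e
    fun_prop
  exact (h2.div h3.measurable.aemeasurable).aestronglyMeasurable

theorem aesm_n {phi : ℂ → ℂ} (hb : MemLp (fun x : UnitAddCircle => phi (e x)) ∞ mu0) {q : ℂ}
    (B : Br phi q) (n : ℤ) (l : ℂ) :
    AEStronglyMeasurable (fun x => (e x) ^ n * B.ps l x) mu0 := by
  have h3 : Continuous fun x : UnitAddCircle => (e x) ^ n :=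
    cont_e.zpow₀ n fun x => Or.inl (e_ne x)
  exact h3.aestronglyMeasurable.mul (aesm hb B l)

theorem bound {phi : ℂ → ℂ} (hb : MemLp (fun x : UnitAddCircle => phi (e x)) ∞ mu0) :
    ∃ M : ℝ, 0 ≤ M ∧ ∀ᵐ x : UnitAddCircle ∂mu0, ‖phi (e x)‖ ≤ M := by
  have h1 : eLpNormEssSup (fun x : UnitAddCircle => phi (e x)) mu0 < ∞ := by
    rw [← eLpNorm_exponent_top]
    exact hb.2
  refine ⟨(eLpNormEssSup (fun x : UnitAddCircle => phi (e x)) mu0).toReal,
    ENNReal.toReal_nonneg, ?_⟩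
  filter_upwards [enorm_ae_le_eLpNormEssSup (fun x : UnitAddCircle => phi (e x)) mu0] with x hx
  rw [← toReal_enorm]
  exact ENNReal.toReal_mono h1.ne hx

end PsiAux

theorem memLp_ps {phi : ℂ → ℂ} (hb : MemLp (fun x : UnitAddCircle => phi (e x)) ∞ mu0) {q : ℂ}
    (B : Br phi q) (n : ℤ) : ∃ s : ℝ, 0 < s ∧ ∀ l ∈ ball q s, MemLp (B.ps l) ∞ mu0 ∧
      MemLp (fun x => (e x) ^ n * B.ps l x) ∞ mu0 := by
  obtain ⟨M, hM0, hM⟩ := bound hb
  obtain ⟨C1, s, hC1, hs, -, h1, -⟩ := key B hM0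
  refine ⟨s, hs, fun l hl => ⟨?_, ?_⟩⟩
  · refine memLp_top_of_bound (aesm hb B l) C1 ?_
    filter_upwards [hM, ae_ne B l] with x hx hx'
    exact h1 l hl x hx hx'
  · refine memLp_top_of_bound (aesm_n hb B n l) C1 ?_
    filter_upwards [hM, ae_ne B l] with x hx hx'
    rw [norm_mul, norm_zpow, norm_e', one_zpow, one_mul]
    exact h1 l hl x hx hx'

namespace PsiAux

/-- Perturbation of an invertible element. -/
theorem unit_pert {A : Type*} [NormedRing A] [CompleteSpace A] {a b : A} (ha : IsUnit a) {ep : ℝ}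
    (hep : ep = 1 / (2 * (‖Ring.inverse a‖ + 1))) (hab : ‖b - a‖ ≤ ep) :
    IsUnit b ∧ ‖Ring.inverse b‖ ≤ 2 * ‖Ring.inverse a‖ := by
  set i := Ring.inverse a with hi
  have hi0 : 0 ≤ ‖i‖ := norm_nonneg _
  have h1 : i * a = 1 := Ring.inverse_mul_cancel a ha
  have h2 : a * i = 1 := Ring.mul_inverse_cancel a ha
  have hsm : ‖i * (b - a)‖ ≤ 1 / 2 := by
    refine (norm_mul_le _ _).trans ?_
    calc ‖i‖ * ‖b - a‖ ≤ ‖i‖ * ep := by gcongr
      _ = ‖i‖ / (‖i‖ + 1) * (1 / 2) := by rw [hep]; field_simp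
      _ ≤ 1 * (1 / 2) := by
          gcongr
          rw [div_le_one (by positivity)]
          linarith
      _ = 1 / 2 := one_mul _
  have hb : b = a * (1 - -(i * (b - a))) := by
    rw [sub_neg_eq_add, mul_add, mul_one, ← mul_assoc, h2, one_mul]
    abel
  have hub : IsUnit b := by
    rw [hb]
    refine ha.mul (isUnit_one_sub_of_norm_lt_one ?_)
    rw [norm_neg]
    linarith
  refine ⟨hub, ?_⟩
  set k := Ring.inverse b with hk
  have h3 : k * b = 1 := Ring.inverse_mul_cancel b hub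
  have h4 : b * k = 1 := Ring.mul_inverse_cancel b hub
  have h5 : k = i - i * (b - a) * k := by
    rw [mul_sub, sub_mul, mul_assoc, h4, mul_one, h1, one_mul]
    abel
  have h6 : ‖k‖ ≤ ‖i‖ + 1 / 2 * ‖k‖ := by
    calc ‖k‖ = ‖i - i * (b - a) * k‖ := by rw [← h5]
      _ ≤ ‖i‖ + ‖i * (b - a) * k‖ := norm_sub_le _ _
      _ ≤ ‖i‖ + ‖i * (b - a)‖ * ‖k‖ := by gcongr; exact norm_mul_le _ _
      _ ≤ _ := by gcongr
  linarith

end PsiAux

theorem exists_Th {phi : ℂ → ℂ} (hb : MemLp (fun x : UnitAddCircle => phi (e x)) ∞ mu0) {q : ℂ}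
    (B : Br phi q) {n : ℤ} (hu : IsUnit (TM (B.Th n q))) :
    ∃ C s : ℝ, 0 < C ∧ 0 < s ∧ s ≤ B.R ∧ ∀ l ∈ ball q s,
      MemLp (B.ps l) ∞ mu0 ∧ MemLp (fun x => (e x) ^ n * B.ps l x) ∞ mu0 ∧
      (∀ᵐ x ∂mu0, ‖B.ps l x‖ ≤ C) ∧ ‖B.Th n l‖ ≤ C ∧ IsUnit (B.Th n l) ∧
      ‖Ring.inverse (B.Th n l)‖ ≤ C ∧ IsUnit (TM (B.Th n l)) ∧
      ‖Ring.inverse (TM (B.Th n l))‖ ≤ C ∧
      mf (fun x => phi (e x)) - algebraMap ℂ Op2 l = B.Th n l * mul (fourier (-n) * B.pz l) := by
  obtain ⟨M, hM0, hM⟩ := bound hb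
  obtain ⟨C1, s1, hC1, hs1, hs1R, h1, h2⟩ := key B hM0
  set ep : ℝ := 1 / (2 * (‖Ring.inverse (TM (B.Th n q))‖ + 1)) with hep
  have hep0 : 0 < ep := by positivity
  obtain ⟨s, hs, hss1, h3⟩ := h2 ep hep0
  refine ⟨max C1 (2 * ‖Ring.inverse (TM (B.Th n q))‖), s, lt_max_of_lt_left hC1, hs,
    hss1.trans hs1R, fun l hl => ?_⟩
  have hl1 : l ∈ ball q s1 := ball_subset_ball hss1 hl
  have hq1 : q ∈ ball q s1 := mem_ball_self hs1
  have hbd : ∀ l' ∈ ball q s1, ∀ᵐ x ∂mu0, ‖B.ps l' x‖ ≤ C1 := by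
    intro l' hl'
    filter_upwards [hM, ae_ne B l'] with x hx hx'
    exact h1 l' hl' x hx hx'
  have hbn : ∀ l' ∈ ball q s1, ∀ᵐ x ∂mu0, ‖(e x) ^ n * B.ps l' x‖ ≤ C1 := by
    intro l' hl'
    filter_upwards [hbd l' hl'] with x hx
    rw [norm_mul, norm_zpow, norm_e', one_zpow, one_mul]
    exact hx
  have m1 : ∀ l' ∈ ball q s1, MemLp (B.ps l') ∞ mu0 := fun l' hl' =>
    memLp_top_of_bound (aesm hb B l') C1 (hbd l' hl')
  have m2 : ∀ l' ∈ ball q s1, MemLp (fun x => (e x) ^ n * B.ps l' x) ∞ mu0 := fun l' hl' =>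
    memLp_top_of_bound (aesm_n hb B n l') C1 (hbn l' hl')
  have hdiff : ‖TM (B.Th n l) - TM (B.Th n q)‖ ≤ ep := by
    rw [← TM_sub]
    refine (norm_TM_le _).trans ?_
    unfold Br.Th
    rw [← mf_sub (m2 l hl1) (m2 q hq1)]
    refine norm_mf_le hep0.le ?_
    filter_upwards [hM, ae_ne B l, ae_ne B q] with x hx hx' hx''
    rw [← mul_sub, norm_mul, norm_zpow, norm_e', one_zpow, one_mul]
    exact h3 l hl x hx hx' hx''
  obtain ⟨u1, u2⟩ := unit_pert hu hep hdiff
  have hCm : Cm (B.Th n l) := Cm.mf _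
  obtain ⟨u3, u4⟩ := isUnit_of_TM hCm u1
  refine ⟨m1 l hl1, m2 l hl1, (hbd l hl1).mono fun x hx => hx.trans (le_max_left _ _), ?_, u3,
    (u4.trans u2).trans (le_max_right _ _), u1, u2.trans (le_max_right _ _), ?_⟩
  · exact (norm_mf_le hC1.le (hbn l hl1)).trans (le_max_left _ _)
  · have m3 : MemLp (fun x => (fourier (-n) * B.pz l : CT) x) ∞ mu0 := memLp_ct _
    have m4 : MemLp (fun _ : UnitAddCircle => l) ∞ mu0 := memLp_const l
    unfold Br.Th
    rw [← mf_ct (fourier (-n) * B.pz l), ← mf_mul (m2 l hl1) m3, ← mf_const l, ← mf_sub hb m4]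
    refine mf_congr ?_
    filter_upwards [ae_ne B l] with x hx
    have hprod : ∏ j, (e x - B.g j l) ≠ 0 := by
      rw [Finset.prod_ne_zero_iff]
      exact fun j _ => sub_ne_zero.2 (hx j)
    have hpz : (B.pz l : CT) x = ∏ j, (e x - B.g j l) := by
      unfold Br.pz
      rw [ContinuousMap.prod_apply]
      refine Finset.prod_congr rfl fun j _ => ?_
      rw [ContinuousMap.sub_apply, four_e, zpow_one]
      rfl
    rw [ContinuousMap.mul_apply, hpz, four_e]
    unfold Br.ps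
    rw [zpow_neg]
    have he : (e x) ^ n ≠ 0 := zpow_ne_zero n (e_ne x)
    field_simp

end Pool.Agent.TBirC
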