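import Pool.Agent.TBirC.Bd

/-!
# The resolvent times a polynomial in the operator is bounded where the cutoff varies

As Pool/Agent/TBirM/ResN.lean; near the exceptional points the resolvent grows at most like a power of the distance
(`grow` of TBirR), which is compensated by a high power of `T - q`.
-/

set_option autoImplicit false

open MeasureTheory Complex Set Filter Topology Metric AddCircle
open scoped ComplexConjugate InnerProductSpace ENNReal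
open Pool.Lib (dbar)

namespace Pool.Agent.TBirC

open Pool.Agent.TBirE (isOpen_compl_Q)

open Pool.Agent.TBir Pool.Agent.TBirG
open Pool.Agent.TBirS (Sg)

/-- The set where the cutoff is not locally `0` or `1`. -/
def CutA.V {Ao : Op} {U1 U2 : Set ℂ} (K : CutA Ao U1 U2) : Set ℂ :=
  {l | dbar K.chi l ≠ 0 ∨ (K.chi l ≠ 0 ∧ K.chi l ≠ 1)}

/-- The operator `prod (T - q)^m`. -/
noncomputable def Nqp (Ao : Op) (Q : Finset ℂ) (m : ℕ) : Hardy →L[ℂ] Hardy :=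
  Polynomial.aeval Ao (∏ q ∈ Q, (Polynomial.X - Polynomial.C q) ^ m)

/-- The resolvent times `prod (T - q)^m` is bounded where the cutoff varies. -/
def CutA.Bd {Ao : Op} {U1 U2 : Set ℂ} (K : CutA Ao U1 U2) (m : ℕ) : Prop :=
  ∃ C : ℝ, ∀ l ∈ K.V, l ∉ K.Q → ‖resolvent Ao l * Nqp Ao K.Q m‖ ≤ C

private theorem res_mul {A : Hardy →L[ℂ] Hardy} {l : ℂ} (q : ℂ) (h : l ∈ resolventSet ℂ A) :
    resolvent A l * (A - algebraMap ℂ (Hardy →L[ℂ] Hardy) q) =
      (l - q) • resolvent A l - 1 := by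
  have hu : IsUnit (algebraMap ℂ (Hardy →L[ℂ] Hardy) l - A) := h
  have h1 : resolvent A l * (algebraMap ℂ (Hardy →L[ℂ] Hardy) l - A) = 1 :=
    Ring.inverse_mul_cancel _ hu
  have h2 : A - algebraMap ℂ (Hardy →L[ℂ] Hardy) q = (l - q) • (1 : Hardy →L[ℂ] Hardy) -
      (algebraMap ℂ (Hardy →L[ℂ] Hardy) l - A) := by
    rw [Algebra.algebraMap_eq_smul_one, Algebra.algebraMap_eq_smul_one, sub_smul]
    abel
  rw [h2, mul_sub, h1, mul_smul_comm, mul_one]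

private theorem res_pow (A : Hardy →L[ℂ] Hardy) (q : ℂ) (m : ℕ) : ∃ D : ℝ, ∀ l,
    l ∈ resolventSet ℂ A → ‖l - q‖ ≤ 1 →
      ‖resolvent A l * (A - algebraMap ℂ (Hardy →L[ℂ] Hardy) q) ^ m‖ ≤
        ‖l - q‖ ^ m * ‖resolvent A l‖ + D := by
  induction m with
  | zero =>
    refine ⟨0, fun l _ _ => ?_⟩
    rw [pow_zero, mul_one, pow_zero, one_mul, add_zero]
  | succ m ih =>
    obtain ⟨D, hD⟩ := ih
    refine ⟨|D| + ‖(A - algebraMap ℂ (Hardy →L[ℂ] Hardy) q) ^ m‖, fun l hl h1 => ?_⟩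
    have hc : (A - algebraMap ℂ (Hardy →L[ℂ] Hardy) q) ^ (m + 1) =
        (A - algebraMap ℂ (Hardy →L[ℂ] Hardy) q) * (A - algebraMap ℂ (Hardy →L[ℂ] Hardy) q) ^ m :=
      pow_succ' _ _
    rw [hc, ← mul_assoc, res_mul q hl, sub_mul, one_mul, smul_mul_assoc]
    refine (norm_sub_le _ _).trans ?_
    rw [norm_smul]
    have h2 := mul_le_mul_of_nonneg_left (hD l hl h1) (norm_nonneg (l - q))
    have h3 : ‖l - q‖ * D ≤ |D| := by
      calc ‖l - q‖ * D ≤ ‖l - q‖ * |D| :=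
            mul_le_mul_of_nonneg_left (le_abs_self D) (norm_nonneg _)
        _ ≤ 1 * |D| := mul_le_mul_of_nonneg_right h1 (abs_nonneg D)
        _ = |D| := one_mul _
    have h4 : ‖l - q‖ * (‖l - q‖ ^ m * ‖resolvent A l‖ + D) =
        ‖l - q‖ ^ (m + 1) * ‖resolvent A l‖ + ‖l - q‖ * D := by ring
    rw [h4] at h2
    linarith

private theorem bound_loc {Ao : Op} {U1 U2 : Set ℂ} (K : CutA Ao U1 U2) {q : ℂ}
    (hq : q ∈ K.Q) : ∀ m, K.p ≤ m →
    ∃ C : ℝ, ∀ᶠ l in 𝓝 q, l ≠ q → l ∈ K.V → l ∈ resolventSet ℂ Ao ∧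
      ‖resolvent Ao l * Nqp Ao K.Q m‖ ≤ C := by
  intro m hm
  obtain ⟨D, hD⟩ := res_pow Ao q m
  obtain ⟨p, hp⟩ : ∃ p : Polynomial ℂ, ∏ q ∈ K.Q, (Polynomial.X - Polynomial.C q) ^ m =
      (Polynomial.X - Polynomial.C q) ^ m * p :=
    ⟨_, (Finset.mul_prod_erase K.Q (fun q => (Polynomial.X - Polynomial.C q) ^ m) hq).symm⟩
  have hN : Nqp Ao K.Q m = (Ao - algebraMap ℂ (Hardy →L[ℂ] Hardy) q) ^ m *
      Polynomial.aeval Ao p := by
    unfold Nqp
    rw [hp, map_mul, map_pow, map_sub, Polynomial.aeval_X, Polynomial.aeval_C]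
  refine ⟨(K.c + D) * ‖Polynomial.aeval Ao p‖, ?_⟩
  have hs : 0 < min K.rho 1 := lt_min K.rho_pos one_pos
  filter_upwards [ball_mem_nhds q hs] with l hl hlq hV
  have hl3 : l ∈ ball q K.rho := ball_subset_ball (min_le_left _ _) hl
  have hl4 : ‖l - q‖ < 1 := (mem_ball_iff_norm.1 hl).trans_le (min_le_right _ _)
  obtain ⟨hR1, hR2⟩ := K.loc q hq l hl3 hlq hV
  refine ⟨rT hR1, ?_⟩
  rw [hN, ← mul_assoc]
  refine (norm_mul_le _ _).trans (mul_le_mul_of_nonneg_right ?_ (norm_nonneg _))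
  refine (hD l (rT hR1) hl4.le).trans (add_le_add ?_ le_rfl)
  refine le_trans (mul_le_mul_of_nonneg_right ?_ (norm_nonneg _)) hR2
  exact pow_le_pow_of_le_one (norm_nonneg _) hl4.le hm

theorem CutA.V_subset {Ao : Op} {U1 U2 : Set ℂ} (K : CutA Ao U1 U2) :
    K.V ⊆ tsupport K.chi := by
  rintro l (h | ⟨h, -⟩)
  · exact Pool.Lib.tsupport_dbar_subset _ (subset_tsupport _ h)
  · exact subset_tsupport _ h

theorem CutA.V_off {Ao : Op} {U1 U2 : Set ℂ} (K : CutA Ao U1 U2) {l : ℂ}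
    (hl : l ∈ spectrum ℂ Ao) (hQ : l ∉ K.Q) : ∀ᶠ l' in 𝓝 l, l' ∉ K.V := by
  have key : ∀ c : ℂ, (c = 0 ∨ c = 1) → (∀ᶠ l' in 𝓝 l, K.chi l' = c) →
      ∀ᶠ l' in 𝓝 l, l' ∉ K.V := by
    intro c hc01 hc
    filter_upwards [hc.eventually_nhds] with l' hl'
    have h1 : K.chi =ᶠ[𝓝 l'] fun _ => c := hl'
    rintro (h | ⟨h, h'⟩)
    · apply h
      rw [Pool.Lib.dbar_congr h1, Pool.Lib.dbar_eq_zero (differentiableAt_const _)]
    · rw [h1.self_of_nhds] at h h'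
      rcases hc01 with h2 | h2
      · exact h h2
      · exact h' h2
  rcases K.cov l hl hQ with h | h
  · exact key 1 (Or.inr rfl) (K.one l hl h hQ)
  · exact key 0 (Or.inl rfl) (K.zero l hl h hQ)

theorem bound_V {Ao : Op}
    {U1 U2 : Set ℂ} (K : CutA Ao U1 U2) :
    ∃ m : ℕ, K.Bd m := by
  obtain ⟨m, hm⟩ : ∃ m : ℕ, K.p ≤ m := ⟨K.p, le_rfl⟩
  refine ⟨m, ?_⟩
  have h : ∃ C : ℝ, ∀ l ∈ tsupport K.chi, l ∈ K.V → l ∉ K.Q →
      ‖resolvent Ao l * Nqp Ao K.Q m‖ ≤ C := by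
    refine K.cpt.isCompact.induction_on (p := fun S => ∃ C : ℝ, ∀ l ∈ S, l ∈ K.V → l ∉ K.Q →
      ‖resolvent Ao l * Nqp Ao K.Q m‖ ≤ C) ?_ ?_ ?_ ?_
    · exact ⟨0, fun l hl => absurd hl (notMem_empty l)⟩
    · rintro s t hst ⟨C, hC⟩
      exact ⟨C, fun l hl => hC l (hst hl)⟩
    · rintro s t ⟨C, hC⟩ ⟨C', hC'⟩
      refine ⟨max C C', fun l hl h1 h2 => ?_⟩
      rcases hl with hl | hl
      · exact (hC l hl h1 h2).trans (le_max_left _ _)
      · exact (hC' l hl h1 h2).trans (le_max_right _ _)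
    · intro x _
      by_cases hxQ : x ∈ K.Q
      · obtain ⟨C, hC⟩ := bound_loc K hxQ m hm
        refine ⟨_, mem_nhdsWithin_of_mem_nhds hC, C, fun l hl h1 h2 => ?_⟩
        exact (hl (fun h3 => h2 (h3 ▸ hxQ)) h1).2
      · by_cases hxS : x ∈ spectrum ℂ Ao
        · exact ⟨_, mem_nhdsWithin_of_mem_nhds (K.V_off hxS hxQ), 0, fun l hl h1 => absurd h1 hl⟩
        · have hr := rT hxS
          have hc : ContinuousAt (fun l => ‖resolvent Ao l * Nqp Ao K.Q m‖) x :=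
            (((spectrum.hasDerivAt_resolvent_const_left hr).continuousAt).mul
              continuousAt_const).norm
          have h1 := hc.eventually (gt_mem_nhds (lt_add_one _))
          exact ⟨_, mem_nhdsWithin_of_mem_nhds h1, _, fun l hl _ _ => le_of_lt hl⟩
  obtain ⟨C, hC⟩ := h
  exact ⟨C, fun l hl => hC l (K.V_subset hl) hl⟩

end Pool.Agent.TBirC
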