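import Pool.Agent.TBirC.Cnv

/-!
# The integral of `dbar (chi^2 - chi)` against a holomorphic function
-/

set_option autoImplicit false

open MeasureTheory Complex Set Filter Topology Metric AddCircle
open scoped ComplexConjugate InnerProductSpace ENNReal
open Pool.Lib (dbar)

namespace Pool.Agent.TBirC

open Pool.Agent.TBirE (isOpen_compl_Q)

open Pool.Agent.TBir
open Pool.Agent.TBirM (kap_zero_near dbar_mul int_dbar ae_notMem)
open Pool.Agent.TBirS (Sg isCompact_Sg isOpen_compl_Sg off_Sg comm_aeval res_mul_sq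
  norm_le_of_inner FF_le resolvent_apply)

theorem CutA.w_zero_Q {Ao : Op} {U1 U2 : Set ℂ} (K : CutA Ao U1 U2) (n : ℕ) {l : ℂ}
    (hl : l ∈ K.Q) : ∀ᶠ l' in 𝓝 l, K.w n l' = 0 := by
  filter_upwards [kap_zero_near hl n] with l' hl'
  unfold CutA.w
  rw [hl', zero_mul]

private noncomputable def vv {Ao : Op} {U1 U2 : Set ℂ} (K : CutA Ao U1 U2) (h : ℂ → ℂ) (n : ℕ)
    (l : ℂ) : ℂ := kap K.Q n l * ((K.chi l * K.chi l - K.chi l) * h l)

private theorem vv_zero {Ao : Op} {U1 U2 : Set ℂ} (K : CutA Ao U1 U2) (h : ℂ → ℂ) (n : ℕ)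
    {l : ℂ} (hl : l ∈ spectrum ℂ Ao ∨ l ∈ K.Q) : ∀ᶠ l' in 𝓝 l, vv K h n l' = 0 := by
  by_cases hq : l ∈ K.Q
  · filter_upwards [kap_zero_near hq n] with l' hl'
    unfold vv
    rw [hl', zero_mul]
  · have hS := hl.resolve_right hq
    filter_upwards [K.V_off hS hq] with l' hl'
    unfold CutA.V at hl'
    simp only [mem_ofPred_eq, not_or, not_and, not_not] at hl'
    unfold vv
    by_cases h0 : K.chi l' = 0
    · rw [h0]
      ring
    · rw [hl'.2 h0]
      ring

private theorem dk_zero {Ao : Op} {U1 U2 : Set ℂ} (K : CutA Ao U1 U2) (h : ℂ → ℂ) (n : ℕ)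
    {l : ℂ} (hl : l ∈ spectrum ℂ Ao ∨ l ∈ K.Q) :
    dbar (kap K.Q n) l * ((K.chi l * K.chi l - K.chi l) * h l) = 0 := by
  by_cases hq : l ∈ K.Q
  · have h1 : kap K.Q n =ᶠ[𝓝 l] fun _ => 0 := kap_zero_near hq n
    rw [Pool.Lib.dbar_congr h1, Pool.Lib.dbar_eq_zero (differentiableAt_const _), zero_mul]
  · have hS := hl.resolve_right hq
    have hl' := (K.V_off hS hq).self_of_nhds
    unfold CutA.V at hl'
    simp only [mem_ofPred_eq, not_or, not_and, not_not] at hl'
    by_cases h0 : K.chi l = 0
    · rw [h0]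
      ring
    · rw [hl'.2 h0]
      ring

theorem stokes {Ao : Op} {U1 U2 : Set ℂ}
    (K : CutA Ao U1 U2) {h : ℂ → ℂ} (hd : DifferentiableOn ℂ h (spectrum ℂ Ao)ᶜ) {C : ℝ}
    (hC : ∀ l ∈ K.V, l ∉ K.Q → ‖h l‖ ≤ C) :
    ∫ l, dbar K.chi l * ((2 * K.chi l - 1) * h l) = 0 := by
  have hSo := (spectrum.isClosed (𝕜 := ℂ) Ao).isOpen_compl
  have hQo := isOpen_compl_Q K
  have hha : ∀ l, l ∉ spectrum ℂ Ao → ContDiffAt ℝ 1 h l := by
    intro l hl
    exact ((hd.contDiffOn hSo).contDiffAt (hSo.mem_nhds hl) (n := 1)).restrict_scalars ℝ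
  have hca : ∀ l, l ∉ K.Q → ContDiffAt ℝ 1 K.chi l := fun l hl =>
    K.smooth.contDiffAt (hQo.mem_nhds (by simpa using hl))
  -- the function `v`
  have hv : ∀ n, ContDiff ℝ 1 (vv K h n) := by
    intro n
    rw [contDiff_iff_contDiffAt]
    intro l
    by_cases hl : l ∈ spectrum ℂ Ao ∨ l ∈ K.Q
    · exact contDiffAt_const.congr_of_eventuallyEq (vv_zero K h n hl)
    · rw [not_or] at hl
      exact (contDiff_kap K.Q n).contDiffAt.mul
        ((((hca l hl.2).mul (hca l hl.2)).sub (hca l hl.2)).mul (hha l hl.1))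
  have hvc : ∀ n, HasCompactSupport (vv K h n) := by
    intro n
    refine HasCompactSupport.mul_left (HasCompactSupport.mul_right ?_)
    have : (fun l => K.chi l * K.chi l - K.chi l) = fun l => K.chi l * (K.chi l - 1) := by
      funext l
      ring
    rw [this]
    exact K.cpt.mul_right
  have hvi := fun n => int_dbar (hv n) (hvc n)
  have hdv : ∀ n l, dbar (vv K h n) l = dbar (kap K.Q n) l * ((K.chi l * K.chi l - K.chi l) * h l) +
      K.w n l • ((2 * K.chi l - 1) * h l) := by
    intro n l
    by_cases hl : l ∈ spectrum ℂ Ao ∨ l ∈ K.Q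
    · have h1 : vv K h n =ᶠ[𝓝 l] fun _ => 0 := vv_zero K h n hl
      have h2 : K.w n l = 0 := by
        rcases hl with h3 | h3
        · exact (K.w_zero_near n h3).self_of_nhds
        · exact (K.w_zero_Q n h3).self_of_nhds
      rw [Pool.Lib.dbar_congr h1, Pool.Lib.dbar_eq_zero (differentiableAt_const _),
        dk_zero K h n hl, h2, zero_smul, add_zero]
    · rw [not_or] at hl
      have dk : DifferentiableAt ℝ (kap K.Q n) l :=
        (contDiff_kap K.Q n).contDiffAt.differentiableAt one_ne_zero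
      have dc : DifferentiableAt ℝ K.chi l := (hca l hl.2).differentiableAt one_ne_zero
      have dh : DifferentiableAt ℝ h l := (hha l hl.1).differentiableAt one_ne_zero
      have dh0 : dbar h l = 0 := Pool.Lib.dbar_eq_zero (hd.differentiableAt (hSo.mem_nhds hl.1))
      have e1 : dbar (fun l => K.chi l * K.chi l - K.chi l) l = (2 * K.chi l - 1) * dbar K.chi l := by
        have h3 : fderiv ℝ (fun l => K.chi l * K.chi l - K.chi l) l =
            (K.chi l • fderiv ℝ K.chi l + K.chi l • fderiv ℝ K.chi l) - fderiv ℝ K.chi l := by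
          have hcc : DifferentiableAt ℝ (fun y => K.chi y * K.chi y) l := dc.mul dc
          rw [fderiv_fun_sub hcc dc, fderiv_fun_mul dc dc]
        unfold dbar
        rw [h3]
        simp only [add_apply, smul_apply, sub_apply, smul_eq_mul]
        ring
      have e2 : dbar (fun l => (K.chi l * K.chi l - K.chi l) * h l) l =
          ((2 * K.chi l - 1) * dbar K.chi l) * h l := by
        rw [dbar_mul (a := fun l => K.chi l * K.chi l - K.chi l) (b := h) ((dc.mul dc).sub dc) dh,
          e1, dh0, mul_zero, add_zero]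
      have e3 := dbar_mul (a := kap K.Q n) (b := fun l => (K.chi l * K.chi l - K.chi l) * h l) dk
        (((dc.mul dc).sub dc).mul dh)
      change dbar (fun l => kap K.Q n l * ((K.chi l * K.chi l - K.chi l) * h l)) l = _
      rw [e3, e2, smul_eq_mul]
      unfold CutA.w
      ring
  -- continuity of the second term
  have hwc : ∀ n, Continuous fun l => K.w n l • ((2 * K.chi l - 1) * h l) := by
    intro n
    rw [continuous_iff_continuousAt]
    intro l
    by_cases hl : l ∈ spectrum ℂ Ao ∨ l ∈ K.Q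
    · have h2 : ∀ᶠ l' in 𝓝 l, K.w n l' = 0 := by
        rcases hl with h3 | h3
        · exact K.w_zero_near n h3
        · exact K.w_zero_Q n h3
      have h1 : (fun l => K.w n l • ((2 * K.chi l - 1) * h l)) =ᶠ[𝓝 l] fun _ => 0 := by
        filter_upwards [h2] with l' hl'
        rw [hl', zero_smul]
      exact continuousAt_const.congr h1.symm
    · rw [not_or] at hl
      exact (K.continuous_w n).continuousAt.smul
        (((continuousAt_const.mul (hca l hl.2).continuousAt).sub continuousAt_const).mul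
          (hha l hl.1).continuousAt)
  have hwI : ∀ n, Integrable fun l => K.w n l • ((2 * K.chi l - 1) * h l) := fun n =>
    (hwc n).integrable_of_hasCompactSupport (K.hasCompactSupport_w n).smul_right
  have hdI : ∀ n, Integrable (dbar (vv K h n)) := fun n =>
    (Pool.Lib.continuous_dbar (hv n)).integrable_of_hasCompactSupport
      ((hvc n).isCompact.of_isClosed_subset (isClosed_tsupport _)
        (Pool.Lib.tsupport_dbar_subset _))
  have heq : ∀ n, ∫ l, K.w n l • ((2 * K.chi l - 1) * h l) =
      -∫ l, dbar (kap K.Q n) l * ((K.chi l * K.chi l - K.chi l) * h l) := by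
    intro n
    have h1 : (fun l => dbar (kap K.Q n) l * ((K.chi l * K.chi l - K.chi l) * h l)) =
        fun l => dbar (vv K h n) l - K.w n l • ((2 * K.chi l - 1) * h l) := by
      funext l
      rw [hdv]
      ring
    rw [h1, integral_sub (hdI n) (hwI n), hvi n]
    ring
  -- the bound
  obtain ⟨Ck, hCk0, hCk⟩ := norm_dbar_kap_le K.Q
  have hbd : ∀ n : ℕ, ‖∫ l, dbar (kap K.Q n) l * ((K.chi l * K.chi l - K.chi l) * h l)‖ ≤
      K.Q.card * (Ck * ((n : ℝ) + 1) * (2 * |C|) * (Real.pi * (2 / ((n : ℝ) + 1)) ^ 2)) := by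
    intro n
    have hn : (0 : ℝ) < (n : ℝ) + 1 := by positivity
    have h1 : ∀ l, ‖dbar (kap K.Q n) l * ((K.chi l * K.chi l - K.chi l) * h l)‖ₑ ≤
        ∑ q ∈ K.Q, (closedBall q (2 / ((n : ℝ) + 1))).indicator
          (fun _ => ENNReal.ofReal (Ck * ((n : ℝ) + 1) * (2 * |C|))) l := by
      intro l
      by_cases h0 : dbar (kap K.Q n) l * ((K.chi l * K.chi l - K.chi l) * h l) = 0
      · rw [h0]
        simp
      · have hkn : dbar (kap K.Q n) l ≠ 0 := left_ne_zero_of_mul h0
        obtain ⟨q, hq, _, hq2⟩ := dbar_kap_ne hkn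
        have hmem : l ∈ closedBall q (2 / ((n : ℝ) + 1)) := by
          rw [mem_closedBall, dist_eq_norm]
          exact hq2
        have hlQ : l ∉ K.Q := fun h3 => h0 (dk_zero K h n (Or.inr h3))
        have hlV : l ∈ K.V := by
          right
          have h3 : K.chi l * K.chi l - K.chi l ≠ 0 :=
            left_ne_zero_of_mul (right_ne_zero_of_mul h0)
          constructor
          · intro h4
            rw [h4] at h3
            apply h3
            ring
          · intro h4
            rw [h4] at h3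
            apply h3
            ring
        refine le_trans ?_ (Finset.single_le_sum (f := fun q =>
          (closedBall q (2 / ((n : ℝ) + 1))).indicator
          (fun _ => ENNReal.ofReal (Ck * ((n : ℝ) + 1) * (2 * |C|))) l)
          (fun _ _ => zero_le) hq)
        rw [Set.indicator_of_mem hmem, ← ofReal_norm, norm_mul, norm_mul]
        apply ENNReal.ofReal_le_ofReal
        have hchi := K.norm_le l
        have h5 : ‖K.chi l * K.chi l - K.chi l‖ ≤ 2 := by
          refine (norm_sub_le _ _).trans ?_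
          rw [norm_mul]
          nlinarith [norm_nonneg (K.chi l)]
        have h6 : ‖h l‖ ≤ |C| := (hC l hlV hlQ).trans (le_abs_self _)
        exact mul_le_mul (hCk n l) (mul_le_mul h5 h6 (norm_nonneg _) (by norm_num))
          (by positivity) (by positivity)
    have h2 : ‖∫ l, dbar (kap K.Q n) l * ((K.chi l * K.chi l - K.chi l) * h l)‖ₑ ≤
        ENNReal.ofReal (K.Q.card * (Ck * ((n : ℝ) + 1) * (2 * |C|) *
          (Real.pi * (2 / ((n : ℝ) + 1)) ^ 2))) := by
      refine (enorm_integral_le_lintegral_enorm _).trans ((lintegral_mono h1).trans ?_)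
      rw [lintegral_finsetSum]
      · have h3 : ∀ q ∈ K.Q, ∫⁻ l, (closedBall q (2 / ((n : ℝ) + 1))).indicator
            (fun _ => ENNReal.ofReal (Ck * ((n : ℝ) + 1) * (2 * |C|))) l ≤
            ENNReal.ofReal (Ck * ((n : ℝ) + 1) * (2 * |C|) *
              (Real.pi * (2 / ((n : ℝ) + 1)) ^ 2)) := by
          intro q hq
          rw [lintegral_indicator measurableSet_closedBall, setLIntegral_const,
            Complex.volume_closedBall]
          rw [ENNReal.ofReal_mul (p := Ck * ((n : ℝ) + 1) * (2 * |C|)) (by positivity)]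
          apply le_of_eq
          congr 1
          rw [ENNReal.ofReal_mul Real.pi_pos.le, mul_comm, ENNReal.ofReal_pow (by positivity)]
          congr 1
          rw [← NNReal.coe_real_pi, ENNReal.ofReal_coe_nnreal]
        refine (Finset.sum_le_card_nsmul _ _ _ h3).trans ?_
        rw [ENNReal.ofReal_mul (Nat.cast_nonneg _), ENNReal.ofReal_natCast, nsmul_eq_mul]
      · intro q _
        exact measurable_const.indicator measurableSet_closedBall
    rw [← ofReal_norm, ENNReal.ofReal_le_ofReal_iff (by positivity)] at h2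
    exact h2
  have hz : Tendsto (fun n : ℕ => ∫ l, K.w n l • ((2 * K.chi l - 1) * h l)) atTop (𝓝 0) := by
    rw [tendsto_zero_iff_norm_tendsto_zero]
    have hlim : Tendsto (fun n : ℕ => (K.Q.card * (Ck * (2 * |C|) * (Real.pi * 4))) *
        (1 / ((n : ℝ) + 1))) atTop (𝓝 0) := by
      have := (tendsto_one_div_add_atTop_nhds_zero_nat (𝕜 := ℝ)).const_mul
        (K.Q.card * (Ck * (2 * |C|) * (Real.pi * 4)))
      rwa [mul_zero] at this
    refine squeeze_zero (fun n => norm_nonneg _) (fun n => ?_) hlim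
    rw [heq, norm_neg]
    refine (hbd n).trans (le_of_eq ?_)
    have hn : ((n : ℝ) + 1) ≠ 0 := by positivity
    field_simp
    ring
  have hcv := conv K (F := fun _ l => (2 * K.chi l - 1) * h l) (G := fun l => (2 * K.chi l - 1) * h l)
    (C := 3 * |C|) (fun n l hl hlQ => ?_) (fun l _ => tendsto_const_nhds)
    (fun n => (hwc n).aestronglyMeasurable)
  · exact tendsto_nhds_unique hcv.2 hz
  · rw [norm_mul]
    have h7 : ‖2 * K.chi l - 1‖ ≤ 3 := by
      refine (norm_sub_le _ _).trans ?_
      rw [norm_mul, norm_one]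
      have h2 : ‖(2 : ℂ)‖ = 2 := by simp
      rw [h2]
      linarith [K.norm_le l]
    exact mul_le_mul h7 ((hC l hl hlQ).trans (le_abs_self _)) (norm_nonneg _) (by norm_num)

end Pool.Agent.TBirC
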