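import Pool.Agent.TBirC.Tg

/-!
# The gap between two tangent branches

Paper proof. Fibres, `t`, `s`, `l_i`, `l_j` as in TBirE/Ord (the head comment). Let `l ∈ W = Tri q u eta rho`, `0 < E i l`,
`E j l < 0`. On the fibre of `l`: `s_i < s < s_j`. `E i l` is between `kap (s - s_i)` and `K (s - s_i)`, `- E j l` between
`kap (s_j - s)` and `K (s_j - s)`, so `E i l - E j l` is between `kap (s_j - s_i)` and `K (s_j - s_i)`, and
`s_j - s_i` is between `- E j l_i / K` and `- E j l_i / kap`, `- E j l_i` is between `c ‖l_i - q‖^p` and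
`C ‖l_i - q‖^p`, `‖l - q‖` and `‖l_i - q‖` are between `t` and `2 t`: first claim.
Third branch `m`, `l ∈ D`. If `Tie m i`: `l_m = l_i`, `E m l` is between `kap (s - s_i)` and `K (s - s_i)`, comparable to
`E i l`, which is comparable to `E i l - E j l` on `D`: `p' = p`. If `Below m i`, with exponent `p1`: `E m l_i` is between
`c1 ‖‖^p1` and `C1 ‖‖^p1`, and `E m l - E m l_i` between `kap (s - s_i)` and `K (s - s_i)`, comparable to `‖l - q‖^p` (on `D`):
`p' = min p p1` (`‖l - q‖ ≤ 2 rho ≤ 1`; assume `2 rho ≤ 1`). The other two cases are symmetric (`l_j` instead of `l_i`).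
-/

set_option autoImplicit false

open MeasureTheory Complex Set Filter Topology Metric AddCircle
open scoped ComplexConjugate InnerProductSpace ENNReal

namespace Pool.Agent.TBirC

open Pool.Agent.TBirE

open Pool.Agent.TBir Pool.Agent.TBirG
open Pool.Agent.TBirM (Tri)

/-! ### coordinates -/

private lemma str_mem {q u l : ℂ} {eta rho : ℝ} : l ∈ Tri q u eta rho ↔
    |((l - q) * conj u).im| < eta * ((l - q) * conj u).re ∧ ((l - q) * conj u).re < rho := Iff.rfl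

private lemma str_uu {u : ℂ} (hu : ‖u‖ = 1) : u * conj u = 1 := by
  rw [Complex.mul_conj, Complex.normSq_eq_norm_sq, hu]
  norm_num

private lemma str_move {q u l : ℂ} (hu : ‖u‖ = 1) (σ : ℝ) :
    (l + (σ : ℂ) * (I * u) - q) * conj u = (l - q) * conj u + (σ : ℂ) * I := by
  have h := str_uu hu
  calc (l + (σ : ℂ) * (I * u) - q) * conj u = (l - q) * conj u + (σ : ℂ) * I * (u * conj u) := by ring
    _ = _ := by rw [h, mul_one]

private lemma str_re {q u l : ℂ} (hu : ‖u‖ = 1) (σ : ℝ) :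
    ((l + (σ : ℂ) * (I * u) - q) * conj u).re = ((l - q) * conj u).re := by
  rw [str_move hu, Complex.add_re]
  simp

private lemma str_im {q u l : ℂ} (hu : ‖u‖ = 1) (σ : ℝ) :
    ((l + (σ : ℂ) * (I * u) - q) * conj u).im = ((l - q) * conj u).im + σ := by
  rw [str_move hu, Complex.add_im]
  simp

private lemma str_move_mem {q u l : ℂ} {eta rho : ℝ} (hu : ‖u‖ = 1) (hl : l ∈ Tri q u eta rho) {σ : ℝ}
    (h : |((l - q) * conj u).im + σ| < eta * ((l - q) * conj u).re) :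
    l + (σ : ℂ) * (I * u) ∈ Tri q u eta rho := by
  rw [str_mem, str_re hu, str_im hu]
  exact ⟨h, (str_mem.1 hl).2⟩

private lemma str_pos {q u l : ℂ} {eta rho : ℝ} (heta : 0 < eta) (hl : l ∈ Tri q u eta rho) :
    0 < ((l - q) * conj u).re := by
  have h1 := (str_mem.1 hl).1
  have h2 : 0 < eta * ((l - q) * conj u).re := lt_of_le_of_lt (abs_nonneg _) h1
  exact (mul_pos_iff_of_pos_left heta).1 h2

private lemma str_norm {q u l : ℂ} {eta rho : ℝ} (hu : ‖u‖ = 1) (heta : 0 < eta) (heta1 : eta ≤ 1)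
    (hl : l ∈ Tri q u eta rho) : ((l - q) * conj u).re ≤ ‖l - q‖ ∧ ‖l - q‖ ≤ 2 * ((l - q) * conj u).re := by
  have h0 : ‖l - q‖ = ‖(l - q) * conj u‖ := by
    rw [norm_mul, Complex.norm_conj, hu, mul_one]
  have hp := str_pos heta hl
  have h1 := (str_mem.1 hl).1
  rw [h0]
  constructor
  · exact (le_abs_self _).trans (Complex.abs_re_le_norm _)
  · have h2 := Complex.norm_le_abs_re_add_abs_im ((l - q) * conj u)
    rw [abs_of_pos hp] at h2
    have h3 : eta * ((l - q) * conj u).re ≤ 1 * ((l - q) * conj u).re :=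
      mul_le_mul_of_nonneg_right heta1 hp.le
    linarith

/-! ### the fibres -/

private lemma str_slope {phi : ℂ → ℂ} {q : ℂ} (B : Br phi q) {u : ℂ} (hu : ‖u‖ = 1)
    {eta rho kap K : ℝ} (h : B.TG u eta rho kap K) {m : Fin B.k} (hm : (B.a m * u).re = 0)
    {l : ℂ} (hl : l ∈ Tri q u eta rho) {σ : ℝ} (hσ : 0 ≤ σ)
    (hl' : l + (σ : ℂ) * (I * u) ∈ Tri q u eta rho) :
    kap * σ ≤ B.E u m (l + (σ : ℂ) * (I * u)) - B.E u m l ∧
      B.E u m (l + (σ : ℂ) * (I * u)) - B.E u m l ≤ K * σ := by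
  obtain ⟨heta, heta1, hrho, hkap, hK, -, hT⟩ := h
  rcases hσ.eq_or_lt with h0 | hσ
  · rw [← h0]
    simp
  set f : ℝ → ℝ := fun τ => B.E u m (l + (τ : ℂ) * (I * u)) with hf
  have hmem : ∀ τ ∈ Icc 0 σ, l + (τ : ℂ) * (I * u) ∈ Tri q u eta rho := by
    intro τ hτ
    apply str_move_mem hu hl
    have h1 := (str_mem.1 hl).1
    have h2 := (str_mem.1 hl').1
    rw [str_re hu, str_im hu] at h2
    rw [abs_lt] at h1 h2 ⊢
    obtain ⟨h3, h4⟩ := hτ
    constructor <;> linarith [h1.1, h1.2, h2.1, h2.2]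
  have hder : ∀ τ ∈ Icc 0 σ, HasDerivAt f (fderiv ℝ (B.E u m) (l + (τ : ℂ) * (I * u)) (I * u)) τ := by
    intro τ hτ
    have h1 := hT m hm _ (hmem τ hτ)
    have h2 : DifferentiableAt ℝ (B.E u m) (l + (τ : ℂ) * (I * u)) := by
      by_contra hcon
      have h3 := h1.1
      rw [fderiv_zero_of_not_differentiableAt hcon] at h3
      simp only [zero_apply] at h3
      linarith
    have h4 : HasDerivAt (fun τ : ℝ => l + (τ : ℂ) * (I * u)) (I * u) τ := by
      have h5 : HasDerivAt (fun τ : ℝ => (τ : ℂ)) 1 τ := Complex.ofRealCLM.hasDerivAt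
      have h6 := (h5.mul_const (I * u)).const_add l
      simpa using h6
    exact h2.hasFDerivAt.comp_hasDerivAt τ h4
  obtain ⟨c, hc, hc1⟩ := exists_hasDerivAt_eq_slope f
    (fun τ => fderiv ℝ (B.E u m) (l + (τ : ℂ) * (I * u)) (I * u)) hσ
    (fun τ hτ => (hder τ hτ).continuousAt.continuousWithinAt)
    (fun τ hτ => hder τ (Ioo_subset_Icc_self hτ))
  have h1 := hT m hm _ (hmem c (Ioo_subset_Icc_self hc))
  have hIu : ‖I * u‖ = 1 := by rw [norm_mul, Complex.norm_I, hu, one_mul]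
  have h2 : fderiv ℝ (B.E u m) (l + (c : ℂ) * (I * u)) (I * u) ≤ K := by
    have h3 := (fderiv ℝ (B.E u m) (l + (c : ℂ) * (I * u))).le_opNorm (I * u)
    rw [hIu, mul_one] at h3
    exact (le_abs_self _).trans (h3.trans h1.2.1)
  have h3 := h1.1
  rw [hc1, sub_zero] at h2 h3
  have e0 : f 0 = B.E u m l := by simp [hf]
  have e1 : f σ = B.E u m (l + (σ : ℂ) * (I * u)) := rfl
  rw [e0, e1] at h2 h3
  rw [le_div_iff₀ hσ] at h3
  rw [div_le_iff₀ hσ] at h2
  exact ⟨h3, h2⟩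

private lemma str_zero {phi : ℂ → ℂ} {q : ℂ} (B : Br phi q) {u : ℂ} (hu : ‖u‖ = 1)
    {eta rho kap K : ℝ} (h : B.TG u eta rho kap K) {j : Fin B.k} (hj : (B.a j * u).re = 0)
    {l : ℂ} (hl : l ∈ Tri q u eta rho) :
    ∃ σ : ℝ, l + (σ : ℂ) * (I * u) ∈ Tri q u eta rho ∧ B.E u j (l + (σ : ℂ) * (I * u)) = 0 := by
  have hTG := h
  obtain ⟨heta, heta1, hrho, hkap, hK, -, hT⟩ := h
  set t := ((l - q) * conj u).re with ht
  set s := ((l - q) * conj u).im with hs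
  have htpos : 0 < t := str_pos heta hl
  have het : 0 < eta * t := mul_pos heta htpos
  have hmem : ∀ τ ∈ Icc (-(eta / 2 * t) - s) (eta / 2 * t - s), l + (τ : ℂ) * (I * u) ∈ Tri q u eta rho := by
    intro τ hτ
    apply str_move_mem hu hl
    rw [← hs, ← ht, abs_lt]
    obtain ⟨h3, h4⟩ := hτ
    constructor <;> linarith
  have hle : -(eta / 2 * t) - s ≤ eta / 2 * t - s := by linarith
  have hcont : ContinuousOn (fun τ : ℝ => B.E u j (l + (τ : ℂ) * (I * u)))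
      (Icc (-(eta / 2 * t) - s) (eta / 2 * t - s)) := by
    intro τ hτ
    have h1 := hT j hj _ (hmem τ hτ)
    have h2 : DifferentiableAt ℝ (B.E u j) (l + (τ : ℂ) * (I * u)) := by
      by_contra hcon
      have h3 := h1.1
      rw [fderiv_zero_of_not_differentiableAt hcon] at h3
      simp only [zero_apply] at h3
      linarith
    have h3 : ContinuousAt (fun τ : ℝ => l + (τ : ℂ) * (I * u)) τ := by
      fun_prop
    exact (ContinuousAt.comp (f := fun τ : ℝ => l + (τ : ℂ) * (I * u)) h2.continuousAt h3).continuousWithinAt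
  have h0 : (0 : ℝ) ∈ Icc (B.E u j (l + ((-(eta / 2 * t) - s : ℝ) : ℂ) * (I * u)))
      (B.E u j (l + ((eta / 2 * t - s : ℝ) : ℂ) * (I * u))) := by
    have h1 := hT j hj _ (hmem _ (left_mem_Icc.2 hle))
    have h2 := hT j hj _ (hmem _ (right_mem_Icc.2 hle))
    constructor
    · apply le_of_lt
      apply h1.2.2.2.2.2.2
      rw [str_re hu, str_im hu, ← hs, ← ht]
      linarith
    · apply le_of_lt
      apply h2.2.2.2.2.2.1
      rw [str_re hu, str_im hu, ← hs, ← ht]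
      linarith
  obtain ⟨τ, hτ, hτ1⟩ := intermediate_value_Icc hle hcont h0
  exact ⟨τ, hmem τ hτ, hτ1⟩

/-- norms on a fibre are comparable -/
private lemma str_cmp {q u l : ℂ} {eta rho : ℝ} (hu : ‖u‖ = 1) (heta : 0 < eta) (heta1 : eta ≤ 1)
    (hl : l ∈ Tri q u eta rho) {σ : ℝ} (hl' : l + (σ : ℂ) * (I * u) ∈ Tri q u eta rho) :
    ‖l - q‖ / 2 ≤ ‖l + (σ : ℂ) * (I * u) - q‖ ∧ ‖l + (σ : ℂ) * (I * u) - q‖ ≤ 2 * ‖l - q‖ := by
  have h1 := str_norm hu heta heta1 hl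
  have h2 := str_norm hu heta heta1 hl'
  rw [str_re hu] at h2
  constructor <;> linarith [h1.1, h1.2, h2.1, h2.2]

private lemma str_pow {r z c C : ℝ} {p : ℕ} {v : ℝ} (hr : 0 ≤ r) (hc : 0 < c) (hC : 0 < C)
    (h1 : r / 2 ≤ z) (h2 : z ≤ 2 * r) (h3 : c * z ^ p ≤ v) (h4 : v ≤ C * z ^ p) :
    c / 2 ^ p * r ^ p ≤ v ∧ v ≤ C * 2 ^ p * r ^ p := by
  constructor
  · refine le_trans ?_ h3
    have h5 : (r / 2) ^ p ≤ z ^ p := pow_le_pow_left₀ (by linarith) h1 p
    have h6 : c / 2 ^ p * r ^ p = c * (r / 2) ^ p := by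
      rw [div_pow]
      ring
    rw [h6]
    gcongr
  · refine h4.trans ?_
    have h5 : z ^ p ≤ (2 * r) ^ p := pow_le_pow_left₀ (by linarith) h2 p
    have h6 : C * 2 ^ p * r ^ p = C * (2 * r) ^ p := by
      rw [mul_pow]
      ring
    rw [h6]
    gcongr

private lemma str_abs {phi : ℂ → ℂ} {q : ℂ} (B : Br phi q) (u : ℂ) (m : Fin B.k) (l : ℂ) :
    |(B.L m l).re| = |B.E u m l| := by
  unfold Br.E
  split_ifs with h
  · rfl
  · rw [abs_neg]

/-- sums of two powers -/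
private lemma str_sum {r c1 C1 c2 C2 x y : ℝ} {p1 p2 : ℕ} (hr : 0 ≤ r) (hr1 : r ≤ 1) (hc1 : 0 < c1)
    (hC1 : 0 < C1) (hc2 : 0 < c2) (hC2 : 0 < C2) (hx1 : c1 * r ^ p1 ≤ x) (hx2 : x ≤ C1 * r ^ p1)
    (hy1 : c2 * r ^ p2 ≤ y) (hy2 : y ≤ C2 * r ^ p2) :
    min c1 c2 * r ^ min p1 p2 ≤ x + y ∧ x + y ≤ (C1 + C2) * r ^ min p1 p2 := by
  have hr1' : 0 ≤ r ^ p1 := pow_nonneg hr _
  have hr2' : 0 ≤ r ^ p2 := pow_nonneg hr _
  have hrm : 0 ≤ r ^ min p1 p2 := pow_nonneg hr _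
  have e1 : r ^ p1 ≤ r ^ min p1 p2 := pow_le_pow_of_le_one hr hr1 (min_le_left _ _)
  have e2 : r ^ p2 ≤ r ^ min p1 p2 := pow_le_pow_of_le_one hr hr1 (min_le_right _ _)
  constructor
  · rcases le_total p1 p2 with hp | hp
    · rw [min_eq_left hp]
      have h1 : min c1 c2 * r ^ p1 ≤ c1 * r ^ p1 := mul_le_mul_of_nonneg_right (min_le_left _ _) hr1'
      have h2 : 0 ≤ c2 * r ^ p2 := mul_nonneg hc2.le hr2'
      linarith
    · rw [min_eq_right hp]
      have h1 : min c1 c2 * r ^ p2 ≤ c2 * r ^ p2 := mul_le_mul_of_nonneg_right (min_le_right _ _) hr2'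
      have h2 : 0 ≤ c1 * r ^ p1 := mul_nonneg hc1.le hr1'
      linarith
  · have h1 : C1 * r ^ p1 ≤ C1 * r ^ min p1 p2 := mul_le_mul_of_nonneg_left e1 hC1.le
    have h2 : C2 * r ^ p2 ≤ C2 * r ^ min p1 p2 := mul_le_mul_of_nonneg_left e2 hC2.le
    linarith

theorem Br.strip {phi : ℂ → ℂ} {q : ℂ} (B : Br phi q)
    {u : ℂ} (hu : ‖u‖ = 1) {eta rho kap K : ℝ} (h : B.TG u eta rho kap K) (hrho : 2 * rho ≤ 1)
    {i j : Fin B.k} (hi : (B.a i * u).re = 0) (hj : (B.a j * u).re = 0)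
    (hB : B.Below u (Tri q u eta rho) i j) : ∃ (p : ℕ) (c C : ℝ), 2 ≤ p ∧ 0 < c ∧ 0 < C ∧
      (∀ l ∈ Tri q u eta rho, 0 < B.E u i l → B.E u j l < 0 →
        c * ‖l - q‖ ^ p ≤ B.E u i l - B.E u j l ∧ B.E u i l - B.E u j l ≤ C * ‖l - q‖ ^ p) ∧
      ∀ m, (B.a m * u).re = 0 → (B.Tie u (Tri q u eta rho) m i ∨
          B.Below u (Tri q u eta rho) m i ∨ B.Tie u (Tri q u eta rho) j m ∨
          B.Below u (Tri q u eta rho) j m) →
        ∃ (p' : ℕ) (c' C' : ℝ), 2 ≤ p' ∧ 0 < c' ∧ 0 < C' ∧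
          ∀ l ∈ B.D u (Tri q u eta rho) i j,
            c' * ‖l - q‖ ^ p' ≤ |(B.L m l).re| ∧ |(B.L m l).re| ≤ C' * ‖l - q‖ ^ p' := by
  obtain ⟨heta, heta1, hrho0, hkap, hK, -, -⟩ := id h
  obtain ⟨-, p, c, C, hp, hc, hC, hB1, hB2⟩ := hB
  set W := Tri q u eta rho with hW
  -- the constants of the first claim
  set c0 : ℝ := kap * (c / 2 ^ p) / K with hc0
  set C0 : ℝ := K * (C * 2 ^ p) / kap with hC0
  have hc0p : 0 < c0 := by positivity
  have hC0p : 0 < C0 := by positivity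
  have hr1 : ∀ l ∈ W, ‖l - q‖ ≤ 1 := by
    intro l hl
    have h1 := (str_norm hu heta heta1 hl).2
    have h2 := (str_mem.1 hl).2
    linarith
  -- positions on a fibre
  have hpos : ∀ l ∈ W, ∀ m, (B.a m * u).re = 0 → ∀ σ : ℝ, l + (σ : ℂ) * (I * u) ∈ W →
      0 < B.E u m l - B.E u m (l + (σ : ℂ) * (I * u)) → σ < 0 := by
    intro l hl m hm σ hσ h1
    by_contra hcon
    push Not at hcon
    have h2 := (str_slope B hu h hm hl hcon hσ).1
    have h3 : 0 ≤ kap * σ := mul_nonneg hkap.le hcon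
    linarith
  have hpos' : ∀ l ∈ W, ∀ m, (B.a m * u).re = 0 → ∀ σ : ℝ, l + (σ : ℂ) * (I * u) ∈ W →
      B.E u m l - B.E u m (l + (σ : ℂ) * (I * u)) < 0 → 0 < σ := by
    intro l hl m hm σ hσ h1
    by_contra hcon
    push Not at hcon
    have e0 : l + (σ : ℂ) * (I * u) + ((-σ : ℝ) : ℂ) * (I * u) = l := by
      push_cast
      ring
    have h2 := (str_slope B hu h hm hσ (σ := -σ) (by linarith) (by rw [e0]; exact hl)).1
    rw [e0] at h2
    have h3 : 0 ≤ kap * -σ := mul_nonneg hkap.le (by linarith)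
    linarith
  -- slopes in both directions
  have hdown : ∀ l ∈ W, ∀ m, (B.a m * u).re = 0 → ∀ σ : ℝ, l + (σ : ℂ) * (I * u) ∈ W → σ ≤ 0 →
      kap * -σ ≤ B.E u m l - B.E u m (l + (σ : ℂ) * (I * u)) ∧
        B.E u m l - B.E u m (l + (σ : ℂ) * (I * u)) ≤ K * -σ := by
    intro l hl m hm σ hσ h1
    have e0 : l + (σ : ℂ) * (I * u) + ((-σ : ℝ) : ℂ) * (I * u) = l := by
      push_cast
      ring
    have h2 := str_slope B hu h hm hσ (σ := -σ) (by linarith) (by rw [e0]; exact hl)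
    rw [e0] at h2
    exact h2
  -- first claim
  have hfirst : ∀ l ∈ W, 0 < B.E u i l → B.E u j l < 0 →
      c0 * ‖l - q‖ ^ p ≤ B.E u i l - B.E u j l ∧ B.E u i l - B.E u j l ≤ C0 * ‖l - q‖ ^ p := by
    intro l hl h1 h2
    obtain ⟨σi, hσi, hσi0⟩ := str_zero B hu h hi hl
    obtain ⟨σj, hσj, hσj0⟩ := str_zero B hu h hj hl
    have hi' := hpos l hl i hi σi hσi (by rw [hσi0]; linarith)
    have hj' := hpos' l hl j hj σj hσj (by rw [hσj0]; linarith)
    have h3 := hdown l hl i hi σi hσi hi'.le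
    have h4 := str_slope B hu h hj hl hj'.le hσj
    rw [hσi0] at h3
    rw [hσj0] at h4
    -- from `l_i` to `l_j`
    have e0 : l + (σi : ℂ) * (I * u) + ((σj - σi : ℝ) : ℂ) * (I * u) = l + (σj : ℂ) * (I * u) := by
      push_cast
      ring
    have h5 := str_slope B hu h hj hσi (σ := σj - σi) (by linarith) (by rw [e0]; exact hσj)
    rw [e0, hσj0] at h5
    have h6 := hB1 _ hσi hσi0
    have h7 := str_cmp hu heta heta1 hl hσi
    have h8 := str_pow (norm_nonneg (l - q)) hc hC h7.1 h7.2 h6.1 h6.2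
    set r := ‖l - q‖ with hr
    constructor
    · have h9 : c / 2 ^ p * r ^ p ≤ K * (σj - σi) := by linarith [h8.1, h5.2]
      have h10 : c0 * r ^ p = kap * (c / 2 ^ p * r ^ p) / K := by
        rw [hc0]
        ring
      rw [h10, div_le_iff₀ hK]
      have h11 : kap * (c / 2 ^ p * r ^ p) ≤ kap * (K * (σj - σi)) :=
        mul_le_mul_of_nonneg_left h9 hkap.le
      have h12 : kap * (σj - σi) ≤ B.E u i l - B.E u j l := by linarith [h3.1, h4.1]
      have h13 : kap * (σj - σi) * K ≤ (B.E u i l - B.E u j l) * K :=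
        mul_le_mul_of_nonneg_right h12 hK.le
      linarith
    · have h9 : kap * (σj - σi) ≤ C * 2 ^ p * r ^ p := by linarith [h8.2, h5.1]
      have h10 : C0 * r ^ p = K * (C * 2 ^ p * r ^ p) / kap := by
        rw [hC0]
        ring
      rw [h10, le_div_iff₀ hkap]
      have h11 : K * (kap * (σj - σi)) ≤ K * (C * 2 ^ p * r ^ p) :=
        mul_le_mul_of_nonneg_left h9 hK.le
      have h12 : B.E u i l - B.E u j l ≤ K * (σj - σi) := by linarith [h3.2, h4.2]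
      have h13 : (B.E u i l - B.E u j l) * kap ≤ K * (σj - σi) * kap :=
        mul_le_mul_of_nonneg_right h12 hkap.le
      linarith
  refine ⟨p, c0, C0, hp, hc0p, hC0p, hfirst, ?_⟩
  intro m hm hcase
  set α : ℝ := kap * c0 / (4 * K) with hα
  set β : ℝ := K * C0 / kap with hβ
  have hαp : 0 < α := by positivity
  have hβp : 0 < β := by positivity
  -- transfer: the move from the zero of `i` (of `j`) to `l`
  have htr : ∀ g σ r : ℝ, 0 ≤ r → kap * σ ≤ g → g ≤ K * σ → c0 * r ^ p ≤ 4 * g → g ≤ C0 * r ^ p →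
      ∀ v : ℝ, kap * σ ≤ v → v ≤ K * σ → α * r ^ p ≤ v ∧ v ≤ β * r ^ p := by
    intro g σ r hr0 hg1 hg2 hg3 hg4 v hv1 hv2
    constructor
    · have h1 : α * r ^ p = kap * (c0 * r ^ p) / (4 * K) := by
        rw [hα]
        ring
      rw [h1, div_le_iff₀ (by positivity)]
      have h2 : c0 * r ^ p ≤ 4 * (K * σ) := by linarith
      have h3 : kap * (c0 * r ^ p) ≤ kap * (4 * (K * σ)) := mul_le_mul_of_nonneg_left h2 hkap.le
      have h4 : kap * σ * (4 * K) ≤ v * (4 * K) := mul_le_mul_of_nonneg_right hv1 (by positivity)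
      linarith
    · have h1 : β * r ^ p = K * (C0 * r ^ p) / kap := by
        rw [hβ]
        ring
      rw [h1, le_div_iff₀ hkap]
      have h2 : kap * σ ≤ C0 * r ^ p := by linarith
      have h3 : K * (kap * σ) ≤ K * (C0 * r ^ p) := mul_le_mul_of_nonneg_left h2 hK.le
      have h4 : v * kap ≤ K * σ * kap := mul_le_mul_of_nonneg_right hv2 hkap.le
      linarith
  -- the zero of `i` below `l`
  have hlow : ∀ l ∈ B.D u W i j, ∃ σ : ℝ, l + (σ : ℂ) * (I * u) ∈ W ∧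
      B.E u i (l + (σ : ℂ) * (I * u)) = 0 ∧
      α * ‖l - q‖ ^ p ≤ B.E u m l - B.E u m (l + (σ : ℂ) * (I * u)) ∧
      B.E u m l - B.E u m (l + (σ : ℂ) * (I * u)) ≤ β * ‖l - q‖ ^ p := by
    rintro l ⟨hl, h1, h2, h3, h4⟩
    obtain ⟨σ, hσ, hσ0⟩ := str_zero B hu h hi hl
    have hneg := hpos l hl i hi σ hσ (by rw [hσ0]; linarith)
    have h5 := hdown l hl i hi σ hσ hneg.le
    have h6 := hdown l hl m hm σ hσ hneg.le
    rw [hσ0, sub_zero] at h5
    have h7 := hfirst l hl h1 h2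
    have h8 := htr (B.E u i l) (-σ) ‖l - q‖ (norm_nonneg _) h5.1 h5.2 (by linarith) (by linarith) _
      h6.1 h6.2
    exact ⟨σ, hσ, hσ0, h8.1, h8.2⟩
  -- the zero of `j` above `l`
  have hupp : ∀ l ∈ B.D u W i j, ∃ σ : ℝ, l + (σ : ℂ) * (I * u) ∈ W ∧
      B.E u j (l + (σ : ℂ) * (I * u)) = 0 ∧
      α * ‖l - q‖ ^ p ≤ B.E u m (l + (σ : ℂ) * (I * u)) - B.E u m l ∧
      B.E u m (l + (σ : ℂ) * (I * u)) - B.E u m l ≤ β * ‖l - q‖ ^ p := by
    rintro l ⟨hl, h1, h2, h3, h4⟩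
    obtain ⟨σ, hσ, hσ0⟩ := str_zero B hu h hj hl
    have hneg := hpos' l hl j hj σ hσ (by rw [hσ0]; linarith)
    have h5 := str_slope B hu h hj hl hneg.le hσ
    have h6 := str_slope B hu h hm hl hneg.le hσ
    rw [hσ0, zero_sub] at h5
    have h7 := hfirst l hl h1 h2
    have h8 := htr (-B.E u j l) σ ‖l - q‖ (norm_nonneg _) h5.1 h5.2 (by linarith) (by linarith) _
      h6.1 h6.2
    exact ⟨σ, hσ, hσ0, h8.1, h8.2⟩
  have hDW : ∀ l ∈ B.D u W i j, l ∈ W := fun l hl => hl.1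
  rcases hcase with hT | hT | hT | hT
  · -- Tie m i
    refine ⟨p, α, β, hp, hαp, hβp, fun l hl => ?_⟩
    obtain ⟨σ, hσ, hσ0, h1, h2⟩ := hlow l hl
    have h3 : B.E u m (l + (σ : ℂ) * (I * u)) = 0 := (hT _ hσ).1.2 hσ0
    rw [h3, sub_zero] at h1 h2
    rw [str_abs B u m l, abs_of_nonneg (le_trans (by positivity) h1)]
    exact ⟨h1, h2⟩
  · -- Below m i
    obtain ⟨-, p1, c1, C1, hp1, hc1, hC1, -, hb⟩ := hT
    refine ⟨min p1 p, min (c1 / 2 ^ p1) α, C1 * 2 ^ p1 + β, le_min hp1 hp, by positivity,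
      by positivity, fun l hl => ?_⟩
    obtain ⟨σ, hσ, hσ0, h1, h2⟩ := hlow l hl
    have h3 := hb _ hσ hσ0
    have h4 := str_cmp hu heta heta1 (hDW l hl) hσ
    have h5 := str_pow (norm_nonneg (l - q)) hc1 hC1 h4.1 h4.2 h3.1 h3.2
    have h6 := str_sum (norm_nonneg (l - q)) (hr1 l (hDW l hl)) (by positivity) (by positivity) hαp hβp
      h5.1 h5.2 h1 h2
    rw [add_sub_cancel] at h6
    rw [str_abs B u m l, abs_of_nonneg (le_trans (by positivity) h6.1)]
    exact h6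
  · -- Tie j m
    refine ⟨p, α, β, hp, hαp, hβp, fun l hl => ?_⟩
    obtain ⟨σ, hσ, hσ0, h1, h2⟩ := hupp l hl
    have h3 : B.E u m (l + (σ : ℂ) * (I * u)) = 0 := (hT _ hσ).1.1 hσ0
    rw [h3, zero_sub] at h1 h2
    have h4 : 0 ≤ -B.E u m l := le_trans (by positivity) h1
    rw [str_abs B u m l, abs_of_nonpos (by linarith)]
    exact ⟨h1, h2⟩
  · -- Below j m
    obtain ⟨-, p1, c1, C1, hp1, hc1, hC1, hb, -⟩ := hT
    refine ⟨min p1 p, min (c1 / 2 ^ p1) α, C1 * 2 ^ p1 + β, le_min hp1 hp, by positivity,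
      by positivity, fun l hl => ?_⟩
    obtain ⟨σ, hσ, hσ0, h1, h2⟩ := hupp l hl
    have h3 := hb _ hσ hσ0
    have h4 := str_cmp hu heta heta1 (hDW l hl) hσ
    have h5 := str_pow (norm_nonneg (l - q)) hc1 hC1 h4.1 h4.2 h3.1 h3.2
    have h6 := str_sum (norm_nonneg (l - q)) (hr1 l (hDW l hl)) (by positivity) (by positivity) hαp hβp
      h5.1 h5.2 h1 h2
    have e0 : -B.E u m (l + (σ : ℂ) * (I * u)) + (B.E u m (l + (σ : ℂ) * (I * u)) - B.E u m l) =
        -B.E u m l := by ring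
    rw [e0] at h6
    have h7 : 0 ≤ -B.E u m l := le_trans (by positivity) h6.1
    rw [str_abs B u m l, abs_of_nonpos (by linarith)]
    exact h6

end Pool.Agent.TBirC
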